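import Pool.Agent.H259.ND.Stmt

open MeasureTheory Set Filter Topology

namespace Pool.Agent.H259.ND

namespace A10aL

theorem cs1 (u w : ℝ → ℝ) (s e : ℝ) (hse : s ≤ e) (hu : Continuous u) (hw : Continuous w)
    (hw0 : ∀ r, 0 < w r) :
    (∫ r in s..e, u r) ^ 2 ≤ (∫ r in s..e, w r) * ∫ r in s..e, u r ^ 2 / w r := by
  rcases hse.eq_or_lt with h | h
  · subst h
    simp
  · have hW : 0 < ∫ r in s..e, w r :=
      intervalIntegral.intervalIntegral_pos_of_pos (hw.intervalIntegrable _ _) hw0 h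
    set W := ∫ r in s..e, w r with hWdef
    set U := ∫ r in s..e, u r with hUdef
    have hc : Continuous fun r => u r ^ 2 / w r :=
      (hu.pow 2).div hw (fun r => (hw0 r).ne')
    have h1 : ∫ r in s..e, (2 * (U / W) * u r - (U / W) ^ 2 * w r) ≤ ∫ r in s..e, u r ^ 2 / w r := by
      apply intervalIntegral.integral_mono_on hse
      · exact ((continuous_const.mul hu).sub (continuous_const.mul hw)).intervalIntegrable _ _
      · exact hc.intervalIntegrable _ _
      · intro r _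
        rw [le_div_iff₀ (hw0 r)]
        nlinarith [sq_nonneg (u r - (U / W) * w r)]
    have i1 : IntervalIntegrable (fun r => 2 * (U / W) * u r) volume s e :=
      (continuous_const.mul hu).intervalIntegrable _ _
    have i2 : IntervalIntegrable (fun r => (U / W) ^ 2 * w r) volume s e :=
      (continuous_const.mul hw).intervalIntegrable _ _
    rw [intervalIntegral.integral_sub i1 i2, intervalIntegral.integral_const_mul,
      intervalIntegral.integral_const_mul, ← hWdef, ← hUdef] at h1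
    have h2 : 2 * (U / W) * U - (U / W) ^ 2 * W = U ^ 2 / W := by
      field_simp
      ring
    rw [h2, div_le_iff₀ hW] at h1
    linarith

theorem step (𝒦 : Finset Z3) (G : Z3 → ℝ → ℝ → ℂ) (b w : ℝ → ℝ) (s e : ℝ) (hse : s ≤ e)
    (hG : ∀ k ∈ 𝒦, Continuous fun z : ℝ × ℝ => G k z.1 z.2)
    (hb0 : ∀ r, 0 ≤ b r) (hw : Continuous w) (hw0 : ∀ r, 0 < w r) (hbw : ∀ r, b r ≤ w r)
    (h : ∀ r ∈ Icc s e, ∫ τ in s..e, ∑ k ∈ 𝒦, ‖G k r τ‖ ^ 2 ≤ b r ^ 2) :
    ∫ τ in s..e, ∑ k ∈ 𝒦, ‖∫ r in s..τ, G k r τ‖ ^ 2 ≤ (∫ r in s..e, w r) ^ 2 := by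
  set W := ∫ r in s..e, w r with hWdef
  have hW0 : 0 ≤ W := intervalIntegral.integral_nonneg hse (fun r _ => (hw0 r).le)
  -- continuity facts
  have hG1 : ∀ k ∈ 𝒦, ∀ τ : ℝ, Continuous fun r => G k r τ := fun k hk τ =>
    (hG k hk).comp (Continuous.prodMk_left τ)
  have hGs : Continuous fun z : ℝ × ℝ => ∑ k ∈ 𝒦, ‖G k z.1 z.2‖ ^ 2 :=
    continuous_finsetSum _ (fun k hk => ((hG k hk).norm).pow 2)
  have hGn : Continuous fun z : ℝ × ℝ => (∑ k ∈ 𝒦, ‖G k z.1 z.2‖ ^ 2) / w z.1 :=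
    hGs.div (hw.comp continuous_fst) (fun z => (hw0 z.1).ne')
  -- pointwise bound in τ
  have hp : ∀ τ ∈ Icc s e, ∑ k ∈ 𝒦, ‖∫ r in s..τ, G k r τ‖ ^ 2 ≤
      W * ∫ r in s..e, (∑ k ∈ 𝒦, ‖G k r τ‖ ^ 2) / w r := by
    intro τ hτ
    have e1 : ∫ r in s..e, (∑ k ∈ 𝒦, ‖G k r τ‖ ^ 2) / w r =
        ∑ k ∈ 𝒦, ∫ r in s..e, ‖G k r τ‖ ^ 2 / w r := by
      rw [← intervalIntegral.integral_finsetSum]
      · congr 1
        ext r
        rw [Finset.sum_div]
      · intro k hk
        exact ((((hG1 k hk τ).norm).pow 2).div hw (fun r => (hw0 r).ne')).intervalIntegrable _ _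
    rw [e1, Finset.mul_sum]
    apply Finset.sum_le_sum
    intro k hk
    have e2 : ‖∫ r in s..τ, G k r τ‖ ≤ ∫ r in s..e, ‖G k r τ‖ := by
      calc ‖∫ r in s..τ, G k r τ‖ ≤ ∫ r in s..τ, ‖G k r τ‖ :=
            intervalIntegral.norm_integral_le_integral_norm hτ.1
        _ ≤ ∫ r in s..e, ‖G k r τ‖ := by
            apply intervalIntegral.integral_mono_interval le_rfl hτ.1 hτ.2
            · exact Eventually.of_forall (fun r => norm_nonneg _)
            · exact ((hG1 k hk τ).norm).intervalIntegrable _ _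
    calc ‖∫ r in s..τ, G k r τ‖ ^ 2 ≤ (∫ r in s..e, ‖G k r τ‖) ^ 2 :=
          pow_le_pow_left₀ (norm_nonneg _) e2 2
      _ ≤ W * ∫ r in s..e, ‖G k r τ‖ ^ 2 / w r := cs1 _ _ _ _ hse (hG1 k hk τ).norm hw hw0
  -- integrate
  have hcR : Continuous fun τ : ℝ => ∫ r in s..e, (∑ k ∈ 𝒦, ‖G k r τ‖ ^ 2) / w r := by
    apply intervalIntegral.continuous_parametric_intervalIntegral_of_continuous'
    exact hGn.comp continuous_swap
  have hcL : Continuous fun τ : ℝ => ∑ k ∈ 𝒦, ‖∫ r in s..τ, G k r τ‖ ^ 2 := by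
    apply continuous_finsetSum
    intro k hk
    refine (Continuous.norm ?_).pow 2
    exact intervalIntegral.continuous_parametric_intervalIntegral_of_continuous
      (f := fun τ r => G k r τ) ((hG k hk).comp continuous_swap) continuous_id
  have h1 : ∫ τ in s..e, ∑ k ∈ 𝒦, ‖∫ r in s..τ, G k r τ‖ ^ 2 ≤
      ∫ τ in s..e, W * ∫ r in s..e, (∑ k ∈ 𝒦, ‖G k r τ‖ ^ 2) / w r :=
    intervalIntegral.integral_mono_on hse (hcL.intervalIntegrable _ _)
      ((continuous_const.mul hcR).intervalIntegrable _ _) hp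
  rw [intervalIntegral.integral_const_mul] at h1
  have h2 : ∫ τ in s..e, ∫ r in s..e, (∑ k ∈ 𝒦, ‖G k r τ‖ ^ 2) / w r =
      ∫ r in s..e, ∫ τ in s..e, (∑ k ∈ 𝒦, ‖G k r τ‖ ^ 2) / w r := by
    apply intervalIntegral_intervalIntegral_swap
    have : IntegrableOn (Function.uncurry fun τ r => (∑ k ∈ 𝒦, ‖G k r τ‖ ^ 2) / w r)
        (Icc s e ×ˢ Icc s e) := by
      apply ContinuousOn.integrableOn_compact (isCompact_Icc.prod isCompact_Icc)
      exact (hGn.comp continuous_swap).continuousOn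
    refine this.mono_set ?_
    rw [uIoc_of_le hse]
    exact Set.prod_mono Ioc_subset_Icc_self Ioc_subset_Icc_self
  rw [h2] at h1
  have h3 : ∫ r in s..e, ∫ τ in s..e, (∑ k ∈ 𝒦, ‖G k r τ‖ ^ 2) / w r ≤ W := by
    rw [hWdef]
    apply intervalIntegral.integral_mono_on hse
    · have : Continuous fun r : ℝ => ∫ τ in s..e, (∑ k ∈ 𝒦, ‖G k r τ‖ ^ 2) / w r := by
        apply intervalIntegral.continuous_parametric_intervalIntegral_of_continuous'
        exact hGn
      exact this.intervalIntegrable _ _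
    · exact hw.intervalIntegrable _ _
    · intro r hr
      rw [intervalIntegral.integral_div, div_le_iff₀ (hw0 r)]
      calc ∫ τ in s..e, ∑ k ∈ 𝒦, ‖G k r τ‖ ^ 2 ≤ b r ^ 2 := h r hr
        _ ≤ w r * w r := by
            rw [pow_two]
            exact mul_le_mul (hbw r) (hbw r) (hb0 r) (hw0 r).le
  calc _ ≤ _ := h1
    _ ≤ W * W := mul_le_mul_of_nonneg_left h3 hW0
    _ = W ^ 2 := by ring

end A10aL

theorem leaf_A10a : S_A10a := by
  intro 𝒦 G b s e hse hG hb hb0 h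
  have key : ∀ ε : ℝ, 0 < ε → ∫ τ in s..e, ∑ k ∈ 𝒦, ‖∫ r in s..τ, G k r τ‖ ^ 2 ≤
      ((∫ r in s..e, b r) + ε * (e - s)) ^ 2 := by
    intro ε hε
    have h1 := A10aL.step 𝒦 G b (fun r => b r + ε) s e hse hG hb0 (hb.add continuous_const)
      (fun r => by have := hb0 r; positivity) (fun r => by linarith) h
    rw [intervalIntegral.integral_add (hb.intervalIntegrable _ _)
      (continuous_const.intervalIntegrable _ _), intervalIntegral.integral_const] at h1
    rw [smul_eq_mul, mul_comm (e - s) ε] at h1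
    exact h1
  have hlim : Tendsto (fun ε : ℝ => ((∫ r in s..e, b r) + ε * (e - s)) ^ 2) (𝓝[>] 0)
      (𝓝 ((∫ r in s..e, b r) ^ 2)) := by
    have hc : Continuous fun ε : ℝ => ((∫ r in s..e, b r) + ε * (e - s)) ^ 2 := by fun_prop
    have := hc.tendsto 0
    rw [zero_mul, add_zero] at this
    exact this.mono_left nhdsWithin_le_nhds
  exact ge_of_tendsto hlim (eventually_nhdsWithin_of_forall (fun ε hε => key ε hε))

end Pool.Agent.H259.ND
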