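import Pool.Agent.H259.ND.Stmt

open MeasureTheory Set Finset

namespace Pool.Agent.H259.ND

namespace A10bL

lemma ex_cont : Continuous ex := by unfold ex; fun_prop

lemma norm_ex (x : ℝ) : ‖ex x‖ = 1 := by unfold ex; exact Complex.norm_exp_ofReal_mul_I x

lemma ex_mul (x y : ℝ) : ex x * ex y = ex (x + y) := by
  unfold ex; rw [← Complex.exp_add]; push_cast; ring_nf

lemma ex_zero : ex 0 = 1 := by simp [ex]

lemma two_bound {T α β : ℝ} (hα : 0 ≤ α) (hβ : 0 ≤ β)
    (h : ∀ x : ℝ, 0 < x → T ≤ (1 + x) * α ^ 2 + (1 + 1 / x) * β ^ 2) : T ≤ (α + β) ^ 2 := by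
  have key : ∀ ε : ℝ, 0 < ε → T ≤ (α + β + 2 * ε) ^ 2 := by
    intro ε hε
    have ha : 0 < α + ε := by linarith
    have hb : 0 < β + ε := by linarith
    have h1 := h ((β + ε) / (α + ε)) (div_pos hb ha)
    have e1 : (1 + (β + ε) / (α + ε)) * (α + ε) ^ 2
        + (1 + 1 / ((β + ε) / (α + ε))) * (β + ε) ^ 2 = (α + β + 2 * ε) ^ 2 := by
      field_simp; ring
    rw [← e1]
    refine h1.trans (add_le_add ?_ ?_)
    · exact mul_le_mul_of_nonneg_left (by nlinarith) (by positivity)
    · exact mul_le_mul_of_nonneg_left (by nlinarith) (by positivity)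
  have hl : Filter.Tendsto (fun ε : ℝ => (α + β + 2 * ε) ^ 2) (nhdsWithin 0 (Ioi 0))
      (nhds ((α + β) ^ 2)) := by
    have h2 : Filter.Tendsto (fun ε : ℝ => (α + β + 2 * ε) ^ 2) (nhds 0)
        (nhds ((α + β + 2 * 0) ^ 2)) := by
      apply Continuous.tendsto (f := fun ε : ℝ => (α + β + 2 * ε) ^ 2); fun_prop
    simpa using h2.mono_left nhdsWithin_le_nhds
  exact ge_of_tendsto hl (Filter.eventually_of_mem self_mem_nhdsWithin key)

lemma norm_add_sq_le (a b : ℂ) (x : ℝ) (hx : 0 < x) :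
    ‖a + b‖ ^ 2 ≤ (1 + x) * ‖a‖ ^ 2 + (1 + 1 / x) * ‖b‖ ^ 2 := by
  have h1 : ‖a + b‖ ^ 2 ≤ (‖a‖ + ‖b‖) ^ 2 := by
    exact pow_le_pow_left₀ (norm_nonneg _) (norm_add_le a b) 2
  have h2 : 2 * ‖a‖ * ‖b‖ ≤ x * ‖a‖ ^ 2 + 1 / x * ‖b‖ ^ 2 := by
    have h3 : 0 ≤ (1 / x) * (x * ‖a‖ - ‖b‖) ^ 2 := by positivity
    have h4 : (1 / x) * (x * ‖a‖ - ‖b‖) ^ 2
        = x * ‖a‖ ^ 2 - 2 * ‖a‖ * ‖b‖ + 1 / x * ‖b‖ ^ 2 := by
      field_simp; ring
    linarith
  nlinarith

/-- the clamp to the interval -/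
noncomputable def cl (s e : ℝ) (t : ℝ) : ℝ := max s (min e t)

lemma cl_cont (s e : ℝ) : Continuous (cl s e) := by unfold cl; fun_prop

lemma cl_mem {s e : ℝ} (h : s ≤ e) (t : ℝ) : cl s e t ∈ Icc s e := by
  unfold cl
  exact ⟨le_max_left _ _, max_le h (min_le_left _ _)⟩

lemma cl_eq {s e : ℝ} {t : ℝ} (h : t ∈ Icc s e) : cl s e t = t := by
  unfold cl
  rw [min_eq_right h.2, max_eq_right h.1]

/-- variation of constants -/
lemma duhamel (φ : ℝ) (y h : ℝ → ℂ) (s e : ℝ)
    (hd : ∀ t ∈ Icc s e, HasDerivWithinAt y (-Complex.I * φ * y t + h t) (Icc s e) t)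
    (hh : ContinuousOn h (Icc s e)) (t : ℝ) (ht : t ∈ Icc s e) :
    y t = ex (-φ * t) * (ex (φ * s) * y s + ∫ r in s..t, ex (φ * r) * h r) := by
  have hsub : Icc s t ⊆ Icc s e := Icc_subset_Icc_right ht.2
  have hyc : ContinuousOn y (Icc s e) := fun r hr => (hd r hr).continuousWithinAt
  have hexd : ∀ r : ℝ, HasDerivAt (fun r : ℝ => ex (φ * r)) (Complex.I * φ * ex (φ * r)) r := by
    intro r
    unfold ex
    have h1 : HasDerivAt (fun r : ℝ => ((φ * r : ℝ) : ℂ) * Complex.I) (φ * Complex.I) r := by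
      have h2 : HasDerivAt (fun r : ℝ => φ * r) (φ * 1) r := (hasDerivAt_id r).const_mul φ
      have h3 := h2.ofReal_comp
      have h4 := h3.mul_const Complex.I
      simpa using h4
    have h5 := h1.cexp
    convert h5 using 1
    ring
  have key : ∫ r in s..t, ex (φ * r) * h r = ex (φ * t) * y t - ex (φ * s) * y s := by
    apply intervalIntegral.integral_eq_sub_of_hasDerivAt_of_le ht.1
      (f := fun r => ex (φ * r) * y r)
    · apply ContinuousOn.mul
      · exact (ex_cont.comp (by fun_prop)).continuousOn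
      · exact hyc.mono hsub
    · intro r hr
      have hr' : r ∈ Icc s e := ⟨hr.1.le, hr.2.le.trans ht.2⟩
      have h1 : HasDerivAt y (-Complex.I * φ * y r + h r) r :=
        (hd r hr').hasDerivAt (Icc_mem_nhds hr.1 (hr.2.trans_le ht.2))
      have h2 := (hexd r).mul h1
      refine h2.congr_deriv ?_
      ring
    · apply ContinuousOn.intervalIntegrable_of_Icc ht.1
      apply ContinuousOn.mul
      · exact (ex_cont.comp (by fun_prop)).continuousOn
      · exact hh.mono hsub
  rw [key]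
  have e1 : ex (-φ * t) * ex (φ * t) = 1 := by
    rw [ex_mul]
    rw [show -φ * t + φ * t = 0 by ring, ex_zero]
  rw [add_sub_cancel, ← mul_assoc, e1, one_mul]

end A10bL

open A10bL in
theorem leaf_A10b (h : S_A10a) : S_A10b := by
  intro φ 𝒦 P c y f s e K hse hK hc hlin hd hf
  -- extended data
  set cc : Z3 → Z3 → ℝ → ℂ := fun k p t => c k p (cl s e t) with hcc
  set ff : Z3 → ℝ → ℂ := fun p t => f (cl s e t) p with hff
  have hccc : ∀ k ∈ 𝒦, ∀ p ∈ P, Continuous (cc k p) := fun k hk p hp =>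
    (hc k hk p hp).comp_continuous (cl_cont s e) (fun t => cl_mem hse t)
  have hffc : ∀ p ∈ P, Continuous (ff p) := fun p hp =>
    (hf p hp).comp_continuous (cl_cont s e) (fun t => cl_mem hse t)
  set v : Z3 → ℂ := fun p => ex (φ p * s) * y s p with hv
  set w : ℝ → Z3 → ℂ := fun r p => ex (φ p * r) * ff p r with hw
  have hwc : ∀ p ∈ P, Continuous (fun r => w r p) := fun p hp =>
    (ex_cont.comp (by fun_prop)).mul (hffc p hp)
  set A : Z3 → ℝ → ℂ := fun k t => ∑ p ∈ P, cc k p t * (v p * ex (-φ p * t)) with hA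
  set G : Z3 → ℝ → ℝ → ℂ := fun k r t => ∑ p ∈ P, cc k p t * (w r p * ex (-φ p * t)) with hG
  have hAc : ∀ k ∈ 𝒦, Continuous (A k) := by
    intro k hk
    apply continuous_finsetSum
    intro p hp
    exact (hccc k hk p hp).mul (continuous_const.mul (ex_cont.comp (by fun_prop)))
  have hGc : ∀ k ∈ 𝒦, Continuous fun z : ℝ × ℝ => G k z.1 z.2 := by
    intro k hk
    apply continuous_finsetSum
    intro p hp
    exact ((hccc k hk p hp).comp continuous_snd).mul
      (((hwc p hp).comp continuous_fst).mul (ex_cont.comp (by fun_prop)))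
  set b : ℝ → ℝ := fun r => K * √(∑ p ∈ P, ‖ff p r‖ ^ 2) with hb
  have hbc : Continuous b := by
    apply continuous_const.mul
    apply Continuous.sqrt
    apply continuous_finsetSum
    intro p hp
    exact (hffc p hp).norm.pow 2
  have hb0 : ∀ r, 0 ≤ b r := fun r => mul_nonneg hK (Real.sqrt_nonneg _)
  -- the linear estimate for the extended data
  have hlin' : ∀ u : Z3 → ℂ,
      ∫ t in s..e, ∑ k ∈ 𝒦, ‖∑ p ∈ P, cc k p t * (u p * ex (-φ p * t))‖ ^ 2
        ≤ K ^ 2 * ∑ p ∈ P, ‖u p‖ ^ 2 := by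
    intro u
    have h1 : ∫ t in s..e, ∑ k ∈ 𝒦, ‖∑ p ∈ P, cc k p t * (u p * ex (-φ p * t))‖ ^ 2
        = ∫ t in s..e, ∑ k ∈ 𝒦, ‖∑ p ∈ P, c k p t * (u p * ex (-φ p * t))‖ ^ 2 := by
      apply intervalIntegral.integral_congr
      intro t ht
      rw [uIcc_of_le hse] at ht
      simp only [hcc, cl_eq ht]
    rw [h1]
    exact hlin u
  have hGb : ∀ r ∈ Icc s e, ∫ τ in s..e, ∑ k ∈ 𝒦, ‖G k r τ‖ ^ 2 ≤ b r ^ 2 := by
    intro r _
    have h1 := hlin' (w r)
    have h2 : b r ^ 2 = K ^ 2 * ∑ p ∈ P, ‖w r p‖ ^ 2 := by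
      simp only [hb, mul_pow]
      rw [Real.sq_sqrt (Finset.sum_nonneg fun p _ => by positivity)]
      congr 1
      apply Finset.sum_congr rfl
      intro p _
      simp only [hw, norm_mul, norm_ex, one_mul]
    rw [h2]
    exact h1
  have hmink := h 𝒦 G b s e hse hGc hbc hb0 hGb
  -- the formula for the sum
  have hform : ∀ k ∈ 𝒦, ∀ t ∈ Icc s e, ∑ p ∈ P, c k p t * y t p
      = A k t + ∫ r in s..t, G k r t := by
    intro k hk t ht
    have h1 : ∫ r in s..t, G k r t
        = ∑ p ∈ P, cc k p t * ((∫ r in s..t, w r p) * ex (-φ p * t)) := by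
      simp only [hG]
      rw [intervalIntegral.integral_finsetSum]
      · apply Finset.sum_congr rfl
        intro p hp
        rw [intervalIntegral.integral_const_mul, intervalIntegral.integral_mul_const]
      · intro p hp
        apply Continuous.intervalIntegrable
        exact continuous_const.mul ((hwc p hp).mul continuous_const)
    rw [h1]
    simp only [hA]
    rw [← Finset.sum_add_distrib]
    apply Finset.sum_congr rfl
    intro p hp
    have h2 := duhamel (φ p) (fun t => y t p) (fun t => f t p) s e (hd p hp) (hf p hp) t ht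
    have h3 : ∫ r in s..t, w r p = ∫ r in s..t, ex (φ p * r) * f r p := by
      apply intervalIntegral.integral_congr
      intro r hr
      rw [uIcc_of_le ht.1] at hr
      have hr' : r ∈ Icc s e := ⟨hr.1, hr.2.trans ht.2⟩
      simp only [hw, hff, cl_eq hr']
    rw [h3]
    rw [h2]
    simp only [hcc, cl_eq ht, hv]
    ring
  have hIc : ∀ k ∈ 𝒦, Continuous fun t => ∫ r in s..t, G k r t := by
    intro k hk
    apply intervalIntegral.continuous_parametric_intervalIntegral_of_continuous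
      (f := fun t r => G k r t)
    · exact (hGc k hk).comp (continuous_snd.prodMk continuous_fst)
    · exact continuous_id
  -- the value of the constants
  have hN : ∫ r in s..e, b r = K * ∫ t in s..e, nrm P (f t) := by
    simp only [hb]
    rw [intervalIntegral.integral_const_mul]
    congr 1
    apply intervalIntegral.integral_congr
    intro t ht
    rw [uIcc_of_le hse] at ht
    simp only [hff, nrm, cl_eq ht]
  have hvn : ∑ p ∈ P, ‖v p‖ ^ 2 = nrm P (y s) ^ 2 := by
    unfold nrm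
    rw [Real.sq_sqrt (Finset.sum_nonneg fun p _ => by positivity)]
    apply Finset.sum_congr rfl
    intro p _
    simp only [hv, norm_mul, norm_ex, one_mul]
  have hn0 : 0 ≤ nrm P (y s) := Real.sqrt_nonneg _
  have hI0 : 0 ≤ ∫ t in s..e, nrm P (f t) :=
    intervalIntegral.integral_nonneg hse fun t _ => Real.sqrt_nonneg _
  have hAest := hlin' v
  rw [hvn] at hAest
  rw [hN] at hmink
  have hcongr : ∫ t in s..e, ∑ k ∈ 𝒦, ‖∑ p ∈ P, c k p t * y t p‖ ^ 2
      = ∫ t in s..e, ∑ k ∈ 𝒦, ‖A k t + ∫ r in s..t, G k r t‖ ^ 2 := by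
    apply intervalIntegral.integral_congr
    intro t ht
    rw [uIcc_of_le hse] at ht
    apply Finset.sum_congr rfl
    intro k hk
    rw [hform k hk t ht]
  rw [hcongr]
  have hfin : ∫ t in s..e, ∑ k ∈ 𝒦, ‖A k t + ∫ r in s..t, G k r t‖ ^ 2
      ≤ (K * nrm P (y s) + K * ∫ t in s..e, nrm P (f t)) ^ 2 := by
    apply two_bound (mul_nonneg hK hn0) (mul_nonneg hK hI0)
    intro x hx
    have c1 : Continuous fun t => ∑ k ∈ 𝒦, ‖A k t‖ ^ 2 :=
      continuous_finsetSum _ fun k hk => (hAc k hk).norm.pow 2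
    have c2 : Continuous fun t => ∑ k ∈ 𝒦, ‖∫ r in s..t, G k r t‖ ^ 2 :=
      continuous_finsetSum _ fun k hk => (hIc k hk).norm.pow 2
    have c3 : Continuous fun t => ∑ k ∈ 𝒦, ‖A k t + ∫ r in s..t, G k r t‖ ^ 2 :=
      continuous_finsetSum _ fun k hk => ((hAc k hk).add (hIc k hk)).norm.pow 2
    calc ∫ t in s..e, ∑ k ∈ 𝒦, ‖A k t + ∫ r in s..t, G k r t‖ ^ 2
        ≤ ∫ t in s..e, ((1 + x) * ∑ k ∈ 𝒦, ‖A k t‖ ^ 2
            + (1 + 1 / x) * ∑ k ∈ 𝒦, ‖∫ r in s..t, G k r t‖ ^ 2) := by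
          apply intervalIntegral.integral_mono_on hse
          · exact c3.intervalIntegrable _ _
          · exact ((continuous_const.mul c1).add (continuous_const.mul c2)).intervalIntegrable _ _
          · intro t _
            rw [Finset.mul_sum, Finset.mul_sum, ← Finset.sum_add_distrib]
            apply Finset.sum_le_sum
            intro k _
            exact norm_add_sq_le _ _ x hx
      _ = (1 + x) * (∫ t in s..e, ∑ k ∈ 𝒦, ‖A k t‖ ^ 2)
            + (1 + 1 / x) * ∫ t in s..e, ∑ k ∈ 𝒦, ‖∫ r in s..t, G k r t‖ ^ 2 := by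
          rw [intervalIntegral.integral_add, intervalIntegral.integral_const_mul,
            intervalIntegral.integral_const_mul]
          · exact (continuous_const.mul c1).intervalIntegrable _ _
          · exact (continuous_const.mul c2).intervalIntegrable _ _
      _ ≤ (1 + x) * (K * nrm P (y s)) ^ 2
            + (1 + 1 / x) * (K * ∫ t in s..e, nrm P (f t)) ^ 2 := by
          apply add_le_add
          · apply mul_le_mul_of_nonneg_left _ (by positivity)
            rw [mul_pow]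
            exact hAest
          · apply mul_le_mul_of_nonneg_left _ (by positivity)
            exact hmink
  calc _ ≤ _ := hfin
    _ = _ := by ring

end Pool.Agent.H259.ND
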