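import Pool.Agent.H259.ND.Stmt

set_option autoImplicit false

open MeasureTheory Set Finset

namespace Pool.Agent.H259.ND

namespace A2L

theorem ex_add (x y : ℝ) : ex (x + y) = ex x * ex y := by
  unfold ex
  rw [← Complex.exp_add]
  congr 1
  push_cast
  ring

theorem norm_ex (x : ℝ) : ‖ex x‖ = 1 := by
  unfold ex
  exact Complex.norm_exp_ofReal_mul_I x

theorem conj_ex (x : ℝ) : (starRingEnd ℂ) (ex x) = ex (-x) := by
  unfold ex
  rw [← Complex.exp_conj, map_mul, Complex.conj_I, Complex.conj_ofReal]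
  congr 1
  push_cast
  ring

theorem cont_ex : Continuous ex := by
  unfold ex
  fun_prop

theorem cont_ex_mul (a : ℝ) : Continuous fun t : ℝ => ex (a * t) :=
  cont_ex.comp (continuous_const.mul continuous_id)

/-- the square expanded -/
theorem sq_expand {ι : Type} (P : Finset ι) (c : ι → ℂ) (θ : ι → ℝ) (t : ℝ) :
    ((‖∑ p ∈ P, c p * ex (θ p * t)‖ ^ 2 : ℝ) : ℂ) =
      ∑ p ∈ P, ∑ p' ∈ P, c p * (starRingEnd ℂ) (c p') * ex ((θ p - θ p') * t) := by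
  have h1 : ((‖∑ p ∈ P, c p * ex (θ p * t)‖ ^ 2 : ℝ) : ℂ) =
      (∑ p ∈ P, c p * ex (θ p * t)) * (starRingEnd ℂ) (∑ p ∈ P, c p * ex (θ p * t)) := by
    rw [Complex.mul_conj, Complex.normSq_eq_norm_sq]
  rw [h1, map_sum, sum_mul_sum]
  refine sum_congr rfl fun p _ => sum_congr rfl fun p' _ => ?_
  rw [map_mul, conj_ex]
  have h2 : ex ((θ p - θ p') * t) = ex (θ p * t) * ex (-(θ p' * t)) := by
    rw [← ex_add]
    congr 1
    ring
  rw [h2]
  ring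

/-- the weight -/
noncomputable def W (x : ℝ) : ℝ := 2 * (1 - |x| / 4)

theorem cont_W : Continuous W := by
  unfold W
  fun_prop

theorem W_nonneg {x : ℝ} (h1 : -4 ≤ x) (h2 : x ≤ 4) : 0 ≤ W x := by
  unfold W
  have : |x| ≤ 4 := abs_le.2 ⟨h1, h2⟩
  linarith

theorem W_one {x : ℝ} (h1 : 0 ≤ x) (h2 : x ≤ 1) : 1 ≤ W x := by
  unfold W
  rw [abs_of_nonneg h1]
  linarith

/-- one term -/
theorem term_int (h1 : S_A1) (a s τ : ℝ) (z : ℂ) :
    ∫ x in (-4 : ℝ)..4, (W x : ℂ) * (z * ex (a * (s + τ * x))) = z * ex (a * s) * (Fk (τ * a) : ℂ) := by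
  rw [← h1.1 (τ * a), ← intervalIntegral.integral_const_mul]
  refine intervalIntegral.integral_congr fun x _ => ?_
  have h2 : ex (a * (s + τ * x)) = ex (a * s) * ex (x * (τ * a)) := by
    rw [← ex_add]
    congr 1
    ring
  simp only [h2, W]
  ring

/-- the whole weighted integral -/
theorem all_int (h1 : S_A1) {ι : Type} (P : Finset ι) (c : ι → ℂ) (θ : ι → ℝ) (s τ : ℝ) :
    ((∫ x in (-4 : ℝ)..4, W x * ‖∑ p ∈ P, c p * ex (θ p * (s + τ * x))‖ ^ 2 : ℝ) : ℂ) =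
      ∑ p ∈ P, ∑ p' ∈ P, c p * (starRingEnd ℂ) (c p') * ex ((θ p - θ p') * s) *
        (Fk (τ * (θ p - θ p')) : ℂ) := by
  rw [← intervalIntegral.integral_ofReal]
  have h2 : ∀ x : ℝ, ((W x * ‖∑ p ∈ P, c p * ex (θ p * (s + τ * x))‖ ^ 2 : ℝ) : ℂ) =
      ∑ p ∈ P, ∑ p' ∈ P, (W x : ℂ) *
        (c p * (starRingEnd ℂ) (c p') * ex ((θ p - θ p') * (s + τ * x))) := by
    intro x
    rw [Complex.ofReal_mul, sq_expand, mul_sum]
    exact sum_congr rfl fun p _ => mul_sum _ _ _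
  have hc : ∀ p p' : ι, Continuous fun x : ℝ => (W x : ℂ) *
        (c p * (starRingEnd ℂ) (c p') * ex ((θ p - θ p') * (s + τ * x))) := by
    intro p p'
    refine (Complex.continuous_ofReal.comp cont_W).mul (continuous_const.mul ?_)
    exact cont_ex.comp (by fun_prop)
  rw [intervalIntegral.integral_congr (fun x _ => h2 x)]
  rw [intervalIntegral.integral_finset_sum fun p _ =>
    (continuous_finset_sum _ fun p' _ => hc p p').intervalIntegrable _ _]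
  refine sum_congr rfl fun p _ => ?_
  rw [intervalIntegral.integral_finset_sum fun p' _ => (hc p p').intervalIntegrable _ _]
  refine sum_congr rfl fun p' _ => ?_
  exact term_int h1 _ s τ _

/-- the Schur test for the quadratic form -/
theorem schur {ι : Type} (P : Finset ι) (x : ι → ℝ) (K : ι → ι → ℝ) (B : ℝ)
    (hK : ∀ p p', 0 ≤ K p p') (hs : ∀ p p', K p p' = K p' p)
    (hB : ∀ p ∈ P, ∑ p' ∈ P, K p p' ≤ B) :
    ∑ p ∈ P, ∑ p' ∈ P, x p * x p' * K p p' ≤ B * ∑ p ∈ P, x p ^ 2 := by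
  have h1 : ∑ p ∈ P, ∑ p' ∈ P, x p ^ 2 * K p p' ≤ B * ∑ p ∈ P, x p ^ 2 := by
    rw [mul_sum]
    refine sum_le_sum fun p hp => ?_
    rw [← mul_sum, mul_comm B]
    exact mul_le_mul_of_nonneg_left (hB p hp) (sq_nonneg _)
  have h2 : ∑ p ∈ P, ∑ p' ∈ P, x p' ^ 2 * K p p' ≤ B * ∑ p ∈ P, x p ^ 2 := by
    rw [sum_comm]
    refine le_trans (le_of_eq ?_) h1
    refine sum_congr rfl fun p _ => sum_congr rfl fun p' _ => ?_
    rw [hs]
  have h3 : ∑ p ∈ P, ∑ p' ∈ P, x p * x p' * K p p' ≤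
      ∑ p ∈ P, ∑ p' ∈ P, (x p ^ 2 * K p p' + x p' ^ 2 * K p p') / 2 := by
    refine sum_le_sum fun p _ => sum_le_sum fun p' _ => ?_
    have h4 := mul_nonneg (sq_nonneg (x p - x p')) (hK p p')
    nlinarith
  refine h3.trans ?_
  have h5 : ∑ p ∈ P, ∑ p' ∈ P, (x p ^ 2 * K p p' + x p' ^ 2 * K p p') / 2 =
      (∑ p ∈ P, ∑ p' ∈ P, x p ^ 2 * K p p' + ∑ p ∈ P, ∑ p' ∈ P, x p' ^ 2 * K p p') / 2 := by
    simp only [← sum_div, sum_add_distrib]
  rw [h5]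
  linarith

/-- the weighted integral is small -/
theorem weighted (h1 : S_A1) {ι : Type} (P : Finset ι) (c : ι → ℂ) (θ : ι → ℝ) (s τ B : ℝ)
    (hB : ∀ p ∈ P, ∑ p' ∈ P, Fk (τ * (θ p - θ p')) ≤ B) :
    ∫ x in (-4 : ℝ)..4, W x * ‖∑ p ∈ P, c p * ex (θ p * (s + τ * x))‖ ^ 2 ≤
      B * ∑ p ∈ P, ‖c p‖ ^ 2 := by
  have h2 := all_int h1 P c θ s τ
  have h3 : (∫ x in (-4 : ℝ)..4, W x * ‖∑ p ∈ P, c p * ex (θ p * (s + τ * x))‖ ^ 2) ≤
      ‖((∫ x in (-4 : ℝ)..4, W x * ‖∑ p ∈ P, c p * ex (θ p * (s + τ * x))‖ ^ 2 : ℝ) : ℂ)‖ := by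
    rw [Complex.norm_real]
    exact le_abs_self _
  refine h3.trans ?_
  rw [h2]
  refine (norm_sum_le _ _).trans ?_
  have h4 : ∑ p ∈ P, ‖∑ p' ∈ P, c p * (starRingEnd ℂ) (c p') * ex ((θ p - θ p') * s) *
        (Fk (τ * (θ p - θ p')) : ℂ)‖ ≤
      ∑ p ∈ P, ∑ p' ∈ P, ‖c p‖ * ‖c p'‖ * Fk (τ * (θ p - θ p')) := by
    refine sum_le_sum fun p _ => (norm_sum_le _ _).trans (sum_le_sum fun p' _ => ?_)
    rw [norm_mul, norm_mul, norm_mul, norm_ex, RCLike.norm_conj, Complex.norm_real,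
      Real.norm_of_nonneg (h1.2.1 _), mul_one]
  refine h4.trans (schur P (fun p => ‖c p‖) (fun p p' => Fk (τ * (θ p - θ p'))) B
    (fun p p' => h1.2.1 _) (fun p p' => ?_) hB)
  rw [← h1.2.2.2.2]
  congr 1
  ring

end A2L

theorem leaf_A2 (h1 : S_A1) : S_A2 := by
  intro ι P c θ s τ B hτ hB
  have hF : Continuous fun t : ℝ => ‖∑ p ∈ P, c p * ex (θ p * t)‖ ^ 2 := by
    refine (continuous_norm.comp (continuous_finset_sum _ fun p _ =>
      continuous_const.mul (A2L.cont_ex_mul (θ p)))).pow 2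
  have hG : Continuous fun x : ℝ => ‖∑ p ∈ P, c p * ex (θ p * (s + τ * x))‖ ^ 2 :=
    hF.comp (by fun_prop : Continuous fun x : ℝ => s + τ * x)
  have hWG : Continuous fun x : ℝ => A2L.W x * ‖∑ p ∈ P, c p * ex (θ p * (s + τ * x))‖ ^ 2 :=
    A2L.cont_W.mul hG
  have h2 : ∫ t in s..(s + τ), ‖∑ p ∈ P, c p * ex (θ p * t)‖ ^ 2 =
      τ * ∫ x in (0 : ℝ)..1, ‖∑ p ∈ P, c p * ex (θ p * (s + τ * x))‖ ^ 2 := by
    have h3 := intervalIntegral.mul_integral_comp_add_mul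
      (f := fun t : ℝ => ‖∑ p ∈ P, c p * ex (θ p * t)‖ ^ 2) (a := 0) (b := 1) τ s
    rw [h3]
    congr 1 <;> ring
  have h4 : ∫ x in (0 : ℝ)..1, ‖∑ p ∈ P, c p * ex (θ p * (s + τ * x))‖ ^ 2 ≤
      ∫ x in (0 : ℝ)..1, A2L.W x * ‖∑ p ∈ P, c p * ex (θ p * (s + τ * x))‖ ^ 2 := by
    refine intervalIntegral.integral_mono_on zero_le_one (hG.intervalIntegrable _ _)
      (hWG.intervalIntegrable _ _) fun x hx => ?_
    exact le_mul_of_one_le_left (sq_nonneg _) (A2L.W_one hx.1 hx.2)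
  have h5 : ∫ x in (0 : ℝ)..1, A2L.W x * ‖∑ p ∈ P, c p * ex (θ p * (s + τ * x))‖ ^ 2 ≤
      ∫ x in (-4 : ℝ)..4, A2L.W x * ‖∑ p ∈ P, c p * ex (θ p * (s + τ * x))‖ ^ 2 := by
    refine intervalIntegral.integral_mono_interval (by norm_num) (by norm_num) (by norm_num) ?_
      (hWG.intervalIntegrable _ _)
    filter_upwards [ae_restrict_mem measurableSet_Ioc] with x hx
    exact mul_nonneg (A2L.W_nonneg hx.1.le hx.2) (sq_nonneg _)
  have h6 := A2L.weighted h1 P c θ s τ B hB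
  rw [h2, mul_assoc]
  exact mul_le_mul_of_nonneg_left (h4.trans (h5.trans h6)) hτ.le

end Pool.Agent.H259.ND
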