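import Pool.Agent.H259.ND.Stmt

/-!
# A3: Weyl's inequality for a quadratic exponential sum (helper113)
-/

set_option autoImplicit false

open Finset
open scoped ComplexConjugate

namespace Pool.Agent.H259.ND

namespace A3L

theorem ex_add (x y : ℝ) : ex (x + y) = ex x * ex y := by
  unfold ex
  rw [← Complex.exp_add]
  push_cast
  ring_nf

theorem ex_conj (x : ℝ) : conj (ex x) = ex (-x) := by
  unfold ex
  rw [← Complex.exp_conj, map_mul, Complex.conj_ofReal, Complex.conj_I]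
  push_cast
  ring_nf

theorem norm_ex (x : ℝ) : ‖ex x‖ = 1 := by
  unfold ex
  exact Complex.norm_exp_ofReal_mul_I x

theorem ex_nat (m : ℕ) (x : ℝ) : ex (m * x) = ex x ^ m := by
  unfold ex
  rw [← Complex.exp_nat_mul]
  push_cast
  ring_nf

/-- the square of a sum -/
theorem corr (f : ℕ → ℂ) (N : ℕ) : ‖∑ n ∈ range N, f n‖ ^ 2 = ∑ n ∈ range N, ‖f n‖ ^ 2 +
    2 * (∑ d ∈ Ico 1 N, ∑ m ∈ range (N - d), f (m + d) * conj (f m)).re := by
  induction N with
  | zero => simp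
  | succ N ih =>
    rw [sum_range_succ, Complex.sq_norm, Complex.normSq_add, ← Complex.sq_norm, ← Complex.sq_norm,
      ih, sum_range_succ]
    have h1 : ∑ d ∈ Ico 1 (N + 1), ∑ m ∈ range (N + 1 - d), f (m + d) * conj (f m) =
        ∑ d ∈ Ico 1 N, ∑ m ∈ range (N - d), f (m + d) * conj (f m) +
          f N * conj (∑ n ∈ range N, f n) := by
      have h2 : ∀ d ∈ Ico 1 (N + 1), ∑ m ∈ range (N + 1 - d), f (m + d) * conj (f m) =
          ∑ m ∈ range (N - d), f (m + d) * conj (f m) + f N * conj (f (N - d)) := by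
        intro d hd
        rw [mem_Ico] at hd
        have e : N + 1 - d = N - d + 1 := by omega
        have e2 : N - d + d = N := by omega
        rw [e, sum_range_succ, e2]
      rw [sum_congr rfl h2, sum_add_distrib]
      congr 1
      · rcases Nat.eq_zero_or_pos N with h0 | h0
        · subst h0
          simp
        · rw [sum_Ico_succ_top h0, Nat.sub_self, range_zero, sum_empty, add_zero]
      · rw [← mul_sum, sum_Ico_eq_sum_range, map_sum]
        congr 1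
        have e3 : N + 1 - 1 = N := by omega
        rw [e3, ← sum_range_reflect]
        refine sum_congr rfl fun j hj => ?_
        have hj' := mem_range.1 hj
        have e4 : N - (1 + (N - 1 - j)) = j := by omega
        rw [e4]
    rw [h1, Complex.add_re]
    have h3 : (f N * conj (∑ n ∈ range N, f n)).re = ((∑ n ∈ range N, f n) * conj (f N)).re := by
      rw [Complex.mul_re, Complex.mul_re, Complex.conj_re, Complex.conj_re, Complex.conj_im,
        Complex.conj_im]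
      ring
    rw [h3]
    ring

/-- the geometric sum -/
theorem geom {θ : ℝ} (h1 : |θ| ≤ Real.pi / 2) (h2 : θ ≠ 0) (M : ℕ) :
    ‖∑ m ∈ range M, ex (2 * θ) ^ m‖ ≤ Real.pi / (2 * |θ|) := by
  have hpos : 0 < |θ| := abs_pos.2 h2
  have hpi := Real.pi_pos
  have e1 : ‖ex (2 * θ) - 1‖ = 2 * |Real.sin θ| := by
    have h3 := Complex.norm_exp_I_mul_ofReal_sub_one (2 * θ)
    have e : ex (2 * θ) = Complex.exp (Complex.I * ((2 * θ : ℝ) : ℂ)) := by
      unfold ex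
      rw [mul_comm]
    rw [e, h3]
    have e' : 2 * θ / 2 = θ := by ring
    rw [e', norm_mul, Real.norm_eq_abs, Real.norm_eq_abs, abs_two]
  have h4 : 2 / Real.pi * |θ| ≤ |Real.sin θ| := Real.mul_abs_le_abs_sin h1
  have h5 : 0 < 2 / Real.pi * |θ| := by positivity
  have h6 : 0 < ‖ex (2 * θ) - 1‖ := by
    rw [e1]
    linarith
  have hne : ex (2 * θ) ≠ 1 := fun h => by
    rw [h, sub_self, norm_zero] at h6
    exact lt_irrefl _ h6
  rw [geom_sum_eq hne, norm_div]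
  have h7 : ‖ex (2 * θ) ^ M - 1‖ ≤ 2 := by
    refine (norm_sub_le _ _).trans ?_
    rw [norm_pow, norm_ex, one_pow, norm_one]
    norm_num
  rw [div_le_div_iff₀ h6 (by positivity), e1]
  have h8 : Real.pi * (2 / Real.pi * |θ|) = 2 * |θ| := by field_simp
  have h9 : Real.pi * (2 / Real.pi * |θ|) ≤ Real.pi * |Real.sin θ| :=
    mul_le_mul_of_nonneg_left h4 hpi.le
  have h10 : ‖ex (2 * θ) ^ M - 1‖ * (2 * |θ|) ≤ 2 * (2 * |θ|) :=
    mul_le_mul_of_nonneg_right h7 (by positivity)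
  linarith

/-- the sum of the powers -/
theorem pow_step (n : ℕ) : ((n : ℝ) + 1) ^ (-(4 / 5) : ℝ) ≤
    5 * (((n : ℝ) + 1) ^ (1 / 5 : ℝ) - (n : ℝ) ^ (1 / 5 : ℝ)) := by
  set x : ℝ := ((n : ℝ) + 1) ^ (1 / 5 : ℝ) with hx
  set y : ℝ := (n : ℝ) ^ (1 / 5 : ℝ) with hy
  have hn : (0 : ℝ) ≤ n := Nat.cast_nonneg n
  have hxp : 0 < x := by positivity
  have hyn : 0 ≤ y := by positivity
  have hyx : y ≤ x := Real.rpow_le_rpow hn (by linarith) (by norm_num)
  have hx5 : x ^ 5 = n + 1 := by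
    rw [hx, ← Real.rpow_natCast, ← Real.rpow_mul (by positivity)]
    norm_num
  have hy5 : y ^ 5 = n := by
    rw [hy, ← Real.rpow_natCast, ← Real.rpow_mul hn]
    norm_num
  have e1 : ((n : ℝ) + 1) ^ (-(4 / 5) : ℝ) = (x ^ 4)⁻¹ := by
    rw [hx, ← Real.rpow_natCast, ← Real.rpow_mul (by positivity), ← Real.rpow_neg (by positivity)]
    norm_num
  rw [e1, inv_le_iff_one_le_mul₀ (by positivity)]
  have h1 : (x - y) * (x ^ 4 + x ^ 3 * y + x ^ 2 * y ^ 2 + x * y ^ 3 + y ^ 4) = 1 := by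
    have : (x - y) * (x ^ 4 + x ^ 3 * y + x ^ 2 * y ^ 2 + x * y ^ 3 + y ^ 4) = x ^ 5 - y ^ 5 := by
      ring
    rw [this, hx5, hy5]
    ring
  have h2 : x ^ 4 + x ^ 3 * y + x ^ 2 * y ^ 2 + x * y ^ 3 + y ^ 4 ≤ 5 * x ^ 4 := by
    have a1 : x ^ 3 * y ≤ x ^ 3 * x := mul_le_mul_of_nonneg_left hyx (by positivity)
    have a2 : x ^ 2 * y ^ 2 ≤ x ^ 2 * x ^ 2 :=
      mul_le_mul_of_nonneg_left (pow_le_pow_left₀ hyn hyx 2) (by positivity)
    have a3 : x * y ^ 3 ≤ x * x ^ 3 :=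
      mul_le_mul_of_nonneg_left (pow_le_pow_left₀ hyn hyx 3) hxp.le
    have a4 : y ^ 4 ≤ x ^ 4 := pow_le_pow_left₀ hyn hyx 4
    nlinarith
  have h3 : (x - y) * (x ^ 4 + x ^ 3 * y + x ^ 2 * y ^ 2 + x * y ^ 3 + y ^ 4) ≤
      (x - y) * (5 * x ^ 4) := mul_le_mul_of_nonneg_left h2 (by linarith)
  calc (1 : ℝ) ≤ (x - y) * (5 * x ^ 4) := by rw [← h1]; exact h3
    _ = 5 * (x - y) * x ^ 4 := by ring

theorem pow_sum (N : ℕ) : ∑ d ∈ Ico 1 N, (d : ℝ) ^ (-(4 / 5) : ℝ) ≤ 5 * (N : ℝ) ^ (1 / 5 : ℝ) := by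
  have h : ∀ N : ℕ, ∑ d ∈ range N, ((d : ℝ) + 1) ^ (-(4 / 5) : ℝ) ≤ 5 * (N : ℝ) ^ (1 / 5 : ℝ) := by
    intro N
    induction N with
    | zero => simp
    | succ N ih =>
      rw [sum_range_succ]
      have := pow_step N
      push_cast
      linarith
  rw [sum_Ico_eq_sum_range]
  have h1 : ∑ k ∈ range (N - 1), (((1 + k : ℕ) : ℝ)) ^ (-(4 / 5) : ℝ) =
      ∑ d ∈ range (N - 1), ((d : ℝ) + 1) ^ (-(4 / 5) : ℝ) := by
    refine sum_congr rfl fun k _ => ?_
    push_cast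
    rw [add_comm]
  rw [h1]
  refine (h (N - 1)).trans ?_
  have h2 : ((N - 1 : ℕ) : ℝ) ≤ N := by exact_mod_cast Nat.sub_le N 1
  have h3 := Real.rpow_le_rpow (Nat.cast_nonneg _) h2 (by norm_num : (0 : ℝ) ≤ 1 / 5)
  linarith

theorem min_le {x y : ℝ} (hx : 0 ≤ x) (hy : 0 ≤ y) :
    min x y ≤ x ^ (1 / 5 : ℝ) * y ^ (4 / 5 : ℝ) := by
  have hm : 0 ≤ min x y := le_min hx hy
  calc min x y = min x y ^ (1 / 5 : ℝ) * min x y ^ (4 / 5 : ℝ) := by
        rw [← Real.rpow_add_of_nonneg hm (by norm_num) (by norm_num)]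
        norm_num
    _ ≤ x ^ (1 / 5 : ℝ) * y ^ (4 / 5 : ℝ) := by
        refine mul_le_mul (Real.rpow_le_rpow hm (min_le_left _ _) (by norm_num))
          (Real.rpow_le_rpow hm (min_le_right _ _) (by norm_num)) (by positivity) (by positivity)

end A3L

open A3L

theorem leaf_A3 : S_A3 := by
  intro a N α b hN hα hαN
  have hpi := Real.pi_pos
  have hα0 : 0 < |α| := abs_pos.2 hα
  have hN1 : (1 : ℝ) ≤ N := by exact_mod_cast hN
  set A : ℝ := Real.pi / (2 * |α|) with hA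
  have hAp : 0 < A := by positivity
  have hNA : (N : ℝ) ≤ A := by
    rw [hA, le_div_iff₀ (by positivity)]
    linarith
  set f : ℕ → ℂ := fun n => ex (α * ((a : ℝ) + n) ^ 2 + b * ((a : ℝ) + n)) with hf
  have h1 : ‖∑ n ∈ range N, f n‖ ^ 2 = ∑ n ∈ range N, ‖f n‖ ^ 2 +
    2 * (∑ d ∈ Ico 1 N, ∑ m ∈ range (N - d), f (m + d) * conj (f m)).re := corr f N
  have h2 : ∑ n ∈ range N, ‖f n‖ ^ 2 = N := by
    have : ∀ n ∈ range N, ‖f n‖ ^ 2 = 1 := by
      intro n _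
      rw [hf]
      simp only
      rw [norm_ex, one_pow]
    rw [sum_congr rfl this, sum_const, card_range, nsmul_eq_mul, mul_one]
  have h3 : ∀ d ∈ Ico 1 N, ‖∑ m ∈ range (N - d), f (m + d) * conj (f m)‖ ≤
      (N : ℝ) ^ (1 / 5 : ℝ) * A ^ (4 / 5 : ℝ) * (d : ℝ) ^ (-(4 / 5) : ℝ) := by
    intro d hd
    rw [mem_Ico] at hd
    have hd1 : (1 : ℝ) ≤ d := by exact_mod_cast hd.1
    have hdN : (d : ℝ) ≤ N := by exact_mod_cast hd.2.le
    have hd0 : (0 : ℝ) < d := by linarith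
    have e1 : ∀ m ∈ range (N - d), f (m + d) * conj (f m) =
        ex (α * (2 * d * a + d ^ 2) + b * d) * ex (2 * (α * d)) ^ m := by
      intro m _
      rw [hf]
      simp only
      rw [ex_conj, ← ex_add, ← ex_nat, ← ex_add]
      congr 1
      push_cast
      ring
    rw [sum_congr rfl e1, ← mul_sum, norm_mul, norm_ex, one_mul]
    have hab : |α * d| = |α| * d := by rw [abs_mul, abs_of_pos hd0]
    have b1 : ‖∑ m ∈ range (N - d), ex (2 * (α * d)) ^ m‖ ≤ A / d := by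
      have h4 : |α * d| ≤ Real.pi / 2 := by
        rw [hab]
        exact (mul_le_mul_of_nonneg_left hdN hα0.le).trans hαN
      have h5 := geom h4 (mul_ne_zero hα hd0.ne') (N - d)
      rw [hab] at h5
      have e : Real.pi / (2 * (|α| * d)) = A / d := by
        rw [hA, div_div]
        ring_nf
      rwa [e] at h5
    have b2 : ‖∑ m ∈ range (N - d), ex (2 * (α * d)) ^ m‖ ≤ N := by
      refine (norm_sum_le _ _).trans ?_
      have : ∀ m ∈ range (N - d), ‖ex (2 * (α * d)) ^ m‖ = 1 := by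
        intro m _
        rw [norm_pow, norm_ex, one_pow]
      rw [sum_congr rfl this, sum_const, card_range, nsmul_eq_mul, mul_one]
      exact_mod_cast Nat.sub_le N d
    refine (le_min b2 b1).trans ((min_le (by linarith) (by positivity)).trans (le_of_eq ?_))
    rw [Real.div_rpow hAp.le hd0.le, Real.rpow_neg hd0.le]
    ring
  have h4 : (∑ d ∈ Ico 1 N, ∑ m ∈ range (N - d), f (m + d) * conj (f m)).re ≤
      (N : ℝ) ^ (1 / 5 : ℝ) * A ^ (4 / 5 : ℝ) * (5 * (N : ℝ) ^ (1 / 5 : ℝ)) := by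
    refine (Complex.re_le_norm _).trans ((norm_sum_le _ _).trans ((sum_le_sum h3).trans ?_))
    rw [← mul_sum]
    exact mul_le_mul_of_nonneg_left (pow_sum N) (by positivity)
  have e5 : (N : ℝ) ^ (1 / 5 : ℝ) * (N : ℝ) ^ (1 / 5 : ℝ) = (N : ℝ) ^ (2 / 5 : ℝ) := by
    rw [← Real.rpow_add (by linarith)]
    norm_num
  have h6 : (N : ℝ) ≤ (N : ℝ) ^ (2 / 5 : ℝ) * A ^ (4 / 5 : ℝ) := by
    have h7 : (N : ℝ) ^ (3 / 5 : ℝ) ≤ A ^ (4 / 5 : ℝ) :=
      (Real.rpow_le_rpow_of_exponent_le hN1 (by norm_num)).trans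
        (Real.rpow_le_rpow (by linarith) hNA (by norm_num))
    calc (N : ℝ) = (N : ℝ) ^ (2 / 5 : ℝ) * (N : ℝ) ^ (3 / 5 : ℝ) := by
          rw [← Real.rpow_add (by linarith)]
          norm_num
      _ ≤ (N : ℝ) ^ (2 / 5 : ℝ) * A ^ (4 / 5 : ℝ) := mul_le_mul_of_nonneg_left h7 (by positivity)
  have h8 : A ^ (4 / 5 : ℝ) ≤ 8 / 5 * |α| ^ (-(4 / 5) : ℝ) := by
    have e : A = Real.pi / 2 * |α|⁻¹ := by
      rw [hA]
      field_simp
    rw [e, Real.mul_rpow (by positivity) (by positivity), Real.rpow_neg hα0.le,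
      Real.inv_rpow hα0.le]
    refine mul_le_mul_of_nonneg_right ?_ (by positivity)
    have h9 : 1 ≤ Real.pi / 2 := by linarith [Real.two_le_pi]
    have h10 := Real.rpow_le_rpow_of_exponent_le h9 (by norm_num : (4 / 5 : ℝ) ≤ 1)
    rw [Real.rpow_one] at h10
    have h11 := Real.pi_lt_d2
    linarith
  rw [h1, h2]
  set B : ℝ := (N : ℝ) ^ (2 / 5 : ℝ) with hB
  have hB0 : 0 ≤ B := by positivity
  have e6 : (N : ℝ) ^ (1 / 5 : ℝ) * A ^ (4 / 5 : ℝ) * (5 * (N : ℝ) ^ (1 / 5 : ℝ)) =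
      5 * (B * A ^ (4 / 5 : ℝ)) := by
    rw [← e5]
    ring
  rw [e6] at h4
  have h12 : B * A ^ (4 / 5 : ℝ) ≤ B * (8 / 5 * |α| ^ (-(4 / 5) : ℝ)) :=
    mul_le_mul_of_nonneg_left h8 hB0
  have h13 : 0 ≤ B * |α| ^ (-(4 / 5) : ℝ) := by positivity
  nlinarith

end Pool.Agent.H259.ND
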