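import Pool.Agent.H259.ND.Stmt

set_option autoImplicit false

open MeasureTheory Set Finset

namespace Pool.Agent.H259.ND

namespace A4L

/-- one factor -/
noncomputable def hf (w t : ℝ) : ℝ := w * min 1 ((w ^ 3 * t) ^ (-(2 / 5) : ℝ))

theorem hf_nonneg (w t : ℝ) (hw : 0 < w) (ht : 0 ≤ t) : 0 ≤ hf w t := by
  unfold hf
  have h : 0 ≤ (w ^ 3 * t) ^ (-(2 / 5) : ℝ) := Real.rpow_nonneg (by positivity) _
  exact mul_nonneg hw.le (le_min zero_le_one h)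

theorem hf_le (w t : ℝ) (hw : 0 < w) : hf w t ≤ w := by
  unfold hf
  calc w * min 1 ((w ^ 3 * t) ^ (-(2 / 5) : ℝ)) ≤ w * 1 :=
        mul_le_mul_of_nonneg_left (min_le_left _ _) hw.le
    _ = w := mul_one w

theorem hf_le2 (w t : ℝ) (hw : 0 < w) (ht : 0 < t) :
    hf w t ≤ w ^ (-(1 / 5) : ℝ) * t ^ (-(2 / 5) : ℝ) := by
  unfold hf
  have h1 : (w ^ 3 * t) ^ (-(2 / 5) : ℝ) = w ^ (-(6 / 5) : ℝ) * t ^ (-(2 / 5) : ℝ) := by
    rw [Real.mul_rpow (by positivity) ht.le]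
    congr 1
    rw [← Real.rpow_natCast, ← Real.rpow_mul hw.le]
    norm_num
  have h2 : w * w ^ (-(6 / 5) : ℝ) = w ^ (-(1 / 5) : ℝ) := by
    nth_rewrite 1 [← Real.rpow_one w]
    rw [← Real.rpow_add hw]
    norm_num
  calc w * min 1 ((w ^ 3 * t) ^ (-(2 / 5) : ℝ)) ≤ w * (w ^ 3 * t) ^ (-(2 / 5) : ℝ) :=
        mul_le_mul_of_nonneg_left (min_le_right _ _) hw.le
    _ = w ^ (-(1 / 5) : ℝ) * t ^ (-(2 / 5) : ℝ) := by rw [h1, ← mul_assoc, h2]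

theorem hf_meas (w : ℝ) : Measurable (hf w) := by
  unfold hf
  exact (measurable_const.min ((measurable_id.const_mul _).pow_const _)).const_mul _

theorem ff_int (x y z a b : ℝ) (hx : 0 < x) (hy : 0 < y) (hz : 0 < z) (ha : 0 ≤ a) (hb : 0 ≤ b) :
    IntervalIntegrable (fun t => hf x t * hf y t * hf z t) volume a b := by
  have hm : Measurable (fun t => hf x t * hf y t * hf z t) :=
    ((hf_meas x).mul (hf_meas y)).mul (hf_meas z)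
  rw [intervalIntegrable_iff]
  refine IntegrableOn.of_bound (C := x * y * z) (by simp) hm.aestronglyMeasurable ?_
  refine (ae_restrict_iff' measurableSet_uIoc).2 (Filter.Eventually.of_forall fun t ht => ?_)
  have ht0 : 0 ≤ t := by
    have := ht.1
    exact (le_min ha hb).trans this.le
  rw [Real.norm_eq_abs, abs_of_nonneg (mul_nonneg (mul_nonneg (hf_nonneg x t hx ht0)
    (hf_nonneg y t hy ht0)) (hf_nonneg z t hz ht0))]
  exact mul_le_mul (mul_le_mul (hf_le x t hx) (hf_le y t hy) (hf_nonneg y t hy ht0) hx.le)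
    (hf_le z t hz) (hf_nonneg z t hz ht0) (by positivity)

theorem part1 (x y z S : ℝ) (hx : 0 < x) (hy : 0 < y) (hz : 0 < z) (hS : 0 ≤ S)
    (hSx : S ≤ x ^ (-3 : ℝ)) :
    ∫ t in (0 : ℝ)..S, hf x t * hf y t * hf z t ≤
      5 * (x ^ (2 / 5 : ℝ) * y ^ (-(1 / 5) : ℝ) * z ^ (-(1 / 5) : ℝ)) := by
  have h1 : ∫ t in (0 : ℝ)..S, hf x t * hf y t * hf z t ≤
      ∫ t in (0 : ℝ)..S, x * y ^ (-(1 / 5) : ℝ) * z ^ (-(1 / 5) : ℝ) * t ^ (-(4 / 5) : ℝ) := by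
    refine intervalIntegral.integral_mono_on_of_le_Ioo hS (ff_int x y z 0 S hx hy hz le_rfl hS)
      ((intervalIntegral.intervalIntegrable_rpow' (by norm_num)).const_mul _) fun t ht => ?_
    have ht0 : 0 < t := ht.1
    have e : t ^ (-(4 / 5) : ℝ) = t ^ (-(2 / 5) : ℝ) * t ^ (-(2 / 5) : ℝ) := by
      rw [← Real.rpow_add ht0]
      norm_num
    calc hf x t * hf y t * hf z t
        ≤ x * (y ^ (-(1 / 5) : ℝ) * t ^ (-(2 / 5) : ℝ)) *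
            (z ^ (-(1 / 5) : ℝ) * t ^ (-(2 / 5) : ℝ)) :=
          mul_le_mul (mul_le_mul (hf_le x t hx) (hf_le2 y t hy ht0) (hf_nonneg y t hy ht0.le) hx.le)
            (hf_le2 z t hz ht0) (hf_nonneg z t hz ht0.le) (by positivity)
      _ = x * y ^ (-(1 / 5) : ℝ) * z ^ (-(1 / 5) : ℝ) * t ^ (-(4 / 5) : ℝ) := by
          rw [e]
          ring
  refine h1.trans ?_
  rw [intervalIntegral.integral_const_mul, integral_rpow (Or.inl (by norm_num))]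
  have e0 : (0 : ℝ) ^ (-(4 / 5) + 1 : ℝ) = 0 := Real.zero_rpow (by norm_num)
  rw [e0, sub_zero]
  have e1 : S ^ (-(4 / 5) + 1 : ℝ) ≤ x ^ (-(3 / 5) : ℝ) := by
    calc S ^ (-(4 / 5) + 1 : ℝ) ≤ (x ^ (-3 : ℝ)) ^ (-(4 / 5) + 1 : ℝ) :=
          Real.rpow_le_rpow hS hSx (by norm_num)
      _ = x ^ (-(3 / 5) : ℝ) := by
          rw [← Real.rpow_mul hx.le]
          norm_num
  have e2 : x * x ^ (-(3 / 5) : ℝ) = x ^ (2 / 5 : ℝ) := by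
    nth_rewrite 1 [← Real.rpow_one x]
    rw [← Real.rpow_add hx]
    norm_num
  calc x * y ^ (-(1 / 5) : ℝ) * z ^ (-(1 / 5) : ℝ) * (S ^ (-(4 / 5) + 1 : ℝ) / (-(4 / 5) + 1))
      = 5 * (x * y ^ (-(1 / 5) : ℝ) * z ^ (-(1 / 5) : ℝ)) * S ^ (-(4 / 5) + 1 : ℝ) := by
        norm_num
        ring
    _ ≤ 5 * (x * y ^ (-(1 / 5) : ℝ) * z ^ (-(1 / 5) : ℝ)) * x ^ (-(3 / 5) : ℝ) :=
        mul_le_mul_of_nonneg_left e1 (by positivity)
    _ = 5 * (x ^ (2 / 5 : ℝ) * y ^ (-(1 / 5) : ℝ) * z ^ (-(1 / 5) : ℝ)) := by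
        rw [← e2]
        ring

theorem part2 (x y z T : ℝ) (hx : 0 < x) (hy : 0 < y) (hz : 0 < z) (hT : x ^ (-3 : ℝ) ≤ T) :
    ∫ t in (x ^ (-3 : ℝ))..T, hf x t * hf y t * hf z t ≤
      5 * (x ^ (2 / 5 : ℝ) * y ^ (-(1 / 5) : ℝ) * z ^ (-(1 / 5) : ℝ)) := by
  have h0 : 0 < x ^ (-3 : ℝ) := Real.rpow_pos_of_pos hx _
  have hT0 : 0 < T := lt_of_lt_of_le h0 hT
  have hni : (0 : ℝ) ∉ Set.uIcc (x ^ (-3 : ℝ)) T := by
    rw [Set.uIcc_of_le hT]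
    intro h
    exact absurd h.1 (not_le.2 h0)
  have h1 : ∫ t in (x ^ (-3 : ℝ))..T, hf x t * hf y t * hf z t ≤
      ∫ t in (x ^ (-3 : ℝ))..T,
        x ^ (-(1 / 5) : ℝ) * y ^ (-(1 / 5) : ℝ) * z ^ (-(1 / 5) : ℝ) * t ^ (-(6 / 5) : ℝ) := by
    refine intervalIntegral.integral_mono_on_of_le_Ioo hT
      (ff_int x y z _ T hx hy hz h0.le hT0.le)
      ((intervalIntegral.intervalIntegrable_rpow (Or.inr hni)).const_mul _) fun t ht => ?_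
    have ht0 : 0 < t := h0.trans ht.1
    have e : t ^ (-(6 / 5) : ℝ) = t ^ (-(2 / 5) : ℝ) * t ^ (-(2 / 5) : ℝ) * t ^ (-(2 / 5) : ℝ) := by
      rw [← Real.rpow_add ht0, ← Real.rpow_add ht0]
      norm_num
    calc hf x t * hf y t * hf z t
        ≤ (x ^ (-(1 / 5) : ℝ) * t ^ (-(2 / 5) : ℝ)) * (y ^ (-(1 / 5) : ℝ) * t ^ (-(2 / 5) : ℝ)) *
            (z ^ (-(1 / 5) : ℝ) * t ^ (-(2 / 5) : ℝ)) :=
          mul_le_mul (mul_le_mul (hf_le2 x t hx ht0) (hf_le2 y t hy ht0) (hf_nonneg y t hy ht0.le)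
            (by positivity)) (hf_le2 z t hz ht0) (hf_nonneg z t hz ht0.le) (by positivity)
      _ = x ^ (-(1 / 5) : ℝ) * y ^ (-(1 / 5) : ℝ) * z ^ (-(1 / 5) : ℝ) * t ^ (-(6 / 5) : ℝ) := by
          rw [e]
          ring
  refine h1.trans ?_
  rw [intervalIntegral.integral_const_mul, integral_rpow (Or.inr ⟨by norm_num, hni⟩)]
  have e1 : (x ^ (-3 : ℝ)) ^ (-(6 / 5) + 1 : ℝ) = x ^ (3 / 5 : ℝ) := by
    rw [← Real.rpow_mul hx.le]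
    norm_num
  have e2 : x ^ (-(1 / 5) : ℝ) * x ^ (3 / 5 : ℝ) = x ^ (2 / 5 : ℝ) := by
    rw [← Real.rpow_add hx]
    norm_num
  have e3 : 0 ≤ T ^ (-(6 / 5) + 1 : ℝ) := Real.rpow_nonneg hT0.le _
  calc x ^ (-(1 / 5) : ℝ) * y ^ (-(1 / 5) : ℝ) * z ^ (-(1 / 5) : ℝ) *
        ((T ^ (-(6 / 5) + 1 : ℝ) - (x ^ (-3 : ℝ)) ^ (-(6 / 5) + 1 : ℝ)) / (-(6 / 5) + 1))
      = 5 * (x ^ (-(1 / 5) : ℝ) * y ^ (-(1 / 5) : ℝ) * z ^ (-(1 / 5) : ℝ)) *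
          (x ^ (3 / 5 : ℝ) - T ^ (-(6 / 5) + 1 : ℝ)) := by
        rw [e1]
        ring
    _ ≤ 5 * (x ^ (-(1 / 5) : ℝ) * y ^ (-(1 / 5) : ℝ) * z ^ (-(1 / 5) : ℝ)) * x ^ (3 / 5 : ℝ) :=
        mul_le_mul_of_nonneg_left (by linarith) (by positivity)
    _ = 5 * (x ^ (2 / 5 : ℝ) * y ^ (-(1 / 5) : ℝ) * z ^ (-(1 / 5) : ℝ)) := by
        rw [← e2]
        ring

theorem key (x y z T : ℝ) (hx : 0 < x) (hxy : x ≤ y) (hyz : y ≤ z) (hT : 0 ≤ T) :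
    ∫ t in (0 : ℝ)..T, hf x t * hf y t * hf z t ≤ 10 * (x / z) ^ (1 / 5 : ℝ) := by
  have hy : 0 < y := hx.trans_le hxy
  have hz : 0 < z := hy.trans_le hyz
  have h0 : 0 < x ^ (-3 : ℝ) := Real.rpow_pos_of_pos hx _
  have hD : x ^ (2 / 5 : ℝ) * y ^ (-(1 / 5) : ℝ) * z ^ (-(1 / 5) : ℝ) ≤ (x / z) ^ (1 / 5 : ℝ) := by
    rw [Real.div_rpow hx.le hz.le, Real.rpow_neg hz.le, ← div_eq_mul_inv]
    apply div_le_div_of_nonneg_right _ (by positivity)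
    rw [Real.rpow_neg hy.le, ← div_eq_mul_inv, div_le_iff₀ (by positivity)]
    have e : x ^ (2 / 5 : ℝ) = x ^ (1 / 5 : ℝ) * x ^ (1 / 5 : ℝ) := by
      rw [← Real.rpow_add hx]
      norm_num
    rw [e]
    exact mul_le_mul_of_nonneg_left (Real.rpow_le_rpow hx.le hxy (by norm_num)) (by positivity)
  have hD0 : 0 ≤ x ^ (2 / 5 : ℝ) * y ^ (-(1 / 5) : ℝ) * z ^ (-(1 / 5) : ℝ) := by positivity
  rcases le_total T (x ^ (-3 : ℝ)) with h | h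
  · have h1 := part1 x y z T hx hy hz hT h
    linarith
  · have h1 := part1 x y z (x ^ (-3 : ℝ)) hx hy hz h0.le le_rfl
    have h2 := part2 x y z T hx hy hz h
    rw [← intervalIntegral.integral_add_adjacent_intervals
      (ff_int x y z 0 (x ^ (-3 : ℝ)) hx hy hz le_rfl h0.le)
      (ff_int x y z (x ^ (-3 : ℝ)) T hx hy hz h0.le hT)]
    linarith

end A4L

theorem leaf_A4 : S_A4 := by
  intro κ hκ T hT i i'
  have hpos : ∀ l, 0 < κ l := fun l => one_pos.trans_le (hκ l)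
  have hm := Tuple.monotone_sort κ
  set σ := Tuple.sort κ with hσ
  have e : ∀ t : ℝ, ∏ l, (κ l * min 1 ((κ l ^ 3 * t) ^ (-(2 / 5) : ℝ))) =
      A4L.hf (κ (σ 0)) t * A4L.hf (κ (σ 1)) t * A4L.hf (κ (σ 2)) t := by
    intro t
    rw [← Equiv.prod_comp σ, Fin.prod_univ_three]
    rfl
  simp only [e]
  have h1 := A4L.key (κ (σ 0)) (κ (σ 1)) (κ (σ 2)) T (hpos _)
    (hm (show (0 : Fin 3) ≤ 1 by decide)) (hm (show (1 : Fin 3) ≤ 2 by decide)) hT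
  refine h1.trans ?_
  have h2 : κ (σ 0) ≤ κ i := by
    have := hm (show (0 : Fin 3) ≤ σ.symm i from Fin.zero_le _)
    simpa using this
  have h3 : κ i' ≤ κ (σ 2) := by
    have := hm (show σ.symm i' ≤ (2 : Fin 3) from Fin.le_last _)
    simpa using this
  have h4 : κ (σ 0) / κ (σ 2) ≤ κ i / κ i' :=
    div_le_div₀ (hpos i).le h2 (hpos i') h3
  have h5 := Real.rpow_le_rpow (div_nonneg (hpos _).le (hpos _).le) h4
    (show (0 : ℝ) ≤ 1 / 5 by norm_num)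
  linarith

end Pool.Agent.H259.ND
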