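import Pool.Agent.H259.ND.Stmt

/-!
# Navier-Stokes with cubic dispersion, leaf A5: Schur sum over a box
-/

set_option autoImplicit false

open MeasureTheory Set Finset

namespace Pool.Agent.H259.ND

namespace A5L

lemma ex_add (x y : ℝ) : ex (x + y) = ex x * ex y := by
  unfold ex
  rw [← Complex.exp_add]
  congr 1
  push_cast
  ring

lemma norm_ex (x : ℝ) : ‖ex x‖ = 1 := by
  unfold ex
  exact Complex.norm_exp_ofReal_mul_I x

lemma ex_cont : Continuous ex := by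
  unfold ex
  fun_prop

lemma ex_sum (f : Fin 3 → ℝ) : ex (∑ i, f i) = ∏ i, ex (f i) := by
  unfold ex
  rw [← Complex.exp_sum]
  congr 1
  push_cast
  rw [Finset.sum_mul]

lemma sum_int (A : ℤ) (N : ℕ) (f : ℤ → ℂ) :
    ∑ m ∈ Finset.Ico A (A + N), f m = ∑ r ∈ range N, f (A + r) := by
  symm
  refine Finset.sum_nbij' (fun r => A + r) (fun m => (m - A).toNat) ?_ ?_ ?_ ?_ ?_
  · intro r hr
    rw [Finset.mem_range] at hr
    rw [Finset.mem_Ico]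
    constructor <;> omega
  · intro m hm
    rw [Finset.mem_Ico] at hm
    rw [Finset.mem_range]
    omega
  · intro r _
    simp
  · intro m hm
    rw [Finset.mem_Ico] at hm
    show A + ((m - A).toNat : ℤ) = m
    omega
  · intro r _
    rfl

/-- the phase of two waves -/
lemma theta (β γ : Fin 3 → ℝ) (k p : Z3) : ph3 β γ p + ph3 β γ (k - p) =
    ∑ i, (β i * ((k i : ℝ) ^ 3 - 3 * (k i : ℝ) ^ 2 * (p i : ℝ) + 3 * (k i : ℝ) * (p i : ℝ) ^ 2) +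
      γ i * (k i : ℝ)) := by
  unfold ph3
  rw [← Finset.sum_add_distrib]
  refine Finset.sum_congr rfl fun i _ => ?_
  rw [Pi.sub_apply]
  push_cast
  ring

/-- the sum over the box factorizes -/
lemma factor (β γ : Fin 3 → ℝ) (a : Fin 3 → ℕ) (n k : Z3) (x : ℝ) :
    ∑ p ∈ Bx a n, ex (x * (ph3 β γ p + ph3 β γ (k - p))) =
      ∏ i, ∑ m ∈ Finset.Ico ((2 : ℤ) ^ a i * n i) ((2 : ℤ) ^ a i * (n i + 1)),
        ex (x * (β i * ((k i : ℝ) ^ 3 - 3 * (k i : ℝ) ^ 2 * (m : ℝ) +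
          3 * (k i : ℝ) * (m : ℝ) ^ 2) + γ i * (k i : ℝ))) := by
  rw [Finset.prod_univ_sum]
  unfold Bx
  refine Finset.sum_congr rfl fun p _ => ?_
  rw [theta, Finset.mul_sum, ex_sum]

lemma W_bound (h3 : S_A3) {β : ℝ} (hβ : β ≠ 0) (γ : ℝ) (a : ℕ) (n k : ℤ) (x : ℝ) (hx : x ≠ 0)
    (hx1 : |x| ≤ 1) (hxa : 6 * |β| * |x| * 4 ^ a ≤ 1) (hk1 : (2 : ℤ) ^ a ≤ max |k| 1)
    (hk2 : |k| < (2 : ℤ) ^ (a + 1)) :
    ‖∑ m ∈ Finset.Ico ((2 : ℤ) ^ a * n) ((2 : ℤ) ^ a * (n + 1)),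
      ex (x * (β * ((k : ℝ) ^ 3 - 3 * (k : ℝ) ^ 2 * (m : ℝ) + 3 * (k : ℝ) * (m : ℝ) ^ 2) +
        γ * (k : ℝ)))‖ ≤
      (1 + √(20 * (3 * |β|) ^ (-(4 / 5) : ℝ))) *
        ((2 : ℝ) ^ a * min 1 ((((2 : ℝ) ^ a) ^ 3 * |x|) ^ (-(2 / 5) : ℝ))) := by
  have hβ0 : 0 < |β| := abs_pos.2 hβ
  have hx0 : 0 < |x| := abs_pos.2 hx
  obtain ⟨κ, hκ⟩ : ∃ κ : ℝ, κ = (2 : ℝ) ^ a := ⟨_, rfl⟩
  have hκ1 : 1 ≤ κ := by rw [hκ]; exact one_le_pow₀ (by norm_num)
  have hκ0 : 0 < κ := by linarith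
  have hκN : ((2 ^ a : ℕ) : ℝ) = κ := by rw [hκ]; push_cast; rfl
  obtain ⟨D, hD⟩ : ∃ D : ℝ, D = √(20 * (3 * |β|) ^ (-(4 / 5) : ℝ)) := ⟨_, rfl⟩
  have hD0 : 0 ≤ D := by rw [hD]; exact Real.sqrt_nonneg _
  have hsum : ∑ m ∈ Finset.Ico ((2 : ℤ) ^ a * n) ((2 : ℤ) ^ a * (n + 1)),
      ex (x * (β * ((k : ℝ) ^ 3 - 3 * (k : ℝ) ^ 2 * (m : ℝ) + 3 * (k : ℝ) * (m : ℝ) ^ 2) +
        γ * (k : ℝ))) = ex (x * (β * (k : ℝ) ^ 3 + γ * k)) * ∑ r ∈ range (2 ^ a),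
        ex ((3 * β * k * x) * ((((2 : ℤ) ^ a * n : ℤ) : ℝ) + r) ^ 2 +
          (-(3 * β * (k : ℝ) ^ 2 * x)) * ((((2 : ℤ) ^ a * n : ℤ) : ℝ) + r)) := by
    have h1 : (2 : ℤ) ^ a * (n + 1) = (2 : ℤ) ^ a * n + ((2 ^ a : ℕ) : ℤ) := by
      push_cast
      ring
    rw [h1, sum_int, Finset.mul_sum]
    refine Finset.sum_congr rfl fun r _ => ?_
    rw [← ex_add]
    congr 1
    push_cast
    ring
  rw [← hκ, ← hD, hsum, norm_mul, norm_ex, one_mul]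
  have htriv : ‖∑ r ∈ range (2 ^ a),
        ex ((3 * β * k * x) * ((((2 : ℤ) ^ a * n : ℤ) : ℝ) + r) ^ 2 +
          (-(3 * β * (k : ℝ) ^ 2 * x)) * ((((2 : ℤ) ^ a * n : ℤ) : ℝ) + r))‖ ≤ κ := by
    refine (norm_sum_le _ _).trans (le_of_eq ?_)
    simp only [norm_ex, Finset.sum_const, card_range, nsmul_eq_mul, mul_one]
    exact hκN
  obtain ⟨y, hy⟩ : ∃ y : ℝ, y = (κ ^ 3 * |x|) ^ (-(2 / 5) : ℝ) := ⟨_, rfl⟩
  have hy0 : 0 < y := by rw [hy]; positivity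
  rw [← hy]
  by_cases hk : k = 0
  · have h1 : (2 : ℤ) ^ a ≤ 1 := by
      rw [hk] at hk1
      simpa using hk1
    have h2 : a = 0 := by
      by_contra hne
      have h3 : (2 : ℤ) ^ 1 ≤ 2 ^ a := pow_le_pow_right₀ (by norm_num) (by omega)
      omega
    have hκe : κ = 1 := by rw [hκ, h2, pow_zero]
    have hy1 : 1 ≤ y := by
      rw [hy, hκe, one_pow, one_mul]
      exact Real.one_le_rpow_of_pos_of_le_one_of_nonpos hx0 hx1 (by norm_num)
    rw [min_eq_left hy1, mul_one]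
    refine htriv.trans ?_
    exact le_mul_of_one_le_left hκ0.le (by linarith)
  · have hk0 : 0 < |(k : ℝ)| := abs_pos.2 (by exact_mod_cast hk)
    have hk1' : κ ≤ |(k : ℝ)| := by
      have h1 : 1 ≤ |k| := Int.one_le_abs hk
      rw [max_eq_left h1] at hk1
      rw [hκ]
      exact_mod_cast hk1
    have hk2' : |(k : ℝ)| ≤ 2 * κ := by
      have h1 : |k| ≤ 2 * (2 : ℤ) ^ a := by
        rw [pow_succ] at hk2
        omega
      rw [hκ]
      exact_mod_cast h1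
    have hα : |3 * β * k * x| = 3 * |β| * |(k : ℝ)| * |x| := by
      rw [abs_mul, abs_mul, abs_mul, abs_of_pos (by norm_num : (0 : ℝ) < 3)]
    have h4 : (4 : ℝ) ^ a = κ * κ := by
      rw [hκ, ← mul_pow]
      norm_num
    have hαN : |3 * β * k * x| * ((2 ^ a : ℕ) : ℝ) ≤ Real.pi / 2 := by
      rw [hα, hκN]
      calc 3 * |β| * |(k : ℝ)| * |x| * κ ≤ 3 * |β| * (2 * κ) * |x| * κ := by gcongr
        _ = 6 * |β| * |x| * (κ * κ) := by ring
        _ ≤ 1 := by rw [← h4]; exact hxa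
        _ ≤ Real.pi / 2 := by linarith [Real.pi_gt_three]
    have hα0 : 3 * β * k * x ≠ 0 := by
      have h1 : (k : ℝ) ≠ 0 := by exact_mod_cast hk
      positivity
    have hA := h3 ((2 : ℤ) ^ a * n) (2 ^ a) (3 * β * k * x) (-(3 * β * (k : ℝ) ^ 2 * x))
      Nat.one_le_two_pow hα0 hαN
    rw [hκN, hα] at hA
    have hmain : ‖∑ r ∈ range (2 ^ a),
        ex ((3 * β * k * x) * ((((2 : ℤ) ^ a * n : ℤ) : ℝ) + r) ^ 2 +
          (-(3 * β * (k : ℝ) ^ 2 * x)) * ((((2 : ℤ) ^ a * n : ℤ) : ℝ) + r))‖ ≤ D * κ * y := by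
      refine (abs_le_of_sq_le_sq' (hA.trans ?_) (by positivity)).2
      have h5 : (3 * |β| * |(k : ℝ)| * |x|) ^ (-(4 / 5) : ℝ) ≤
          (3 * |β| * κ * |x|) ^ (-(4 / 5) : ℝ) := by
        apply Real.rpow_le_rpow_of_nonpos (by positivity) _ (by norm_num)
        gcongr
      have h6 : (3 * |β| * κ * |x|) ^ (-(4 / 5) : ℝ) =
          (3 * |β|) ^ (-(4 / 5) : ℝ) * κ ^ (-(4 / 5) : ℝ) * |x| ^ (-(4 / 5) : ℝ) := by
        rw [Real.mul_rpow (by positivity) (by positivity), Real.mul_rpow (by positivity)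
          (by positivity)]
      have h7 : y ^ 2 = κ ^ (-(12 / 5) : ℝ) * |x| ^ (-(4 / 5) : ℝ) := by
        rw [hy, ← Real.rpow_natCast _ 2, ← Real.rpow_mul (by positivity), Real.mul_rpow
          (by positivity) (by positivity), ← Real.rpow_natCast κ 3, ← Real.rpow_mul (by positivity)]
        norm_num
      have h8 : D ^ 2 = 20 * (3 * |β|) ^ (-(4 / 5) : ℝ) := by
        rw [hD]
        exact Real.sq_sqrt (by positivity)
      have h9 : κ ^ (2 / 5 : ℝ) * κ ^ (-(4 / 5) : ℝ) = κ ^ 2 * κ ^ (-(12 / 5) : ℝ) := by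
        rw [← Real.rpow_natCast κ 2, ← Real.rpow_add hκ0, ← Real.rpow_add hκ0]
        norm_num
      calc 20 * κ ^ (2 / 5 : ℝ) * (3 * |β| * |(k : ℝ)| * |x|) ^ (-(4 / 5) : ℝ)
          ≤ 20 * κ ^ (2 / 5 : ℝ) * (3 * |β| * κ * |x|) ^ (-(4 / 5) : ℝ) := by gcongr
        _ = (20 * (3 * |β|) ^ (-(4 / 5) : ℝ)) * (κ ^ (2 / 5 : ℝ) * κ ^ (-(4 / 5) : ℝ)) *
            |x| ^ (-(4 / 5) : ℝ) := by rw [h6]; ring
        _ = D ^ 2 * (κ ^ 2 * κ ^ (-(12 / 5) : ℝ)) * |x| ^ (-(4 / 5) : ℝ) := by rw [h8, h9]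
        _ = D ^ 2 * κ ^ 2 * y ^ 2 := by rw [h7]; ring
        _ = (D * κ * y) ^ 2 := by ring
    rcases le_total 1 y with h | h
    · rw [min_eq_left h, mul_one]
      refine htriv.trans ?_
      exact le_mul_of_one_le_left hκ0.le (by linarith)
    · rw [min_eq_right h]
      refine hmain.trans ?_
      have h5 : 0 ≤ κ * y := by positivity
      nlinarith

/-- the majorant -/
noncomputable def gg (κ : Fin 3 → ℝ) (t : ℝ) : ℝ :=
  ∏ l, (κ l * min 1 ((κ l ^ 3 * t) ^ (-(2 / 5) : ℝ)))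

lemma gg_meas (κ : Fin 3 → ℝ) : Measurable (gg κ) := by
  unfold gg
  refine Finset.measurable_prod _ fun l _ => ?_
  fun_prop

lemma gg_nonneg {κ : Fin 3 → ℝ} (hκ : ∀ l, 1 ≤ κ l) {t : ℝ} (ht : 0 ≤ t) : 0 ≤ gg κ t := by
  unfold gg
  refine Finset.prod_nonneg fun l _ => ?_
  have h1 : 0 ≤ κ l := by linarith [hκ l]
  positivity

lemma gg_le {κ : Fin 3 → ℝ} (hκ : ∀ l, 1 ≤ κ l) {t : ℝ} (ht : 0 ≤ t) : gg κ t ≤ ∏ l, κ l := by
  unfold gg
  refine Finset.prod_le_prod (fun l _ => ?_) fun l _ => ?_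
  · have h1 : 0 ≤ κ l := by linarith [hκ l]
    positivity
  · exact mul_le_of_le_one_right (by linarith [hκ l]) (min_le_left _ _)

lemma gg_int {κ : Fin 3 → ℝ} (hκ : ∀ l, 1 ≤ κ l) {τ : ℝ} (hτ : 0 < τ) (u v : ℝ) :
    IntervalIntegrable (fun s : ℝ => gg κ (τ * |s|)) volume u v := by
  rw [intervalIntegrable_iff]
  refine Measure.integrableOn_of_bounded (M := ∏ l, κ l) ?_ ?_ ?_
  · rw [uIoc]
    simp
  · refine Measurable.aestronglyMeasurable ?_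
    exact (gg_meas κ).comp (by fun_prop)
  · refine Filter.Eventually.of_forall fun s => ?_
    rw [Real.norm_eq_abs, abs_of_nonneg (gg_nonneg hκ (by positivity))]
    exact gg_le hκ (by positivity)

end A5L

open A5L in
theorem leaf_A5 (h1 : S_A1) (h3 : S_A3) (h4 : S_A4) : S_A5 := by
  intro β hβ
  obtain ⟨B, hB⟩ : ∃ B : ℝ, B = ∑ i, |β i| := ⟨_, rfl⟩
  have hB0 : 0 ≤ B := by rw [hB]; exact Finset.sum_nonneg fun i _ => abs_nonneg _
  have hBi : ∀ i, |β i| ≤ B := by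
    intro i
    rw [hB]
    exact Finset.single_le_sum (f := fun i => |β i|) (fun i _ => abs_nonneg _) (Finset.mem_univ i)
  obtain ⟨M, hM⟩ : ∃ M : ℝ, M = ∏ i, (1 + √(20 * (3 * |β i|) ^ (-(4 / 5) : ℝ))) := ⟨_, rfl⟩
  have hM0 : 0 < M := by
    rw [hM]
    exact Finset.prod_pos fun i _ => by positivity
  refine ⟨40 * M, 1 / (4 * (1 + 6 * B)), by positivity, by positivity, ?_⟩
  intro γ a n k τ hτ hτc hk i i' p
  have hτ1 : 4 * τ ≤ 1 := by
    have h5 := hτc 0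
    have h6 : τ ≤ τ * 4 ^ a 0 := le_mul_of_one_le_right hτ.le (one_le_pow₀ (by norm_num))
    have h7 : 1 / (4 * (1 + 6 * B)) ≤ 1 / 4 := by
      apply one_div_le_one_div_of_le (by norm_num)
      linarith
    linarith
  have hτ2 : ∀ l, 24 * |β l| * (τ * 4 ^ a l) ≤ 1 := by
    intro l
    calc 24 * |β l| * (τ * 4 ^ a l) ≤ 24 * B * (1 / (4 * (1 + 6 * B))) := by
          have := hBi l
          have := hτc l
          gcongr
      _ = 6 * B / (1 + 6 * B) := by field_simp; ring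
      _ ≤ 1 := by rw [div_le_one (by positivity)]; linarith
  obtain ⟨κ, hκ⟩ : ∃ κ : Fin 3 → ℝ, κ = fun l => (2 : ℝ) ^ a l := ⟨_, rfl⟩
  have hκ1 : ∀ l, 1 ≤ κ l := by
    intro l
    rw [hκ]
    exact one_le_pow₀ (by norm_num)
  obtain ⟨θ, hθ⟩ : ∃ θ : Z3 → ℝ, θ = fun p => ph3 β γ p + ph3 β γ (k - p) := ⟨_, rfl⟩
  have hθp : ∀ p, ph3 β γ p + ph3 β γ (k - p) = θ p := by
    intro p
    rw [hθ]
  simp only [hθp]
  -- the integral formula
  have hint : ((∑ p' ∈ Bx a n, Fk (τ * (θ p - θ p')) : ℝ) : ℂ) =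
      ∫ s in (-4 : ℝ)..4, ∑ p' ∈ Bx a n, ((2 * (1 - |s| / 4) : ℝ) : ℂ) *
        ex (s * (τ * (θ p - θ p'))) := by
    rw [intervalIntegral.integral_finsetSum]
    · push_cast
      refine Finset.sum_congr rfl fun p' _ => ?_
      rw [← h1.1]
      push_cast
      rfl
    · intro p' _
      apply Continuous.intervalIntegrable
      have h5 : Continuous fun s : ℝ => ex (s * (τ * (θ p - θ p'))) :=
        ex_cont.comp (by fun_prop)
      fun_prop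
  -- the pointwise bound
  have hpt : ∀ s : ℝ, s ≠ 0 → |s| ≤ 4 →
      ‖∑ p' ∈ Bx a n, ((2 * (1 - |s| / 4) : ℝ) : ℂ) * ex (s * (τ * (θ p - θ p')))‖ ≤
        2 * M * gg κ (τ * |s|) := by
    intro s hs hs4
    have hxs : |(-(s * τ))| = τ * |s| := by
      rw [abs_neg, abs_mul, abs_of_pos hτ, mul_comm]
    have h5 : ∑ p' ∈ Bx a n, ((2 * (1 - |s| / 4) : ℝ) : ℂ) * ex (s * (τ * (θ p - θ p'))) =
        ((2 * (1 - |s| / 4) : ℝ) : ℂ) * (ex (s * τ * θ p) *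
          ∑ p' ∈ Bx a n, ex (-(s * τ) * (ph3 β γ p' + ph3 β γ (k - p')))) := by
      rw [Finset.mul_sum, Finset.mul_sum]
      refine Finset.sum_congr rfl fun p' _ => ?_
      rw [← ex_add, hθp]
      congr 2
      ring
    rw [h5, norm_mul, norm_mul, norm_ex, one_mul, Complex.norm_real, Real.norm_eq_abs, factor,
      norm_prod, mul_assoc 2 M]
    refine mul_le_mul ?_ ?_ (Finset.prod_nonneg fun _ _ => norm_nonneg _) (by norm_num)
    · rw [abs_of_nonneg (by linarith)]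
      have := abs_nonneg s
      linarith
    · rw [hM, gg, ← Finset.prod_mul_distrib]
      refine Finset.prod_le_prod (fun _ _ => norm_nonneg _) fun l _ => ?_
      have hx1 : τ * |s| ≤ 1 := by
        calc τ * |s| ≤ τ * 4 := by gcongr
          _ ≤ 1 := by linarith
      have hx2 : 6 * |β l| * (τ * |s|) * 4 ^ a l ≤ 1 := by
        calc 6 * |β l| * (τ * |s|) * 4 ^ a l ≤ 6 * |β l| * (τ * 4) * 4 ^ a l := by gcongr
          _ = 24 * |β l| * (τ * 4 ^ a l) := by ring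
          _ ≤ 1 := hτ2 l
      have hW := W_bound h3 (hβ l) (γ l) (a l) (n l) (k l) (-(s * τ))
        (neg_ne_zero.2 (mul_ne_zero hs hτ.ne')) (by rw [hxs]; exact hx1)
        (by rw [hxs]; exact hx2) (hk l).1 (hk l).2
      rw [hxs] at hW
      rw [hκ]
      exact hW
  have hgi := gg_int hκ1 hτ
  have hle : ∑ p' ∈ Bx a n, Fk (τ * (θ p - θ p')) ≤
      ∫ s in (-4 : ℝ)..4, 2 * M * gg κ (τ * |s|) := by
    refine (le_abs_self _).trans ?_
    rw [← Real.norm_eq_abs, ← Complex.norm_real, hint]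
    refine intervalIntegral.norm_integral_le_of_norm_le (by norm_num) ?_
      ((hgi _ _).const_mul _)
    have h5 : ∀ᵐ s : ℝ, s ≠ 0 := by
      rw [ae_iff]
      simp
    filter_upwards [h5] with s hs hs2
    exact hpt s hs (abs_le.2 ⟨by linarith [hs2.1], hs2.2⟩)
  refine hle.trans ?_
  have hneg : ∫ s in (-4 : ℝ)..0, gg κ (τ * |s|) = ∫ s in (0 : ℝ)..4, gg κ (τ * |s|) := by
    have h5 := intervalIntegral.integral_comp_neg (a := (0 : ℝ)) (b := 4)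
      (fun s : ℝ => gg κ (τ * |s|))
    rw [neg_zero] at h5
    rw [← h5]
    simp only [abs_neg]
  have hpos : ∫ s in (0 : ℝ)..4, gg κ (τ * |s|) = τ⁻¹ * ∫ t in (0 : ℝ)..(4 * τ), gg κ t := by
    have h5 : ∫ s in (0 : ℝ)..4, gg κ (τ * |s|) = ∫ s in (0 : ℝ)..4, gg κ (τ * s) := by
      refine intervalIntegral.integral_congr fun s hs => ?_
      rw [Set.uIcc_of_le (by norm_num)] at hs
      show gg κ (τ * |s|) = gg κ (τ * s)
      rw [abs_of_nonneg hs.1]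
    rw [h5, intervalIntegral.integral_comp_mul_left _ hτ.ne', smul_eq_mul, mul_zero, mul_comm τ 4]
  have hA4 := h4 κ hκ1 (4 * τ) (by positivity) i i'
  have hA4' : ∫ t in (0 : ℝ)..(4 * τ), gg κ t ≤ 10 * (κ i / κ i') ^ (1 / 5 : ℝ) := hA4
  rw [intervalIntegral.integral_const_mul,
    ← intervalIntegral.integral_add_adjacent_intervals (hgi (-4) 0) (hgi 0 4), hneg, hpos]
  calc 2 * M * (τ⁻¹ * (∫ t in (0 : ℝ)..(4 * τ), gg κ t) +
        τ⁻¹ * ∫ t in (0 : ℝ)..(4 * τ), gg κ t)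
      = 4 * M * τ⁻¹ * ∫ t in (0 : ℝ)..(4 * τ), gg κ t := by ring
    _ ≤ 4 * M * τ⁻¹ * (10 * (κ i / κ i') ^ (1 / 5 : ℝ)) := by
        gcongr
    _ = _ := by
        rw [hκ]
        ring

end Pool.Agent.H259.ND
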