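import Pool.Agent.H259.ND.Stmt

set_option autoImplicit false

/-!
# A6: from boxes to all frequencies
-/

open MeasureTheory Set Finset

namespace Pool.Agent.H259.ND

namespace A6L

/-- the number of the box -/
def bx (a : Fin 3 → ℕ) (p : Z3) : Z3 := fun i => p i / (2 : ℤ) ^ a i

theorem mem_box (a : Fin 3 → ℕ) (p : Z3) : p ∈ Bx a (bx a p) := by
  unfold Bx
  rw [Fintype.mem_piFinset]
  intro i
  have hK : (0 : ℤ) < (2 : ℤ) ^ a i := by positivity
  rw [Finset.mem_Ico]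
  refine ⟨Int.mul_ediv_self_le hK.ne', ?_⟩
  have h1 := Int.lt_mul_ediv_self_add (x := p i) hK
  show p i < (2 : ℤ) ^ a i * (p i / (2 : ℤ) ^ a i + 1)
  rw [mul_add, mul_one]
  exact h1

theorem range_e {K k p : ℤ} (hK : 0 < K) (hk : |k| < 2 * K) :
    -3 ≤ (k - p) / K + p / K ∧ (k - p) / K + p / K ≤ 1 := by
  obtain ⟨x, hx⟩ : ∃ x, x = p / K := ⟨_, rfl⟩
  obtain ⟨y, hy⟩ : ∃ y, y = (k - p) / K := ⟨_, rfl⟩
  have h1 : K * x ≤ p := hx ▸ Int.mul_ediv_self_le hK.ne'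
  have h2 : p < K * x + K := hx ▸ Int.lt_mul_ediv_self_add hK
  have h3 : K * y ≤ k - p := hy ▸ Int.mul_ediv_self_le hK.ne'
  have h4 : k - p < K * y + K := hy ▸ Int.lt_mul_ediv_self_add hK
  rw [← hx, ← hy]
  obtain ⟨h5, h6⟩ := abs_lt.1 hk
  constructor
  · by_contra hcon
    have h7 : y + x ≤ -4 := by omega
    have h8 : K * (y + x) ≤ K * (-4) := mul_le_mul_of_nonneg_left h7 hK.le
    rw [mul_add] at h8
    linarith
  · by_contra hcon
    have h7 : 2 ≤ y + x := by omega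
    have h8 : K * 2 ≤ K * (y + x) := mul_le_mul_of_nonneg_left h7 hK.le
    rw [mul_add] at h8
    linarith

/-- the possible differences -/
noncomputable def EE : Finset Z3 := Fintype.piFinset fun _ => Finset.Icc (-3 : ℤ) 1

theorem card_EE : EE.card = 125 := by
  unfold EE
  rw [Fintype.card_piFinset]
  simp

theorem mem_EE {a : Fin 3 → ℕ} {k p : Z3} (hk : ∀ i, |k i| < (2 : ℤ) ^ (a i + 1)) :
    bx a (k - p) + bx a p ∈ EE := by
  unfold EE
  rw [Fintype.mem_piFinset]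
  intro i
  rw [Finset.mem_Icc]
  have hK : (0 : ℤ) < (2 : ℤ) ^ a i := by positivity
  have h1 := hk i
  rw [pow_succ, mul_comm] at h1
  exact range_e (p := p i) hK h1

theorem cont_ex (c : ℝ) : Continuous fun t : ℝ => ex (c * t) := by
  unfold ex
  fun_prop

theorem cont_term {ι : Type} (P : Finset ι) (c : ι → ℂ) (θ : ι → ℝ) :
    Continuous fun t : ℝ => ‖∑ p ∈ P, c p * ex (θ p * t)‖ ^ 2 :=
  ((continuous_finsetSum P fun p _ => continuous_const.mul (cont_ex (θ p))).norm).pow 2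

section main

variable (a : Fin 3 → ℕ) (P R : Finset Z3) (u v : Z3 → ℂ)

open Classical in
/-- the points in the box `x.1` with `k - p` in the box `x.2 - x.1` -/
noncomputable def Pk (k : Z3) (x : Z3 × Z3) : Finset Z3 :=
  P.filter fun p => bx a p = x.1 ∧ bx a (k - p) = x.2 - x.1

open Classical in
/-- `U ^ 2` -/
noncomputable def U2 (n : Z3) : ℝ := ∑ p ∈ P.filter (fun p => bx a p = n), ‖u p‖ ^ 2

theorem U2_nonneg (n : Z3) : 0 ≤ U2 a P u n := Finset.sum_nonneg fun _ _ => sq_nonneg _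

/-- the weights -/
noncomputable def wt (x : Z3 × Z3) : ℝ := √(U2 a P u x.1) * √(U2 a R v (x.2 - x.1))

theorem wt_nonneg (x : Z3 × Z3) : 0 ≤ wt a P R u v x :=
  mul_nonneg (Real.sqrt_nonneg _) (Real.sqrt_nonneg _)

theorem wt_sq (x : Z3 × Z3) :
    wt a P R u v x ^ 2 = U2 a P u x.1 * U2 a R v (x.2 - x.1) := by
  unfold wt
  rw [mul_pow, Real.sq_sqrt (U2_nonneg _ _ _ _), Real.sq_sqrt (U2_nonneg _ _ _ _)]

open Classical in
theorem sum_U2 : ∑ n ∈ P.image (bx a), U2 a P u n = ∑ p ∈ P, ‖u p‖ ^ 2 := by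
  unfold U2
  exact Finset.sum_fiberwise_of_maps_to (fun p hp => Finset.mem_image_of_mem _ hp) _

open Classical in
theorem sum_V2 (N : Finset Z3) (e : Z3) :
    ∑ n ∈ N, U2 a R v (e - n) ≤ ∑ q ∈ R, ‖v q‖ ^ 2 := by
  unfold U2
  simp only [Finset.sum_filter]
  rw [Finset.sum_comm]
  refine Finset.sum_le_sum fun q _ => ?_
  have h1 : ∀ n ∈ N, (if bx a q = e - n then ‖v q‖ ^ 2 else 0) =
      if n = e - bx a q then ‖v q‖ ^ 2 else 0 := by
    intro n _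
    have : bx a q = e - n ↔ n = e - bx a q := by
      constructor
      · intro h
        rw [h]
        abel
      · intro h
        rw [h]
        abel
    simp only [this]
  rw [Finset.sum_congr rfl h1, Finset.sum_ite_eq']
  split_ifs
  · exact le_rfl
  · exact sq_nonneg _

open Classical in
/-- the sum of the weights -/
theorem sum_wt :
    (∑ x ∈ P.image (bx a) ×ˢ EE, wt a P R u v x) ^ 2 ≤
      15625 * (∑ p ∈ P, ‖u p‖ ^ 2) * (∑ q ∈ R, ‖v q‖ ^ 2) := by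
  have h1 : ∀ e : Z3, (∑ n ∈ P.image (bx a), wt a P R u v (n, e)) ^ 2 ≤
      (∑ p ∈ P, ‖u p‖ ^ 2) * (∑ q ∈ R, ‖v q‖ ^ 2) := by
    intro e
    unfold wt
    refine (Finset.sum_mul_sq_le_sq_mul_sq _ _ _).trans ?_
    have h2 : ∑ n ∈ P.image (bx a), √(U2 a P u n) ^ 2 = ∑ p ∈ P, ‖u p‖ ^ 2 := by
      rw [← sum_U2 a P u]
      exact Finset.sum_congr rfl fun n _ => Real.sq_sqrt (U2_nonneg _ _ _ _)
    have h3 : ∑ n ∈ P.image (bx a), √(U2 a R v (e - n)) ^ 2 ≤ ∑ q ∈ R, ‖v q‖ ^ 2 := by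
      refine le_trans (le_of_eq ?_) (sum_V2 a R v (P.image (bx a)) e)
      exact Finset.sum_congr rfl fun n _ => Real.sq_sqrt (U2_nonneg _ _ _ _)
    show (∑ n ∈ P.image (bx a), √(U2 a P u n) ^ 2) *
      (∑ n ∈ P.image (bx a), √(U2 a R v (e - n)) ^ 2) ≤ _
    rw [h2]
    exact mul_le_mul_of_nonneg_left h3 (Finset.sum_nonneg fun _ _ => sq_nonneg _)
  rw [Finset.sum_product_right]
  refine sq_sum_le_card_mul_sum_sq.trans ?_
  rw [card_EE]
  have h4 := Finset.sum_le_sum fun e (_ : e ∈ EE) => h1 e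
  rw [Finset.sum_const, card_EE, nsmul_eq_mul] at h4
  push_cast at h4 ⊢
  linarith

open Classical in
/-- the decomposition -/
theorem decomp {k : Z3} (hk : ∀ i, |k i| < (2 : ℤ) ^ (a i + 1)) (f : Z3 → ℂ) :
    ∑ p ∈ P, f p = ∑ x ∈ P.image (bx a) ×ˢ EE, ∑ p ∈ Pk a P k x, f p := by
  have h1 : ∀ p ∈ P, ((bx a p, bx a (k - p) + bx a p) : Z3 × Z3) ∈ P.image (bx a) ×ˢ EE :=
    fun p hp => Finset.mem_product.2 ⟨Finset.mem_image_of_mem _ hp, mem_EE hk⟩
  rw [← Finset.sum_fiberwise_of_maps_to h1]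
  refine Finset.sum_congr rfl fun x _ => ?_
  refine Finset.sum_congr ?_ fun _ _ => rfl
  unfold Pk
  refine Finset.filter_congr fun p _ => ?_
  constructor
  · rintro rfl
    refine ⟨rfl, ?_⟩
    show bx a (k - p) = bx a (k - p) + bx a p - bx a p
    abel
  · rintro ⟨h2, h3⟩
    refine Prod.ext h2 ?_
    show bx a (k - p) + bx a p = x.2
    rw [h2, h3]
    abel

open Classical in
/-- the terms vanish if the weight is zero -/
theorem term_zero (hv : ∀ q ∉ R, v q = 0) {k : Z3} {x : Z3 × Z3} (hw : wt a P R u v x = 0)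
    {p : Z3} (hp : p ∈ Pk a P k x) : u p * v (k - p) = 0 := by
  unfold Pk at hp
  obtain ⟨hp1, hp2, hp3⟩ := Finset.mem_filter.1 hp
  unfold wt at hw
  rcases mul_eq_zero.1 hw with h | h
  · have h1 := (Real.sqrt_eq_zero (U2_nonneg _ _ _ _)).1 h
    unfold U2 at h1
    have h2 := (Finset.sum_eq_zero_iff_of_nonneg fun _ _ => sq_nonneg _).1 h1 p
      (Finset.mem_filter.2 ⟨hp1, hp2⟩)
    have h3 : u p = 0 := norm_eq_zero.1 (pow_eq_zero_iff two_ne_zero |>.1 h2)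
    rw [h3, zero_mul]
  · by_cases hR : k - p ∈ R
    · have h1 := (Real.sqrt_eq_zero (U2_nonneg _ _ _ _)).1 h
      unfold U2 at h1
      have h2 := (Finset.sum_eq_zero_iff_of_nonneg fun _ _ => sq_nonneg _).1 h1 (k - p)
        (Finset.mem_filter.2 ⟨hR, hp3⟩)
      have h3 : v (k - p) = 0 := norm_eq_zero.1 (pow_eq_zero_iff two_ne_zero |>.1 h2)
      rw [h3, mul_zero]
    · rw [hv _ hR, mul_zero]

open Classical in
/-- the sum over the output frequencies -/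
theorem sum_out (𝒦 : Finset Z3) (hv : ∀ q ∉ R, v q = 0) (x : Z3 × Z3) :
    ∑ k ∈ 𝒦, ∑ p ∈ Pk a P k x, ‖u p * v (k - p)‖ ^ 2 ≤ wt a P R u v x ^ 2 := by
  rw [wt_sq]
  have h1 : ∀ k ∈ 𝒦, ∑ p ∈ Pk a P k x, ‖u p * v (k - p)‖ ^ 2 =
      ∑ p ∈ P.filter (fun p => bx a p = x.1),
        if bx a (k - p) = x.2 - x.1 then ‖u p‖ ^ 2 * ‖v (k - p)‖ ^ 2 else 0 := by
    intro k _
    unfold Pk
    rw [← Finset.filter_filter, Finset.sum_filter]
    refine Finset.sum_congr rfl fun p _ => ?_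
    rw [norm_mul, mul_pow]
  rw [Finset.sum_congr rfl h1, Finset.sum_comm]
  unfold U2
  rw [Finset.sum_mul]
  refine Finset.sum_le_sum fun p _ => ?_
  have h2 : ∀ k ∈ 𝒦, (if bx a (k - p) = x.2 - x.1 then ‖u p‖ ^ 2 * ‖v (k - p)‖ ^ 2 else 0) =
      ‖u p‖ ^ 2 * (if bx a (k - p) = x.2 - x.1 then ‖v (k - p)‖ ^ 2 else 0) := by
    intro k _
    rw [mul_ite, mul_zero]
  rw [Finset.sum_congr rfl h2, ← Finset.mul_sum]
  refine mul_le_mul_of_nonneg_left ?_ (sq_nonneg _)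
  have h3 : ∑ k ∈ 𝒦, (if bx a (k - p) = x.2 - x.1 then ‖v (k - p)‖ ^ 2 else 0) =
      ∑ q ∈ 𝒦.image (fun k => k - p), (if bx a q = x.2 - x.1 then ‖v q‖ ^ 2 else 0) := by
    rw [Finset.sum_image]
    intro k _ k' _ h
    exact sub_left_injective h
  rw [h3, Finset.sum_filter]
  have h4 : ∑ q ∈ 𝒦.image (fun k => k - p), (if bx a q = x.2 - x.1 then ‖v q‖ ^ 2 else 0) =
      ∑ q ∈ (𝒦.image (fun k => k - p)) ∩ R, (if bx a q = x.2 - x.1 then ‖v q‖ ^ 2 else 0) := by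
    symm
    refine Finset.sum_subset Finset.inter_subset_left fun q hq hq' => ?_
    have h5 : q ∉ R := fun h => hq' (Finset.mem_inter.2 ⟨hq, h⟩)
    rw [hv q h5]
    simp
  rw [h4]
  refine Finset.sum_le_sum_of_subset_of_nonneg Finset.inter_subset_right fun q _ _ => ?_
  split_ifs
  · exact sq_nonneg _
  · exact le_rfl

end main

end A6L

open A6L in
open Classical in
theorem leaf_A6 (h1 : S_A1) (h2 : S_A2) : S_A6 := by
  intro a 𝒦 P R θ u v s τ B hτ hB hk hv hbox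
  obtain ⟨-, F0, -, -, -⟩ := h1
  have hst : s ≤ s + τ := by linarith
  set I : Finset (Z3 × Z3) := P.image (bx a) ×ˢ EE with hI
  set w : Z3 × Z3 → ℝ := wt a P R u v with hw
  have hw0 : ∀ x, 0 ≤ w x := fun x => wt_nonneg a P R u v x
  -- the pieces
  let Q : Z3 → Z3 × Z3 → ℝ → ℂ := fun k x t =>
    ∑ p ∈ Pk a P k x, u p * v (k - p) * ex (θ k p * t)
  have hQc : ∀ k x, Continuous fun t => ‖Q k x t‖ ^ 2 := fun k x =>
    cont_term (Pk a P k x) (fun p => u p * v (k - p)) (θ k)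
  -- the pointwise bound
  have hpt : ∀ t : ℝ, ∑ k ∈ 𝒦, ‖∑ p ∈ P, u p * v (k - p) * ex (θ k p * t)‖ ^ 2 ≤
      (∑ x ∈ I, w x) * ∑ x ∈ I, (∑ k ∈ 𝒦, ‖Q k x t‖ ^ 2) / w x := by
    intro t
    have h3 : ∀ k ∈ 𝒦, ‖∑ p ∈ P, u p * v (k - p) * ex (θ k p * t)‖ ^ 2 ≤
        (∑ x ∈ I, w x) * ∑ x ∈ I, ‖Q k x t‖ ^ 2 / w x := by
      intro k hkk
      rw [decomp a P (hk k hkk) (fun p => u p * v (k - p) * ex (θ k p * t))]
      have h4 : ‖∑ x ∈ I, Q k x t‖ ^ 2 ≤ (∑ x ∈ I, ‖Q k x t‖) ^ 2 :=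
        pow_le_pow_left₀ (norm_nonneg _) (norm_sum_le _ _) 2
      refine h4.trans ?_
      refine Finset.sum_sq_le_sum_mul_sum_of_sq_le_mul I (fun x _ => hw0 x)
        (fun x _ => div_nonneg (sq_nonneg _) (hw0 x)) fun x _ => le_of_eq ?_
      by_cases h5 : w x = 0
      · have h6 : Q k x t = 0 := by
          refine Finset.sum_eq_zero fun p hp => ?_
          rw [term_zero a P R u v hv h5 hp, zero_mul]
        rw [h6, norm_zero, h5]
        simp
      · rw [mul_div_cancel₀ _ h5]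
    refine (Finset.sum_le_sum h3).trans (le_of_eq ?_)
    rw [← Finset.mul_sum, Finset.sum_comm]
    congr 1
    refine Finset.sum_congr rfl fun x _ => ?_
    rw [Finset.sum_div]
  -- the integral of a piece
  have hint : ∀ x ∈ I, ∫ t in s..(s + τ), (∑ k ∈ 𝒦, ‖Q k x t‖ ^ 2) / w x ≤ τ * B * w x := by
    intro x _
    rw [intervalIntegral.integral_div]
    have h3 : ∫ t in s..(s + τ), ∑ k ∈ 𝒦, ‖Q k x t‖ ^ 2 ≤ τ * B * w x ^ 2 := by
      rw [intervalIntegral.integral_finsetSum fun k _ => (hQc k x).intervalIntegrable _ _]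
      have h4 : ∀ k ∈ 𝒦, ∫ t in s..(s + τ), ‖Q k x t‖ ^ 2 ≤
          τ * B * ∑ p ∈ Pk a P k x, ‖u p * v (k - p)‖ ^ 2 := by
        intro k hkk
        refine h2 Z3 (Pk a P k x) (fun p => u p * v (k - p)) (θ k) s τ B hτ fun p hp => ?_
        refine le_trans (Finset.sum_le_sum_of_subset_of_nonneg ?_ fun q _ _ => F0 _)
          (hbox k hkk x.1 p)
        intro q hq
        unfold Pk at hq
        obtain ⟨-, h5, -⟩ := Finset.mem_filter.1 hq
        rw [← h5]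
        exact mem_box a q
      refine (Finset.sum_le_sum h4).trans ?_
      rw [← Finset.mul_sum]
      exact mul_le_mul_of_nonneg_left (sum_out a P R u v 𝒦 hv x) (mul_nonneg hτ.le hB)
    by_cases h5 : w x = 0
    · rw [h5, div_zero, mul_zero]
    · have h6 : 0 < w x := lt_of_le_of_ne (hw0 x) (Ne.symm h5)
      rw [div_le_iff₀ h6]
      calc ∫ t in s..(s + τ), ∑ k ∈ 𝒦, ‖Q k x t‖ ^ 2 ≤ τ * B * w x ^ 2 := h3
        _ = τ * B * w x * w x := by ring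
  have hc1 : Continuous fun t : ℝ =>
      ∑ k ∈ 𝒦, ‖∑ p ∈ P, u p * v (k - p) * ex (θ k p * t)‖ ^ 2 :=
    continuous_finsetSum _ fun k _ => cont_term P (fun p => u p * v (k - p)) (θ k)
  have hc2 : ∀ x, Continuous fun t : ℝ => (∑ k ∈ 𝒦, ‖Q k x t‖ ^ 2) / w x := fun x =>
    (continuous_finsetSum _ fun k _ => hQc k x).div_const _
  have hc3 : Continuous fun t : ℝ =>
      (∑ x ∈ I, w x) * ∑ x ∈ I, (∑ k ∈ 𝒦, ‖Q k x t‖ ^ 2) / w x :=
    continuous_const.mul (continuous_finsetSum _ fun x _ => hc2 x)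
  calc ∫ t in s..(s + τ), ∑ k ∈ 𝒦, ‖∑ p ∈ P, u p * v (k - p) * ex (θ k p * t)‖ ^ 2
      ≤ ∫ t in s..(s + τ), (∑ x ∈ I, w x) * ∑ x ∈ I, (∑ k ∈ 𝒦, ‖Q k x t‖ ^ 2) / w x :=
        intervalIntegral.integral_mono hst (hc1.intervalIntegrable _ _)
          (hc3.intervalIntegrable _ _) hpt
    _ = (∑ x ∈ I, w x) * ∑ x ∈ I, ∫ t in s..(s + τ), (∑ k ∈ 𝒦, ‖Q k x t‖ ^ 2) / w x := by
        rw [intervalIntegral.integral_const_mul,
          intervalIntegral.integral_finsetSum fun x _ => (hc2 x).intervalIntegrable _ _]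
    _ ≤ (∑ x ∈ I, w x) * ∑ x ∈ I, τ * B * w x :=
        mul_le_mul_of_nonneg_left (Finset.sum_le_sum hint) (Finset.sum_nonneg fun x _ => hw0 x)
    _ = τ * B * (∑ x ∈ I, w x) ^ 2 := by
        rw [← Finset.mul_sum]
        ring
    _ ≤ τ * B * (15625 * (∑ p ∈ P, ‖u p‖ ^ 2) * (∑ q ∈ R, ‖v q‖ ^ 2)) :=
        mul_le_mul_of_nonneg_left (sum_wt a P R u v) (mul_nonneg hτ.le hB)
    _ = 15625 * τ * B * (∑ p ∈ P, ‖u p‖ ^ 2) * (∑ q ∈ R, ‖v q‖ ^ 2) := by ring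

end Pool.Agent.H259.ND
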