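import Pool.Agent.H259.ND.Stmt

/-!
# A7: bilinear estimate for one output shell
-/

set_option autoImplicit false

open MeasureTheory Set Finset

namespace Pool.Agent.H259.ND

namespace A7L

/-- the class of a frequency -/
def cl (k : Z3) (i : Fin 3) : ℕ := Nat.log 2 (max (k i).natAbs 1)

theorem cl_spec (k : Z3) (i : Fin 3) :
    (2 : ℤ) ^ cl k i ≤ max |k i| 1 ∧ |k i| < (2 : ℤ) ^ (cl k i + 1) := by
  have h1 : 2 ^ cl k i ≤ max (k i).natAbs 1 :=
    Nat.pow_log_le_self 2 (by have := le_max_right (k i).natAbs 1; omega)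
  have h2 : max (k i).natAbs 1 < 2 ^ (cl k i + 1) := Nat.lt_pow_succ_log_self (by norm_num) _
  have e : (|k i| : ℤ) = ((k i).natAbs : ℤ) := (Int.natCast_natAbs (k i)).symm
  rw [e]
  constructor
  · exact_mod_cast h1
  · have h3 : (k i).natAbs < 2 ^ (cl k i + 1) := lt_of_le_of_lt (le_max_left _ _) h2
    exact_mod_cast h3

theorem cl_le {j : ℕ} {k : Z3} (h : InSh j k) (i : Fin 3) : cl k i ≤ j := by
  by_contra hcon
  rw [not_le] at hcon
  obtain ⟨h1, -⟩ := cl_spec k i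
  have h2 : (2 : ℤ) ^ (j + 1) ≤ (2 : ℤ) ^ cl k i := pow_le_pow_right₀ (by norm_num) hcon
  have h3 : (2 : ℤ) ≤ 2 ^ (j + 1) := by
    calc (2 : ℤ) = 2 ^ 1 := by norm_num
      _ ≤ 2 ^ (j + 1) := pow_le_pow_right₀ (by norm_num) (by omega)
  have h4 : (2 : ℤ) ^ (j + 1) ≤ |k i| := by
    rcases le_total |k i| 1 with h5 | h5
    · rw [max_eq_right h5] at h1
      omega
    · rw [max_eq_left h5] at h1
      exact h2.trans h1
  have h5 : (4 : ℤ) ^ (j + 1) ≤ k i ^ 2 := by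
    have := pow_le_pow_left₀ (by positivity) h4 2
    rw [sq_abs, ← pow_mul, mul_comm, pow_mul] at this
    norm_num at this
    exact this
  have h6 : k i ^ 2 ≤ sq3 k := by
    unfold sq3
    exact Finset.single_le_sum (f := fun i => k i ^ 2) (fun i _ => sq_nonneg (k i)) (mem_univ i)
  have h7 := h.2
  omega

theorem cl_ge {j : ℕ} {k : Z3} (h : InSh j k) : ∃ i, j ≤ cl k i + 1 := by
  by_contra hcon
  push Not at hcon
  obtain ⟨j', rfl⟩ : ∃ j', j = j' + 1 := ⟨j - 1, by have := hcon 0; omega⟩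
  have h1 : ∀ i, k i ^ 2 ≤ (4 : ℤ) ^ j' := by
    intro i
    have h2 := (cl_spec k i).2
    have h3 : (2 : ℤ) ^ (cl k i + 1) ≤ 2 ^ j' :=
      pow_le_pow_right₀ (by norm_num) (by have := hcon i; omega)
    have h4 : |k i| ≤ (2 : ℤ) ^ j' := (h2.trans_le h3).le
    have := pow_le_pow_left₀ (abs_nonneg _) h4 2
    rw [sq_abs, ← pow_mul, mul_comm, pow_mul] at this
    norm_num at this
    exact this
  have h2 := h.1
  unfold sq3 at h2
  rw [Fin.sum_univ_three, pow_succ] at h2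
  have h3 : (0 : ℤ) < 4 ^ j' := by positivity
  have := h1 0
  have := h1 1
  have := h1 2
  linarith

/-- the base `2 ^ (1/10)` -/
noncomputable def ρ : ℝ := (2 : ℝ) ^ (1 / 10 : ℝ)

theorem ρ_pos : 0 < ρ := Real.rpow_pos_of_pos (by norm_num) _

theorem ρ_gt : 1 < ρ := Real.one_lt_rpow (by norm_num) (by norm_num)

theorem ρ_pow : ρ ^ 10 = 2 := by
  unfold ρ
  rw [← Real.rpow_natCast, ← Real.rpow_mul (by norm_num)]
  norm_num

theorem quot (a b : ℕ) : ((2 : ℝ) ^ a / 2 ^ b) ^ (1 / 5 : ℝ) = ρ ^ (2 * a) / ρ ^ (2 * b) := by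
  have e : (2 : ℝ) ^ a / 2 ^ b = (ρ ^ (2 * a) / ρ ^ (2 * b)) ^ 5 := by
    rw [div_pow, ← pow_mul, ← pow_mul, ← ρ_pow, ← pow_mul, ← pow_mul]
    congr 2 <;> ring
  have hp : 0 ≤ ρ ^ (2 * a) / ρ ^ (2 * b) := by
    have := ρ_pos
    positivity
  have e2 : (1 / 5 : ℝ) = ((5 : ℕ) : ℝ)⁻¹ := by norm_num
  rw [e, e2, Real.pow_rpow_inv_natCast hp (by norm_num)]

/-- the weight of a class -/
noncomputable def wg (j : ℕ) (a : Fin 3 → ℕ) : ℝ := ∏ i, (ρ⁻¹) ^ (j - a i)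

theorem wg_pos (j : ℕ) (a : Fin 3 → ℕ) : 0 < wg j a :=
  Finset.prod_pos fun i _ => pow_pos (inv_pos.2 ρ_pos) _

/-- the sum of the weights -/
theorem sum_wg (j : ℕ) (A : Finset (Fin 3 → ℕ)) (hA : ∀ a ∈ A, ∀ i, a i ≤ j) :
    ∑ a ∈ A, wg j a ≤ ((1 - ρ⁻¹)⁻¹) ^ 3 := by
  have hr0 : 0 ≤ ρ⁻¹ := (inv_pos.2 ρ_pos).le
  have hr1 : ρ⁻¹ < 1 := inv_lt_one_of_one_lt₀ ρ_gt
  have h1 : A ⊆ Fintype.piFinset fun _ : Fin 3 => range (j + 1) := by
    intro a ha
    rw [Fintype.mem_piFinset]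
    intro i
    rw [Finset.mem_range]
    exact Nat.lt_succ_of_le (hA a ha i)
  have h2 : ∑ a ∈ A, wg j a ≤ ∑ a ∈ Fintype.piFinset fun _ : Fin 3 => range (j + 1), wg j a :=
    Finset.sum_le_sum_of_subset_of_nonneg h1 fun a _ _ => (wg_pos j a).le
  refine h2.trans ?_
  unfold wg
  have h3 : ∑ a ∈ Fintype.piFinset (fun _ : Fin 3 => range (j + 1)), ∏ i, (ρ⁻¹) ^ (j - a i) =
      ∏ _i : Fin 3, ∑ m ∈ range (j + 1), (ρ⁻¹) ^ (j - m) :=
    (Finset.prod_univ_sum (fun _ : Fin 3 => range (j + 1)) (fun _ m => (ρ⁻¹) ^ (j - m))).symm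
  rw [h3, Finset.prod_const, Finset.card_univ, Fintype.card_fin]
  refine pow_le_pow_left₀ (Finset.sum_nonneg fun m _ => pow_nonneg hr0 _) ?_ 3
  have h4 : ∑ m ∈ range (j + 1), (ρ⁻¹) ^ (j - m) = ∑ m ∈ range (j + 1), (ρ⁻¹) ^ m := by
    rw [← Finset.sum_range_reflect]
    refine Finset.sum_congr rfl fun m hm => ?_
    rw [Finset.mem_range] at hm
    have e : j - (j + 1 - 1 - m) = m := by omega
    rw [e]
  rw [h4]
  have h5 := Summable.sum_le_tsum (range (j + 1)) (fun m _ => pow_nonneg hr0 m)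
    (summable_geometric_of_lt_one hr0 hr1)
  rwa [tsum_geometric_of_lt_one hr0 hr1] at h5

/-- the bound for one class -/
theorem wg_ge {j : ℕ} {a : Fin 3 → ℕ} (hj : ∀ i, a i ≤ j) (hex : ∃ i, j ≤ a i + 1) :
    ∃ i i' : Fin 3, ((2 : ℝ) ^ a i / 2 ^ a i') ^ (1 / 5 : ℝ) ≤ ρ ^ 3 * wg j a := by
  obtain ⟨i, -, hi⟩ := Finset.exists_min_image (univ : Finset (Fin 3)) a ⟨0, mem_univ _⟩
  obtain ⟨i', -, hi'⟩ := Finset.exists_max_image (univ : Finset (Fin 3)) a ⟨0, mem_univ _⟩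
  refine ⟨i, i', ?_⟩
  have hmax : j ≤ a i' + 1 := by
    obtain ⟨l, hl⟩ := hex
    have := hi' l (mem_univ _)
    omega
  rw [quot]
  have hρ := ρ_pos
  have e1 : wg j a = (ρ ^ (∑ l, (j - a l)))⁻¹ := by
    unfold wg
    rw [← Finset.prod_pow_eq_pow_sum, ← Finset.prod_inv_distrib]
    refine Finset.prod_congr rfl fun l _ => ?_
    rw [inv_pow]
  rw [e1, ← div_eq_mul_inv, div_le_div_iff₀ (by positivity) (by positivity), ← pow_add, ← pow_add]
  refine pow_le_pow_right₀ ρ_gt.le ?_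
  rw [Fin.sum_univ_three]
  have m0 := hi 0 (mem_univ _)
  have m1 := hi 1 (mem_univ _)
  have m2 := hi 2 (mem_univ _)
  have n0 := hj 0
  have n1 := hj 1
  have n2 := hj 2
  have hii : a i ≤ a i' := hi i' (mem_univ _)
  have hcases : i' = 0 ∨ i' = 1 ∨ i' = 2 := by
    fin_cases i' <;> simp
  rcases hcases with h | h | h
  · rw [h] at hmax hii ⊢
    omega
  · rw [h] at hmax hii ⊢
    omega
  · rw [h] at hmax hii ⊢
    omega

theorem cont_Qb (φ : Z3 → ℝ) (P : Finset Z3) (u v : Z3 → ℂ) (k : Z3) :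
    Continuous fun t => ‖Qb φ P u v k t‖ ^ 2 := by
  unfold Qb ex
  refine Continuous.pow (Continuous.norm ?_) 2
  refine continuous_finset_sum _ fun p _ => ?_
  refine continuous_const.mul ?_
  refine Complex.continuous_exp.comp ?_
  refine Continuous.mul ?_ continuous_const
  exact Complex.continuous_ofReal.comp (continuous_const.mul continuous_id)

end A7L

open A7L in
theorem leaf_A7 (h1 : S_A1) (h5 : S_A5) (h6 : S_A6) : S_A7 := by
  intro β hβ
  obtain ⟨C5, c5, hC5, hc5, H5⟩ := h5 β hβ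
  have hr1 : ρ⁻¹ < 1 := inv_lt_one_of_one_lt₀ ρ_gt
  have hρ := ρ_pos
  have hS : 0 < ((1 - ρ⁻¹)⁻¹) ^ 3 := pow_pos (inv_pos.2 (by linarith)) 3
  refine ⟨15625 * C5 * ρ ^ 3 * ((1 - ρ⁻¹)⁻¹) ^ 3, c5, by positivity, hc5, ?_⟩
  intro γ j 𝒦 P R h𝒦 τ hτ hτj u v hv s
  set φ := ph3 β γ with hφ
  set A : Finset (Fin 3 → ℕ) := 𝒦.image cl with hA
  have hAj : ∀ a ∈ A, ∀ i, a i ≤ j := by
    intro a ha i
    obtain ⟨k, hk, rfl⟩ := Finset.mem_image.1 ha
    exact cl_le (h𝒦 k hk) i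
  have hmaps : ∀ k ∈ 𝒦, cl k ∈ A := fun k hk => Finset.mem_image_of_mem _ hk
  set U := ∑ p ∈ P, ‖u p‖ ^ 2 with hU
  set W := ∑ q ∈ R, ‖v q‖ ^ 2 with hW
  have hU0 : 0 ≤ U := Finset.sum_nonneg fun p _ => sq_nonneg _
  have hW0 : 0 ≤ W := Finset.sum_nonneg fun p _ => sq_nonneg _
  have hsplit : ∀ t, ∑ k ∈ 𝒦, ‖Qb φ P u v k t‖ ^ 2 =
      ∑ a ∈ A, ∑ k ∈ 𝒦.filter (fun k => cl k = a), ‖Qb φ P u v k t‖ ^ 2 := fun t =>
    (Finset.sum_fiberwise_of_maps_to hmaps _).symm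
  have hint : ∫ t in s..(s + τ), ∑ k ∈ 𝒦, ‖Qb φ P u v k t‖ ^ 2 =
      ∑ a ∈ A, ∫ t in s..(s + τ), ∑ k ∈ 𝒦.filter (fun k => cl k = a), ‖Qb φ P u v k t‖ ^ 2 := by
    simp only [hsplit]
    refine intervalIntegral.integral_finset_sum fun a _ => ?_
    exact (continuous_finset_sum _ fun k _ => cont_Qb φ P u v k).intervalIntegrable _ _
  rw [hint]
  have hclass : ∀ a ∈ A, ∫ t in s..(s + τ), ∑ k ∈ 𝒦.filter (fun k => cl k = a),
      ‖Qb φ P u v k t‖ ^ 2 ≤ 15625 * C5 * ρ ^ 3 * wg j a * U * W := by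
    intro a ha
    obtain ⟨k0, hk0, hk0a⟩ := Finset.mem_image.1 ha
    have hex : ∃ i, j ≤ a i + 1 := by
      rw [← hk0a]
      exact cl_ge (h𝒦 k0 hk0)
    obtain ⟨i, i', hii⟩ := wg_ge (hAj a ha) hex
    have hwg := wg_pos j a
    have hB0 : 0 ≤ C5 / τ * (ρ ^ 3 * wg j a) := by positivity
    have h := h6 a (𝒦.filter fun k => cl k = a) P R (fun k p => -(φ p + φ (k - p))) u v s τ
      (C5 / τ * (ρ ^ 3 * wg j a)) hτ hB0 (by
        intro k hk l
        rw [← (Finset.mem_filter.1 hk).2]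
        exact (cl_spec k l).2) hv (by
        intro k hk n p
        have hka : cl k = a := (Finset.mem_filter.1 hk).2
        have h7 := H5 γ a n k τ hτ (by
          intro l
          refine le_trans ?_ hτj
          refine mul_le_mul_of_nonneg_left ?_ hτ.le
          exact pow_le_pow_right₀ (by norm_num) (hAj a ha l)) (by
          intro l
          rw [← hka]
          exact cl_spec k l) i i' p
        have h8 : ∑ p' ∈ Bx a n, Fk (τ * (-(φ p + φ (k - p)) - -(φ p' + φ (k - p')))) =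
            ∑ p' ∈ Bx a n, Fk (τ * ((φ p + φ (k - p)) - (φ p' + φ (k - p')))) := by
          refine Finset.sum_congr rfl fun p' _ => ?_
          rw [← h1.2.2.2.2 (τ * ((φ p + φ (k - p)) - (φ p' + φ (k - p'))))]
          congr 1
          ring
        rw [h8]
        refine h7.trans ?_
        exact mul_le_mul_of_nonneg_left hii (by positivity))
    refine h.trans (le_of_eq ?_)
    rw [← hU, ← hW]
    field_simp
  refine (Finset.sum_le_sum hclass).trans ?_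
  have e : ∑ a ∈ A, 15625 * C5 * ρ ^ 3 * wg j a * U * W =
      (15625 * C5 * ρ ^ 3 * U * W) * ∑ a ∈ A, wg j a := by
    rw [Finset.mul_sum]
    exact Finset.sum_congr rfl fun a _ => by ring
  rw [e]
  have h9 := mul_le_mul_of_nonneg_left (sum_wg j A hAj)
    (show 0 ≤ 15625 * C5 * ρ ^ 3 * U * W by positivity)
  refine h9.trans (le_of_eq ?_)
  ring

end Pool.Agent.H259.ND
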