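import Pool.Agent.H259.ND.Stmt

open MeasureTheory Set Finset

namespace Pool.Agent.H259.ND

namespace A8L

/-- a large coordinate -/
theorem big {j : ℕ} {k : Z3} (h : InSh j k) : ∃ i, (2 : ℝ) ^ j ≤ 2 * |(k i : ℝ)| := by
  by_contra hc
  push Not at hc
  have h1 : ∀ i, 4 * (k i) ^ 2 < (4 : ℤ) ^ j := by
    intro i
    have h2 := hc i
    have h3 : 4 * (k i : ℝ) ^ 2 < (4 : ℝ) ^ j := by
      have h4 : (2 * |(k i : ℝ)|) ^ 2 < ((2 : ℝ) ^ j) ^ 2 :=
        pow_lt_pow_left₀ h2 (by positivity) two_ne_zero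
      have h5 : ((2 : ℝ) ^ j) ^ 2 = 4 ^ j := by
        rw [← pow_mul, mul_comm j 2, pow_mul]
        norm_num
      rw [h5, mul_pow, sq_abs] at h4
      linarith
    exact_mod_cast h3
  have h5 := h.1
  unfold sq3 at h5
  rw [Fin.sum_univ_three] at h5
  have h6 := h1 0
  have h7 := h1 1
  have h8 := h1 2
  have h9 : (0 : ℤ) < 4 ^ j := by positivity
  linarith

theorem small {m : ℕ} {p : Z3} (h : InSh m p) (l : Fin 3) : |p l| < 2 ^ (m + 1) := by
  have h1 : (p l) ^ 2 ≤ sq3 p := by
    unfold sq3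
    exact Finset.single_le_sum (f := fun i => p i ^ 2) (fun i _ => sq_nonneg _)
      (Finset.mem_univ l)
  have h2 : (p l) ^ 2 < ((2 : ℤ) ^ (m + 1)) ^ 2 := by
    have h3 : ((2 : ℤ) ^ (m + 1)) ^ 2 = 4 ^ (m + 1) := by
      rw [← pow_mul, mul_comm (m + 1) 2, pow_mul]
      norm_num
    rw [h3]
    exact lt_of_le_of_lt h1 h.2
  exact abs_lt_of_sq_lt_sq h2 (by positivity)

/-- the terms of the phase as functions of one coordinate -/
noncomputable def g (β γ : Fin 3 → ℝ) (k : Z3) (l : Fin 3) (z : ℝ) : ℝ :=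
  β l * z ^ 3 + γ l * z + (β l * ((k l : ℝ) - z) ^ 3 + γ l * ((k l : ℝ) - z))

theorem phase (β γ : Fin 3 → ℝ) (k p : Z3) :
    ph3 β γ p + ph3 β γ (k - p) = ∑ l, g β γ k l (p l) := by
  unfold ph3 g
  rw [← Finset.sum_add_distrib]
  refine Finset.sum_congr rfl fun l _ => ?_
  simp only [Pi.sub_apply, Int.cast_sub]

theorem phase_diff (β γ : Fin 3 → ℝ) (k r : Z3) (i : Fin 3) (n n' : ℤ) :
    (ph3 β γ (Function.update r i n') + ph3 β γ (k - Function.update r i n')) -
      (ph3 β γ (Function.update r i n) + ph3 β γ (k - Function.update r i n)) =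
    3 * β i * ((n' : ℝ) - n) * ((k i : ℝ) * ((n' : ℝ) + n - k i)) := by
  rw [phase, phase, ← Finset.sum_sub_distrib, Finset.sum_eq_single i]
  · rw [Function.update_self, Function.update_self]
    unfold g
    ring
  · intro l _ hl
    rw [Function.update_of_ne hl, Function.update_of_ne hl, sub_self]
  · intro h
    exact absurd (Finset.mem_univ i) h

/-- the size of the increments -/
theorem incr {J K s : ℝ} (hJ : 0 ≤ J) (hK : J ≤ 2 * |K|) (hs : 8 * |s| ≤ J) :
    K * (s - K) ≤ -(J ^ 2 / 8) := by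
  have h1 : K * s ≤ |K| * |s| := by
    rw [← abs_mul]
    exact le_abs_self _
  have h2 : K * K = |K| * |K| := (abs_mul_abs_self K).symm
  have h3 : |K| * |s| ≤ |K| * (J / 8) := mul_le_mul_of_nonneg_left (by linarith) (abs_nonneg K)
  have h4 : J / 2 * (3 * J / 8) ≤ |K| * (|K| - J / 8) :=
    mul_le_mul (by linarith) (by linarith) (by linarith) (abs_nonneg K)
  nlinarith [sq_nonneg J]

/-- one line -/
theorem line (h1 : S_A1) (h8 : S_A8a) {β γ : Fin 3 → ℝ} {k r : Z3} {i : Fin 3} {j m : ℕ}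
    (hβ : β i ≠ 0) (hjm : m + 5 ≤ j) (hk : (2 : ℝ) ^ j ≤ 2 * |(k i : ℝ)|) {τ : ℝ} (hτ : 0 < τ)
    (x : ℝ) (I : Finset ℤ) (hI : ∀ n ∈ I, |n| < 2 ^ (m + 1)) :
    ∑ n ∈ I, Fk (τ * (x - (ph3 β γ (Function.update r i n) +
      ph3 β γ (k - Function.update r i n)))) ≤ 100 * (1 + 1 / (τ * (3 / 8 * |β i| * 4 ^ j))) := by
  obtain ⟨-, -, -, -, hev⟩ := h1
  have hβ0 : 0 < |β i| := abs_pos.2 hβ
  have h4 : ((2 : ℝ) ^ j) ^ 2 = 4 ^ j := by
    rw [← pow_mul, mul_comm j 2, pow_mul]
    norm_num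
  have hδ : 0 < 3 / 8 * |β i| * (4 : ℝ) ^ j := by positivity
  have key : ∀ n ∈ I, ∀ n' ∈ I, n < n' →
      (k i : ℝ) * ((n' : ℝ) + n - k i) ≤ -(4 ^ j / 8) ∧ (0 : ℝ) < (n' : ℝ) - n := by
    intro n hn n' hn' hnn
    refine ⟨?_, ?_⟩
    · rw [← h4]
      refine incr (by positivity) hk ?_
      have e1 : |((n : ℤ) : ℝ)| ≤ 2 ^ (m + 1) := by
        have := (hI n hn).le
        exact_mod_cast this
      have e2 : |((n' : ℤ) : ℝ)| ≤ 2 ^ (m + 1) := by
        have := (hI n' hn').le
        exact_mod_cast this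
      have e3 : |(n' : ℝ) + n| ≤ 2 ^ (m + 1) + 2 ^ (m + 1) := (abs_add_le _ _).trans (add_le_add e2 e1)
      have e4 : (2 : ℝ) ^ (m + 5) ≤ 2 ^ j := pow_le_pow_right₀ (by norm_num) hjm
      have e5 : (2 : ℝ) ^ (m + 5) = 16 * 2 ^ (m + 1) := by
        rw [pow_add, pow_add]
        ring
      linarith
    · have : (n : ℝ) < n' := by exact_mod_cast hnn
      linarith
  rcases lt_or_gt_of_ne hβ with hneg | hpos
  · refine h8 I (fun n => ph3 β γ (Function.update r i n) +
      ph3 β γ (k - Function.update r i n)) τ _ x hτ hδ ?_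
    intro n hn n' hn' hnn
    obtain ⟨k1, k2⟩ := key n hn n' hn' hnn
    show _ ≤ (ph3 β γ (Function.update r i n') + ph3 β γ (k - Function.update r i n')) -
      (ph3 β γ (Function.update r i n) + ph3 β γ (k - Function.update r i n))
    rw [phase_diff, abs_of_neg hneg]
    have k3 : 0 ≤ -β i * ((n' : ℝ) - n) := by
      have := mul_nonneg (by linarith : 0 ≤ -β i) k2.le
      exact this
    have k4 := mul_le_mul_of_nonneg_left k1 k3
    nlinarith
  · have h9 := h8 I (fun n => -(ph3 β γ (Function.update r i n) +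
      ph3 β γ (k - Function.update r i n))) τ _ (-x) hτ hδ (by
        intro n hn n' hn' hnn
        obtain ⟨k1, k2⟩ := key n hn n' hn' hnn
        show _ ≤ -(ph3 β γ (Function.update r i n') + ph3 β γ (k - Function.update r i n')) -
          -(ph3 β γ (Function.update r i n) + ph3 β γ (k - Function.update r i n))
        have e := phase_diff β γ k r i n n'
        have e2 : -(ph3 β γ (Function.update r i n') + ph3 β γ (k - Function.update r i n')) -
          -(ph3 β γ (Function.update r i n) + ph3 β γ (k - Function.update r i n)) =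
          -(3 * β i * ((n' : ℝ) - n) * ((k i : ℝ) * ((n' : ℝ) + n - k i))) := by
          rw [← e]
          ring
        rw [e2, abs_of_pos hpos]
        have k3 : 0 ≤ β i * ((n' : ℝ) - n) := mul_nonneg hpos.le k2.le
        have k4 := mul_le_mul_of_nonneg_left k1 k3
        nlinarith)
    refine le_trans (le_of_eq ?_) h9
    refine Finset.sum_congr rfl fun n _ => ?_
    show _ = Fk (τ * (-x - -(ph3 β γ (Function.update r i n) +
      ph3 β γ (k - Function.update r i n))))
    rw [← hev]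
    congr 1
    ring

/-- the number of values of the other two coordinates -/
theorem card_R {m : ℕ} (i : Fin 3) (P : Finset Z3) (hP : ∀ p ∈ P, InSh m p) :
    ((P.image fun p => Function.update p i 0).card : ℝ) ≤ 16 * 4 ^ m := by
  have h1 : P.image (fun p => Function.update p i 0) ⊆ Fintype.piFinset fun l =>
      if l = i then {(0 : ℤ)} else Finset.Ioo (-(2 : ℤ) ^ (m + 1)) (2 ^ (m + 1)) := by
    intro r hr
    rw [Finset.mem_image] at hr
    obtain ⟨p, hp, rfl⟩ := hr
    rw [Fintype.mem_piFinset]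
    intro l
    by_cases hl : l = i
    · subst hl
      rw [if_pos rfl, Function.update_self, Finset.mem_singleton]
    · rw [if_neg hl, Function.update_of_ne hl, Finset.mem_Ioo]
      exact abs_lt.1 (small (hP p hp) l)
  have h2 := Finset.card_le_card h1
  rw [Fintype.card_piFinset] at h2
  have h3 : ∀ l : Fin 3, (if l = i then {(0 : ℤ)} else
      Finset.Ioo (-(2 : ℤ) ^ (m + 1)) (2 ^ (m + 1))).card ≤ if l = i then 1 else 2 ^ (m + 2) := by
    intro l
    by_cases hl : l = i
    · rw [if_pos hl, if_pos hl, Finset.card_singleton]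
    · rw [if_neg hl, if_neg hl, Int.card_Ioo]
      have e : (2 : ℤ) ^ (m + 1) - -(2 : ℤ) ^ (m + 1) - 1 ≤ ((2 ^ (m + 2) : ℕ) : ℤ) := by
        push_cast
        rw [pow_succ 2 (m + 1)]
        linarith
      exact Int.toNat_le.2 e
  have h4 := h2.trans (Finset.prod_le_prod' fun l _ => h3 l)
  have h5 : ∏ l : Fin 3, (if l = i then 1 else 2 ^ (m + 2)) = 16 * 4 ^ m := by
    have e : (16 * 4 ^ m : ℕ) = 2 ^ (m + 2) * 2 ^ (m + 2) := by
      rw [← pow_add, show m + 2 + (m + 2) = 4 + 2 * m by ring, pow_add, pow_mul]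
      norm_num
    rw [e, Fin.prod_univ_three]
    fin_cases i <;> simp
  rw [h5] at h4
  exact_mod_cast h4

end A8L

open A8L in
theorem leaf_A8 (h1 : S_A1) (h8 : S_A8a) : S_A8 := by
  classical
  intro β hβ
  obtain ⟨C, hCdef⟩ : ∃ C : ℝ, C = 1600 * (1 + ∑ i, 8 / (3 * |β i|)) := ⟨_, rfl⟩
  have hsum : ∀ i, 8 / (3 * |β i|) ≤ ∑ i, 8 / (3 * |β i|) := fun i =>
    Finset.single_le_sum (f := fun i => 8 / (3 * |β i|)) (fun i _ => by positivity)
      (Finset.mem_univ i)
  have hsum0 : 0 ≤ ∑ i, 8 / (3 * |β i|) := Finset.sum_nonneg fun i _ => by positivity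
  refine ⟨C, by rw [hCdef]; positivity, ?_⟩
  intro γ j m hjm k hk P hP τ hτ hτj x
  obtain ⟨i, hi⟩ := big hk
  have hβ0 : 0 < |β i| := abs_pos.2 (hβ i)
  have h4j : (0 : ℝ) < 4 ^ j := by positivity
  obtain ⟨B, hB⟩ : ∃ B : ℝ, B = 100 * (1 + 1 / (τ * (3 / 8 * |β i| * 4 ^ j))) := ⟨_, rfl⟩
  have hB0 : 0 ≤ B := by rw [hB]; positivity
  have hBC : 16 * B ≤ C / (τ * 4 ^ j) := by
    have e1 : 1 ≤ 1 / (τ * 4 ^ j) := by
      rw [le_div_iff₀ (by positivity), one_mul]
      exact hτj
    have e2 : 1 / (τ * (3 / 8 * |β i| * 4 ^ j)) = 8 / (3 * |β i|) * (1 / (τ * 4 ^ j)) := by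
      field_simp
    rw [hB, hCdef, e2, div_eq_mul_one_div (1600 * _)]
    have e3 : 0 ≤ 1 / (τ * 4 ^ j) := by positivity
    have e4 := mul_le_mul_of_nonneg_right (hsum i) e3
    linarith
  have hfib : ∑ p' ∈ P, Fk (τ * (x - (ph3 β γ p' + ph3 β γ (k - p')))) ≤
      ∑ r ∈ P.image (fun p => Function.update p i 0), B := by
    rw [← Finset.sum_fiberwise_of_maps_to (g := fun p => Function.update p i 0)
      (t := P.image (fun p => Function.update p i 0))
      (fun p hp => Finset.mem_image_of_mem _ hp)]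
    refine Finset.sum_le_sum fun r _ => ?_
    have hrep : ∀ p ∈ P.filter (fun p => Function.update p i 0 = r),
        Function.update r i (p i) = p := by
      intro p hp
      rw [Finset.mem_filter] at hp
      rw [← hp.2, Function.update_idem, Function.update_eq_self]
    have hinj : Set.InjOn (fun p : Z3 => p i) (P.filter (fun p => Function.update p i 0 = r)) := by
      intro p hp p' hp' he
      have e1 := hrep p (by exact_mod_cast hp)
      have e2 := hrep p' (by exact_mod_cast hp')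
      have he' : p i = p' i := he
      rw [← e1, ← e2, he']
    have hl := line (γ := γ) (r := r) h1 h8 (hβ i) hjm hi hτ x
      ((P.filter (fun p => Function.update p i 0 = r)).image fun p => p i) (by
        intro n hn
        rw [Finset.mem_image] at hn
        obtain ⟨p, hp, rfl⟩ := hn
        exact small (hP p (Finset.mem_filter.1 hp).1) i)
    rw [Finset.sum_image hinj] at hl
    rw [hB]
    refine le_trans (le_of_eq ?_) hl
    refine Finset.sum_congr rfl fun p hp => ?_
    rw [hrep p hp]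
  refine hfib.trans ?_
  rw [Finset.sum_const, nsmul_eq_mul]
  calc ((P.image fun p => Function.update p i 0).card : ℝ) * B ≤ 16 * 4 ^ m * B :=
        mul_le_mul_of_nonneg_right (card_R i P hP) hB0
    _ = 4 ^ m * (16 * B) := by ring
    _ ≤ 4 ^ m * (C / (τ * 4 ^ j)) := mul_le_mul_of_nonneg_left hBC (by positivity)
    _ = C * 4 ^ m / (τ * 4 ^ j) := by ring

end Pool.Agent.H259.ND
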