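import Pool.Agent.H259.ND.Stmt

open MeasureTheory Set Finset

namespace Pool.Agent.H259.ND

namespace A8aL

theorem tele {h : ℝ} (hh : 0 < h) (M : ℕ) :
    ∑ r ∈ range (M + 1), 1 / (1 + h * (r : ℝ)) ^ 2 ≤ 1 + 1 / h - 1 / (h * (1 + h * (M : ℝ))) := by
  induction M with
  | zero => simp
  | succ M ih =>
    rw [sum_range_succ]
    have hM : (0 : ℝ) ≤ M := Nat.cast_nonneg M
    have h1 : 0 < 1 + h * (M : ℝ) := by positivity
    have h2 : 0 < 1 + h * ((M : ℝ) + 1) := by positivity
    have h3 : 1 / (1 + h * ((M : ℝ) + 1)) ^ 2 ≤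
        1 / (h * (1 + h * (M : ℝ))) - 1 / (h * (1 + h * ((M : ℝ) + 1))) := by
      have h4 : 1 / (h * (1 + h * (M : ℝ))) - 1 / (h * (1 + h * ((M : ℝ) + 1))) =
          1 / ((1 + h * (M : ℝ)) * (1 + h * ((M : ℝ) + 1))) := by
        field_simp
        ring
      rw [h4, sq]
      apply one_div_le_one_div_of_le (by positivity)
      apply mul_le_mul_of_nonneg_right _ h2.le
      nlinarith
    push_cast
    linarith

theorem side (h1 : S_A1) {h : ℝ} (hh : 0 < h) (J : Finset ℤ) (f : ℤ → ℕ)
    (hf : Set.InjOn f (↑J : Set ℤ)) (y : ℤ → ℝ) (hy : ∀ n ∈ J, h * (f n : ℝ) ≤ |y n|) :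
    ∑ n ∈ J, Fk (y n) ≤ 20 * (1 + 1 / h) := by
  obtain ⟨-, hF0, hF8, hF2, -⟩ := h1
  have hb : ∀ n ∈ J, Fk (y n) ≤ 20 * (1 / (1 + h * (f n : ℝ)) ^ 2) := by
    intro n hn
    have h3 := hy n hn
    have h4 : (0 : ℝ) ≤ f n := Nat.cast_nonneg _
    have h5 : 0 < 1 + h * (f n : ℝ) := by positivity
    have h6 := hF0 (y n)
    have h7 := hF8 (y n)
    have h8 := hF2 (y n)
    rw [mul_one_div, le_div_iff₀ (by positivity)]
    have h9 : (h * (f n : ℝ)) ^ 2 ≤ y n ^ 2 := by
      rw [← sq_abs (y n)]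
      exact pow_le_pow_left₀ (by positivity) h3 2
    have h10 : (1 + h * (f n : ℝ)) ^ 2 ≤ 2 * (1 + y n ^ 2) := by
      nlinarith [sq_nonneg (1 - h * (f n : ℝ))]
    calc Fk (y n) * (1 + h * (f n : ℝ)) ^ 2 ≤ Fk (y n) * (2 * (1 + y n ^ 2)) :=
          mul_le_mul_of_nonneg_left h10 h6
      _ ≤ 20 := by nlinarith
  have hs : ∑ n ∈ J, 20 * (1 / (1 + h * (f n : ℝ)) ^ 2) =
      20 * ∑ r ∈ J.image f, 1 / (1 + h * (r : ℝ)) ^ 2 := by
    rw [← Finset.mul_sum, Finset.sum_image hf]
  have hsub : J.image f ⊆ range ((J.image f).sup id + 1) := by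
    intro r hr
    rw [Finset.mem_range]
    exact Nat.lt_succ_of_le (Finset.le_sup (f := id) hr)
  have ht := tele hh ((J.image f).sup id)
  have h11 : ∑ r ∈ J.image f, 1 / (1 + h * (r : ℝ)) ^ 2 ≤
      ∑ r ∈ range ((J.image f).sup id + 1), 1 / (1 + h * (r : ℝ)) ^ 2 :=
    Finset.sum_le_sum_of_subset_of_nonneg hsub (fun r _ _ => by positivity)
  have h12 : 0 < 1 / (h * (1 + h * (((J.image f).sup id : ℕ) : ℝ))) := by positivity
  calc ∑ n ∈ J, Fk (y n) ≤ ∑ n ∈ J, 20 * (1 / (1 + h * (f n : ℝ)) ^ 2) := Finset.sum_le_sum hb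
    _ = 20 * ∑ r ∈ J.image f, 1 / (1 + h * (r : ℝ)) ^ 2 := hs
    _ ≤ 20 * (1 + 1 / h) := by linarith

end A8aL

theorem leaf_A8a (h1 : S_A1) : S_A8a := by
  intro I θ τ δ x hτ hδ hI
  have hh : 0 < τ * δ := mul_pos hτ hδ
  have hmain : ∀ J : Finset ℤ, J ⊆ I → (∀ n ∈ J, θ n ≤ x) ∨ (∀ n ∈ J, x ≤ θ n) →
      ∑ n ∈ J, Fk (τ * (x - θ n)) ≤ 20 * (1 + 1 / (τ * δ)) := by
    intro J hJ hc
    rcases J.eq_empty_or_nonempty with rfl | hne
    · rw [Finset.sum_empty]
      positivity
    · rcases hc with hc | hc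
      · refine A8aL.side h1 hh J (fun n => (J.max' hne - n).toNat) ?_ _ ?_
        · intro a ha b hb hab
          have h2 := J.le_max' a ha
          have h3 := J.le_max' b hb
          have h4 : (J.max' hne - a).toNat = (J.max' hne - b).toNat := hab
          omega
        · intro n hn
          have h2 := J.le_max' n hn
          have h3 : δ * (((J.max' hne : ℤ) : ℝ) - n) ≤ θ (J.max' hne) - θ n := by
            rcases eq_or_lt_of_le h2 with h4 | h4
            · rw [← h4]
              simp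
            · exact hI n (hJ hn) _ (hJ (J.max'_mem hne)) h4
          have h5 := hc _ (J.max'_mem hne)
          have h6 : (((J.max' hne - n).toNat : ℕ) : ℝ) = ((J.max' hne : ℤ) : ℝ) - n := by
            have h7 : (((J.max' hne - n).toNat : ℕ) : ℤ) = J.max' hne - n :=
              Int.toNat_of_nonneg (by omega)
            have h8 : ((((J.max' hne - n).toNat : ℕ) : ℤ) : ℝ) = ((J.max' hne - n : ℤ) : ℝ) := by
              rw [h7]
            push_cast at h8
            exact h8
          rw [h6]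
          refine le_trans ?_ (le_abs_self _)
          rw [mul_assoc]
          apply mul_le_mul_of_nonneg_left _ hτ.le
          linarith
      · refine A8aL.side h1 hh J (fun n => (n - J.min' hne).toNat) ?_ _ ?_
        · intro a ha b hb hab
          have h2 := J.min'_le a ha
          have h3 := J.min'_le b hb
          have h4 : (a - J.min' hne).toNat = (b - J.min' hne).toNat := hab
          omega
        · intro n hn
          have h2 := J.min'_le n hn
          have h3 : δ * ((n : ℝ) - ((J.min' hne : ℤ) : ℝ)) ≤ θ n - θ (J.min' hne) := by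
            rcases eq_or_lt_of_le h2 with h4 | h4
            · rw [h4]
              simp
            · exact hI _ (hJ (J.min'_mem hne)) n (hJ hn) h4
          have h5 := hc _ (J.min'_mem hne)
          have h6 : (((n - J.min' hne).toNat : ℕ) : ℝ) = (n : ℝ) - ((J.min' hne : ℤ) : ℝ) := by
            have h7 : (((n - J.min' hne).toNat : ℕ) : ℤ) = n - J.min' hne :=
              Int.toNat_of_nonneg (by omega)
            have h8 : ((((n - J.min' hne).toNat : ℕ) : ℤ) : ℝ) = ((n - J.min' hne : ℤ) : ℝ) := by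
              rw [h7]
            push_cast at h8
            exact h8
          rw [h6]
          refine le_trans ?_ (neg_le_abs _)
          have h9 : -(τ * (x - θ n)) = τ * (θ n - x) := by ring
          rw [h9, mul_assoc]
          apply mul_le_mul_of_nonneg_left _ hτ.le
          linarith
  have hA := hmain (I.filter fun n => θ n ≤ x) (Finset.filter_subset _ _)
    (Or.inl fun n hn => (Finset.mem_filter.1 hn).2)
  have hB := hmain (I.filter fun n => ¬ θ n ≤ x) (Finset.filter_subset _ _)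
    (Or.inr fun n hn => (lt_of_not_ge (Finset.mem_filter.1 hn).2).le)
  have hsum := Finset.sum_filter_add_sum_filter_not I (fun n => θ n ≤ x)
    (fun n => Fk (τ * (x - θ n)))
  rw [← hsum]
  have hpos : 0 < 1 + 1 / (τ * δ) := by positivity
  linarith

end Pool.Agent.H259.ND
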