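import Pool.Agent.H259.ND.Stmt

/-!
# Leaf A9: the bilinear estimate for low and high frequencies
-/

set_option autoImplicit false

open MeasureTheory Set Finset

namespace Pool.Agent.H259.ND

namespace A9L

lemma ex_cont : Continuous ex := by
  unfold ex
  fun_prop

lemma Qb_cont (φ : Z3 → ℝ) (P : Finset Z3) (u v : Z3 → ℂ) (k : Z3) :
    Continuous (fun t => Qb φ P u v k t) := by
  unfold Qb
  refine continuous_finsetSum _ fun p _ => ?_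
  exact continuous_const.mul (ex_cont.comp (continuous_const.mul continuous_id))

lemma sum_shift (𝒦 R : Finset Z3) (p : Z3) (v : Z3 → ℂ) (hv : ∀ q ∉ R, v q = 0) :
    ∑ k ∈ 𝒦, ‖v (k - p)‖ ^ 2 ≤ ∑ q ∈ R, ‖v q‖ ^ 2 := by
  classical
  have h1 : ∑ k ∈ 𝒦, ‖v (k - p)‖ ^ 2 = ∑ q ∈ 𝒦.image (fun k => k - p), ‖v q‖ ^ 2 := by
    rw [Finset.sum_image]
    intro a _ b _ h
    exact sub_left_injective h
  rw [h1]
  have h2 : ∑ q ∈ 𝒦.image (fun k => k - p), ‖v q‖ ^ 2 =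
      ∑ q ∈ (𝒦.image (fun k => k - p)).filter (fun q => q ∈ R), ‖v q‖ ^ 2 := by
    rw [Finset.sum_filter]
    refine Finset.sum_congr rfl fun q _ => ?_
    by_cases hq : q ∈ R
    · rw [if_pos hq]
    · rw [if_neg hq, hv q hq]
      simp
  rw [h2]
  refine Finset.sum_le_sum_of_subset_of_nonneg ?_ fun q _ _ => by positivity
  intro q hq
  exact (Finset.mem_filter.1 hq).2

end A9L

open A9L in
theorem leaf_A9 (h1 : S_A1) (h2 : S_A2) (h8 : S_A8) : S_A9 := by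
  intro β hβ
  obtain ⟨C, hC, H8⟩ := h8 β hβ
  refine ⟨C, hC, fun γ j m hjm 𝒦 P R h𝒦 hP τ hτ hτj u v hv s => ?_⟩
  set φ : Z3 → ℝ := ph3 β γ with hφ
  have h4j : (0 : ℝ) < 4 ^ j := by positivity
  -- one frequency
  have hk : ∀ k ∈ 𝒦, ∫ t in s..(s + τ), ‖Qb φ P u v k t‖ ^ 2 ≤
      C * 4 ^ m / 4 ^ j * ∑ p ∈ P, ‖u p‖ ^ 2 * ‖v (k - p)‖ ^ 2 := by
    intro k hk
    have h3 := h2 Z3 P (fun p => u p * v (k - p)) (fun p => -(φ p + φ (k - p))) s τ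
      (C * 4 ^ m / (τ * 4 ^ j)) hτ ?_
    · refine h3.trans (le_of_eq ?_)
      have e1 : τ * (C * 4 ^ m / (τ * 4 ^ j)) = C * 4 ^ m / 4 ^ j := by
        field_simp
      rw [e1]
      congr 1
      refine Finset.sum_congr rfl fun p _ => ?_
      rw [norm_mul, mul_pow]
    · intro p _
      have h5 := H8 γ j m hjm k (h𝒦 k hk) P hP τ hτ hτj (φ p + φ (k - p))
      refine le_trans (le_of_eq ?_) h5
      refine Finset.sum_congr rfl fun p' _ => ?_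
      rw [← h1.2.2.2.2 (τ * (φ p + φ (k - p) - (ph3 β γ p' + ph3 β γ (k - p'))))]
      congr 1
      rw [← hφ]
      ring
  have hint : ∀ k ∈ 𝒦, IntervalIntegrable (fun t => ‖Qb φ P u v k t‖ ^ 2) volume s (s + τ) :=
    fun k _ => ((Qb_cont φ P u v k).norm.pow 2).intervalIntegrable _ _
  rw [intervalIntegral.integral_finsetSum hint]
  calc ∑ k ∈ 𝒦, ∫ t in s..(s + τ), ‖Qb φ P u v k t‖ ^ 2 ≤
      ∑ k ∈ 𝒦, C * 4 ^ m / 4 ^ j * ∑ p ∈ P, ‖u p‖ ^ 2 * ‖v (k - p)‖ ^ 2 :=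
        Finset.sum_le_sum hk
    _ = C * 4 ^ m / 4 ^ j * ∑ p ∈ P, ‖u p‖ ^ 2 * ∑ k ∈ 𝒦, ‖v (k - p)‖ ^ 2 := by
        rw [← Finset.mul_sum, Finset.sum_comm]
        congr 1
        refine Finset.sum_congr rfl fun p _ => ?_
        rw [Finset.mul_sum]
    _ ≤ C * 4 ^ m / 4 ^ j * ∑ p ∈ P, ‖u p‖ ^ 2 * ∑ q ∈ R, ‖v q‖ ^ 2 := by
        refine mul_le_mul_of_nonneg_left ?_ (by positivity)
        refine Finset.sum_le_sum fun p _ => ?_
        exact mul_le_mul_of_nonneg_left (sum_shift 𝒦 R p v hv) (by positivity)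
    _ = C * 4 ^ m / 4 ^ j * (∑ p ∈ P, ‖u p‖ ^ 2) * (∑ q ∈ R, ‖v q‖ ^ 2) := by
        rw [← Finset.sum_mul]
        ring

end Pool.Agent.H259.ND
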