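import Pool.Agent.H259.ND.Stmt

/-!
# Window size by the value at one time
-/

open MeasureTheory Set Finset

namespace Pool.Agent.H259.ND

namespace B1L

theorem int_mono {g : ℝ → ℝ} (hg : Continuous g) (h0 : ∀ t, 0 ≤ g t) {s e a b : ℝ}
    (hsa : s ≤ a) (hbe : b ≤ e) : ∫ r in a..b, g r ≤ ∫ r in s..e, g r := by
  have i1 : ∀ x y : ℝ, IntervalIntegrable g volume x y := fun x y => hg.intervalIntegrable x y
  have h1 : 0 ≤ ∫ r in s..a, g r := intervalIntegral.integral_nonneg hsa (fun u _ => h0 u)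
  have h2 : 0 ≤ ∫ r in b..e, g r := intervalIntegral.integral_nonneg hbe (fun u _ => h0 u)
  have h3 := intervalIntegral.integral_add_adjacent_intervals (i1 s a) (i1 a b)
  have h4 := intervalIntegral.integral_add_adjacent_intervals (i1 s b) (i1 b e)
  linarith

theorem cont_nn {M : ℕ} {q : ℕ → ℕ → ℕ → ℝ → ℝ} (hq : ∀ j m l, Continuous (q j m l)) (j : ℕ) :
    Continuous (nn M q j) := by
  unfold nn
  exact continuous_finsetSum _ fun l _ => continuous_finsetSum _ fun m _ => hq j m l

end B1L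

theorem leaf_B1 (h1 : S_W1) : S_B1 := by
  intro C₀ ν c₁ E M L₀ X g q hS τ L hτ hL hLL hC j n t ht
  obtain ⟨w1, w2, w3, -, -, -, -, w8, w9⟩ := h1 τ L hτ hL
  unfold AW Gj Aw
  have hse : ew τ L j n ≤ ew τ L j (n + 1) := w1 j n
  have hs0 : 0 ≤ ew τ L j n := w2 j n
  have heL : ew τ L j (n + 1) ≤ L₀ := (w3 j (n + 1)).trans hLL
  have hlen : (ew τ L j (n + 1) - ew τ L j n) * 4 ^ j ≤ τ := by
    rw [w9, div_mul_cancel₀ _ (by positivity)]
    have := w8 j n
    nlinarith
  generalize ew τ L j n = s at *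
  generalize ew τ L j (n + 1) = e at *
  have hgc := hS.cg j
  have hg0 := hS.g0 j
  have hC1 := hS.C1
  have hnc := B1L.cont_nn (M := M) hS.cq j
  have hI0 : 0 ≤ ∫ r in s..e, g j r := intervalIntegral.integral_nonneg hse (fun u _ => hg0 u)
  -- values at two times of the window
  have hX : ∀ r ∈ Icc s e, ∀ r' ∈ Icc s e, X j r ≤ X j r' + ∫ x in s..e, g j x := by
    intro r hr r' hr'
    rcases le_total r r' with h | h
    · have h2 := hS.lip j r r' (hs0.trans hr.1) h (hr'.2.trans heL)
      have h3 := B1L.int_mono hgc hg0 hr.1 hr'.2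
      have h4 := (abs_le.1 h2).1
      linarith
    · have h2 := hS.lip j r' r (hs0.trans hr'.1) h (hr.2.trans heL)
      have h3 := B1L.int_mono hgc hg0 hr'.1 hr.2
      have h4 := (abs_le.1 h2).2
      linarith
  have hXt := hS.X0 j t
  have hint : ∫ r in s..e, g j r ≤ ∫ r in s..e, (C₀ * 4 ^ j * (X j t + ∫ x in s..e, g j x)
      + 2 ^ j * nn M q j r) := by
    apply intervalIntegral.integral_mono_on hse (hgc.intervalIntegrable _ _)
    · apply Continuous.intervalIntegrable
      exact continuous_const.add (continuous_const.mul hnc)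
    · intro r hr
      have h2 := hS.gle j r ⟨hs0.trans hr.1, hr.2.trans heL⟩
      have h3 := hX r hr t ht
      have h4 : 0 ≤ C₀ * 4 ^ j := by positivity
      have h5 := mul_le_mul_of_nonneg_left h3 h4
      linarith
  have hadd : ∫ r in s..e, (C₀ * 4 ^ j * (X j t + ∫ x in s..e, g j x) + 2 ^ j * nn M q j r) =
      (∫ _r in s..e, (C₀ * 4 ^ j * (X j t + ∫ x in s..e, g j x))) +
        ∫ r in s..e, 2 ^ j * nn M q j r :=
    intervalIntegral.integral_add (Continuous.intervalIntegrable continuous_const _ _)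
      (Continuous.intervalIntegrable (by fun_prop) _ _)
  rw [hadd, intervalIntegral.integral_const, smul_eq_mul] at hint
  have hsX := hX s ⟨le_rfl, hse⟩ t ht
  generalize (∫ r in s..e, g j r) = I at *
  generalize (∫ r in s..e, 2 ^ j * nn M q j r) = G at *
  have h6 : (e - s) * (C₀ * 4 ^ j * (X j t + I)) ≤ (X j t + I) / 4 := by
    have h7 : (e - s) * (C₀ * 4 ^ j * (X j t + I)) = (e - s) * 4 ^ j * (C₀ * (X j t + I)) := by ring
    have h8 : 0 ≤ C₀ * (X j t + I) := mul_nonneg (by linarith) (by linarith)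
    have h9 := mul_le_mul_of_nonneg_right hlen h8
    have h10 := mul_le_mul_of_nonneg_right hC (by linarith : 0 ≤ X j t + I)
    nlinarith
  linarith

end Pool.Agent.H259.ND
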