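import Pool.Agent.H259.ND.Stmt

/-!
# Step B2: the square of the forcing of a window (helper118)
-/

open MeasureTheory Set Finset

namespace Pool.Agent.H259.ND

namespace B2L

theorem geo (j M : ℕ) : (M + 3 < j → ∑ l ∈ upS M j, (2 : ℝ) ^ j / 2 ^ l = 0) ∧
    (j ≤ M + 3 → ∑ l ∈ upS M j, (2 : ℝ) ^ j / 2 ^ l + 2 * (2 ^ j / 2 ^ M) ≤ 16) := by
  have hz : ∀ M : ℕ, M + 2 < j → ∑ l ∈ upS M j, (2 : ℝ) ^ j / 2 ^ l = 0 := by
    intro M hM
    refine Finset.sum_eq_zero fun l hl => ?_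
    exfalso
    have h1 := Finset.mem_filter.1 hl
    have h2 := Finset.mem_range.1 h1.1
    have h3 : j ≤ l + 3 := h1.2
    omega
  refine ⟨fun h => hz M (by omega), ?_⟩
  induction M with
  | zero =>
    intro h
    have h2 : ∑ l ∈ upS 0 j, (2 : ℝ) ^ j / 2 ^ l = 0 := by
      unfold upS
      rw [Finset.range_zero, Finset.filter_empty, Finset.sum_empty]
    rw [h2, pow_zero, div_one, zero_add]
    have h3 : (2 : ℝ) ^ j ≤ 2 ^ 3 := pow_le_pow_right₀ (by norm_num) (by omega)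
    linarith
  | succ M ih =>
    intro h
    by_cases hj : j ≤ M + 3
    · have h1 := ih hj
      have h2 : ∑ l ∈ upS (M + 1) j, (2 : ℝ) ^ j / 2 ^ l =
          ∑ l ∈ upS M j, (2 : ℝ) ^ j / 2 ^ l + 2 ^ j / 2 ^ M := by
        unfold upS
        rw [Finset.range_add_one, Finset.filter_insert, if_pos hj, Finset.sum_insert, add_comm]
        intro h3
        exact absurd (Finset.mem_filter.1 h3).1 Finset.notMem_range_self
      have h3 : 2 * ((2 : ℝ) ^ j / 2 ^ (M + 1)) = 2 ^ j / 2 ^ M := by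
        rw [pow_succ]
        field_simp
      rw [h2, h3]
      linarith
    · have h2 : j = M + 4 := by omega
      rw [hz (M + 1) (by omega), zero_add, h2]
      have h3 : (2 : ℝ) ^ (M + 4) / 2 ^ (M + 1) = 8 := by
        rw [pow_add, pow_add]
        field_simp
        norm_num
      rw [h3]
      norm_num

theorem geo16 (j M : ℕ) : ∑ l ∈ upS M j, (2 : ℝ) ^ j / 2 ^ l ≤ 16 := by
  by_cases h : M + 3 < j
  · rw [(geo j M).1 h]
    norm_num
  · have h1 := (geo j M).2 (by omega)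
    have h2 : (0 : ℝ) ≤ 2 * (2 ^ j / 2 ^ M) := by positivity
    linarith

theorem ys_nonneg (τ L : ℝ) (X g : ℕ → ℝ → ℝ) (l j n : ℕ) : 0 ≤ ys τ L X g l j n := by
  unfold ys
  exact Finset.sum_nonneg fun r _ => mul_nonneg (Real.sqrt_nonneg _) (sq_nonneg _)

theorem Yj_nonneg (τ L : ℝ) (X g : ℕ → ℝ → ℝ) (j : ℕ) : 0 ≤ Yj τ L X g j := by
  unfold Yj
  exact Finset.sum_nonneg fun r _ => mul_nonneg (Real.sqrt_nonneg _) (sq_nonneg _)

theorem XXj_nonneg (τ L : ℝ) (X g : ℕ → ℝ → ℝ) (j : ℕ) : 0 ≤ XXj τ L X g j := by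
  unfold XXj
  exact (sq_nonneg _).trans
    (Finset.le_sup' (fun n => AW τ L X g j j n ^ 2) (Finset.mem_range.2 (by positivity : 0 < 4 ^ j)))

/-- the forcing of a window is the sum of the near and the far part -/
theorem split {C₀ ν c₁ E : ℝ} {M : ℕ} {L₀ : ℝ} {X g : ℕ → ℝ → ℝ} {q : ℕ → ℕ → ℕ → ℝ → ℝ}
    (hS : Sys C₀ ν c₁ E M L₀ X g q) (τ L : ℝ) (j n : ℕ) :
    Gj τ L M q j n =
      (∑ l ∈ nearS M j, ∑ m ∈ range (l + 1),
        2 ^ j * ∫ t in (ew τ L j n)..(ew τ L j (n + 1)), q j m l t) +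
      ∑ l ∈ (range M).filter (fun l => j + 2 ≤ l), ∑ m ∈ range (l + 1),
        2 ^ j * ∫ t in (ew τ L j n)..(ew τ L j (n + 1)), q j m l t := by
  have h1 : Gj τ L M q j n = ∑ l ∈ range M, ∑ m ∈ range (l + 1),
      2 ^ j * ∫ t in (ew τ L j n)..(ew τ L j (n + 1)), q j m l t := by
    unfold Gj nn
    rw [intervalIntegral.integral_const_mul, intervalIntegral.integral_finsetSum]
    · rw [Finset.mul_sum]
      refine Finset.sum_congr rfl fun l _ => ?_
      rw [intervalIntegral.integral_finsetSum, Finset.mul_sum]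
      intro m _
      exact (hS.cq j m l).intervalIntegrable _ _
    · intro l _
      refine Continuous.intervalIntegrable ?_ _ _
      exact continuous_finsetSum _ fun m _ => hS.cq j m l
  rw [h1]
  have hdis : Disjoint (nearS M j) ((range M).filter (fun l => j + 2 ≤ l)) := by
    rw [Finset.disjoint_left]
    intro l hl hl2
    have h2 := (Finset.mem_filter.1 hl).2
    have h3 : j + 2 ≤ l := (Finset.mem_filter.1 hl2).2
    omega
  rw [← Finset.sum_union hdis]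
  symm
  refine Finset.sum_subset ?_ ?_
  · intro l hl
    rcases Finset.mem_union.1 hl with h2 | h2
    · exact (Finset.mem_filter.1 h2).1
    · exact (Finset.mem_filter.1 h2).1
  · intro l hl hl2
    refine Finset.sum_eq_zero fun m hm => ?_
    have h2 : ∀ t, q j m l t = 0 := by
      intro t
      refine hS.qz j m l t (by have := Finset.mem_range.1 hm; omega) ?_
      rintro ⟨h3, -⟩
      apply hl2
      by_cases h4 : j + 2 ≤ l
      · exact Finset.mem_union_right _ (Finset.mem_filter.2 ⟨hl, h4⟩)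
      · exact Finset.mem_union_left _ (Finset.mem_filter.2 ⟨hl, by omega, by omega⟩)
    simp only [h2, intervalIntegral.integral_zero, mul_zero]

end B2L

open B2L in
theorem leaf_B2 (h1 : S_W1) (hn : S_B2n) (hf : S_B2f) (h8 : S_W8) : S_B2 := by
  refine ⟨1024000000, by norm_num, ?_⟩
  intro C₀ ν c₁ E M L₀ X g q hS τ L hτ hL hLL hLτ hτc XX YY hXX hYY j n hjn
  obtain ⟨w1, -⟩ := h1 τ L hτ hL
  have hnear := hn C₀ ν c₁ E M L₀ X g q hS τ L hτ hL hLL hLτ hτc XX hXX j n hjn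
  have hfar := hf C₀ ν c₁ E M L₀ X g q hS τ L hτ hL hLL hLτ hτc j n hjn
  rw [split hS τ L j n]
  set Nr := ∑ l ∈ nearS M j, ∑ m ∈ range (l + 1),
    2 ^ j * ∫ t in (ew τ L j n)..(ew τ L j (n + 1)), q j m l t with hNr
  set Fr := ∑ l ∈ (range M).filter (fun l => j + 2 ≤ l), ∑ m ∈ range (l + 1),
    2 ^ j * ∫ t in (ew τ L j n)..(ew τ L j (n + 1)), q j m l t with hFr
  set SN := ∑ l ∈ nearS M j, ys τ L X g l j n with hSN
  set SU := ∑ l ∈ upS M j, (2 : ℝ) ^ j / 2 ^ l * ys τ L X g l j n with hSU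
  have hXX0 : 0 ≤ XX := (XXj_nonneg τ L X g 0).trans (hXX 0)
  have hYY0 : 0 ≤ YY := (Yj_nonneg τ L X g 0).trans (hYY 0)
  have hSN0 : 0 ≤ SN := Finset.sum_nonneg fun l _ => ys_nonneg τ L X g l j n
  have hSU0 : 0 ≤ SU := Finset.sum_nonneg fun l _ =>
    mul_nonneg (by positivity) (ys_nonneg τ L X g l j n)
  have hFr0 : 0 ≤ Fr := by
    refine Finset.sum_nonneg fun l _ => Finset.sum_nonneg fun m _ => ?_
    refine mul_nonneg (by positivity) ?_
    exact intervalIntegral.integral_nonneg (w1 j n) fun t _ => hS.q0 j m l t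
  have hC0 : 0 ≤ C₀ := zero_le_one.trans hS.C1
  have hSU2 : SU ≤ 128 * YY := by
    have h2 : SU ≤ ∑ l ∈ upS M j, (2 : ℝ) ^ j / 2 ^ l * (8 * YY) := by
      refine Finset.sum_le_sum fun l hl => ?_
      refine mul_le_mul_of_nonneg_left ?_ (by positivity)
      have h3 : j ≤ l + 3 := (Finset.mem_filter.1 hl).2
      have h4 := (h8 C₀ ν c₁ E M L₀ X g q hS τ L hτ hL hLL l j).2.1 n hjn h3
      have h5 := hYY l
      linarith
    rw [← Finset.sum_mul] at h2
    have h3 := geo16 j M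
    have h4 : (∑ l ∈ upS M j, (2 : ℝ) ^ j / 2 ^ l) * (8 * YY) ≤ 16 * (8 * YY) :=
      mul_le_mul_of_nonneg_right h3 (by positivity)
    linarith
  have hFr2 : Fr ^ 2 ≤ 512000000 * C₀ ^ 2 * τ * (YY * SU) := by
    have h2 : Fr ^ 2 ≤ (2000 * C₀ * √τ * SU) ^ 2 := pow_le_pow_left₀ hFr0 hfar 2
    have h3 : (2000 * C₀ * √τ * SU) ^ 2 = 4000000 * C₀ ^ 2 * τ * (SU * SU) := by
      have h4 : √τ ^ 2 = τ := Real.sq_sqrt hτ.le
      calc (2000 * C₀ * √τ * SU) ^ 2 = 4000000 * C₀ ^ 2 * √τ ^ 2 * (SU * SU) := by ring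
        _ = _ := by rw [h4]
    have h4 : SU * SU ≤ 128 * YY * SU := mul_le_mul_of_nonneg_right hSU2 hSU0
    have h5 : 4000000 * C₀ ^ 2 * τ * (SU * SU) ≤ 4000000 * C₀ ^ 2 * τ * (128 * YY * SU) :=
      mul_le_mul_of_nonneg_left h4 (by positivity)
    calc Fr ^ 2 ≤ 4000000 * C₀ ^ 2 * τ * (128 * YY * SU) := by
          rw [← h3] at h5
          exact h2.trans h5
      _ = _ := by ring
  have hN2 : 2 * Nr ^ 2 ≤ 1024000000 * C₀ ^ 2 * τ * (XX * SN) := by
    have h2 : 0 ≤ C₀ ^ 2 * τ * (XX * SN) := by positivity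
    have h3 : 24 * C₀ ^ 2 * τ * XX * SN = 24 * (C₀ ^ 2 * τ * (XX * SN)) := by ring
    rw [h3] at hnear
    have h4 : 1024000000 * C₀ ^ 2 * τ * (XX * SN) =
      1024000000 * (C₀ ^ 2 * τ * (XX * SN)) := by ring
    rw [h4]
    linarith
  have h2 : (Nr + Fr) ^ 2 ≤ 2 * Nr ^ 2 + 2 * Fr ^ 2 := by nlinarith [sq_nonneg (Nr - Fr)]
  calc (Nr + Fr) ^ 2 ≤ 2 * Nr ^ 2 + 2 * Fr ^ 2 := h2
    _ ≤ 1024000000 * C₀ ^ 2 * τ * (XX * SN) + 2 * (512000000 * C₀ ^ 2 * τ * (YY * SU)) := by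
        linarith
    _ = _ := by ring

end Pool.Agent.H259.ND
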