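import Pool.Agent.H259.ND.Stmt

/-!
# ND-B2a: one bilinear term on one window
-/

set_option autoImplicit false

open MeasureTheory Set Finset

namespace Pool.Agent.H259.ND

namespace B2aL

/-- Cauchy-Schwarz on an interval -/
theorem cs (f : ℝ → ℝ) (hf : Continuous f) (s t : ℝ) (hst : s ≤ t) :
    (∫ x in s..t, f x) ^ 2 ≤ (t - s) * ∫ x in s..t, f x ^ 2 := by
  rcases hst.eq_or_lt with h | h
  · subst h
    simp
  · have hD : 0 < t - s := sub_pos.2 h
    set I := ∫ x in s..t, f x with hI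
    set J := ∫ x in s..t, f x ^ 2 with hJ
    have h1 : 0 ≤ ∫ x in s..t, (f x - I / (t - s)) ^ 2 :=
      intervalIntegral.integral_nonneg hst fun x _ => sq_nonneg _
    have h2 : ∫ x in s..t, (f x - I / (t - s)) ^ 2 =
        J - 2 * (I / (t - s)) * I + (I / (t - s)) ^ 2 * (t - s) := by
      have e : (fun x => (f x - I / (t - s)) ^ 2) =
          fun x => (f x ^ 2 - (2 * (I / (t - s))) * f x) + (I / (t - s)) ^ 2 := by
        funext x
        ring
      rw [e, intervalIntegral.integral_add, intervalIntegral.integral_sub,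
        intervalIntegral.integral_const_mul, intervalIntegral.integral_const, smul_eq_mul, ← hI,
        ← hJ]
      · ring
      · exact (hf.pow 2).intervalIntegrable _ _
      · exact (continuous_const.mul hf).intervalIntegrable _ _
      · exact ((hf.pow 2).sub (continuous_const.mul hf)).intervalIntegrable _ _
      · exact continuous_const.intervalIntegrable _ _
    rw [h2] at h1
    have h3 : J - 2 * (I / (t - s)) * I + (I / (t - s)) ^ 2 * (t - s) = J - I ^ 2 / (t - s) := by
      field_simp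
      ring
    rw [h3, sub_nonneg, div_le_iff₀ hD] at h1
    linarith

theorem pow4 (a : ℕ) : ((2 : ℝ) ^ a) ^ 2 = 4 ^ a := by
  rw [← pow_mul, mul_comm a 2, pow_mul]
  norm_num

end B2aL

open B2aL in
theorem leaf_B2a (h1 : S_W1) (h3 : S_W3) : S_B2a := by
  intro C₀ ν c₁ E M L₀ X g q S τ L hτ hL hLL hτc j m l n hml
  obtain ⟨w1, w2, w3, -, -, -, w7, w8, w9⟩ := h1 τ L hτ hL
  rw [← h3 τ L j (l - j) n (q j m l) (S.cq j m l), Finset.mul_sum]
  apply Finset.sum_le_sum
  intro r _
  have hC : 0 ≤ C₀ := zero_le_one.trans S.C1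
  -- the subwindow
  have ha : max j l = j + (l - j) := by omega
  generalize j + (l - j) = a at *
  generalize 4 ^ (l - j) * n + r = N
  have hst := w1 a N
  have hs0 := w2 a N
  have htL : ew τ L a (N + 1) ≤ L₀ := (w3 a (N + 1)).trans hLL
  have hlen := w9 a N
  have h4a : (0 : ℝ) < 4 ^ a := by positivity
  have hb := S.bil j m l (ew τ L a N) (ew τ L a (N + 1)) hml hs0 hst htL (by
    rw [ha, hlen, div_mul_cancel₀ _ h4a.ne']
    nlinarith [w8 a N, w7 a N])
  have hcs := cs (q j m l) (S.cq j m l) _ _ hst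
  have hA : ∀ i, 0 ≤ AW τ L X g i a N := fun i =>
    add_nonneg (S.X0 i _) (intervalIntegral.integral_nonneg hst fun x _ => S.g0 i x)
  change _ ≤ C₀ ^ 2 * (4 ^ m / 4 ^ l) * (AW τ L X g m a N * AW τ L X g l a N) ^ 2 at hb
  have hR : 0 ≤ C₀ * √τ * ((2 : ℝ) ^ m / (2 ^ l * 2 ^ a)) *
      (√(ww τ L a N) * (AW τ L X g m a N * AW τ L X g l a N)) := by
    have := hA m
    have := hA l
    positivity
  refine le_of_abs_le (abs_le_of_sq_le_sq ?_ hR)
  refine hcs.trans ?_
  rw [hlen]
  have hw := w7 a N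
  have e1 : (C₀ * √τ * ((2 : ℝ) ^ m / (2 ^ l * 2 ^ a)) *
      (√(ww τ L a N) * (AW τ L X g m a N * AW τ L X g l a N))) ^ 2 =
      (ww τ L a N * τ / 4 ^ a) *
        (C₀ ^ 2 * (4 ^ m / 4 ^ l) * (AW τ L X g m a N * AW τ L X g l a N) ^ 2) := by
    rw [← pow4 a, ← pow4 m, ← pow4 l, mul_pow, mul_pow, mul_pow, mul_pow, Real.sq_sqrt hτ.le,
      Real.sq_sqrt hw, div_pow, mul_pow]
    field_simp
  rw [e1]
  exact mul_le_mul_of_nonneg_left hb (by positivity)

end Pool.Agent.H259.ND
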