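import Pool.Agent.H259.ND.Stmt

/-!
# Leaf B2f: the far part of the forcing
-/

set_option autoImplicit false
set_option linter.unusedVariables false

open MeasureTheory Set Finset

namespace Pool.Agent.H259.ND

namespace B2fL

lemma sum_blocks (f : ℕ → ℝ) (A B : ℕ) :
    ∑ r ∈ range (A * B), f r = ∑ a ∈ range A, ∑ b ∈ range B, f (B * a + b) := by
  induction A with
  | zero => simp
  | succ A ih =>
    rw [Nat.succ_mul, Finset.sum_range_add, ih, Finset.sum_range_succ]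
    congr 1
    refine Finset.sum_congr rfl fun b _ => ?_
    rw [mul_comm A B]

lemma ys_nonneg (τ L : ℝ) (X g : ℕ → ℝ → ℝ) (l j n : ℕ) : 0 ≤ ys τ L X g l j n := by
  unfold ys
  exact Finset.sum_nonneg fun r _ => by positivity

/-- the windows of level `l` and the size of the shell `m ≤ l` -/
lemma sub_sum (h4 : S_W4) (h6 : S_W6) {C₀ ν c₁ E : ℝ} {M : ℕ} {L₀ : ℝ} {X g : ℕ → ℝ → ℝ}
    {q : ℕ → ℕ → ℕ → ℝ → ℝ} (hS : Sys C₀ ν c₁ E M L₀ X g q) {τ L : ℝ} (hτ : 0 < τ) (hL : 0 ≤ L)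
    (hL0 : L ≤ L₀) {j m l : ℕ} (n : ℕ) (hm : m ≤ l) (hj : j ≤ l) :
    ∑ r ∈ range (4 ^ (l - j)), √(ww τ L l (4 ^ (l - j) * n + r)) *
      AW τ L X g m l (4 ^ (l - j) * n + r) ^ 2 ≤
      2 * 4 ^ (l - (j + (m - j))) * ys τ L X g m j n := by
  obtain ⟨e, he⟩ : ∃ e, e = m - j := ⟨_, rfl⟩
  obtain ⟨d, hd⟩ : ∃ d, d = l - (j + e) := ⟨_, rfl⟩
  have hl : l = (j + e) + d := by omega
  have hlj : l - j = e + d := by omega
  unfold ys
  rw [← he, ← hd, hlj, pow_add, sum_blocks, Finset.mul_sum]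
  refine Finset.sum_le_sum fun r1 _ => ?_
  have hidx : ∀ r2 : ℕ, 4 ^ e * 4 ^ d * n + (4 ^ d * r1 + r2) = 4 ^ d * (4 ^ e * n + r1) + r2 := by
    intro r2
    ring
  have hA := fun r2 hr2 => h6 C₀ ν c₁ E M L₀ X g q hS τ L hτ hL hL0 m (j + e) d
    (4 ^ e * n + r1) r2 hr2
  calc ∑ r2 ∈ range (4 ^ d), √(ww τ L l (4 ^ e * 4 ^ d * n + (4 ^ d * r1 + r2))) *
        AW τ L X g m l (4 ^ e * 4 ^ d * n + (4 ^ d * r1 + r2)) ^ 2 ≤
      ∑ r2 ∈ range (4 ^ d), √(ww τ L ((j + e) + d) (4 ^ d * (4 ^ e * n + r1) + r2)) *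
        AW τ L X g m (j + e) (4 ^ e * n + r1) ^ 2 := by
        refine Finset.sum_le_sum fun r2 hr2 => ?_
        rw [hidx, hl]
        obtain ⟨a1, a2⟩ := hA r2 (Finset.mem_range.1 hr2)
        exact mul_le_mul_of_nonneg_left (pow_le_pow_left₀ a1 a2 2) (Real.sqrt_nonneg _)
    _ = (∑ r2 ∈ range (4 ^ d), √(ww τ L ((j + e) + d) (4 ^ d * (4 ^ e * n + r1) + r2))) *
        AW τ L X g m (j + e) (4 ^ e * n + r1) ^ 2 := by rw [Finset.sum_mul]
    _ ≤ (2 * 4 ^ d * √(ww τ L (j + e) (4 ^ e * n + r1))) *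
        AW τ L X g m (j + e) (4 ^ e * n + r1) ^ 2 :=
        mul_le_mul_of_nonneg_right (h4 τ L hτ hL (j + e) d (4 ^ e * n + r1)) (by positivity)
    _ = 2 * 4 ^ d * (√(ww τ L (j + e) (4 ^ e * n + r1)) *
        AW τ L X g m (j + e) (4 ^ e * n + r1) ^ 2) := by ring

/-- one pair of shells -/
lemma one_pair (h2a : S_B2a) (h4 : S_W4) (h6 : S_W6) {C₀ ν c₁ E : ℝ} {M : ℕ} {L₀ : ℝ}
    {X g : ℕ → ℝ → ℝ} {q : ℕ → ℕ → ℕ → ℝ → ℝ} (hS : Sys C₀ ν c₁ E M L₀ X g q) {τ L : ℝ}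
    (hτ : 0 < τ) (hL : 0 ≤ L) (hL0 : L ≤ L₀) (hLτ : L ≤ τ) (hτc : τ ≤ c₁) {j m l : ℕ} (n : ℕ)
    (hm : m ≤ l) (hj : j + 2 ≤ l) :
    2 ^ j * ∫ t in (ew τ L j n)..(ew τ L j (n + 1)), q j m l t ≤
      C₀ * √τ * ((if l ≤ m + 5 then 1024 * ((2 : ℝ) ^ j / 2 ^ m) * (4 ^ m / 4 ^ l) *
        ys τ L X g m j n else 0) + 1 / 2 * ((2 : ℝ) ^ j / 2 ^ l) * (2 ^ m / 2 ^ l) *
          ys τ L X g l j n) := by
  have hC0 : 0 ≤ C₀ := by linarith [hS.C1]
  have hym := ys_nonneg τ L X g m j n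
  have hyl := ys_nonneg τ L X g l j n
  by_cases hlm : l ≤ m + 5
  · rw [if_pos hlm]
    have hjl : j + (l - j) = l := by omega
    have h1 := h2a C₀ ν c₁ E M L₀ X g q hS τ L hτ hL hL0 hτc j m l n hm
    rw [hjl] at h1
    have h2 := sub_sum h4 h6 hS hτ hL hL0 (j := j) n hm (by omega)
    have h3 : ∑ r ∈ range (4 ^ (l - j)), √(ww τ L l (4 ^ (l - j) * n + r)) *
        AW τ L X g l l (4 ^ (l - j) * n + r) ^ 2 = ys τ L X g l j n := by
      unfold ys
      rw [hjl]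
    have h4' : ∑ r ∈ range (4 ^ (l - j)), √(ww τ L l (4 ^ (l - j) * n + r)) *
        (AW τ L X g m l (4 ^ (l - j) * n + r) * AW τ L X g l l (4 ^ (l - j) * n + r)) ≤
        1024 * ys τ L X g m j n + 1 / 2 * ys τ L X g l j n := by
      have h5 : ∑ r ∈ range (4 ^ (l - j)), √(ww τ L l (4 ^ (l - j) * n + r)) *
          (AW τ L X g m l (4 ^ (l - j) * n + r) * AW τ L X g l l (4 ^ (l - j) * n + r)) ≤
          1 / 2 * ∑ r ∈ range (4 ^ (l - j)), √(ww τ L l (4 ^ (l - j) * n + r)) *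
            AW τ L X g m l (4 ^ (l - j) * n + r) ^ 2 +
          1 / 2 * ∑ r ∈ range (4 ^ (l - j)), √(ww τ L l (4 ^ (l - j) * n + r)) *
            AW τ L X g l l (4 ^ (l - j) * n + r) ^ 2 := by
        rw [Finset.mul_sum, Finset.mul_sum, ← Finset.sum_add_distrib]
        refine Finset.sum_le_sum fun r _ => ?_
        have a1 := Real.sqrt_nonneg (ww τ L l (4 ^ (l - j) * n + r))
        nlinarith [mul_nonneg a1 (sq_nonneg (AW τ L X g m l (4 ^ (l - j) * n + r) -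
          AW τ L X g l l (4 ^ (l - j) * n + r)))]
      have h6' : (4 : ℝ) ^ (l - (j + (m - j))) ≤ 4 ^ 5 :=
        pow_le_pow_right₀ (by norm_num) (by omega)
      have h7 : 2 * (4 : ℝ) ^ (l - (j + (m - j))) * ys τ L X g m j n ≤
          2048 * ys τ L X g m j n := by
        refine mul_le_mul_of_nonneg_right ?_ hym
        norm_num at h6' ⊢
        linarith
      rw [h3] at h5
      linarith
    have h8 : (0 : ℝ) ≤ C₀ * √τ * ((2 : ℝ) ^ m / (2 ^ l * 2 ^ l)) := by positivity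
    have h9 := h1.trans (mul_le_mul_of_nonneg_left h4' h8)
    have h10 := mul_le_mul_of_nonneg_left h9 (show (0 : ℝ) ≤ 2 ^ j by positivity)
    refine h10.trans (le_of_eq ?_)
    have e1 : (4 : ℝ) ^ m = 2 ^ m * 2 ^ m := by
      rw [← mul_pow]
      norm_num
    have e2 : (4 : ℝ) ^ l = 2 ^ l * 2 ^ l := by
      rw [← mul_pow]
      norm_num
    rw [e1, e2]
    field_simp
  · rw [if_neg hlm, zero_add]
    have h1 : ∀ t, q j m l t = 0 := fun t => hS.qz j m l t hm (by omega)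
    simp only [h1, intervalIntegral.integral_zero, mul_zero]
    positivity

lemma geo_two (l : ℕ) : ∑ m ∈ range (l + 1), (2 : ℝ) ^ m / 2 ^ l ≤ 2 := by
  rw [← Finset.sum_div, geom_sum_eq (by norm_num), div_le_iff₀ (by positivity)]
  rw [pow_succ]
  norm_num
  linarith

lemma geo_four (S : Finset ℕ) (m : ℕ) :
    ∑ l ∈ S, (if m ≤ l ∧ l ≤ m + 5 then (4 : ℝ) ^ m / 4 ^ l else 0) ≤ 4 / 3 := by
  rw [← Finset.sum_filter]
  have h1 : ∑ l ∈ S.filter (fun l => m ≤ l ∧ l ≤ m + 5), (4 : ℝ) ^ m / 4 ^ l ≤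
      ∑ l ∈ Finset.Ico m (m + 6), (4 : ℝ) ^ m / 4 ^ l := by
    refine Finset.sum_le_sum_of_subset_of_nonneg ?_ fun l _ _ => by positivity
    intro l hl
    rw [Finset.mem_filter] at hl
    rw [Finset.mem_Ico]
    omega
  refine h1.trans ?_
  rw [Finset.sum_Ico_eq_sum_range, Nat.add_sub_cancel_left]
  have h2 : ∀ i ∈ range 6, (4 : ℝ) ^ m / 4 ^ (m + i) = 1 / 4 ^ i := by
    intro i _
    rw [pow_add]
    field_simp
  rw [Finset.sum_congr rfl h2]
  norm_num [Finset.sum_range_succ]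

end B2fL

open B2fL in
theorem leaf_B2f (h1 : S_W1) (h2a : S_B2a) (h4 : S_W4) (h6 : S_W6) : S_B2f := by
  intro C₀ ν c₁ E M L₀ X g q hS τ L hτ hL hL0 hLτ hτc j n _
  have hC0 : 0 ≤ C₀ := by linarith [hS.C1]
  have hy := fun m => ys_nonneg τ L X g m j n
  set y : ℕ → ℝ := fun m => ys τ L X g m j n with hyd
  set S : Finset ℕ := (range M).filter (fun l => j + 2 ≤ l) with hSd
  have hSM : ∀ l ∈ S, l < M ∧ j + 2 ≤ l := by
    intro l hl
    rw [hSd, Finset.mem_filter, Finset.mem_range] at hl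
    exact hl
  have k1 : ∑ l ∈ S, ∑ m ∈ range (l + 1), 2 ^ j * ∫ t in (ew τ L j n)..(ew τ L j (n + 1)), q j m l t ≤
      ∑ l ∈ S, ∑ m ∈ range (l + 1), C₀ * √τ * ((if l ≤ m + 5 then 1024 * ((2 : ℝ) ^ j / 2 ^ m) *
        (4 ^ m / 4 ^ l) * y m else 0) + 1 / 2 * ((2 : ℝ) ^ j / 2 ^ l) * (2 ^ m / 2 ^ l) * y l) := by
    refine Finset.sum_le_sum fun l hl => Finset.sum_le_sum fun m hm => ?_
    rw [Finset.mem_range] at hm
    exact one_pair h2a h4 h6 hS hτ hL hL0 hLτ hτc n (by omega) (hSM l hl).2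
  refine k1.trans ?_
  have k2 : ∑ l ∈ S, ∑ m ∈ range (l + 1), C₀ * √τ * ((if l ≤ m + 5 then
        1024 * ((2 : ℝ) ^ j / 2 ^ m) * (4 ^ m / 4 ^ l) * y m else 0) +
          1 / 2 * ((2 : ℝ) ^ j / 2 ^ l) * (2 ^ m / 2 ^ l) * y l) =
      C₀ * √τ * ((∑ l ∈ S, ∑ m ∈ range (l + 1), if l ≤ m + 5 then
        1024 * ((2 : ℝ) ^ j / 2 ^ m) * (4 ^ m / 4 ^ l) * y m else 0) +
        ∑ l ∈ S, ∑ m ∈ range (l + 1), 1 / 2 * ((2 : ℝ) ^ j / 2 ^ l) * (2 ^ m / 2 ^ l) * y l) := by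
    rw [mul_add, Finset.mul_sum, Finset.mul_sum, ← Finset.sum_add_distrib]
    refine Finset.sum_congr rfl fun l _ => ?_
    rw [Finset.mul_sum, Finset.mul_sum, ← Finset.sum_add_distrib]
    refine Finset.sum_congr rfl fun m _ => ?_
    ring
  rw [k2]
  set U : ℝ := ∑ l ∈ upS M j, (2 : ℝ) ^ j / 2 ^ l * y l with hU
  have hU0 : 0 ≤ U := Finset.sum_nonneg fun l _ => mul_nonneg (by positivity) (hy l)
  -- the second sum
  have k3 : ∑ l ∈ S, ∑ m ∈ range (l + 1), 1 / 2 * ((2 : ℝ) ^ j / 2 ^ l) * (2 ^ m / 2 ^ l) * y l ≤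
      U := by
    calc ∑ l ∈ S, ∑ m ∈ range (l + 1), 1 / 2 * ((2 : ℝ) ^ j / 2 ^ l) * (2 ^ m / 2 ^ l) * y l =
        ∑ l ∈ S, (1 / 2 * ((2 : ℝ) ^ j / 2 ^ l) * y l) *
          ∑ m ∈ range (l + 1), (2 : ℝ) ^ m / 2 ^ l := by
          refine Finset.sum_congr rfl fun l _ => ?_
          rw [Finset.mul_sum]
          refine Finset.sum_congr rfl fun m _ => ?_
          ring
      _ ≤ ∑ l ∈ S, (1 / 2 * ((2 : ℝ) ^ j / 2 ^ l) * y l) * 2 := by
          refine Finset.sum_le_sum fun l _ => ?_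
          exact mul_le_mul_of_nonneg_left (geo_two l) (mul_nonneg (by positivity) (hy l))
      _ = ∑ l ∈ S, (2 : ℝ) ^ j / 2 ^ l * y l := Finset.sum_congr rfl fun l _ => by ring
      _ ≤ U := by
          refine Finset.sum_le_sum_of_subset_of_nonneg ?_ fun l _ _ =>
            mul_nonneg (by positivity) (hy l)
          intro l hl
          have := hSM l hl
          unfold upS
          rw [Finset.mem_filter, Finset.mem_range]
          omega
  -- the first sum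
  have k4 : ∑ l ∈ S, ∑ m ∈ range (l + 1), (if l ≤ m + 5 then
        1024 * ((2 : ℝ) ^ j / 2 ^ m) * (4 ^ m / 4 ^ l) * y m else 0) ≤ 1024 * (4 / 3) * U := by
    calc ∑ l ∈ S, ∑ m ∈ range (l + 1), (if l ≤ m + 5 then
        1024 * ((2 : ℝ) ^ j / 2 ^ m) * (4 ^ m / 4 ^ l) * y m else 0) =
        ∑ l ∈ S, ∑ m ∈ upS M j, (1024 * ((2 : ℝ) ^ j / 2 ^ m) * y m) *
          (if m ≤ l ∧ l ≤ m + 5 then (4 : ℝ) ^ m / 4 ^ l else 0) := by
          refine Finset.sum_congr rfl fun l hl => ?_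
          have hl2 := hSM l hl
          have e1 : ∑ m ∈ range (l + 1), (if l ≤ m + 5 then
              1024 * ((2 : ℝ) ^ j / 2 ^ m) * (4 ^ m / 4 ^ l) * y m else 0) =
              ∑ m ∈ range M, (if m ≤ l ∧ l ≤ m + 5 then
              1024 * ((2 : ℝ) ^ j / 2 ^ m) * (4 ^ m / 4 ^ l) * y m else 0) := by
            have hsub : range (l + 1) ⊆ range M := by
              intro m hm
              rw [Finset.mem_range] at hm ⊢
              omega
            rw [← Finset.sum_subset hsub]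
            · refine Finset.sum_congr rfl fun m hm => ?_
              rw [Finset.mem_range] at hm
              have : m ≤ l := by omega
              simp [this]
            · intro m _ hm
              rw [Finset.mem_range] at hm
              rw [if_neg (by omega)]
          rw [e1]
          unfold upS
          rw [Finset.sum_filter]
          refine Finset.sum_congr rfl fun m _ => ?_
          by_cases h3 : m ≤ l ∧ l ≤ m + 5
          · rw [if_pos h3, if_pos (by omega), if_pos h3]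
            ring
          · rw [if_neg h3, if_neg h3, mul_zero, ite_self]
      _ = ∑ m ∈ upS M j, (1024 * ((2 : ℝ) ^ j / 2 ^ m) * y m) *
          ∑ l ∈ S, (if m ≤ l ∧ l ≤ m + 5 then (4 : ℝ) ^ m / 4 ^ l else 0) := by
          rw [Finset.sum_comm]
          refine Finset.sum_congr rfl fun m _ => ?_
          rw [Finset.mul_sum]
      _ ≤ ∑ m ∈ upS M j, (1024 * ((2 : ℝ) ^ j / 2 ^ m) * y m) * (4 / 3) := by
          refine Finset.sum_le_sum fun m _ => ?_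
          exact mul_le_mul_of_nonneg_left (geo_four S m) (mul_nonneg (by positivity) (hy m))
      _ = 1024 * (4 / 3) * U := by
          rw [hU, Finset.mul_sum]
          refine Finset.sum_congr rfl fun m _ => ?_
          ring
  have k5 : (0 : ℝ) ≤ C₀ * √τ := by positivity
  calc C₀ * √τ * (_ + _) ≤ C₀ * √τ * (1024 * (4 / 3) * U + U) :=
        mul_le_mul_of_nonneg_left (add_le_add k4 k3) k5
    _ ≤ C₀ * √τ * (2000 * U) := mul_le_mul_of_nonneg_left (by linarith) k5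
    _ = 2000 * C₀ * √τ * U := by ring

end Pool.Agent.H259.ND
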