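import Pool.Agent.H259.ND.Stmt

/-!
# ND-B2n: near part of the forcing
-/

set_option autoImplicit false

open MeasureTheory Set Finset

namespace Pool.Agent.H259.ND

namespace B2nL

theorem geo (k : ℕ) : ∑ m ∈ range k, (2 : ℝ) ^ m ≤ 2 ^ k := by
  induction k with
  | zero => simp
  | succ k ih =>
    rw [Finset.sum_range_succ, pow_succ]
    linarith

theorem card_near (M j : ℕ) : ∑ l ∈ nearS M j, 4 ^ (l - j) ≤ 6 := by
  have hsub : nearS M j ⊆ {j - 1, j, j + 1} := by
    intro l hl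
    rw [nearS, Finset.mem_filter] at hl
    simp only [Finset.mem_insert, Finset.mem_singleton]
    omega
  refine (Finset.sum_le_sum_of_subset hsub).trans ?_
  rcases Nat.eq_zero_or_pos j with h | h
  · subst h
    decide
  · have e1 : j - 1 ∉ ({j, j + 1} : Finset ℕ) := by
      simp only [Finset.mem_insert, Finset.mem_singleton]
      omega
    have e2 : j ∉ ({j + 1} : Finset ℕ) := by
      simp only [Finset.mem_singleton]
      omega
    rw [Finset.sum_insert e1, Finset.sum_insert e2, Finset.sum_singleton]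
    have e3 : j - 1 - j = 0 := by omega
    have e4 : j - j = 0 := by omega
    have e5 : j + 1 - j = 1 := by omega
    rw [e3, e4, e5]
    norm_num

end B2nL

open B2nL in
theorem leaf_B2n (h1 : S_W1) (h2a : S_B2a) (h6 : S_W6) : S_B2n := by
  intro C₀ ν c₁ E M L₀ X g q S τ L hτ hL hLL hLτ hτc XX hXX j n hn
  obtain ⟨w1, w2, w3, -, -, -, w7, w8, w9⟩ := h1 τ L hτ hL
  have hC : 0 ≤ C₀ := zero_le_one.trans S.C1
  have hA : ∀ i a N, 0 ≤ AW τ L X g i a N := fun i a N =>
    add_nonneg (S.X0 i _) (intervalIntegral.integral_nonneg (w1 a N) fun x _ => S.g0 i x)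
  have hXX0 : 0 ≤ XX := by
    refine le_trans ?_ (hXX 0)
    exact (sq_nonneg _).trans (Finset.le_sup' (fun n => AW τ L X g 0 0 n ^ 2)
      (Finset.mem_range.2 (show 0 < 4 ^ 0 by norm_num)))
  -- `A_m ≤ √XX`
  have hAX : ∀ (m a N : ℕ), m ≤ a → N < 4 ^ a → AW τ L X g m a N ≤ √XX := by
    intro m a N hma hN
    obtain ⟨d, rfl⟩ := Nat.exists_eq_add_of_le hma
    have hd : 0 < 4 ^ d := by positivity
    have hr : N % 4 ^ d < 4 ^ d := Nat.mod_lt _ hd
    have hn' : N / 4 ^ d < 4 ^ m := by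
      rw [Nat.div_lt_iff_lt_mul hd, ← pow_add]
      exact hN
    have h := (h6 C₀ ν c₁ E M L₀ X g q S τ L hτ hL hLL m m d (N / 4 ^ d) (N % 4 ^ d) hr).2
    rw [Nat.div_add_mod] at h
    have h2 : AW τ L X g m m (N / 4 ^ d) ^ 2 ≤ XX :=
      (Finset.le_sup' (fun n => AW τ L X g m m n ^ 2) (Finset.mem_range.2 hn')).trans (hXX m)
    exact h.trans (Real.le_sqrt_of_sq_le h2)
  -- one `l`
  have hl : ∀ l ∈ nearS M j, ∑ m ∈ range (l + 1),
      2 ^ j * ∫ t in (ew τ L j n)..(ew τ L j (n + 1)), q j m l t ≤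
      2 * C₀ * √τ * √XX * ∑ r ∈ range (4 ^ (l - j)),
        √(ww τ L (j + (l - j)) (4 ^ (l - j) * n + r)) *
          AW τ L X g l (j + (l - j)) (4 ^ (l - j) * n + r) := by
    intro l hl
    set T := ∑ r ∈ range (4 ^ (l - j)), √(ww τ L (j + (l - j)) (4 ^ (l - j) * n + r)) *
          AW τ L X g l (j + (l - j)) (4 ^ (l - j) * n + r) with hT
    have hT0 : 0 ≤ T := Finset.sum_nonneg fun r _ => mul_nonneg (Real.sqrt_nonneg _) (hA _ _ _)
    have hm : ∀ m ∈ range (l + 1),
        2 ^ j * ∫ t in (ew τ L j n)..(ew τ L j (n + 1)), q j m l t ≤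
        (C₀ * √τ * √XX * T / 2 ^ l) * 2 ^ m := by
      intro m hm
      have hml : m ≤ l := Nat.lt_succ_iff.1 (Finset.mem_range.1 hm)
      have hb := h2a C₀ ν c₁ E M L₀ X g q S τ L hτ hL hLL hτc j m l n hml
      have hsum : ∑ r ∈ range (4 ^ (l - j)), √(ww τ L (j + (l - j)) (4 ^ (l - j) * n + r))
          * (AW τ L X g m (j + (l - j)) (4 ^ (l - j) * n + r)
            * AW τ L X g l (j + (l - j)) (4 ^ (l - j) * n + r)) ≤ √XX * T := by
        rw [hT, Finset.mul_sum]
        apply Finset.sum_le_sum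
        intro r hr
        have hN : 4 ^ (l - j) * n + r < 4 ^ (j + (l - j)) := by
          have h2 := Finset.mem_range.1 hr
          calc 4 ^ (l - j) * n + r < 4 ^ (l - j) * n + 4 ^ (l - j) := by omega
            _ = 4 ^ (l - j) * (n + 1) := by ring
            _ ≤ 4 ^ (l - j) * 4 ^ j := Nat.mul_le_mul_left _ hn
            _ = 4 ^ (j + (l - j)) := by rw [pow_add, mul_comm]
        have hma : m ≤ j + (l - j) := by omega
        have h3 := hAX m (j + (l - j)) _ hma hN
        have h4 := hA l (j + (l - j)) (4 ^ (l - j) * n + r)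
        have h5 := Real.sqrt_nonneg (ww τ L (j + (l - j)) (4 ^ (l - j) * n + r))
        calc _ = (√(ww τ L (j + (l - j)) (4 ^ (l - j) * n + r)) *
              AW τ L X g l (j + (l - j)) (4 ^ (l - j) * n + r)) *
              AW τ L X g m (j + (l - j)) (4 ^ (l - j) * n + r) := by ring
          _ ≤ (√(ww τ L (j + (l - j)) (4 ^ (l - j) * n + r)) *
              AW τ L X g l (j + (l - j)) (4 ^ (l - j) * n + r)) * √XX :=
            mul_le_mul_of_nonneg_left h3 (mul_nonneg h5 h4)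
          _ = _ := by ring
      have h2j : (2 : ℝ) ^ j ≤ 2 ^ (j + (l - j)) :=
        pow_le_pow_right₀ (by norm_num) (Nat.le_add_right _ _)
      have hja : (2 : ℝ) ^ j / 2 ^ (j + (l - j)) ≤ 1 := by
        rw [div_le_one (by positivity)]
        exact h2j
      calc 2 ^ j * ∫ t in (ew τ L j n)..(ew τ L j (n + 1)), q j m l t
          ≤ 2 ^ j * (C₀ * √τ * ((2 : ℝ) ^ m / (2 ^ l * 2 ^ (j + (l - j)))) * (√XX * T)) := by
            refine mul_le_mul_of_nonneg_left (hb.trans ?_) (by positivity)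
            exact mul_le_mul_of_nonneg_left hsum (by positivity)
        _ = ((2 : ℝ) ^ j / 2 ^ (j + (l - j))) * ((C₀ * √τ * √XX * T / 2 ^ l) * 2 ^ m) := by
            field_simp
        _ ≤ 1 * ((C₀ * √τ * √XX * T / 2 ^ l) * 2 ^ m) :=
            mul_le_mul_of_nonneg_right hja (by positivity)
        _ = _ := one_mul _
    refine (Finset.sum_le_sum hm).trans ?_
    rw [← Finset.mul_sum]
    have h3 := geo (l + 1)
    calc C₀ * √τ * √XX * T / 2 ^ l * ∑ m ∈ range (l + 1), (2 : ℝ) ^ m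
        ≤ C₀ * √τ * √XX * T / 2 ^ l * 2 ^ (l + 1) := mul_le_mul_of_nonneg_left h3 (by positivity)
      _ = 2 * C₀ * √τ * √XX * T := by
        rw [pow_succ]
        field_simp
  have hsum := Finset.sum_le_sum hl
  rw [← Finset.mul_sum] at hsum
  have h0 : 0 ≤ ∑ l ∈ nearS M j, ∑ m ∈ range (l + 1),
      2 ^ j * ∫ t in (ew τ L j n)..(ew τ L j (n + 1)), q j m l t := by
    refine Finset.sum_nonneg fun l _ => Finset.sum_nonneg fun m _ => ?_
    exact mul_nonneg (by positivity)
      (intervalIntegral.integral_nonneg (w1 j n) fun x _ => S.q0 j m l x)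
  refine (pow_le_pow_left₀ h0 hsum 2).trans ?_
  -- Cauchy-Schwarz
  have hcs : (∑ l ∈ nearS M j, ∑ r ∈ range (4 ^ (l - j)),
      √(ww τ L (j + (l - j)) (4 ^ (l - j) * n + r)) *
        AW τ L X g l (j + (l - j)) (4 ^ (l - j) * n + r)) ^ 2 ≤
      6 * ∑ l ∈ nearS M j, ys τ L X g l j n := by
    rw [Finset.sum_sigma']
    refine (sq_sum_le_card_mul_sum_sq).trans ?_
    have hcard : (((nearS M j).sigma fun l => range (4 ^ (l - j))).card : ℝ) ≤ 6 := by
      rw [Finset.card_sigma]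
      simp only [Finset.card_range]
      exact_mod_cast card_near M j
    have hy : ∑ i ∈ (nearS M j).sigma fun l => range (4 ^ (l - j)),
        (√(ww τ L (j + (i.1 - j)) (4 ^ (i.1 - j) * n + i.2)) *
        AW τ L X g i.1 (j + (i.1 - j)) (4 ^ (i.1 - j) * n + i.2)) ^ 2 ≤
        ∑ l ∈ nearS M j, ys τ L X g l j n := by
      rw [Finset.sum_sigma]
      apply Finset.sum_le_sum
      intro l _
      rw [ys]
      apply Finset.sum_le_sum
      intro r _
      rw [mul_pow]
      refine mul_le_mul_of_nonneg_right ?_ (sq_nonneg _)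
      have h3 := Real.sqrt_nonneg (ww τ L (j + (l - j)) (4 ^ (l - j) * n + r))
      have h4 : √(ww τ L (j + (l - j)) (4 ^ (l - j) * n + r)) ≤ 1 :=
        Real.sqrt_le_one.2 (w8 _ _)
      nlinarith
    refine mul_le_mul hcard hy (Finset.sum_nonneg fun i _ => sq_nonneg _) (by norm_num)
  rw [mul_pow, mul_pow, mul_pow, mul_pow, Real.sq_sqrt hτ.le, Real.sq_sqrt hXX0]
  calc _ ≤ 2 ^ 2 * C₀ ^ 2 * τ * XX * (6 * ∑ l ∈ nearS M j, ys τ L X g l j n) :=
        mul_le_mul_of_nonneg_left hcs (by positivity)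
    _ = _ := by ring

end Pool.Agent.H259.ND
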