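import Pool.Agent.H259.ND.Stmt

set_option autoImplicit false

open MeasureTheory Set Finset

namespace Pool.Agent.H259.ND

namespace B3L

theorem AW_nn {C₀ ν c₁ E : ℝ} {M : ℕ} {L₀ : ℝ} {X g : ℕ → ℝ → ℝ} {q : ℕ → ℕ → ℕ → ℝ → ℝ}
    (h1 : S_W1) (hS : Sys C₀ ν c₁ E M L₀ X g q) {τ L : ℝ} (hτ : 0 < τ) (hL : 0 ≤ L)
    (l a n : ℕ) : 0 ≤ AW τ L X g l a n := by
  unfold AW Aw
  have h := (h1 τ L hτ hL).1 a n
  exact add_nonneg (hS.X0 _ _)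
    (intervalIntegral.integral_nonneg h (fun u _ => hS.g0 _ _))

theorem XXj_nn {C₀ ν c₁ E : ℝ} {M : ℕ} {L₀ : ℝ} {X g : ℕ → ℝ → ℝ} {q : ℕ → ℕ → ℕ → ℝ → ℝ}
    (_hS : Sys C₀ ν c₁ E M L₀ X g q) (τ L : ℝ) (l : ℕ) : 0 ≤ XXj τ L X g l := by
  unfold XXj
  exact le_trans (sq_nonneg (AW τ L X g l l 0))
    (Finset.le_sup' (fun n => AW τ L X g l l n ^ 2)
      (Finset.mem_range.mpr (by positivity : 0 < 4 ^ l)))

theorem Yj_nn (X g : ℕ → ℝ → ℝ) (τ L : ℝ) (l : ℕ) : 0 ≤ Yj τ L X g l := by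
  unfold Yj
  exact Finset.sum_nonneg (fun n _ => mul_nonneg (Real.sqrt_nonneg _) (sq_nonneg _))

end B3L

open B3L in
theorem leaf_B3 (h1 : S_W1) (hB1 : S_B1) (hB2 : S_B2) (h8 : S_W8) : S_B3 := by
  obtain ⟨C, hC, hB⟩ := hB2
  refine ⟨256 * C, by positivity, ?_⟩
  intro C₀ ν c₁ E M L₀ X g q hS τ L hτ hL hLL hLτ hτc h4 XX YY hXX hYY j S hSb
  have hXX0 : 0 ≤ XX := le_trans (XXj_nn hS τ L 0) (hXX 0)
  have hYY0 : 0 ≤ YY := le_trans (Yj_nn X g τ L 0) (hYY 0)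
  have hw := h1 τ L hτ hL
  show (range (4 ^ j)).sup' _ _ ≤ _
  apply Finset.sup'_le
  intro n hn
  have hn' : n < 4 ^ j := Finset.mem_range.mp hn
  have ht : ew τ L j n ∈ Icc (ew τ L j n) (ew τ L j (n + 1)) := ⟨le_rfl, hw.1 j n⟩
  have hb1 := hB1 C₀ ν c₁ E M L₀ X g q hS τ L hτ hL hLL h4 j n _ ht
  have hA := AW_nn h1 hS hτ hL j j n
  have hS1 : X j (ew τ L j n) ^ 2 ≤ S := hSb _ ⟨hw.2.1 j n, hw.2.2.1 j n⟩
  have hb2 := hB C₀ ν c₁ E M L₀ X g q hS τ L hτ hL hLL hLτ hτc XX YY hXX hYY j n hn'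
  have e1 : ∑ l ∈ nearS M j, ys τ L X g l j n ≤ ∑ l ∈ nearS M j, 4 * XXj τ L X g l := by
    apply Finset.sum_le_sum
    intro l hl
    have hl' := (Finset.mem_filter.mp hl).2
    exact (h8 C₀ ν c₁ E M L₀ X g q hS τ L hτ hL hLL l j).1 n hn' hl'.1
  have e2 : ∑ l ∈ upS M j, (2 : ℝ) ^ j / 2 ^ l * ys τ L X g l j n ≤
      ∑ l ∈ upS M j, (2 : ℝ) ^ j / 2 ^ l * (8 * Yj τ L X g l) := by
    apply Finset.sum_le_sum
    intro l hl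
    have hl' := (Finset.mem_filter.mp hl).2
    exact mul_le_mul_of_nonneg_left
      ((h8 C₀ ν c₁ E M L₀ X g q hS τ L hτ hL hLL l j).2.1 n hn' hl') (by positivity)
  have e3 : ∑ l ∈ nearS M j, 4 * XXj τ L X g l = 4 * ∑ l ∈ nearS M j, XXj τ L X g l := by
    rw [Finset.mul_sum]
  have e4 : ∑ l ∈ upS M j, (2 : ℝ) ^ j / 2 ^ l * (8 * Yj τ L X g l) =
      8 * ∑ l ∈ upS M j, (2 : ℝ) ^ j / 2 ^ l * Yj τ L X g l := by
    rw [Finset.mul_sum]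
    exact Finset.sum_congr rfl (fun l _ => by ring)
  rw [e3] at e1
  rw [e4] at e2
  have p1 : 0 ≤ ∑ l ∈ nearS M j, XXj τ L X g l :=
    Finset.sum_nonneg (fun l _ => XXj_nn hS τ L l)
  generalize ∑ l ∈ nearS M j, XXj τ L X g l = sX at e1 p1 ⊢
  generalize ∑ l ∈ upS M j, (2 : ℝ) ^ j / 2 ^ l * Yj τ L X g l = sY at e2 ⊢
  generalize ∑ l ∈ nearS M j, ys τ L X g l j n = s1 at e1 hb2
  generalize ∑ l ∈ upS M j, (2 : ℝ) ^ j / 2 ^ l * ys τ L X g l j n = s2 at e2 hb2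
  have k1 : XX * s1 ≤ XX * (4 * sX) := mul_le_mul_of_nonneg_left e1 hXX0
  have k2 : YY * s2 ≤ YY * (8 * sY) := mul_le_mul_of_nonneg_left e2 hYY0
  have k3 : XX * s1 + YY * s2 ≤ 8 * (XX * sX + YY * sY) := by
    have : 0 ≤ XX * sX := mul_nonneg hXX0 p1
    linarith
  have k4 : C * C₀ ^ 2 * τ * (XX * s1 + YY * s2) ≤ C * C₀ ^ 2 * τ * (8 * (XX * sX + YY * sY)) :=
    mul_le_mul_of_nonneg_left k3 (by positivity)
  generalize AW τ L X g j j n = A at hb1 hA ⊢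
  generalize Gj τ L M q j n = G at hb1 hb2
  generalize X j (ew τ L j n) = x at hb1 hS1
  have k5 : A ^ 2 ≤ (2 * x + 4 * G) ^ 2 := pow_le_pow_left₀ hA hb1 2
  have k6 : (2 * x + 4 * G) ^ 2 ≤ 8 * x ^ 2 + 32 * G ^ 2 := by
    nlinarith [sq_nonneg (2 * x - 4 * G)]
  calc A ^ 2 ≤ 8 * x ^ 2 + 32 * G ^ 2 := k5.trans k6
    _ ≤ 8 * S + 32 * (C * C₀ ^ 2 * τ * (8 * (XX * sX + YY * sY))) := by linarith
    _ = 8 * S + 256 * C * C₀ ^ 2 * τ * (XX * sX + YY * sY) := by ring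

end Pool.Agent.H259.ND
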