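import Pool.Agent.H259.ND.Stmt

set_option autoImplicit false

open MeasureTheory Set Finset

namespace Pool.Agent.H259.ND

namespace B5L

/-- the window is cut properly -/
def Part (τ L : ℝ) (j n : ℕ) : Prop := (n : ℝ) * τ / 4 ^ j < L ∧ L < ((n : ℝ) + 1) * τ / 4 ^ j

theorem sqrt_ww (τ L : ℝ) (hτ : 0 < τ) (j n : ℕ) (h : ¬ Part τ L j n) :
    √(ww τ L j n) = ww τ L j n := by
  have h4 : (0 : ℝ) < 4 ^ j := by positivity
  have hle : (n : ℝ) * τ / 4 ^ j ≤ ((n : ℝ) + 1) * τ / 4 ^ j := by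
    rw [div_le_div_iff_of_pos_right h4]
    nlinarith
  unfold Part at h
  rw [not_and_or, not_lt, not_lt] at h
  have key : ww τ L j n = 0 ∨ ww τ L j n = 1 := by
    unfold ww ew
    push_cast
    rcases h with h | h
    · left
      rw [min_eq_right h, min_eq_right (h.trans hle)]
      simp
    · right
      rw [min_eq_left h, min_eq_left (hle.trans h)]
      field_simp
      ring
  rcases key with h | h
  · rw [h, Real.sqrt_zero]
  · rw [h, Real.sqrt_one]

theorem part_unique (τ L : ℝ) (hτ : 0 < τ) (j n m : ℕ) (hn : Part τ L j n) (hm : Part τ L j m) :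
    n = m := by
  have h4 : (0 : ℝ) < 4 ^ j := by positivity
  have key : ∀ a b : ℕ, Part τ L j a → Part τ L j b → a < b → False := by
    intro a b ha hb hab
    have h1 : ((a : ℝ) + 1) ≤ b := by exact_mod_cast hab
    have h2 : ((a : ℝ) + 1) * τ / 4 ^ j ≤ (b : ℝ) * τ / 4 ^ j := by
      rw [div_le_div_iff_of_pos_right h4]
      exact mul_le_mul_of_nonneg_right h1 hτ.le
    linarith [ha.2, hb.1]
  rcases lt_trichotomy n m with h | h | h
  · exact (key n m hn hm h).elim
  · exact h
  · exact (key m n hm hn h).elim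

end B5L

theorem leaf_B5 (h1 : S_W1) : S_B5 := by
  intro f τ L F j t hf hf0 hτ hL hLτ hF ht hmin
  obtain ⟨w1, w2, w3, w4, w5, -, w7, w8, w9⟩ := h1 τ L hτ hL
  have h4 : (0 : ℝ) < 4 ^ j := by positivity
  set I : ℝ := ∫ x in (0 : ℝ)..L, f x with hI
  have htL : ∀ n, t n ∈ Icc 0 L := fun n =>
    ⟨(w2 j n).trans (ht n).1, (ht n).2.trans (w3 j (n + 1))⟩
  have hint : ∀ a b : ℝ, IntervalIntegrable f volume a b := fun a b => hf.intervalIntegrable a b
  -- one window
  have e1 : ∀ n, ww τ L j n * f (t n) ≤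
      4 ^ j / τ * ∫ x in (ew τ L j n)..(ew τ L j (n + 1)), f x := by
    intro n
    have e2 : ∫ _ in (ew τ L j n)..(ew τ L j (n + 1)), f (t n) ≤
        ∫ x in (ew τ L j n)..(ew τ L j (n + 1)), f x :=
      intervalIntegral.integral_mono_on (w1 j n) intervalIntegrable_const (hint _ _)
        fun x hx => hmin n x hx
    rw [intervalIntegral.integral_const, smul_eq_mul, w9] at e2
    calc ww τ L j n * f (t n) = 4 ^ j / τ * (ww τ L j n * τ / 4 ^ j * f (t n)) := by
          field_simp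
      _ ≤ _ := mul_le_mul_of_nonneg_left e2 (by positivity)
  -- the sum of the integrals
  have e3 : ∑ n ∈ range (4 ^ j), ∫ x in (ew τ L j n)..(ew τ L j (n + 1)), f x = I := by
    rw [intervalIntegral.sum_integral_adjacent_intervals (fun k _ => hint _ _), w4, w5 j hLτ]
  have e4 : ∑ n ∈ range (4 ^ j), ww τ L j n * f (t n) ≤ 4 ^ j * I / τ := by
    calc ∑ n ∈ range (4 ^ j), ww τ L j n * f (t n)
        ≤ ∑ n ∈ range (4 ^ j), 4 ^ j / τ * ∫ x in (ew τ L j n)..(ew τ L j (n + 1)), f x :=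
          Finset.sum_le_sum fun n _ => e1 n
      _ = 4 ^ j * I / τ := by
          rw [← Finset.mul_sum, e3]
          ring
  have e5 : ∀ n ∈ range (4 ^ j), ww τ L j n * f (t n) ≤ 4 ^ j * I / τ := fun n hn =>
    (Finset.single_le_sum (f := fun n => ww τ L j n * f (t n))
      (fun i _ => mul_nonneg (w7 j i) (hf0 _)) hn).trans e4
  have hI0 : 0 ≤ 4 ^ j * I / τ := by
    have : 0 ≤ I := intervalIntegral.integral_nonneg hL fun x _ => hf0 x
    positivity
  have hF0 : 0 ≤ F := (hf0 _).trans (hF (t 0) (htL 0))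
  have hmin0 : 0 ≤ min F √(F * (4 ^ j * I / τ)) := le_min hF0 (Real.sqrt_nonneg _)
  by_cases hP : ∃ n ∈ range (4 ^ j), B5L.Part τ L j n
  · obtain ⟨n', hn', hPn⟩ := hP
    rw [← Finset.add_sum_erase _ _ hn']
    have f1 : √(ww τ L j n') * f (t n') ≤ min F √(F * (4 ^ j * I / τ)) := by
      refine le_min ?_ ?_
      · calc √(ww τ L j n') * f (t n') ≤ 1 * F :=
              mul_le_mul (Real.sqrt_le_one.2 (w8 j n')) (hF _ (htL n')) (hf0 _) zero_le_one
          _ = F := one_mul F
      · refine Real.le_sqrt_of_sq_le ?_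
        rw [mul_pow, Real.sq_sqrt (w7 j n')]
        calc ww τ L j n' * f (t n') ^ 2 = f (t n') * (ww τ L j n' * f (t n')) := by ring
          _ ≤ F * (4 ^ j * I / τ) :=
              mul_le_mul (hF _ (htL n')) (e5 n' hn') (mul_nonneg (w7 j n') (hf0 _)) hF0
    have f2 : ∑ n ∈ (range (4 ^ j)).erase n', √(ww τ L j n) * f (t n) ≤ 4 ^ j * I / τ := by
      refine le_trans ?_ e4
      calc ∑ n ∈ (range (4 ^ j)).erase n', √(ww τ L j n) * f (t n)
          = ∑ n ∈ (range (4 ^ j)).erase n', ww τ L j n * f (t n) := by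
            refine Finset.sum_congr rfl fun n hn => ?_
            rw [B5L.sqrt_ww τ L hτ j n fun h =>
              (Finset.mem_erase.1 hn).1 (B5L.part_unique τ L hτ j n n' h hPn)]
        _ ≤ ∑ n ∈ range (4 ^ j), ww τ L j n * f (t n) :=
            Finset.sum_le_sum_of_subset_of_nonneg (Finset.erase_subset _ _)
              fun n _ _ => mul_nonneg (w7 j n) (hf0 _)
    linarith
  · push Not at hP
    have f2 : ∑ n ∈ range (4 ^ j), √(ww τ L j n) * f (t n) =
        ∑ n ∈ range (4 ^ j), ww τ L j n * f (t n) := by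
      refine Finset.sum_congr rfl fun n hn => ?_
      rw [B5L.sqrt_ww τ L hτ j n (hP n hn)]
    rw [f2]
    linarith

end Pool.Agent.H259.ND
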