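import Pool.Agent.H259.ND.Stmt

set_option autoImplicit false

open MeasureTheory Set Finset

namespace Pool.Agent.H259.ND

namespace B6L

lemma AW_zero {τ L : ℝ} {X g : ℕ → ℝ → ℝ} {j : ℕ} (hX : ∀ t, X j t = 0) (hg : ∀ t, g j t = 0)
    (a n : ℕ) : AW τ L X g j a n = 0 := by
  unfold AW Aw
  simp [hX, hg]

lemma XXj_zero {τ L : ℝ} {X g : ℕ → ℝ → ℝ} {j : ℕ} (hX : ∀ t, X j t = 0) (hg : ∀ t, g j t = 0) :
    XXj τ L X g j = 0 := by
  unfold XXj
  simp [AW_zero hX hg]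

lemma Yj_zero {τ L : ℝ} {X g : ℕ → ℝ → ℝ} {j : ℕ} (hX : ∀ t, X j t = 0) (hg : ∀ t, g j t = 0) :
    Yj τ L X g j = 0 := by
  unfold Yj
  simp [AW_zero hX hg]

lemma ew_zero {τ : ℝ} (hτ : 0 < τ) (a n : ℕ) : ew τ 0 a n = 0 := by
  unfold ew
  exact min_eq_right (by positivity)

lemma AW_at0 {τ : ℝ} (hτ : 0 < τ) (X g : ℕ → ℝ → ℝ) (j a n : ℕ) : AW τ 0 X g j a n = X j 0 := by
  unfold AW Aw
  simp [ew_zero hτ]

lemma XXj_at0 {τ : ℝ} (hτ : 0 < τ) (X g : ℕ → ℝ → ℝ) (j : ℕ) : XXj τ 0 X g j = X j 0 ^ 2 := by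
  unfold XXj
  simp [AW_at0 hτ]

lemma Yj_at0 {τ : ℝ} (hτ : 0 < τ) (X g : ℕ → ℝ → ℝ) (j : ℕ) : Yj τ 0 X g j = 0 := by
  unfold Yj
  apply Finset.sum_eq_zero
  intro n _
  have : ww τ 0 j n = 0 := by
    unfold ww
    simp [ew_zero hτ]
  rw [this, Real.sqrt_zero, zero_mul]

lemma near_card (M j : ℕ) : (nearS M j).card ≤ 3 := by
  have h : nearS M j ⊆ Finset.Icc (j - 1) (j + 1) := by
    intro l hl
    unfold nearS at hl
    rw [Finset.mem_filter] at hl
    rw [Finset.mem_Icc]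
    omega
  have h2 := Finset.card_le_card h
  rw [Nat.card_Icc] at h2
  omega

lemma near_sum (M j : ℕ) (x : ℕ → ℝ) (a : ℝ) (ha : 0 ≤ a) (hx : ∀ l, x l ≤ a) :
    ∑ l ∈ nearS M j, x l ≤ 3 * a := by
  calc ∑ l ∈ nearS M j, x l ≤ ∑ _l ∈ nearS M j, a := Finset.sum_le_sum fun l _ => hx l
    _ = (nearS M j).card * a := by rw [Finset.sum_const, nsmul_eq_mul]
    _ ≤ 3 * a := by
        have : ((nearS M j).card : ℝ) ≤ 3 := by exact_mod_cast near_card M j
        exact mul_le_mul_of_nonneg_right this ha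

lemma up_aux (j M : ℕ) :
    (j ≤ M + 3 → ∑ l ∈ upS M j, (2 : ℝ) ^ j / 2 ^ l ≤ 16 - 2 * ((2 : ℝ) ^ j / 2 ^ M)) ∧
    (M + 3 < j → ∑ l ∈ upS M j, (2 : ℝ) ^ j / 2 ^ l = 0) := by
  induction M with
  | zero =>
    constructor
    · intro h
      have h1 : (2 : ℝ) ^ j ≤ 2 ^ 3 := pow_le_pow_right₀ (by norm_num) (by omega)
      unfold upS
      simp only [Finset.range_zero, Finset.filter_empty, Finset.sum_empty, pow_zero, div_one]
      norm_num at h1 ⊢
      linarith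
    · intro _
      unfold upS
      simp
  | succ M ih =>
    have hs : ∑ l ∈ upS (M + 1) j, (2 : ℝ) ^ j / 2 ^ l =
        (∑ l ∈ upS M j, (2 : ℝ) ^ j / 2 ^ l) + (if j ≤ M + 3 then (2 : ℝ) ^ j / 2 ^ M else 0) := by
      unfold upS
      rw [Finset.sum_filter, Finset.sum_filter, Finset.sum_range_succ]
    have h2 : (2 : ℝ) ^ j / 2 ^ (M + 1) = (2 : ℝ) ^ j / 2 ^ M / 2 := by
      rw [pow_succ, div_div]
    constructor
    · intro h
      rw [hs, h2]
      by_cases h3 : j ≤ M + 3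
      · rw [if_pos h3]
        have := ih.1 h3
        linarith
      · rw [if_neg h3, ih.2 (by omega)]
        have h4 : j = M + 4 := by omega
        have h5 : (2 : ℝ) ^ j / 2 ^ M = 16 := by
          rw [h4, pow_add, mul_div_assoc, mul_comm, div_mul_cancel₀ _ (by positivity)]
          norm_num
        rw [h5]
        norm_num
    · intro h
      rw [hs, if_neg (by omega), ih.2 (by omega), add_zero]

lemma up_geo (M j : ℕ) : ∑ l ∈ upS M j, (2 : ℝ) ^ j / 2 ^ l ≤ 16 := by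
  rcases le_or_gt j (M + 3) with h | h
  · have := (up_aux j M).1 h
    have h2 : (0 : ℝ) ≤ (2 : ℝ) ^ j / 2 ^ M := by positivity
    linarith
  · rw [(up_aux j M).2 h]
    norm_num

lemma up_sum (M j : ℕ) (y : ℕ → ℝ) (b : ℝ) (hb : 0 ≤ b) (hy : ∀ l, y l ≤ b) :
    ∑ l ∈ upS M j, (2 : ℝ) ^ j / 2 ^ l * y l ≤ 16 * b := by
  calc ∑ l ∈ upS M j, (2 : ℝ) ^ j / 2 ^ l * y l
      ≤ ∑ l ∈ upS M j, (2 : ℝ) ^ j / 2 ^ l * b :=
        Finset.sum_le_sum fun l _ => mul_le_mul_of_nonneg_left (hy l) (by positivity)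
    _ = (∑ l ∈ upS M j, (2 : ℝ) ^ j / 2 ^ l) * b := by rw [Finset.sum_mul]
    _ ≤ 16 * b := mul_le_mul_of_nonneg_right (up_geo M j) hb

/-- the maximum over the shells up to `M` -/
noncomputable def mx (M : ℕ) (F : ℕ → ℝ → ℝ) : ℝ → ℝ :=
  fun t => (Finset.range (M + 1)).sup' ⟨0, by simp⟩ fun j => F j t

lemma mx_cont (M : ℕ) (F : ℕ → ℝ → ℝ) (h : ∀ j, Continuous (F j)) : Continuous (mx M F) := by
  unfold mx
  exact Continuous.finset_sup'_apply _ fun j _ => h j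

lemma le_mx (M : ℕ) (F : ℕ → ℝ → ℝ) (t : ℝ) (hz : ∀ j, M ≤ j → F j t = 0) (j : ℕ) :
    F j t ≤ mx M F t := by
  rcases le_or_gt j M with h | h
  · exact Finset.le_sup' (fun j => F j t) (Finset.mem_range.2 (by omega))
  · rw [hz j h.le, ← hz M le_rfl]
    exact Finset.le_sup' (fun j => F j t) (Finset.mem_range.2 (by omega))

lemma mx_le (M : ℕ) (F : ℕ → ℝ → ℝ) (t b : ℝ) (h : ∀ j, F j t ≤ b) : mx M F t ≤ b :=
  Finset.sup'_le _ _ fun j _ => h j

lemma choose_c0 (τ E b : ℝ) (hτ : 0 < τ) (hE : 0 ≤ E) (hb : 0 < b) :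
    ∃ c : ℝ, 0 < c ∧ ∀ z : ℝ, 0 ≤ z → z ≤ c → 16 * (z / τ + min E √(E * (z / τ))) ≤ b := by
  obtain ⟨δ, hδ⟩ : ∃ δ, δ = min (b / 32) ((b / 32) ^ 2 / (E + 1)) := ⟨_, rfl⟩
  have hδ0 : 0 < δ := by
    rw [hδ]
    exact lt_min (by positivity) (by positivity)
  refine ⟨τ * δ, by positivity, fun z hz0 hz => ?_⟩
  have h1 : z / τ ≤ δ := by
    rw [div_le_iff₀ hτ]
    linarith
  have h2 : δ ≤ b / 32 := by rw [hδ]; exact min_le_left _ _
  have h3 : δ ≤ (b / 32) ^ 2 / (E + 1) := by rw [hδ]; exact min_le_right _ _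
  have h4 : √(E * (z / τ)) ≤ b / 32 := by
    rw [Real.sqrt_le_left (by positivity)]
    have h5 : E * (z / τ) ≤ (E + 1) * ((b / 32) ^ 2 / (E + 1)) :=
      mul_le_mul (by linarith) (h1.trans h3) (by positivity) (by linarith)
    rwa [mul_div_cancel₀ _ (by linarith : E + 1 ≠ 0)] at h5
  have h6 := min_le_right E √(E * (z / τ))
  linarith

end B6L

open B6L in
theorem leaf_B6 (h1 : S_W1) (hB3 : S_B3) (hB4 : S_B4) (h6a : S_B6a) (h6b : S_B6b) : S_B6 := by
  intro C₀ c₁ E hC₀ hc₁ hE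
  obtain ⟨C3, hC3, H3⟩ := hB3
  obtain ⟨C4, hC4, H4⟩ := hB4
  obtain ⟨a, ha⟩ : ∃ a, a = 32 * (E + 1) := ⟨_, rfl⟩
  have ha0 : 0 < a := by rw [ha]; positivity
  obtain ⟨τ₁, hτ₁⟩ : ∃ τ₁, τ₁ = min (min c₁ (1 / (4 * C₀)))
    (min (1 / (C3 * C₀ ^ 2 * (3 * a ^ 2 + 16))) (1 / (2 * (C4 * C₀ ^ 2 * (3 * a + 16))))) := ⟨_, rfl⟩
  have hC0 : 0 < C₀ := by linarith
  refine ⟨τ₁, ?_, ?_⟩
  · rw [hτ₁]
    exact lt_min (lt_min hc₁ (by positivity)) (lt_min (by positivity) (by positivity))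
  intro τ hτ hττ ε hε
  have t1 : τ ≤ c₁ := hττ.trans (by rw [hτ₁]; exact (min_le_left _ _).trans (min_le_left _ _))
  have t2 : 4 * C₀ * τ ≤ 1 := by
    have : τ ≤ 1 / (4 * C₀) :=
      hττ.trans (by rw [hτ₁]; exact (min_le_left _ _).trans (min_le_right _ _))
    rw [le_div_iff₀ (by positivity)] at this
    linarith
  have t3 : C3 * C₀ ^ 2 * τ * (3 * a ^ 2 + 16) ≤ 1 := by
    have : τ ≤ 1 / (C3 * C₀ ^ 2 * (3 * a ^ 2 + 16)) :=
      hττ.trans (by rw [hτ₁]; exact (min_le_right _ _).trans (min_le_left _ _))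
    rw [le_div_iff₀ (by positivity)] at this
    linarith
  have t4 : C4 * C₀ ^ 2 * τ * (3 * a + 16) ≤ 1 / 2 := by
    have : τ ≤ 1 / (2 * (C4 * C₀ ^ 2 * (3 * a + 16))) :=
      hττ.trans (by rw [hτ₁]; exact (min_le_right _ _).trans (min_le_right _ _))
    rw [le_div_iff₀ (by positivity)] at this
    linarith
  obtain ⟨b', hb'⟩ : ∃ b', b' = min ε (1 / 2) := ⟨_, rfl⟩
  have hb0 : 0 < b' := by rw [hb']; exact lt_min hε (by norm_num)
  have hbε : b' ≤ ε := by rw [hb']; exact min_le_left _ _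
  have hb1 : b' ≤ 1 / 2 := by rw [hb']; exact min_le_right _ _
  obtain ⟨c₀, hc₀, Hc⟩ := choose_c0 τ E b' hτ hE hb0
  refine ⟨c₀, hc₀, ?_⟩
  intro ν M L X g q hS hL hLτ hsum
  obtain ⟨f, hf⟩ : ∃ f : ℝ → ℝ, f = mx M (fun j t => XXj τ t X g j) := ⟨_, rfl⟩
  obtain ⟨G, hG⟩ : ∃ G : ℝ → ℝ, G = mx M (fun j t => Yj τ t X g j) := ⟨_, rfl⟩
  have fc : Continuous f := by
    rw [hf]
    exact mx_cont M _ fun j => (h6a X g hS.cX hS.cg τ j).1
  have Gc : Continuous G := by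
    rw [hG]
    exact mx_cont M _ fun j => (h6a X g hS.cX hS.cg τ j).2
  have fle : ∀ t j, XXj τ t X g j ≤ f t := by
    intro t j
    rw [hf]
    exact le_mx M (fun j t => XXj τ t X g j) t (fun j hj => XXj_zero (hS.XM j hj) (hS.gM j hj)) j
  have Gle : ∀ t j, Yj τ t X g j ≤ G t := by
    intro t j
    rw [hG]
    exact le_mx M (fun j t => Yj τ t X g j) t (fun j hj => Yj_zero (hS.XM j hj) (hS.gM j hj)) j
  have G0 : ∀ t, 0 ≤ G t := by
    intro t
    have := Gle t M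
    rwa [Yj_zero (hS.XM M le_rfl) (hS.gM M le_rfl)] at this
  have hEn : 0 ≤ E := hE
  have key := h6b f G L a (8 * E + 1) 1 b' hL fc.continuousOn Gc.continuousOn
    (by rw [ha]; linarith) (by linarith)
    (by
      rw [hf]
      apply mx_le
      intro j
      rw [XXj_at0 hτ]
      have := hS.en j 0 ⟨le_rfl, hL⟩
      linarith)
    (by
      rw [hG]
      apply mx_le
      intro j
      rw [Yj_at0 hτ]
      exact hb0.le)
    (by
      intro t ht hft hGt
      have htL : t ≤ L := ht.2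
      have hint : ∀ j, 4 ^ j * (∫ x in (0 : ℝ)..t, X j x ^ 2) ≤ c₀ ∧
          0 ≤ 4 ^ j * (∫ x in (0 : ℝ)..t, X j x ^ 2) := by
        intro j
        have h2 : ∀ s : ℝ, 0 ≤ s → 0 ≤ ∫ x in (0 : ℝ)..s, X j x ^ 2 := fun s hs =>
          intervalIntegral.integral_nonneg hs fun x _ => sq_nonneg _
        refine ⟨?_, mul_nonneg (by positivity) (h2 t ht.1)⟩
        rcases lt_or_ge j M with hj | hj
        · have h3 : ∫ x in (0 : ℝ)..t, X j x ^ 2 ≤ ∫ x in (0 : ℝ)..L, X j x ^ 2 := by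
            apply intervalIntegral.integral_mono_interval le_rfl ht.1 htL
            · exact Filter.Eventually.of_forall fun x => sq_nonneg _
            · exact ((hS.cX j).pow 2).intervalIntegrable _ _
          have h4 : 4 ^ j * (∫ x in (0 : ℝ)..L, X j x ^ 2) ≤
              ∑ j ∈ Finset.range M, 4 ^ j * ∫ x in (0 : ℝ)..L, X j x ^ 2 := by
            apply Finset.single_le_sum (f := fun j => 4 ^ j * ∫ x in (0 : ℝ)..L, X j x ^ 2) _
              (Finset.mem_range.2 hj)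
            intro i _
            apply mul_nonneg (by positivity)
            exact intervalIntegral.integral_nonneg hL fun x _ => sq_nonneg _
          have h5 : (4 : ℝ) ^ j * (∫ x in (0 : ℝ)..t, X j x ^ 2) ≤
              4 ^ j * (∫ x in (0 : ℝ)..L, X j x ^ 2) :=
            mul_le_mul_of_nonneg_left h3 (by positivity)
          linarith
        · have : (∫ x in (0 : ℝ)..t, X j x ^ 2) = 0 := by
            simp [hS.XM j hj]
          rw [this, mul_zero]
          exact hc₀.le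
      have hSE : ∀ j, ∀ s ∈ Icc 0 t, X j s ^ 2 ≤ E := fun j s hs =>
        hS.en j s ⟨hs.1, hs.2.trans htL⟩
      constructor
      · rw [hf]
        apply mx_le
        intro j
        have h3 := H3 C₀ ν c₁ E M L X g q hS τ t hτ ht.1 htL (htL.trans hLτ) t1 t2 a 1
          (fun l => (fle t l).trans hft) (fun l => (Gle t l).trans hGt) j E (hSE j)
        have h4 := near_sum M j (fun l => XXj τ t X g l) a ha0.le (fun l => (fle t l).trans hft)
        have h5 := up_sum M j (fun l => Yj τ t X g l) 1 zero_le_one (fun l => (Gle t l).trans hGt)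
        have h6 : C3 * C₀ ^ 2 * τ * (a * ∑ l ∈ nearS M j, XXj τ t X g l
            + 1 * ∑ l ∈ upS M j, (2 : ℝ) ^ j / 2 ^ l * Yj τ t X g l) ≤
            C3 * C₀ ^ 2 * τ * (3 * a ^ 2 + 16) := by
          apply mul_le_mul_of_nonneg_left _ (by positivity)
          have h7 : a * ∑ l ∈ nearS M j, XXj τ t X g l ≤ a * (3 * a) :=
            mul_le_mul_of_nonneg_left h4 ha0.le
          nlinarith
        linarith
      · have hGG : G t ≤ b' / 2 + 1 / 2 * G t := by
          have h8 : mx M (fun j t => Yj τ t X g j) t ≤ b' / 2 + 1 / 2 * G t := by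
            apply mx_le
            intro j
            have h3 := H4 C₀ ν c₁ E M L X g q hS τ t hτ ht.1 htL (htL.trans hLτ) t1 t2 a (G t)
              (fun l => (fle t l).trans hft) (fun l => Gle t l) j E (hSE j)
            have h4 := near_sum M j (fun l => Yj τ t X g l) (G t) (G0 t) (fun l => Gle t l)
            have h5 := up_sum M j (fun l => Yj τ t X g l) 1 zero_le_one
              (fun l => (Gle t l).trans hGt)
            have h6 : C4 * C₀ ^ 2 * τ * (a * ∑ l ∈ nearS M j, Yj τ t X g l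
                + G t * ∑ l ∈ upS M j, (2 : ℝ) ^ j / 2 ^ l * Yj τ t X g l) ≤
                C4 * C₀ ^ 2 * τ * ((3 * a + 16) * G t) := by
              apply mul_le_mul_of_nonneg_left _ (by positivity)
              have h7 : a * ∑ l ∈ nearS M j, Yj τ t X g l ≤ a * (3 * G t) :=
                mul_le_mul_of_nonneg_left h4 ha0.le
              have h8 : G t * ∑ l ∈ upS M j, (2 : ℝ) ^ j / 2 ^ l * Yj τ t X g l ≤
                  G t * (16 * 1) := mul_le_mul_of_nonneg_left h5 (G0 t)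
              linarith
            have h9 : C4 * C₀ ^ 2 * τ * ((3 * a + 16) * G t) ≤ 1 / 2 * G t := by
              have := mul_le_mul_of_nonneg_right t4 (G0 t)
              linarith
            have h10 := Hc _ (hint j).2 (hint j).1
            linarith
          rw [hG] at h8 ⊢
          exact h8
        linarith)
  intro j
  have := key L ⟨hL, le_rfl⟩
  exact ⟨(fle L j).trans this.1, (Gle L j).trans (this.2.trans hbε)⟩

end Pool.Agent.H259.ND
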