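import Pool.Agent.H259.ND.Stmt

set_option autoImplicit false

open MeasureTheory Set Finset

namespace Pool.Agent.H259.ND

namespace B6aL

theorem ew_cont (τ : ℝ) (a n : ℕ) : Continuous fun L => ew τ L a n := by
  unfold ew
  fun_prop

theorem prim_cont {g : ℝ → ℝ} (hg : Continuous g) : Continuous fun x => ∫ r in (0 : ℝ)..x, g r :=
  intervalIntegral.continuous_primitive (fun a b => hg.intervalIntegrable a b) 0

theorem AW_cont (X g : ℕ → ℝ → ℝ) (hX : ∀ j, Continuous (X j)) (hg : ∀ j, Continuous (g j))
    (τ : ℝ) (j a n : ℕ) : Continuous fun L => AW τ L X g j a n := by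
  unfold AW Aw
  have h1 : (fun L => X j (ew τ L a n) + ∫ r in (ew τ L a n)..(ew τ L a (n + 1)), g j r) =
      fun L => X j (ew τ L a n) + ((∫ r in (0 : ℝ)..(ew τ L a (n + 1)), g j r) -
        ∫ r in (0 : ℝ)..(ew τ L a n), g j r) := by
    funext L
    rw [intervalIntegral.integral_interval_sub_left ((hg j).intervalIntegrable _ _)
      ((hg j).intervalIntegrable _ _)]
  rw [h1]
  have h2 := ew_cont τ a n
  have h3 := ew_cont τ a (n + 1)
  have h4 := prim_cont (hg j)
  exact ((hX j).comp h2).add ((h4.comp h3).sub (h4.comp h2))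

theorem ww_cont (τ : ℝ) (a n : ℕ) : Continuous fun L => ww τ L a n := by
  unfold ww
  have h2 := ew_cont τ a n
  have h3 := ew_cont τ a (n + 1)
  exact ((h3.sub h2).mul_const _).div_const _

end B6aL

open B6aL in
theorem leaf_B6a : S_B6a := by
  intro X g hX hg τ j
  constructor
  · unfold XXj
    exact Continuous.finset_sup'_apply _ fun n _ => (AW_cont X g hX hg τ j j n).pow 2
  · unfold Yj
    refine continuous_finsetSum _ fun n _ => ?_
    exact (Real.continuous_sqrt.comp (ww_cont τ j n)).mul ((AW_cont X g hX hg τ j j n).pow 2)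

end Pool.Agent.H259.ND
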