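import Pool.Agent.H259.ND.Stmt

open MeasureTheory Set Filter Topology

namespace Pool.Agent.H259.ND

theorem leaf_B6b : S_B6b := by
  intro f g L a a' b b' hL hf hg ha hb f0 g0 h
  have hsub : Icc (0 : ℝ) L ⊆ {t | f t ≤ a' ∧ g t ≤ b'} := by
    apply IsClosed.Icc_subset_of_forall_mem_nhdsWithin
    · have h1 : IsClosed (Icc 0 L ∩ f ⁻¹' (Iic a')) :=
        hf.preimage_isClosed_of_isClosed isClosed_Icc isClosed_Iic
      have h2 : IsClosed (Icc 0 L ∩ g ⁻¹' (Iic b')) :=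
        hg.preimage_isClosed_of_isClosed isClosed_Icc isClosed_Iic
      have h3 : {t | f t ≤ a' ∧ g t ≤ b'} ∩ Icc 0 L =
          (Icc 0 L ∩ f ⁻¹' (Iic a')) ∩ (Icc 0 L ∩ g ⁻¹' (Iic b')) := by
        ext t
        simp only [Set.mem_inter_iff, Set.mem_ofPred_eq, Set.mem_preimage, Set.mem_Iic]
        tauto
      rw [h3]
      exact h1.inter h2
    · exact ⟨f0, g0⟩
    · rintro x ⟨⟨hx1, hx2⟩, hx3⟩
      have hxI : x ∈ Icc 0 L := ⟨hx3.1, hx3.2.le⟩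
      have hle : 𝓝[>] x ≤ 𝓝[Icc 0 L] x := by
        have h1 : Ioc x L ∈ 𝓝[>] x := Ioc_mem_nhdsGT hx3.2
        rw [← nhdsWithin_Ioc_eq_nhdsGT hx3.2]
        exact nhdsWithin_mono x (fun y hy => ⟨le_trans hx3.1 hy.1.le, hy.2⟩)
      have e1 : ∀ᶠ y in 𝓝[Icc 0 L] x, f y < a :=
        (hf x hxI).eventually (Iio_mem_nhds (lt_of_le_of_lt hx1 ha))
      have e2 : ∀ᶠ y in 𝓝[Icc 0 L] x, g y < b :=
        (hg x hxI).eventually (Iio_mem_nhds (lt_of_le_of_lt hx2 hb))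
      have e3 : ∀ᶠ y in 𝓝[Icc 0 L] x, y ∈ Icc 0 L := self_mem_nhdsWithin
      have e4 : ∀ᶠ y in 𝓝[Icc 0 L] x, f y ≤ a' ∧ g y ≤ b' := by
        filter_upwards [e1, e2, e3] with y h1 h2 h3
        exact h y h3 h1.le h2.le
      exact hle e4
  intro t ht
  exact hsub ht

end Pool.Agent.H259.ND
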