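import Pool.Agent.H259.ND.Stmt

set_option autoImplicit false

open MeasureTheory Set Finset

namespace Pool.Agent.H259.ND

namespace B7L

theorem XX_nonneg (τ L : ℝ) (X g : ℕ → ℝ → ℝ) (j : ℕ) : 0 ≤ XXj τ L X g j := by
  unfold XXj
  have h0 : 0 ∈ range (4 ^ j) := by simp
  exact le_trans (sq_nonneg _) (Finset.le_sup' (fun n => AW τ L X g j j n ^ 2) h0)

theorem Y_nonneg (τ L : ℝ) (X g : ℕ → ℝ → ℝ) (j : ℕ) : 0 ≤ Yj τ L X g j := by
  unfold Yj
  exact sum_nonneg fun n _ => mul_nonneg (Real.sqrt_nonneg _) (sq_nonneg _)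

end B7L

theorem leaf_B7 (h1 : S_W1) (h7a : S_B7a) (h7b : S_B7b) : S_B7 := by
  intro s hs
  obtain ⟨C, hC, hb⟩ := h7b s hs
  refine ⟨4 * C, by positivity, ?_⟩
  intro C₀ ν c₁ E M L₀ X g q hS τ L hτ hL hLL hLτ hτc η hη hXY
  have hC0 : 0 ≤ C₀ := le_trans zero_le_one hS.C1
  have key := hb M (fun j => XXj τ L X g j) (fun j => Yj τ L X g j) η hη
    (B7L.XX_nonneg τ L X g) (B7L.Y_nonneg τ L X g) hXY
  have hc : ∀ j m l : ℕ, Continuous fun t => X j t * (2 ^ j * q j m l t) := fun j m l =>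
    (hS.cX j).mul (continuous_const.mul (hS.cq j m l))
  have hj : ∀ j, ∫ t in (0 : ℝ)..L, X j t * (2 ^ j * nn M q j t) ≤ (4 * C₀ * √τ) *
      ∑ l ∈ (range M).filter (fun l => j ≤ l + 1), ∑ m ∈ range (l + 1),
        √((2 : ℝ) ^ m / 2 ^ l) * √(√(XXj τ L X g m * Yj τ L X g m) *
          √(XXj τ L X g l * Yj τ L X g l)) * √(Yj τ L X g j) := by
    intro j
    have e1 : ∀ t, X j t * (2 ^ j * nn M q j t) =
        ∑ l ∈ range M, ∑ m ∈ range (l + 1), X j t * (2 ^ j * q j m l t) := by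
      intro t
      unfold nn
      simp only [mul_sum]
    have e2 : ∫ t in (0 : ℝ)..L, X j t * (2 ^ j * nn M q j t) =
        ∑ l ∈ range M, ∑ m ∈ range (l + 1), ∫ t in (0 : ℝ)..L, X j t * (2 ^ j * q j m l t) := by
      rw [intervalIntegral.integral_congr (fun t _ => e1 t)]
      rw [intervalIntegral.integral_finsetSum fun l _ =>
        (continuous_finsetSum _ fun m _ => hc j m l).intervalIntegrable _ _]
      refine sum_congr rfl fun l _ => ?_
      exact intervalIntegral.integral_finsetSum fun m _ => (hc j m l).intervalIntegrable _ _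
    rw [e2, ← sum_filter_add_sum_filter_not (range M) (fun l => j ≤ l + 1)]
    have e3 : ∑ l ∈ (range M).filter (fun l => ¬ j ≤ l + 1), ∑ m ∈ range (l + 1),
        ∫ t in (0 : ℝ)..L, X j t * (2 ^ j * q j m l t) = 0 := by
      refine sum_eq_zero fun l hl => sum_eq_zero fun m hm => ?_
      have h2 := (mem_filter.1 hl).2
      have h3 : m ≤ l := Nat.lt_succ_iff.1 (mem_range.1 hm)
      have h4 : ∀ t, q j m l t = 0 := fun t => hS.qz j m l t h3 fun h => h2 h.1
      simp [h4]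
    rw [e3, add_zero, mul_sum]
    refine sum_le_sum fun l hl => ?_
    rw [mul_sum]
    refine sum_le_sum fun m hm => ?_
    have h3 : m ≤ l := Nat.lt_succ_iff.1 (mem_range.1 hm)
    refine (h7a C₀ ν c₁ E M L₀ X g q hS τ L hτ hL hLL hLτ hτc j m l h3 (mem_filter.1 hl).2).trans
      (le_of_eq ?_)
    ring
  have h5 : ∑ j ∈ range M, (4 : ℝ) ^ (s * j) * ∫ t in (0 : ℝ)..L, X j t * (2 ^ j * nn M q j t) ≤
      (4 * C₀ * √τ) * ∑ j ∈ range M, 4 ^ (s * j) *
        ∑ l ∈ (range M).filter (fun l => j ≤ l + 1), ∑ m ∈ range (l + 1),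
          √((2 : ℝ) ^ m / 2 ^ l) * √(√(XXj τ L X g m * Yj τ L X g m) *
            √(XXj τ L X g l * Yj τ L X g l)) * √(Yj τ L X g j) := by
    rw [mul_sum]
    refine sum_le_sum fun j _ => ?_
    refine (mul_le_mul_of_nonneg_left (hj j) (by positivity)).trans (le_of_eq ?_)
    ring
  refine h5.trans ((mul_le_mul_of_nonneg_left key (by positivity)).trans (le_of_eq ?_))
  ring

end Pool.Agent.H259.ND
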