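import Pool.Agent.H259.ND.Stmt

set_option autoImplicit false

namespace Pool.Agent.H259.ND

open Finset MeasureTheory

namespace B7aL

/-- Cauchy-Schwarz with the constant function -/
theorem cs_int (f : ℝ → ℝ) (hf : Continuous f) (s t : ℝ) (hst : s ≤ t) :
    (∫ x in s..t, f x) ^ 2 ≤ (t - s) * ∫ x in s..t, f x ^ 2 := by
  rcases hst.eq_or_lt with h | h
  · rw [h]
    simp
  · have hpos : 0 < t - s := by linarith
    set c : ℝ := (∫ x in s..t, f x) / (t - s) with hc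
    have h1 : 0 ≤ ∫ x in s..t, (f x - c) ^ 2 :=
      intervalIntegral.integral_nonneg hst fun x _ => sq_nonneg _
    have h2 : ∫ x in s..t, (f x - c) ^ 2 =
        (∫ x in s..t, f x ^ 2) - 2 * c * (∫ x in s..t, f x) + (t - s) * c ^ 2 := by
      have e1 : ∀ x, (f x - c) ^ 2 = (f x ^ 2 - 2 * c * f x) + c ^ 2 := fun x => by ring
      simp only [e1]
      rw [intervalIntegral.integral_add, intervalIntegral.integral_sub,
        intervalIntegral.integral_const_mul, intervalIntegral.integral_const, smul_eq_mul]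
      · exact (hf.pow 2).intervalIntegrable _ _
      · exact (continuous_const.mul hf).intervalIntegrable _ _
      · exact ((hf.pow 2).sub (continuous_const.mul hf)).intervalIntegrable _ _
      · exact continuous_const.intervalIntegrable _ _
    rw [h2] at h1
    have h3 : c * (t - s) = ∫ x in s..t, f x := by
      rw [hc]
      field_simp
    rw [← h3] at h1 ⊢
    have h4 : 0 ≤ (∫ x in s..t, f x ^ 2) - c ^ 2 * (t - s) := by
      have e2 : (∫ x in s..t, f x ^ 2) - 2 * c * (c * (t - s)) + (t - s) * c ^ 2 =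
          (∫ x in s..t, f x ^ 2) - c ^ 2 * (t - s) := by ring
      rw [e2] at h1
      exact h1
    have h5 : c ^ 2 * (t - s) ≤ ∫ x in s..t, f x ^ 2 := by linarith
    calc (c * (t - s)) ^ 2 = (t - s) * (c ^ 2 * (t - s)) := by ring
      _ ≤ _ := mul_le_mul_of_nonneg_left h5 hpos.le

variable {C₀ ν c₁ E : ℝ} {M : ℕ} {L₀ : ℝ} {X g : ℕ → ℝ → ℝ} {q : ℕ → ℕ → ℕ → ℝ → ℝ}

theorem Aw_nonneg (H : Sys C₀ ν c₁ E M L₀ X g q) (j : ℕ) {s t : ℝ} (hst : s ≤ t) :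
    0 ≤ Aw (X j) (g j) s t := by
  unfold Aw
  have h1 := H.X0 j s
  have h2 : 0 ≤ ∫ r in s..t, g j r :=
    intervalIntegral.integral_nonneg hst fun x _ => H.g0 j x
  linarith

theorem X_le (H : Sys C₀ ν c₁ E M L₀ X g q) (j : ℕ) {s t x : ℝ} (hs : 0 ≤ s) (hsx : s ≤ x)
    (hxt : x ≤ t) (ht : t ≤ L₀) : X j x ≤ Aw (X j) (g j) s t := by
  unfold Aw
  have h1 := H.lip j s x hs hsx (hxt.trans ht)
  have h2 : ∫ r in s..t, g j r = (∫ r in s..x, g j r) + ∫ r in x..t, g j r :=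
    (intervalIntegral.integral_add_adjacent_intervals ((H.cg j).intervalIntegrable _ _)
      ((H.cg j).intervalIntegrable _ _)).symm
  have h3 : 0 ≤ ∫ r in x..t, g j r :=
    intervalIntegral.integral_nonneg hxt fun y _ => H.g0 j y
  have h4 := le_abs_self (X j x - X j s)
  linarith

/-- one window -/
theorem window (H : Sys C₀ ν c₁ E M L₀ X g q) (j m l : ℕ) (hml : m ≤ l) {s t τ w : ℝ} {a : ℕ}
    (ha : a = max j l) (hs : 0 ≤ s) (hst : s ≤ t) (ht : t ≤ L₀) (hw0 : 0 ≤ w) (hw1 : w ≤ 1)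
    (hτ : 0 < τ) (hτ1 : τ ≤ c₁) (hlen : t - s = w * τ / 4 ^ a) :
    ∫ x in s..t, X j x * (2 ^ j * q j m l x) ≤
      2 ^ j * (C₀ * √τ * ((2 : ℝ) ^ m / (2 ^ l * 2 ^ a))) *
        (√w * (Aw (X j) (g j) s t * Aw (X m) (g m) s t * Aw (X l) (g l) s t)) := by
  have hC : 0 < C₀ := lt_of_lt_of_le one_pos H.C1
  have hq := H.cq j m l
  have hAj := Aw_nonneg H j hst
  have hAm := Aw_nonneg H m hst
  have hAl := Aw_nonneg H l hst
  obtain ⟨Aj, hAjd⟩ : ∃ A, A = Aw (X j) (g j) s t := ⟨_, rfl⟩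
  obtain ⟨Am, hAmd⟩ : ∃ A, A = Aw (X m) (g m) s t := ⟨_, rfl⟩
  obtain ⟨Al, hAld⟩ : ∃ A, A = Aw (X l) (g l) s t := ⟨_, rfl⟩
  have hI0 : 0 ≤ ∫ x in s..t, q j m l x :=
    intervalIntegral.integral_nonneg hst fun x _ => H.q0 j m l x
  have h1 : ∫ x in s..t, X j x * (2 ^ j * q j m l x) ≤ ∫ x in s..t, Aj * (2 ^ j * q j m l x) := by
    apply intervalIntegral.integral_mono_on hst
    · exact ((H.cX j).mul (continuous_const.mul hq)).intervalIntegrable _ _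
    · exact (continuous_const.mul (continuous_const.mul hq)).intervalIntegrable _ _
    · intro x hx
      refine mul_le_mul_of_nonneg_right ?_ (mul_nonneg (by positivity) (H.q0 j m l x))
      rw [hAjd]
      exact X_le H j hs hx.1 hx.2 ht
  rw [intervalIntegral.integral_const_mul, intervalIntegral.integral_const_mul] at h1
  refine h1.trans ?_
  -- Cauchy-Schwarz
  have h2 := cs_int _ hq s t hst
  have h3 := H.bil j m l s t hml hs hst ht (by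
    rw [hlen, ← ha]
    have h4 : (0 : ℝ) < 4 ^ a := by positivity
    have e : w * τ / 4 ^ a * 4 ^ a = w * τ := by field_simp
    rw [e]
    calc w * τ ≤ 1 * τ := mul_le_mul_of_nonneg_right hw1 hτ.le
      _ = τ := one_mul _
      _ ≤ c₁ := hτ1)
  rw [← hAmd, ← hAld] at h3
  have h5 : (∫ x in s..t, q j m l x) ^ 2 ≤
      (C₀ * √τ * ((2 : ℝ) ^ m / (2 ^ l * 2 ^ a)) * (√w * (Am * Al))) ^ 2 := by
    refine h2.trans ((mul_le_mul_of_nonneg_left h3 (by linarith)).trans (le_of_eq ?_))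
    rw [hlen]
    have e1 : (√τ) ^ 2 = τ := Real.sq_sqrt hτ.le
    have e2 : (√w) ^ 2 = w := Real.sq_sqrt hw0
    have e3 : (4 : ℝ) ^ m = (2 ^ m) ^ 2 := by
      rw [← pow_mul, mul_comm m 2, pow_mul]; norm_num
    have e4 : (4 : ℝ) ^ l = (2 ^ l) ^ 2 := by
      rw [← pow_mul, mul_comm l 2, pow_mul]; norm_num
    have e5 : (4 : ℝ) ^ a = (2 ^ a) ^ 2 := by
      rw [← pow_mul, mul_comm a 2, pow_mul]; norm_num
    rw [e3, e4, e5]
    calc w * τ / (2 ^ a) ^ 2 * (C₀ ^ 2 * ((2 ^ m) ^ 2 / (2 ^ l) ^ 2) * (Am * Al) ^ 2)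
        = C₀ ^ 2 * τ * ((2 ^ m) ^ 2 / ((2 ^ l) ^ 2 * (2 ^ a) ^ 2)) * (w * (Am * Al) ^ 2) := by
          field_simp
      _ = C₀ ^ 2 * (√τ) ^ 2 * ((2 ^ m) ^ 2 / ((2 ^ l) ^ 2 * (2 ^ a) ^ 2)) *
          ((√w) ^ 2 * (Am * Al) ^ 2) := by rw [e1, e2]
      _ = _ := by ring
  have h6 : ∫ x in s..t, q j m l x ≤
      C₀ * √τ * ((2 : ℝ) ^ m / (2 ^ l * 2 ^ a)) * (√w * (Am * Al)) := by
    apply abs_le_of_sq_le_sq' h5 _ |>.2
    rw [hAmd, hAld]
    positivity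
  rw [← hAjd] at hAj ⊢
  rw [← hAmd, ← hAld]
  calc Aj * (2 ^ j * ∫ x in s..t, q j m l x)
      ≤ Aj * (2 ^ j * (C₀ * √τ * ((2 : ℝ) ^ m / (2 ^ l * 2 ^ a)) * (√w * (Am * Al)))) :=
        mul_le_mul_of_nonneg_left (mul_le_mul_of_nonneg_left h6 (by positivity)) hAj
    _ = _ := by ring

/-- two applications of Cauchy-Schwarz -/
theorem cs_sum (s : Finset ℕ) (ω A B D : ℕ → ℝ) (hω : ∀ n, 0 ≤ ω n) :
    (∑ n ∈ s, ω n * (A n * B n * D n)) ^ 2 ≤ (∑ n ∈ s, ω n * A n ^ 2) *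
      √((∑ n ∈ s, ω n * (B n ^ 2) ^ 2) * (∑ n ∈ s, ω n * (D n ^ 2) ^ 2)) := by
  have h1 := Finset.sum_mul_sq_le_sq_mul_sq s (fun n => √(ω n) * A n) (fun n => √(ω n) * (B n * D n))
  have e1 : ∀ n, √(ω n) * A n * (√(ω n) * (B n * D n)) = ω n * (A n * B n * D n) := by
    intro n
    have := Real.mul_self_sqrt (hω n)
    linear_combination (A n * (B n * D n)) * this
  have e2 : ∀ n, (√(ω n) * A n) ^ 2 = ω n * A n ^ 2 := by
    intro n
    rw [mul_pow, Real.sq_sqrt (hω n)]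
  have e3 : ∀ n, (√(ω n) * (B n * D n)) ^ 2 = ω n * (B n ^ 2 * D n ^ 2) := by
    intro n
    rw [mul_pow, Real.sq_sqrt (hω n)]
    ring
  simp only [e1, e2, e3] at h1
  refine h1.trans (mul_le_mul_of_nonneg_left ?_ (Finset.sum_nonneg fun n _ =>
    mul_nonneg (hω n) (sq_nonneg _)))
  apply Real.le_sqrt_of_sq_le
  have h2 := Finset.sum_mul_sq_le_sq_mul_sq s (fun n => √(ω n) * B n ^ 2) (fun n => √(ω n) * D n ^ 2)
  have e4 : ∀ n, √(ω n) * B n ^ 2 * (√(ω n) * D n ^ 2) = ω n * (B n ^ 2 * D n ^ 2) := by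
    intro n
    have := Real.mul_self_sqrt (hω n)
    linear_combination (B n ^ 2 * D n ^ 2) * this
  have e5 : ∀ n, (√(ω n) * B n ^ 2) ^ 2 = ω n * (B n ^ 2) ^ 2 := by
    intro n
    rw [mul_pow, Real.sq_sqrt (hω n)]
  have e6 : ∀ n, (√(ω n) * D n ^ 2) ^ 2 = ω n * (D n ^ 2) ^ 2 := by
    intro n
    rw [mul_pow, Real.sq_sqrt (hω n)]
  simp only [e4, e5, e6] at h2
  exact h2

/-- the size on a window of a higher level -/
theorem AW_sq_le (h6 : S_W6) (H : Sys C₀ ν c₁ E M L₀ X g q) {τ L : ℝ} (hτ : 0 < τ) (hL : 0 ≤ L)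
    (hL0 : L ≤ L₀) (m a n : ℕ) (hma : m ≤ a) (hn : n < 4 ^ a) :
    AW τ L X g m a n ^ 2 ≤ XXj τ L X g m := by
  obtain ⟨d, rfl⟩ := Nat.exists_eq_add_of_le hma
  have hd : 0 < 4 ^ d := by positivity
  have h1 := h6 C₀ ν c₁ E M L₀ X g q H τ L hτ hL hL0 m m d (n / 4 ^ d) (n % 4 ^ d) (Nat.mod_lt _ hd)
  rw [Nat.div_add_mod] at h1
  have h2 : n / 4 ^ d < 4 ^ m := by
    rw [Nat.div_lt_iff_lt_mul hd, ← pow_add]
    exact hn
  have h3 : AW τ L X g m (m + d) n ^ 2 ≤ AW τ L X g m m (n / 4 ^ d) ^ 2 :=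
    pow_le_pow_left₀ h1.1 h1.2 2
  refine h3.trans ?_
  unfold XXj
  exact Finset.le_sup' (f := fun n => AW τ L X g m m n ^ 2) (Finset.mem_range.2 h2)

theorem final (j m l a : ℕ) (hja : j ≤ a) (hma : m ≤ a) (hla : l ≤ a) (hal : a ≤ l + 1)
    {K S P Q y : ℝ} (hK : 0 ≤ K) (hP : 0 ≤ P) (hQ : 0 ≤ Q) (hy : 0 ≤ y) (hS : 0 ≤ S)
    (h : S ^ 2 ≤ (2 * 4 ^ (a - j) * y) * √((2 * 4 ^ (a - m) * P) * (2 * 4 ^ (a - l) * Q))) :
    2 ^ j * (K * ((2 : ℝ) ^ m / (2 ^ l * 2 ^ a))) * S ≤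
      4 * K * √((2 : ℝ) ^ m / 2 ^ l) * √(√P * √Q) * √y := by
  obtain ⟨b, hb⟩ := Nat.exists_eq_add_of_le hja
  obtain ⟨c, hc⟩ := Nat.exists_eq_add_of_le hma
  obtain ⟨e, he⟩ := Nat.exists_eq_add_of_le hla
  have hb' : a - j = b := by omega
  have hc' : a - m = c := by omega
  have he' : a - l = e := by omega
  rw [hb', hc', he'] at h
  have f4 : ∀ n : ℕ, (4 : ℝ) ^ n = (2 ^ n) ^ 2 := by
    intro n
    rw [← pow_mul, mul_comm n 2, pow_mul]; norm_num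
  have h1 : √((2 * 4 ^ c * P) * (2 * 4 ^ e * Q)) = 2 * 2 ^ c * 2 ^ e * (√P * √Q) := by
    have e1 : (2 * 4 ^ c * P) * (2 * 4 ^ e * Q) = (2 * 2 ^ c * 2 ^ e * (√P * √Q)) ^ 2 := by
      rw [f4, f4]
      have hp := Real.sq_sqrt hP
      have hq := Real.sq_sqrt hQ
      calc 2 * (2 ^ c) ^ 2 * P * (2 * (2 ^ e) ^ 2 * Q) =
          2 * (2 ^ c) ^ 2 * (√P) ^ 2 * (2 * (2 ^ e) ^ 2 * (√Q) ^ 2) := by rw [hp, hq]
        _ = _ := by ring
    rw [e1]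
    exact Real.sqrt_sq (by positivity)
  rw [h1] at h
  obtain ⟨R, hR⟩ : ∃ R, R = √P * √Q := ⟨_, rfl⟩
  have hR0 : 0 ≤ R := by rw [hR]; positivity
  rw [← hR] at h ⊢
  -- compare the squares
  have hl : 0 ≤ 2 ^ j * (K * ((2 : ℝ) ^ m / (2 ^ l * 2 ^ a))) * S := by positivity
  have hr : 0 ≤ 4 * K * √((2 : ℝ) ^ m / 2 ^ l) * √R * √y := by positivity
  refine (abs_le_of_sq_le_sq' ?_ hr).2
  have hsr : (4 * K * √((2 : ℝ) ^ m / 2 ^ l) * √R * √y) ^ 2 =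
      16 * K ^ 2 * ((2 : ℝ) ^ m / 2 ^ l) * R * y := by
    have s1 : (√((2 : ℝ) ^ m / 2 ^ l)) ^ 2 = (2 : ℝ) ^ m / 2 ^ l := Real.sq_sqrt (by positivity)
    have s2 := Real.sq_sqrt hR0
    have s3 := Real.sq_sqrt hy
    calc (4 * K * √((2 : ℝ) ^ m / 2 ^ l) * √R * √y) ^ 2 =
        16 * K ^ 2 * (√((2 : ℝ) ^ m / 2 ^ l)) ^ 2 * (√R) ^ 2 * (√y) ^ 2 := by ring
      _ = _ := by rw [s1, s2, s3]
  rw [hsr]
  have hk : (2 ^ j * (K * ((2 : ℝ) ^ m / (2 ^ l * 2 ^ a))) * S) ^ 2 =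
      (2 ^ j * (K * ((2 : ℝ) ^ m / (2 ^ l * 2 ^ a)))) ^ 2 * S ^ 2 := by ring
  rw [hk]
  refine (mul_le_mul_of_nonneg_left h (sq_nonneg _)).trans ?_
  -- the powers of two
  have pj : (2 : ℝ) ^ a = 2 ^ j * 2 ^ b := by rw [hb, pow_add]
  have pm : (2 : ℝ) ^ a = 2 ^ m * 2 ^ c := by rw [hc, pow_add]
  have pl : (2 : ℝ) ^ a = 2 ^ l * 2 ^ e := by rw [he, pow_add]
  have pe : (2 : ℝ) ^ e ≤ 2 := by
    calc (2 : ℝ) ^ e ≤ 2 ^ 1 := pow_le_pow_right₀ (by norm_num) (by omega)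
      _ = 2 := pow_one _
  have pe0 : (0 : ℝ) < 2 ^ e := by positivity
  have pa0 : (0 : ℝ) < 2 ^ a := by positivity
  have pm0 : (0 : ℝ) < 2 ^ m := by positivity
  have pl0 : (0 : ℝ) < 2 ^ l := by positivity
  have pj0 : (0 : ℝ) < 2 ^ j := by positivity
  have pc : (2 : ℝ) ^ c = 2 ^ a / 2 ^ m := by rw [pm]; field_simp
  have pb : (2 : ℝ) ^ b = 2 ^ a / 2 ^ j := by rw [pj]; field_simp
  rw [f4 b, pb, pc]
  have pe2 : (2 : ℝ) ^ e * 2 ^ e ≤ 4 := by nlinarith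
  have key : (2 ^ j * (K * ((2 : ℝ) ^ m / (2 ^ l * 2 ^ a)))) ^ 2 *
      (2 * (2 ^ a / 2 ^ j) ^ 2 * y * (2 * (2 ^ a / 2 ^ m) * 2 ^ e * R)) =
      4 * K ^ 2 * ((2 : ℝ) ^ m / 2 ^ l) * R * y * ((2 ^ a / 2 ^ l) * 2 ^ e) := by
    field_simp
    ring
  rw [key]
  have pe3 : (2 : ℝ) ^ a / 2 ^ l = 2 ^ e := by rw [pl]; field_simp
  rw [pe3]
  have hpos : 0 ≤ 4 * K ^ 2 * ((2 : ℝ) ^ m / 2 ^ l) * R * y := by positivity
  calc 4 * K ^ 2 * ((2 : ℝ) ^ m / 2 ^ l) * R * y * (2 ^ e * 2 ^ e) ≤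
      4 * K ^ 2 * ((2 : ℝ) ^ m / 2 ^ l) * R * y * 4 := mul_le_mul_of_nonneg_left pe2 hpos
    _ = _ := by ring

end B7aL

theorem leaf_B7a (h1 : S_W1) (h3 : S_W3) (h6 : S_W6) (h7 : S_W7) : S_B7a := by
  intro C₀ ν c₁ E M L₀ X g q H τ L hτ hL hL0 hLτ hτ1 j m l hml hjl
  obtain ⟨a, ha⟩ : ∃ a, a = max j l := ⟨_, rfl⟩
  have hja : j ≤ a := by omega
  have hla : l ≤ a := by omega
  have hma : m ≤ a := by omega
  have hal : a ≤ l + 1 := by omega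
  obtain ⟨w1, w2, w3, w4, w5, w6, w7, w8, w9⟩ := h1 τ L hτ hL
  have hC : 0 < C₀ := lt_of_lt_of_le one_pos H.C1
  -- the windows
  have hcont : Continuous fun t => X j t * (2 ^ j * q j m l t) :=
    (H.cX j).mul (continuous_const.mul (H.cq j m l))
  have hsplit : ∫ t in (0 : ℝ)..L, X j t * (2 ^ j * q j m l t) =
      ∑ n ∈ range (4 ^ a), ∫ t in (ew τ L a n)..(ew τ L a (n + 1)), X j t * (2 ^ j * q j m l t) := by
    rw [intervalIntegral.sum_integral_adjacent_intervals (a := fun n => ew τ L a n)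
      (fun n _ => hcont.intervalIntegrable _ _), w4 a, w5 a hLτ]
  rw [hsplit]
  have hAn : ∀ i n, 0 ≤ AW τ L X g i a n := fun i n => B7aL.Aw_nonneg H i (w1 a n)
  have hwin : ∀ n ∈ range (4 ^ a),
      ∫ t in (ew τ L a n)..(ew τ L a (n + 1)), X j t * (2 ^ j * q j m l t) ≤
      2 ^ j * (C₀ * √τ * ((2 : ℝ) ^ m / (2 ^ l * 2 ^ a))) *
        (√(ww τ L a n) * (AW τ L X g j a n * AW τ L X g m a n * AW τ L X g l a n)) := by
    intro n _
    exact B7aL.window H j m l hml ha (w2 a n) (w1 a n) ((w3 a (n + 1)).trans hL0) (w7 a n) (w8 a n)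
      hτ hτ1 (w9 a n)
  refine (Finset.sum_le_sum hwin).trans ?_
  rw [← Finset.mul_sum]
  have hcs := B7aL.cs_sum (range (4 ^ a)) (fun n => √(ww τ L a n)) (fun n => AW τ L X g j a n)
    (fun n => AW τ L X g m a n) (fun n => AW τ L X g l a n) (fun n => Real.sqrt_nonneg _)
  have hYn : ∀ i, 0 ≤ Yj τ L X g i := fun i =>
    Finset.sum_nonneg fun n _ => mul_nonneg (Real.sqrt_nonneg _) (sq_nonneg _)
  have hXn : ∀ i, 0 ≤ XXj τ L X g i := fun i => by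
    have h5 : 0 < 4 ^ i := by positivity
    exact (sq_nonneg _).trans (B7aL.AW_sq_le h6 H hτ hL hL0 i i 0 le_rfl h5)
  have hquart : ∀ i, i ≤ a → ∑ n ∈ range (4 ^ a), √(ww τ L a n) * (AW τ L X g i a n ^ 2) ^ 2 ≤
      2 * 4 ^ (a - i) * (XXj τ L X g i * Yj τ L X g i) := by
    intro i hi
    have h5 := h7 C₀ ν c₁ E M L₀ X g q H τ L hτ hL hL0 i a hi
    calc ∑ n ∈ range (4 ^ a), √(ww τ L a n) * (AW τ L X g i a n ^ 2) ^ 2
        ≤ ∑ n ∈ range (4 ^ a), XXj τ L X g i * (√(ww τ L a n) * AW τ L X g i a n ^ 2) := by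
          apply Finset.sum_le_sum
          intro n hn
          have h8 := B7aL.AW_sq_le h6 H hτ hL hL0 i a n hi (Finset.mem_range.1 hn)
          have h9 : 0 ≤ √(ww τ L a n) * AW τ L X g i a n ^ 2 :=
            mul_nonneg (Real.sqrt_nonneg _) (sq_nonneg _)
          calc √(ww τ L a n) * (AW τ L X g i a n ^ 2) ^ 2 =
              AW τ L X g i a n ^ 2 * (√(ww τ L a n) * AW τ L X g i a n ^ 2) := by ring
            _ ≤ _ := mul_le_mul_of_nonneg_right h8 h9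
      _ = XXj τ L X g i * ∑ n ∈ range (4 ^ a), √(ww τ L a n) * AW τ L X g i a n ^ 2 := by
          rw [Finset.mul_sum]
      _ ≤ XXj τ L X g i * (2 * 4 ^ (a - i) * Yj τ L X g i) :=
          mul_le_mul_of_nonneg_left h5 (hXn i)
      _ = _ := by ring
  have hS0 : 0 ≤ ∑ n ∈ range (4 ^ a), √(ww τ L a n) *
      (AW τ L X g j a n * AW τ L X g m a n * AW τ L X g l a n) :=
    Finset.sum_nonneg fun n _ => mul_nonneg (Real.sqrt_nonneg _)
      (mul_nonneg (mul_nonneg (hAn j n) (hAn m n)) (hAn l n))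
  refine B7aL.final j m l a hja hma hla hal (K := C₀ * √τ) (by positivity)
    (mul_nonneg (hXn m) (hYn m)) (mul_nonneg (hXn l) (hYn l)) (hYn j) hS0 (hcs.trans ?_) |>.trans
    (le_of_eq (by ring))
  refine mul_le_mul (h7 C₀ ν c₁ E M L₀ X g q H τ L hτ hL hL0 j a hja)
    (Real.sqrt_le_sqrt ?_) (Real.sqrt_nonneg _) (by have := hYn j; positivity)
  exact mul_le_mul (hquart m hma) (hquart l hla)
    (Finset.sum_nonneg fun n _ => mul_nonneg (Real.sqrt_nonneg _) (sq_nonneg _))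
    (by have := hYn m; have := hXn m; positivity)

end Pool.Agent.H259.ND
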