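import Pool.Agent.H259.ND.Stmt

set_option autoImplicit false

open MeasureTheory Set Finset

namespace Pool.Agent.H259.ND

namespace B7bL

theorem inner (l : ℕ) : ∑ m ∈ range (l + 1), √((2 : ℝ) ^ m / 2 ^ l) ≤ 4 := by
  induction l with
  | zero =>
    rw [zero_add, Finset.sum_range_one]
    norm_num
  | succ l ih =>
    rw [Finset.sum_range_succ]
    have h1 : √((2 : ℝ) ^ (l + 1) / 2 ^ (l + 1)) = 1 := by
      rw [div_self (by positivity), Real.sqrt_one]
    have hh : √((1 : ℝ) / 2) ≤ 3 / 4 := by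
      rw [Real.sqrt_le_left (by norm_num)]
      norm_num
    have h2 : ∀ m ∈ range (l + 1), √((2 : ℝ) ^ m / 2 ^ (l + 1)) =
        √((1 : ℝ) / 2) * √((2 : ℝ) ^ m / 2 ^ l) := by
      intro m _
      rw [← Real.sqrt_mul (by norm_num)]
      congr 1
      rw [pow_succ]
      field_simp
    rw [Finset.sum_congr rfl h2, ← Finset.mul_sum, h1]
    have h3 : (0 : ℝ) ≤ √((1 : ℝ) / 2) := Real.sqrt_nonneg _
    nlinarith

theorem geo (r : ℝ) (hr : 2 ≤ r) (n : ℕ) : ∑ j ∈ range n, r ^ j ≤ r ^ n := by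
  induction n with
  | zero => simp
  | succ n ih =>
    rw [Finset.sum_range_succ, pow_succ]
    have : 0 ≤ r ^ n := by positivity
    nlinarith

theorem tail (t : ℝ) (ht0 : 0 ≤ t) (ht : t ≤ 1 / 2) (a M : ℕ) (h : a ≤ M) :
    ∑ l ∈ Finset.Ico a M, t ^ l ≤ 2 * t ^ a - 2 * t ^ M := by
  induction M, h using Nat.le_induction with
  | base => simp
  | succ M hM ih =>
    rw [Finset.sum_Ico_succ_top hM, pow_succ]
    have : 0 ≤ t ^ M := by positivity
    nlinarith

theorem tail' (t : ℝ) (ht0 : 0 ≤ t) (ht : t ≤ 1 / 2) (a M : ℕ) :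
    ∑ l ∈ Finset.Ico a M, t ^ l ≤ 2 * t ^ a := by
  rcases le_total a M with h | h
  · have h1 := tail t ht0 ht a M h
    have : 0 ≤ t ^ M := by positivity
    linarith
  · rw [Finset.Ico_eq_empty_of_le h, Finset.sum_empty]
    positivity

theorem row (r : ℝ) (hr : 2 ≤ r) (M j : ℕ) :
    ∑ l ∈ (range M).filter (fun l => j ≤ l + 1), r ^ j / r ^ l ≤ 2 * r := by
  have hr0 : 0 < r := by linarith
  have h1 : (range M).filter (fun l => j ≤ l + 1) ⊆ Finset.Ico (j - 1) M := by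
    intro l hl
    rw [Finset.mem_filter, Finset.mem_range] at hl
    rw [Finset.mem_Ico]
    omega
  have h2 : ∑ l ∈ (range M).filter (fun l => j ≤ l + 1), r ^ j / r ^ l ≤
      ∑ l ∈ Finset.Ico (j - 1) M, r ^ j / r ^ l :=
    Finset.sum_le_sum_of_subset_of_nonneg h1 fun _ _ _ => by positivity
  refine h2.trans ?_
  have h3 : ∀ l ∈ Finset.Ico (j - 1) M, r ^ j / r ^ l = r ^ j * (r⁻¹) ^ l := by
    intro l _
    rw [inv_pow, div_eq_mul_inv]
  rw [Finset.sum_congr rfl h3, ← Finset.mul_sum]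
  have h4 := tail' r⁻¹ (by positivity) (by
    rw [inv_eq_one_div]
    exact one_div_le_one_div_of_le (by norm_num) hr) (j - 1) M
  have h5 : r ^ j * (2 * r⁻¹ ^ (j - 1)) ≤ 2 * r := by
    rcases j with _ | j
    · simp only [Nat.zero_sub, pow_zero]
      linarith
    · rw [Nat.add_sub_cancel, pow_succ, inv_pow]
      have : r ^ j ≠ 0 := by positivity
      apply le_of_eq
      field_simp
  exact (mul_le_mul_of_nonneg_left h4 (by positivity)).trans h5

theorem col (r : ℝ) (hr : 2 ≤ r) (M l : ℕ) :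
    ∑ j ∈ (range M).filter (fun j => j ≤ l + 1), r ^ j / r ^ l ≤ r ^ 2 := by
  have hr0 : 0 < r := by linarith
  have h1 : (range M).filter (fun j => j ≤ l + 1) ⊆ range (l + 2) := by
    intro j hj
    have h4 := (Finset.mem_filter.1 hj).2
    rw [Finset.mem_range]
    omega
  have h2 : ∑ j ∈ (range M).filter (fun j => j ≤ l + 1), r ^ j / r ^ l ≤
      ∑ j ∈ range (l + 2), r ^ j / r ^ l :=
    Finset.sum_le_sum_of_subset_of_nonneg h1 fun _ _ _ => by positivity
  refine h2.trans ?_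
  rw [← Finset.sum_div, div_le_iff₀ (by positivity), ← pow_add, add_comm 2 l]
  exact geo r hr (l + 2)

theorem pair (u v a b : ℝ) (hu : 0 < u) (hv : 0 < v) (ha : 0 ≤ a) (hb : 0 ≤ b) :
    u ^ 2 * (√a * √b) ≤ u / v * (v ^ 2 * a + u ^ 2 * b) := by
  have h1 : 0 ≤ (v * √a - u * √b) ^ 2 := sq_nonneg _
  have ha' := Real.sq_sqrt ha
  have hb' := Real.sq_sqrt hb
  have hsa := Real.sqrt_nonneg a
  have hsb := Real.sqrt_nonneg b
  have h2 : v * u * (√a * √b) ≤ v ^ 2 * a + u ^ 2 * b := by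
    have h3 : 0 ≤ v * u * (√a * √b) := by positivity
    nlinarith
  have h4 : u ^ 2 * (√a * √b) = u / v * (v * u * (√a * √b)) := by
    field_simp
  rw [h4]
  exact mul_le_mul_of_nonneg_left h2 (by positivity)

end B7bL

open B7bL in
theorem leaf_B7b : S_B7b := by
  intro s hs
  obtain ⟨r, hr⟩ : ∃ r : ℝ, r = 2 ^ s := ⟨_, rfl⟩
  have hr2 : 2 ≤ r := by
    rw [hr]
    calc (2 : ℝ) = 2 ^ 1 := (pow_one _).symm
      _ ≤ 2 ^ s := pow_le_pow_right₀ (by norm_num) hs
  have hr0 : 0 < r := by linarith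
  refine ⟨4 * (r ^ 2 + 2 * r), by positivity, ?_⟩
  intro M x y η hη hx hy hxy
  have hpow : ∀ j : ℕ, (4 : ℝ) ^ (s * j) = (r ^ j) ^ 2 := by
    intro j
    rw [hr, ← pow_mul, ← pow_mul, pow_mul', show (4 : ℝ) = 2 ^ 2 by norm_num, ← pow_mul, ← pow_mul]
    congr 1
    ring
  -- the innermost sum
  have h1 : ∀ j l : ℕ, ∑ m ∈ range (l + 1),
      √((2 : ℝ) ^ m / 2 ^ l) * √(√(x m * y m) * √(x l * y l)) * √(y j) ≤
      4 * η * (√(x l + y l) * √(y j)) := by
    intro j l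
    have e1 : ∀ m ∈ range (l + 1),
        √((2 : ℝ) ^ m / 2 ^ l) * √(√(x m * y m) * √(x l * y l)) * √(y j) ≤
        √((2 : ℝ) ^ m / 2 ^ l) * (η * √(x l + y l) * √(y j)) := by
      intro m _
      have f1 : √(x m * y m) ≤ η ^ 2 := by
        rw [Real.sqrt_le_left (by positivity)]
        refine (hxy m).trans (le_of_eq ?_)
        ring
      have f2 : √(x l * y l) ≤ x l + y l := by
        rw [Real.sqrt_le_left (add_nonneg (hx l) (hy l))]
        nlinarith [hx l, hy l, mul_nonneg (hx l) (hy l)]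
      have f3 : √(√(x m * y m) * √(x l * y l)) ≤ η * √(x l + y l) := by
        rw [Real.sqrt_le_left (by positivity), mul_pow, Real.sq_sqrt (add_nonneg (hx l) (hy l))]
        exact mul_le_mul f1 f2 (Real.sqrt_nonneg _) (by positivity)
      have f4 : 0 ≤ √((2 : ℝ) ^ m / 2 ^ l) := Real.sqrt_nonneg _
      have f5 : 0 ≤ √(y j) := Real.sqrt_nonneg _
      calc √((2 : ℝ) ^ m / 2 ^ l) * √(√(x m * y m) * √(x l * y l)) * √(y j) =
          √((2 : ℝ) ^ m / 2 ^ l) * (√(√(x m * y m) * √(x l * y l)) * √(y j)) := by ring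
        _ ≤ √((2 : ℝ) ^ m / 2 ^ l) * (η * √(x l + y l) * √(y j)) :=
          mul_le_mul_of_nonneg_left (mul_le_mul_of_nonneg_right f3 f5) f4
    refine (Finset.sum_le_sum e1).trans ?_
    rw [← Finset.sum_mul]
    have f6 : 0 ≤ η * √(x l + y l) * √(y j) := by positivity
    refine (mul_le_mul_of_nonneg_right (inner l) f6).trans (le_of_eq ?_)
    ring
  -- the middle sum
  have h2 : ∀ j l : ℕ, (4 : ℝ) ^ (s * j) * ∑ m ∈ range (l + 1),
      √((2 : ℝ) ^ m / 2 ^ l) * √(√(x m * y m) * √(x l * y l)) * √(y j) ≤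
      4 * η * (r ^ j / r ^ l * ((4 : ℝ) ^ (s * l) * (x l + y l)) +
        r ^ j / r ^ l * ((4 : ℝ) ^ (s * j) * y j)) := by
    intro j l
    have e1 := mul_le_mul_of_nonneg_left (h1 j l) (by positivity : (0 : ℝ) ≤ 4 ^ (s * j))
    have e2 := pair (r ^ j) (r ^ l) (x l + y l) (y j) (by positivity) (by positivity)
      (add_nonneg (hx l) (hy l)) (hy j)
    rw [← hpow, ← hpow] at e2
    have e3 := mul_le_mul_of_nonneg_left e2 (by positivity : (0 : ℝ) ≤ 4 * η)
    calc (4 : ℝ) ^ (s * j) * ∑ m ∈ range (l + 1),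
          √((2 : ℝ) ^ m / 2 ^ l) * √(√(x m * y m) * √(x l * y l)) * √(y j) ≤
        4 ^ (s * j) * (4 * η * (√(x l + y l) * √(y j))) := e1
      _ = 4 * η * (4 ^ (s * j) * (√(x l + y l) * √(y j))) := by ring
      _ ≤ 4 * η * (r ^ j / r ^ l * (4 ^ (s * l) * (x l + y l) + 4 ^ (s * j) * y j)) := e3
      _ = _ := by ring
  have h3 : ∑ j ∈ range M, (4 : ℝ) ^ (s * j) * ∑ l ∈ (range M).filter (fun l => j ≤ l + 1),
      ∑ m ∈ range (l + 1), √((2 : ℝ) ^ m / 2 ^ l) * √(√(x m * y m) * √(x l * y l)) * √(y j) ≤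
      4 * η * (∑ j ∈ range M, ∑ l ∈ (range M).filter (fun l => j ≤ l + 1),
        r ^ j / r ^ l * ((4 : ℝ) ^ (s * l) * (x l + y l)) +
        ∑ j ∈ range M, ∑ l ∈ (range M).filter (fun l => j ≤ l + 1),
        r ^ j / r ^ l * ((4 : ℝ) ^ (s * j) * y j)) := by
    rw [← Finset.sum_add_distrib, Finset.mul_sum]
    refine Finset.sum_le_sum fun j _ => ?_
    rw [← Finset.sum_add_distrib, Finset.mul_sum, Finset.mul_sum]
    exact Finset.sum_le_sum fun l _ => h2 j l
  refine h3.trans ?_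
  have hSn : ∀ j : ℕ, 0 ≤ (4 : ℝ) ^ (s * j) * (x j + y j) := fun j =>
    mul_nonneg (by positivity) (add_nonneg (hx j) (hy j))
  have h4 : ∑ j ∈ range M, ∑ l ∈ (range M).filter (fun l => j ≤ l + 1),
      r ^ j / r ^ l * ((4 : ℝ) ^ (s * l) * (x l + y l)) ≤
      r ^ 2 * ∑ j ∈ range M, (4 : ℝ) ^ (s * j) * (x j + y j) := by
    have e1 : ∑ j ∈ range M, ∑ l ∈ (range M).filter (fun l => j ≤ l + 1),
        r ^ j / r ^ l * ((4 : ℝ) ^ (s * l) * (x l + y l)) =
        ∑ l ∈ range M, (∑ j ∈ (range M).filter (fun j => j ≤ l + 1), r ^ j / r ^ l) *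
          ((4 : ℝ) ^ (s * l) * (x l + y l)) := by
      have e2 : ∀ j ∈ range M, ∑ l ∈ (range M).filter (fun l => j ≤ l + 1),
          r ^ j / r ^ l * ((4 : ℝ) ^ (s * l) * (x l + y l)) =
          ∑ l ∈ range M, if j ≤ l + 1 then
            r ^ j / r ^ l * ((4 : ℝ) ^ (s * l) * (x l + y l)) else 0 :=
        fun j _ => Finset.sum_filter _ _
      rw [Finset.sum_congr rfl e2, Finset.sum_comm]
      refine Finset.sum_congr rfl fun l _ => ?_
      rw [Finset.sum_filter, Finset.sum_mul]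
      refine Finset.sum_congr rfl fun j _ => ?_
      by_cases hp : j ≤ l + 1
      · rw [if_pos hp, if_pos hp]
      · rw [if_neg hp, if_neg hp, zero_mul]
    rw [e1, Finset.mul_sum]
    exact Finset.sum_le_sum fun l _ => mul_le_mul_of_nonneg_right (col r hr2 M l) (hSn l)
  have h5 : ∑ j ∈ range M, ∑ l ∈ (range M).filter (fun l => j ≤ l + 1),
      r ^ j / r ^ l * ((4 : ℝ) ^ (s * j) * y j) ≤
      2 * r * ∑ j ∈ range M, (4 : ℝ) ^ (s * j) * (x j + y j) := by
    rw [Finset.mul_sum]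
    refine Finset.sum_le_sum fun j _ => ?_
    rw [← Finset.sum_mul]
    have e1 : (4 : ℝ) ^ (s * j) * y j ≤ 4 ^ (s * j) * (x j + y j) :=
      mul_le_mul_of_nonneg_left (by linarith [hx j]) (by positivity)
    have e2 : 0 ≤ (4 : ℝ) ^ (s * j) * y j := mul_nonneg (by positivity) (hy j)
    exact mul_le_mul (row r hr2 M j) e1 e2 (by positivity)
  have h6 := mul_le_mul_of_nonneg_left (add_le_add h4 h5) (by positivity : (0 : ℝ) ≤ 4 * η)
  refine h6.trans (le_of_eq ?_)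
  ring

end Pool.Agent.H259.ND
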