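import Pool.Agent.H259.ND.Stmt

/-!
# The a priori bound on one interval (leaf B8, helper81)
-/

open MeasureTheory Set Finset

namespace Pool.Agent.H259.ND

namespace B8L

lemma XXj_nonneg (τ L : ℝ) (X g : ℕ → ℝ → ℝ) (j : ℕ) : 0 ≤ XXj τ L X g j := by
  unfold XXj
  have h0 : (0 : ℕ) ∈ Finset.range (4 ^ j) := by simp
  exact (sq_nonneg _).trans (Finset.le_sup' (fun n => AW τ L X g j j n ^ 2) h0)

lemma Yj_nonneg (τ L : ℝ) (X g : ℕ → ℝ → ℝ) (j : ℕ) : 0 ≤ Yj τ L X g j := by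
  unfold Yj
  exact Finset.sum_nonneg fun n _ => mul_nonneg (Real.sqrt_nonneg _) (sq_nonneg _)

lemma nn_cont {M : ℕ} {q : ℕ → ℕ → ℕ → ℝ → ℝ} (hq : ∀ j m l, Continuous (q j m l)) (j : ℕ) :
    Continuous (fun t => nn M q j t) := by
  unfold nn
  exact continuous_finsetSum _ fun l _ => continuous_finsetSum _ fun m _ => hq j m l

lemma nn_nonneg {M : ℕ} {q : ℕ → ℕ → ℕ → ℝ → ℝ} (hq : ∀ j m l t, 0 ≤ q j m l t) (j : ℕ)
    (t : ℝ) : 0 ≤ nn M q j t :=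
  Finset.sum_nonneg fun l _ => Finset.sum_nonneg fun m _ => hq j m l t

lemma near_nonneg {M j : ℕ} {x : ℕ → ℝ} (hx : ∀ j, 0 ≤ x j) : 0 ≤ ∑ l ∈ nearS M j, x l :=
  Finset.sum_nonneg fun l _ => hx l

lemma up_nonneg {M j : ℕ} {y : ℕ → ℝ} (hy : ∀ j, 0 ≤ y j) :
    0 ≤ ∑ l ∈ upS M j, (2 : ℝ) ^ j / 2 ^ l * y l :=
  Finset.sum_nonneg fun l _ => mul_nonneg (by positivity) (hy l)

end B8L

open B8L in
/-- Leaf B8. -/
theorem leaf_B8 (h1 : S_W1) (hB3 : S_B3) (hB4 : S_B4) (hB6 : S_B6) (hB7 : S_B7)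
    (hB8a : S_B8a) : S_B8 := by
  intro C₀ ν c₁ E s hC₀ hν hc₁ hE hs
  obtain ⟨C3, hC3, H3⟩ := hB3
  obtain ⟨C4, hC4, H4⟩ := hB4
  obtain ⟨C7, hC7, H7⟩ := hB7 s hs
  obtain ⟨τ₁, hτ₁, H6⟩ := hB6 C₀ c₁ E hC₀ hc₁ hE
  obtain ⟨C, hCdef⟩ : ∃ C : ℝ, C = max C3 C4 := ⟨_, rfl⟩
  have hC3' : C3 ≤ C := hCdef ▸ le_max_left _ _
  have hC4' : C4 ≤ C := hCdef ▸ le_max_right _ _
  have hC : 0 < C := hC3.trans_le hC3'
  have hC₀p : 0 < C₀ := by linarith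
  obtain ⟨K, hK⟩ : ∃ K : ℝ, K = 3 * 4 ^ s * (8 * E + 1) + 16 * 4 ^ (3 * s) * 1 := ⟨_, rfl⟩
  have hKp : 0 < K := by rw [hK]; positivity
  obtain ⟨τ, hτ0, hττ₁, hτc₁, hτC, hτK⟩ : ∃ τ : ℝ, 0 < τ ∧ τ ≤ τ₁ ∧ τ ≤ c₁ ∧ τ ≤ 1 / (4 * C₀) ∧
      τ ≤ 1 / (2 * (C * C₀ ^ 2 * K)) := by
    refine ⟨min (min τ₁ c₁) (min (1 / (4 * C₀)) (1 / (2 * (C * C₀ ^ 2 * K)))), ?_, ?_, ?_, ?_, ?_⟩
    · refine lt_min (lt_min hτ₁ hc₁) (lt_min ?_ ?_) <;> positivity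
    · exact (min_le_left _ _).trans (min_le_left _ _)
    · exact (min_le_left _ _).trans (min_le_right _ _)
    · exact (min_le_right _ _).trans (min_le_left _ _)
    · exact (min_le_right _ _).trans (min_le_right _ _)
  have h4C : 4 * C₀ * τ ≤ 1 := by
    rw [le_div_iff₀ (by positivity)] at hτC
    linarith
  have hκK : C * C₀ ^ 2 * τ * K ≤ 1 / 2 := by
    rw [le_div_iff₀ (by positivity)] at hτK
    linarith
  obtain ⟨κ₂, hκ₂⟩ : ∃ κ₂ : ℝ, κ₂ = 4 * (C7 * C₀ * √τ) := ⟨_, rfl⟩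
  have hκ₂p : 0 < κ₂ := by
    rw [hκ₂]
    have := Real.sqrt_pos.2 hτ0
    positivity
  obtain ⟨η, hη0, hη1, hη2⟩ : ∃ η : ℝ, 0 < η ∧ κ₂ * η * 48 ≤ 1 / 2 ∧ κ₂ * η * 32 ≤ ν * τ := by
    refine ⟨min (1 / (96 * κ₂)) (ν * τ / (32 * κ₂)), by positivity, ?_, ?_⟩
    · have h := min_le_left (1 / (96 * κ₂)) (ν * τ / (32 * κ₂))
      rw [le_div_iff₀ (by positivity)] at h
      linarith
    · have h := min_le_right (1 / (96 * κ₂)) (ν * τ / (32 * κ₂))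
      rw [le_div_iff₀ (by positivity)] at h
      linarith
  have hE1 : 0 < 8 * E + 1 := by linarith
  obtain ⟨ε, hε0, hε1, hε2⟩ : ∃ ε : ℝ, 0 < ε ∧ ε ≤ 1 ∧ (8 * E + 1) * ε ≤ η ^ 4 := by
    refine ⟨min 1 (η ^ 4 / (8 * E + 1)), by positivity, min_le_left _ _, ?_⟩
    have h := min_le_right 1 (η ^ 4 / (8 * E + 1))
    rw [le_div_iff₀ hE1] at h
    linarith
  obtain ⟨c₀, hc₀, H6'⟩ := H6 τ hτ0 hττ₁ ε hε0
  refine ⟨τ, c₀, hτ0, hc₀, ?_⟩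
  intro M L X g q hS hL hLτ hsm
  have hB := H6' ν M L X g q hS hL hLτ hsm
  have hx0 : ∀ j, 0 ≤ XXj τ L X g j := XXj_nonneg τ L X g
  have hy0 : ∀ j, 0 ≤ Yj τ L X g j := Yj_nonneg τ L X g
  -- the maxima
  have hmax : ∀ j, ∃ t ∈ Icc 0 L, ∀ r ∈ Icc 0 L, X j r ^ 2 ≤ X j t ^ 2 := by
    intro j
    obtain ⟨t, ht, h⟩ := isCompact_Icc.exists_isMaxOn (nonempty_Icc.2 hL)
      (((hS.cX j).pow 2).continuousOn (s := Icc 0 L))
    exact ⟨t, ht, fun r hr => h hr⟩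
  choose tm htm hmx using hmax
  obtain ⟨S, hSdef⟩ : ∃ S : ℕ → ℝ, S = fun j => X j (tm j) ^ 2 := ⟨_, rfl⟩
  have hSe : ∀ j, S j = X j (tm j) ^ 2 := fun j => by rw [hSdef]
  obtain ⟨δ, hδdef⟩ : ∃ δ : ℕ → ℝ, δ = fun j => 4 ^ j * ∫ x in (0 : ℝ)..L, X j x ^ 2 := ⟨_, rfl⟩
  have hδe : ∀ j, δ j = 4 ^ j * ∫ x in (0 : ℝ)..L, X j x ^ 2 := fun j => by rw [hδdef]
  have hS0 : ∀ j, 0 ≤ S j := fun j => by rw [hSe]; positivity
  have hδ0 : ∀ j, 0 ≤ δ j := fun j => by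
    rw [hδe]
    exact mul_nonneg (by positivity) (intervalIntegral.integral_nonneg hL fun x _ => sq_nonneg _)
  have hSb : ∀ j, ∀ t ∈ Icc 0 L, X j t ^ 2 ≤ S j := fun j t ht => by
    rw [hSe]
    exact hmx j t ht
  have hκ0 : 0 ≤ C * C₀ ^ 2 * τ := by positivity
  have hBa := hB8a s M (fun j => XXj τ L X g j) (fun j => Yj τ L X g j) S δ (C * C₀ ^ 2 * τ)
    (8 * E + 1) 1 τ hτ0 hκ0 hE1.le zero_le_one hx0 hy0 hS0 hδ0 (by rw [hK] at hκK; exact hκK)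
    (by
      intro j
      have h := H3 C₀ ν c₁ E M L X g q hS τ L hτ0 hL le_rfl hLτ hτc₁ h4C (8 * E + 1) 1
        (fun l => (hB l).1) (fun l => ((hB l).2).trans hε1) j (S j) (hSb j)
      have hn := near_nonneg (M := M) (j := j) hx0
      have hu := up_nonneg (M := M) (j := j) hy0
      have h2 : 0 ≤ (8 * E + 1) * ∑ l ∈ nearS M j, XXj τ L X g l
          + 1 * ∑ l ∈ upS M j, (2 : ℝ) ^ j / 2 ^ l * Yj τ L X g l := by
        have := mul_nonneg hE1.le hn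
        linarith
      have h3 : C3 * C₀ ^ 2 * τ ≤ C * C₀ ^ 2 * τ := by gcongr
      have h4 := mul_le_mul_of_nonneg_right h3 h2
      linarith)
    (by
      intro j
      have h := H4 C₀ ν c₁ E M L X g q hS τ L hτ0 hL le_rfl hLτ hτc₁ h4C (8 * E + 1) 1
        (fun l => (hB l).1) (fun l => ((hB l).2).trans hε1) j (S j) (hSb j)
      have hn := near_nonneg (M := M) (j := j) hy0
      have hu := up_nonneg (M := M) (j := j) hy0
      have h2 : 0 ≤ (8 * E + 1) * ∑ l ∈ nearS M j, Yj τ L X g l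
          + 1 * ∑ l ∈ upS M j, (2 : ℝ) ^ j / 2 ^ l * Yj τ L X g l := by
        have := mul_nonneg hE1.le hn
        linarith
      have h3 : C4 * C₀ ^ 2 * τ ≤ C * C₀ ^ 2 * τ := by gcongr
      have h4 := mul_le_mul_of_nonneg_right h3 h2
      have h5 : min (S j) √(S j * (4 ^ j * (∫ x in (0 : ℝ)..L, X j x ^ 2) / τ)) ≤ S j :=
        min_le_left _ _
      rw [hδe]
      linarith)
  obtain ⟨hR, hP⟩ := hBa
  have hF := H7 C₀ ν c₁ E M L X g q hS τ L hτ0 hL le_rfl hLτ hτc₁ η hη0.le (fun j => by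
    refine le_trans ?_ hε2
    exact mul_le_mul (hB j).1 (hB j).2 (hy0 j) hE1.le)
  -- the energy
  obtain ⟨F, hFdef⟩ : ∃ F : ℕ → ℝ, F = fun j => ∫ t in (0 : ℝ)..L, X j t * (2 ^ j * nn M q j t) :=
    ⟨_, rfl⟩
  have hFe : ∀ j, F j = ∫ t in (0 : ℝ)..L, X j t * (2 ^ j * nn M q j t) := fun j => by rw [hFdef]
  have hcont : ∀ j, Continuous (fun t => X j t * (2 ^ j * nn M q j t)) := fun j =>
    (hS.cX j).mul (continuous_const.mul (nn_cont hS.cq j))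
  have hnn : ∀ j t, 0 ≤ X j t * (2 ^ j * nn M q j t) := fun j t =>
    mul_nonneg (hS.X0 j t) (mul_nonneg (by positivity) (nn_nonneg hS.q0 j t))
  have hmono : ∀ j, ∀ t ∈ Icc 0 L, ∫ r in (0 : ℝ)..t, X j r * (2 ^ j * nn M q j r) ≤ F j := by
    intro j t ht
    rw [hFe, ← intervalIntegral.integral_add_adjacent_intervals
      ((hcont j).intervalIntegrable 0 t) ((hcont j).intervalIntegrable t L)]
    have := intervalIntegral.integral_nonneg (μ := volume) ht.2 fun x _ => hnn j x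
    linarith
  have hSF : ∀ j, S j ≤ X j 0 ^ 2 + 2 * F j := by
    intro j
    have h := hS.ener j (tm j) (htm j)
    have h2 := hmono j (tm j) (htm j)
    have h3 : 0 ≤ 2 * ν * 4 ^ j * ∫ r in (0 : ℝ)..(tm j), X j r ^ 2 :=
      mul_nonneg (by positivity)
        (intervalIntegral.integral_nonneg (htm j).1 fun x _ => sq_nonneg _)
    rw [hSe]
    linarith
  have hδF : ∀ j, 2 * ν * δ j ≤ X j 0 ^ 2 + 2 * F j := by
    intro j
    have h := hS.ener j L ⟨hL, le_rfl⟩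
    rw [← hFe] at h
    have h3 : 0 ≤ X j L ^ 2 := sq_nonneg _
    rw [hδe]
    linarith
  obtain ⟨p, hp⟩ : ∃ p : ℝ, p = ∑ j ∈ Finset.range M, 4 ^ (s * j) * S j := ⟨_, rfl⟩
  obtain ⟨D, hD⟩ : ∃ D : ℝ, D = ∑ j ∈ Finset.range M, 4 ^ (s * j) * δ j := ⟨_, rfl⟩
  obtain ⟨h₀, hh₀⟩ : ∃ h₀ : ℝ, h₀ = ∑ j ∈ Finset.range M, 4 ^ (s * j) * X j 0 ^ 2 := ⟨_, rfl⟩
  obtain ⟨Φ, hΦ⟩ : ∃ Φ : ℝ, Φ = ∑ j ∈ Finset.range M, 4 ^ (s * j) * F j := ⟨_, rfl⟩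
  obtain ⟨P, hPd⟩ : ∃ P : ℝ, P = ∑ j ∈ Finset.range M, 4 ^ (s * j) * XXj τ L X g j := ⟨_, rfl⟩
  obtain ⟨R, hRd⟩ : ∃ R : ℝ, R = ∑ j ∈ Finset.range M, 4 ^ (s * j) * Yj τ L X g j := ⟨_, rfl⟩
  rw [← hRd, ← hD, ← hp] at hR
  rw [← hRd, ← hPd, ← hp] at hP
  have hp1 : p ≤ h₀ + 2 * Φ := by
    rw [hp, hh₀, hΦ, Finset.mul_sum, ← Finset.sum_add_distrib]
    refine Finset.sum_le_sum fun j _ => ?_
    have h := mul_le_mul_of_nonneg_left (hSF j) (by positivity : (0 : ℝ) ≤ 4 ^ (s * j))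
    linarith
  have hD1 : 2 * ν * D ≤ h₀ + 2 * Φ := by
    rw [hD, hh₀, hΦ, Finset.mul_sum, Finset.mul_sum, ← Finset.sum_add_distrib]
    refine Finset.sum_le_sum fun j _ => ?_
    have h := mul_le_mul_of_nonneg_left (hδF j) (by positivity : (0 : ℝ) ≤ 4 ^ (s * j))
    linarith
  have hD0 : 0 ≤ D := by
    rw [hD]
    exact Finset.sum_nonneg fun j _ => mul_nonneg (by positivity) (hδ0 j)
  have hp0 : 0 ≤ p := by
    rw [hp]
    exact Finset.sum_nonneg fun j _ => mul_nonneg (by positivity) (hS0 j)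
  have hΦ1 : Φ ≤ C7 * C₀ * √τ * η * (P + R) := by
    have h2 : ∑ j ∈ Finset.range M, 4 ^ (s * j) * (XXj τ L X g j + Yj τ L X g j) = P + R := by
      rw [hPd, hRd, ← Finset.sum_add_distrib]
      exact Finset.sum_congr rfl fun j _ => mul_add _ _ _
    rw [h2] at hF
    rw [hΦ, hFdef]
    exact hF
  have hPR : P + R ≤ 48 * p + 32 * (D / τ) := by linarith
  have hcoef : 0 ≤ C7 * C₀ * √τ * η := by positivity
  have h4Φ : 4 * Φ ≤ κ₂ * η * (48 * p + 32 * (D / τ)) := by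
    have h2 := mul_le_mul_of_nonneg_left hPR hcoef
    have h3 : κ₂ * η * (48 * p + 32 * (D / τ)) =
        4 * (C7 * C₀ * √τ * η * (48 * p + 32 * (D / τ))) := by
      rw [hκ₂]
      ring
    rw [h3]
    linarith
  have h5 : κ₂ * η * (48 * p + 32 * (D / τ)) ≤ p / 2 + ν * D := by
    have h6 : κ₂ * η * 48 * p ≤ 1 / 2 * p := mul_le_mul_of_nonneg_right hη1 hp0
    have h7 : κ₂ * η * 32 * (D / τ) ≤ ν * τ * (D / τ) :=
      mul_le_mul_of_nonneg_right hη2 (by positivity)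
    have h8 : ν * τ * (D / τ) = ν * D := by
      field_simp
    rw [h8] at h7
    linarith
  have hνD : 0 ≤ ν * D := by positivity
  have hfin : p ≤ 4 * h₀ := by linarith
  intro t ht
  rw [← hh₀]
  refine le_trans ?_ hfin
  rw [hp]
  exact Finset.sum_le_sum fun j _ => mul_le_mul_of_nonneg_left (hSb j t ht) (by positivity)

end Pool.Agent.H259.ND
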