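import Pool.Agent.H259.ND.Stmt

set_option autoImplicit false

open MeasureTheory Set Finset

namespace Pool.Agent.H259.ND

namespace B8aL

theorem swap_bound (M : ℕ) (W y : ℕ → ℝ) (c : ℕ → ℕ → ℝ) (p : ℕ → ℕ → Prop)
    [∀ j l, Decidable (p j l)] (K : ℝ) (hy : ∀ l, 0 ≤ y l)
    (h : ∀ l, ∑ j ∈ (range M).filter (fun j => p j l), W j * c j l ≤ K * W l) :
    ∑ j ∈ range M, W j * ∑ l ∈ (range M).filter (fun l => p j l), c j l * y l ≤
      K * ∑ l ∈ range M, W l * y l := by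
  have e : ∑ j ∈ range M, W j * ∑ l ∈ (range M).filter (fun l => p j l), c j l * y l =
      ∑ l ∈ range M, (∑ j ∈ (range M).filter (fun j => p j l), W j * c j l) * y l := by
    have e1 : ∀ j ∈ range M, W j * ∑ l ∈ (range M).filter (fun l => p j l), c j l * y l =
        ∑ l ∈ range M, if p j l then W j * c j l * y l else 0 := by
      intro j _
      rw [Finset.sum_filter, Finset.mul_sum]
      refine Finset.sum_congr rfl fun l _ => ?_
      by_cases hp : p j l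
      · rw [if_pos hp, if_pos hp, mul_assoc]
      · rw [if_neg hp, if_neg hp, mul_zero]
    rw [Finset.sum_congr rfl e1, Finset.sum_comm]
    refine Finset.sum_congr rfl fun l _ => ?_
    rw [Finset.sum_filter, Finset.sum_mul]
    refine Finset.sum_congr rfl fun j _ => ?_
    by_cases hp : p j l
    · rw [if_pos hp, if_pos hp]
    · rw [if_neg hp, if_neg hp, zero_mul]
  rw [e, Finset.mul_sum]
  refine Finset.sum_le_sum fun l _ => ?_
  have h1 := mul_le_mul_of_nonneg_right (h l) (hy l)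
  linarith

theorem mono4 (s : ℕ) {j l k : ℕ} (h : j ≤ l + k) :
    (4 : ℝ) ^ (s * j) ≤ 4 ^ (k * s) * 4 ^ (s * l) := by
  rw [← pow_add]
  refine pow_le_pow_right₀ (by norm_num) ?_
  calc s * j ≤ s * (l + k) := Nat.mul_le_mul_left s h
    _ = k * s + s * l := by ring

theorem nearB (s M : ℕ) (y : ℕ → ℝ) (hy : ∀ l, 0 ≤ y l) :
    ∑ j ∈ range M, (4 : ℝ) ^ (s * j) * ∑ l ∈ nearS M j, y l ≤
      3 * 4 ^ s * ∑ l ∈ range M, (4 : ℝ) ^ (s * l) * y l := by
  have h := swap_bound M (fun j => (4 : ℝ) ^ (s * j)) y (fun _ _ => 1)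
    (fun j l => l ≤ j + 1 ∧ j ≤ l + 1) (3 * 4 ^ s) hy ?_
  · simp only [one_mul] at h
    exact h
  · intro l
    simp only [mul_one]
    have h1 : ∀ j ∈ (range M).filter (fun j => l ≤ j + 1 ∧ j ≤ l + 1),
        (4 : ℝ) ^ (s * j) ≤ 4 ^ s * 4 ^ (s * l) := by
      intro j hj
      have h2 := (Finset.mem_filter.1 hj).2.2
      have h3 := mono4 s h2
      rw [one_mul] at h3
      exact h3
    refine (Finset.sum_le_card_nsmul _ _ _ h1).trans ?_
    rw [nsmul_eq_mul]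
    have h2 : ((range M).filter (fun j => l ≤ j + 1 ∧ j ≤ l + 1)).card ≤ 3 := by
      have h3 : (range M).filter (fun j => l ≤ j + 1 ∧ j ≤ l + 1) ⊆ Finset.Icc (l - 1) (l + 1) := by
        intro j hj
        have h4 := (Finset.mem_filter.1 hj).2
        rw [Finset.mem_Icc]
        omega
      refine (Finset.card_le_card h3).trans ?_
      rw [Nat.card_Icc]
      omega
    have h4 : (((range M).filter (fun j => l ≤ j + 1 ∧ j ≤ l + 1)).card : ℝ) ≤ 3 := by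
      exact_mod_cast h2
    have h5 : (0 : ℝ) ≤ 4 ^ s * 4 ^ (s * l) := by positivity
    have h6 := mul_le_mul_of_nonneg_right h4 h5
    linarith

theorem geo (n : ℕ) : ∑ j ∈ range n, (2 : ℝ) ^ j ≤ 2 ^ n := by
  induction n with
  | zero => simp
  | succ n ih =>
    rw [Finset.sum_range_succ, pow_succ]
    linarith

theorem upB (s M : ℕ) (y : ℕ → ℝ) (hy : ∀ l, 0 ≤ y l) :
    ∑ j ∈ range M, (4 : ℝ) ^ (s * j) * ∑ l ∈ upS M j, (2 : ℝ) ^ j / 2 ^ l * y l ≤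
      16 * 4 ^ (3 * s) * ∑ l ∈ range M, (4 : ℝ) ^ (s * l) * y l := by
  refine swap_bound M (fun j => (4 : ℝ) ^ (s * j)) y (fun j l => (2 : ℝ) ^ j / 2 ^ l)
    (fun j l => j ≤ l + 3) (16 * 4 ^ (3 * s)) hy ?_
  intro l
  have h1 : ∀ j ∈ (range M).filter (fun j => j ≤ l + 3),
      (4 : ℝ) ^ (s * j) * (2 ^ j / 2 ^ l) ≤ 4 ^ (3 * s) * 4 ^ (s * l) / 2 ^ l * 2 ^ j := by
    intro j hj
    have h2 := (Finset.mem_filter.1 hj).2
    have h3 := mono4 s h2
    have h4 : (0 : ℝ) ≤ 2 ^ j / 2 ^ l := by positivity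
    have h5 := mul_le_mul_of_nonneg_right h3 h4
    refine h5.trans (le_of_eq ?_)
    ring
  refine (Finset.sum_le_sum h1).trans ?_
  rw [← Finset.mul_sum]
  have h2 : ∑ j ∈ (range M).filter (fun j => j ≤ l + 3), (2 : ℝ) ^ j ≤ 16 * 2 ^ l := by
    have h3 : (range M).filter (fun j => j ≤ l + 3) ⊆ range (l + 4) := by
      intro j hj
      have h4 := (Finset.mem_filter.1 hj).2
      rw [Finset.mem_range]
      omega
    refine (Finset.sum_le_sum_of_subset_of_nonneg h3 fun _ _ _ => by positivity).trans ?_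
    refine (geo (l + 4)).trans (le_of_eq ?_)
    rw [pow_add]
    ring
  have h3 : (0 : ℝ) ≤ 4 ^ (3 * s) * 4 ^ (s * l) / 2 ^ l := by positivity
  refine (mul_le_mul_of_nonneg_left h2 h3).trans (le_of_eq ?_)
  field_simp

end B8aL

open B8aL in
theorem leaf_B8a : S_B8a := by
  intro s M x y S δ κ A B τ hτ hκ hA hB hx hy _ _ hsm hxr hyr
  have hW : ∀ j : ℕ, (0 : ℝ) ≤ 4 ^ (s * j) := fun j => by positivity
  obtain ⟨R, hR⟩ : ∃ R : ℝ, R = ∑ j ∈ range M, (4 : ℝ) ^ (s * j) * y j := ⟨_, rfl⟩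
  obtain ⟨P, hP⟩ : ∃ P : ℝ, P = ∑ j ∈ range M, (4 : ℝ) ^ (s * j) * x j := ⟨_, rfl⟩
  obtain ⟨p, hp⟩ : ∃ p : ℝ, p = ∑ j ∈ range M, (4 : ℝ) ^ (s * j) * S j := ⟨_, rfl⟩
  obtain ⟨D, hD⟩ : ∃ D : ℝ, D = ∑ j ∈ range M, (4 : ℝ) ^ (s * j) * δ j := ⟨_, rfl⟩
  rw [← hR, ← hP, ← hp, ← hD]
  have hR0 : 0 ≤ R := by
    rw [hR]
    exact Finset.sum_nonneg fun j _ => mul_nonneg (hW j) (hy j)
  have hP0 : 0 ≤ P := by
    rw [hP]
    exact Finset.sum_nonneg fun j _ => mul_nonneg (hW j) (hx j)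
  have ny := nearB s M y hy
  have nx := nearB s M x hx
  have uy := upB s M y hy
  rw [← hR] at ny uy
  rw [← hP] at nx
  have key : ∀ (z a : ℕ → ℝ), (∀ j, z j ≤ 8 * a j + κ * (A * ∑ l ∈ nearS M j, z l
      + B * ∑ l ∈ upS M j, (2 : ℝ) ^ j / 2 ^ l * y l)) →
      ∑ j ∈ range M, (4 : ℝ) ^ (s * j) * z j ≤ 8 * ∑ j ∈ range M, (4 : ℝ) ^ (s * j) * a j +
        κ * (A * ∑ j ∈ range M, (4 : ℝ) ^ (s * j) * ∑ l ∈ nearS M j, z l +
          B * ∑ j ∈ range M, (4 : ℝ) ^ (s * j) * ∑ l ∈ upS M j, (2 : ℝ) ^ j / 2 ^ l * y l) := by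
    intro z a hz
    have h1 : ∀ j ∈ range M, (4 : ℝ) ^ (s * j) * z j ≤ 8 * ((4 : ℝ) ^ (s * j) * a j) +
        κ * (A * ((4 : ℝ) ^ (s * j) * ∑ l ∈ nearS M j, z l) +
          B * ((4 : ℝ) ^ (s * j) * ∑ l ∈ upS M j, (2 : ℝ) ^ j / 2 ^ l * y l)) := by
      intro j _
      have h2 := mul_le_mul_of_nonneg_left (hz j) (hW j)
      refine h2.trans (le_of_eq ?_)
      ring
    refine (Finset.sum_le_sum h1).trans (le_of_eq ?_)
    rw [Finset.sum_add_distrib, ← Finset.mul_sum, ← Finset.mul_sum, Finset.sum_add_distrib,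
      ← Finset.mul_sum, ← Finset.mul_sum]
  have k1 := key y (fun j => δ j / τ + S j) hyr
  have k2 := key x S hxr
  have e1 : ∑ j ∈ range M, (4 : ℝ) ^ (s * j) * (δ j / τ + S j) = D / τ + p := by
    rw [hD, hp, Finset.sum_div, ← Finset.sum_add_distrib]
    refine Finset.sum_congr rfl fun j _ => ?_
    ring
  rw [e1, ← hR] at k1
  rw [← hP, ← hp] at k2
  have t1 := mul_le_mul_of_nonneg_left ny hA
  have t2 := mul_le_mul_of_nonneg_left uy hB
  have t3 := mul_le_mul_of_nonneg_left nx hA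
  have t4 := mul_le_mul_of_nonneg_left (add_le_add t1 t2) hκ
  have t5 := mul_le_mul_of_nonneg_left (add_le_add t3 t2) hκ
  have f1 : κ * (A * (3 * 4 ^ s * R) + B * (16 * 4 ^ (3 * s) * R)) ≤ 1 / 2 * R := by
    have := mul_le_mul_of_nonneg_right hsm hR0
    refine le_trans (le_of_eq ?_) this
    ring
  have c1 : 0 ≤ κ * (3 * 4 ^ s * A) := by positivity
  have c2 : 0 ≤ κ * (16 * 4 ^ (3 * s) * B) := by positivity
  have f2 : κ * (A * (3 * 4 ^ s * P) + B * (16 * 4 ^ (3 * s) * R)) ≤ 1 / 2 * P + 1 / 2 * R := by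
    have g1 : κ * (3 * 4 ^ s * A) ≤ 1 / 2 := by nlinarith
    have g2 : κ * (16 * 4 ^ (3 * s) * B) ≤ 1 / 2 := by nlinarith
    have g3 := mul_le_mul_of_nonneg_right g1 hP0
    have g4 := mul_le_mul_of_nonneg_right g2 hR0
    calc κ * (A * (3 * 4 ^ s * P) + B * (16 * 4 ^ (3 * s) * R)) =
        κ * (3 * 4 ^ s * A) * P + κ * (16 * 4 ^ (3 * s) * B) * R := by ring
      _ ≤ 1 / 2 * P + 1 / 2 * R := add_le_add g3 g4
  constructor
  · linarith
  · linarith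

end Pool.Agent.H259.ND
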