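import Pool.Agent.H259.ND.Stmt

/-!
# ND-C1: chain of time intervals
-/

open MeasureTheory Set Finset

namespace Pool.Agent.H259.ND

theorem leaf_C1 : S_C1 := by
  intro T μ Φ hT hμ h0 hΦ hstep n
  have hz : (0 : ℝ) ∈ Icc 0 T := ⟨le_rfl, hT⟩
  have hΦ0 : 0 ≤ Φ 0 := hΦ 0 hz
  induction n with
  | zero =>
    intro t ht hle
    have h1 := hstep 0 hz t ht ht.1 (by
      rw [h0]
      push_cast at hle
      linarith)
    rw [zero_add, pow_one]
    exact h1
  | succ n ih =>
    intro t ht hle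
    push_cast at hle
    rcases le_or_gt (μ t) n with h | h
    · refine (ih t ht h).trans ?_
      refine mul_le_mul_of_nonneg_right ?_ hΦ0
      exact pow_le_pow_right₀ (by norm_num) (Nat.le_succ _)
    · have hsub : Icc 0 t ⊆ Icc 0 T := fun x hx => ⟨hx.1, hx.2.trans ht.2⟩
      have hiv := intermediate_value_Icc ht.1 (hμ.mono hsub)
      have hn : (n : ℝ) ∈ Icc (μ 0) (μ t) := ⟨by rw [h0]; exact Nat.cast_nonneg n, h.le⟩
      obtain ⟨r, hr, hrn⟩ := hiv hn
      have h1 := ih r (hsub hr) hrn.le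
      have h2 := hstep r (hsub hr) t ht hr.2 (by rw [hrn]; linarith)
      calc Φ t ≤ 4 * Φ r := h2
        _ ≤ 4 * (4 ^ (n + 1) * Φ 0) := mul_le_mul_of_nonneg_left h1 (by norm_num)
        _ = 4 ^ (n + 1 + 1) * Φ 0 := by ring

end Pool.Agent.H259.ND
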