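import Pool.Agent.H259.ND.Stmt

/-!
# C2: derivative of a square root
-/

set_option autoImplicit false

open Set Filter Topology MeasureTheory

namespace Pool.Agent.H259.ND

namespace C2L

theorem step (f f' g : ℝ → ℝ) (s t : ℝ) (hst : s ≤ t) (h0 : ∀ r ∈ Icc s t, 0 ≤ f r)
    (hd : ∀ r ∈ Icc s t, HasDerivWithinAt f (f' r) (Icc s t) r) (hc : ContinuousOn f' (Icc s t))
    (hg : ContinuousOn g (Icc s t)) (hg0 : ∀ r ∈ Icc s t, 0 ≤ g r)
    (hb : ∀ r ∈ Icc s t, |f' r| ≤ 2 * (√(f r) * g r)) (ε : ℝ) (hε : 0 < ε) :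
    |√(f t + ε) - √(f s + ε)| ≤ ∫ r in s..t, g r := by
  have hfc : ContinuousOn f (Icc s t) := fun r hr => (hd r hr).continuousWithinAt
  have hpos : ∀ r ∈ Icc s t, 0 < f r + ε := fun r hr => by linarith [h0 r hr]
  have hsp : ∀ r ∈ Icc s t, 0 < √(f r + ε) := fun r hr => Real.sqrt_pos.2 (hpos r hr)
  have hzc : ContinuousOn (fun r => √(f r + ε)) (Icc s t) := (hfc.add continuousOn_const).sqrt
  have hz' : ∀ r ∈ Ioo s t, HasDerivAt (fun r => √(f r + ε)) (f' r / (2 * √(f r + ε))) r := by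
    intro r hr
    have hr' : r ∈ Icc s t := Ioo_subset_Icc_self hr
    have h1 : HasDerivAt f (f' r) r := (hd r hr').hasDerivAt (Icc_mem_nhds hr.1 hr.2)
    exact (h1.add_const ε).sqrt (hpos r hr').ne'
  have hcd : ContinuousOn (fun r => f' r / (2 * √(f r + ε))) (Icc s t) :=
    hc.div (continuousOn_const.mul hzc) (fun r hr => (mul_pos two_pos (hsp r hr)).ne')
  have hint : IntervalIntegrable (fun r => f' r / (2 * √(f r + ε))) volume s t :=
    hcd.intervalIntegrable_of_Icc hst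
  have hgi : IntervalIntegrable g volume s t := hg.intervalIntegrable_of_Icc hst
  have hF := intervalIntegral.integral_eq_sub_of_hasDerivAt_of_le hst hzc hz' hint
  rw [← hF, ← Real.norm_eq_abs]
  apply intervalIntegral.norm_integral_le_of_norm_le hst _ hgi
  refine Filter.Eventually.of_forall (fun r hr => ?_)
  have hr' : r ∈ Icc s t := Ioc_subset_Icc_self hr
  have h1 := hsp r hr'
  rw [Real.norm_eq_abs, abs_div, abs_of_pos (mul_pos two_pos h1), div_le_iff₀ (mul_pos two_pos h1)]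
  have h2 : √(f r) ≤ √(f r + ε) := Real.sqrt_le_sqrt (by linarith)
  have h3 := mul_le_mul_of_nonneg_right h2 (hg0 r hr')
  have h4 := hb r hr'
  linarith

end C2L

theorem leaf_C2 : S_C2 := by
  intro f f' g s t hst h0 hd hc hg hg0 hb
  have hcont : Continuous (fun ε : ℝ => |√(f t + ε) - √(f s + ε)|) := by fun_prop
  have hT : Tendsto (fun ε : ℝ => |√(f t + ε) - √(f s + ε)|) (𝓝[>] 0) (𝓝 |√(f t) - √(f s)|) := by
    have h1 := (hcont.tendsto 0).mono_left (nhdsWithin_le_nhds (s := Ioi (0 : ℝ)))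
    simpa only [add_zero] using h1
  refine le_of_tendsto hT ?_
  filter_upwards [self_mem_nhdsWithin] with ε hε
  exact C2L.step f f' g s t hst h0 hd hc hg hg0 hb ε hε

end Pool.Agent.H259.ND
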