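import Pool.Agent.H259.ND.Stmt2

/-!
# Leaf C3: the assembly of the properties of the finite system
-/

open MeasureTheory Set Finset

namespace Pool.Agent.H259.ND

namespace C3L

theorem mem_Ss {S : Finset Z3} {j : ℕ} {k : Z3} : k ∈ Ss S j ↔ k ∈ S ∧ InSh j k := by
  classical
  unfold Ss
  simp [Finset.mem_filter]

theorem Ss_empty {S : Finset Z3} {M j : ℕ} (hB : Below S M) (hj : M ≤ j) : Ss S j = ∅ := by
  apply Finset.eq_empty_of_forall_notMem
  intro k hk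
  rw [mem_Ss] at hk
  have := hB k hk.1 j hk.2
  omega

theorem Xs_nonneg (S : Finset Z3) (a : ℝ → Z3 → Fin 3 → ℂ) (j : ℕ) (t : ℝ) : 0 ≤ Xs S a j t :=
  Real.sqrt_nonneg _

theorem gs_nonneg (D : Z3 → ℂ) (S : Finset Z3) (a N : ℝ → Z3 → Fin 3 → ℂ) (j : ℕ) (t : ℝ) :
    0 ≤ gs D S a N j t :=
  Real.sqrt_nonneg _

theorem qs_nonneg {Cn : ℝ} (h : 0 ≤ Cn) (S : Finset Z3) (a : ℝ → Z3 → Fin 3 → ℂ) (j m l : ℕ)
    (t : ℝ) : 0 ≤ qs Cn S a j m l t := by
  unfold qs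
  have h1 : 0 ≤ ∑ i, ∑ i', √(∑ k ∈ Ss S j, ‖cc S a m l i i' t k‖ ^ 2) :=
    Finset.sum_nonneg fun i _ => Finset.sum_nonneg fun i' _ => Real.sqrt_nonneg _
  positivity

theorem cc_zero (hTri : S_Tri) (S : Finset Z3) (a : ℝ → Z3 → Fin 3 → ℂ) (j m l : ℕ)
    (hml : m ≤ l) (hn : ¬ (j ≤ l + 1 ∧ (l ≤ j + 1 ∨ l ≤ m + 5))) (i i' : Fin 3) (t : ℝ) (k : Z3)
    (hk : k ∈ Ss S j) : cc S a m l i i' t k = 0 := by
  classical
  unfold cc
  apply Finset.sum_eq_zero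
  intro p hp
  by_cases hq : k - p ∈ Ss S l
  · exfalso
    apply hn
    have h1 := (mem_Ss.mp hp).2
    have h2 := (mem_Ss.mp hq).2
    have h3 := (mem_Ss.mp hk).2
    have h4 : p + (k - p) = k := by abel
    exact hTri j m l hml p (k - p) h1 h2 (by rw [h4]; exact h3)
  · rw [if_neg hq, mul_zero]

theorem qs_zero (hTri : S_Tri) (Cn : ℝ) (S : Finset Z3) (a : ℝ → Z3 → Fin 3 → ℂ) (j m l : ℕ)
    (t : ℝ) (hml : m ≤ l) (hn : ¬ (j ≤ l + 1 ∧ (l ≤ j + 1 ∨ l ≤ m + 5))) :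
    qs Cn S a j m l t = 0 := by
  unfold qs
  have h1 : ∀ i i' : Fin 3, √(∑ k ∈ Ss S j, ‖cc S a m l i i' t k‖ ^ 2) = 0 := by
    intro i i'
    have h2 : ∑ k ∈ Ss S j, ‖cc S a m l i i' t k‖ ^ 2 = 0 := by
      apply Finset.sum_eq_zero
      intro k hk
      rw [cc_zero hTri S a j m l hml hn i i' t k hk]
      simp
    rw [h2, Real.sqrt_zero]
  have h3 : ∑ i, ∑ i', √(∑ k ∈ Ss S j, ‖cc S a m l i i' t k‖ ^ 2) = 0 := by
    apply Finset.sum_eq_zero
    intro i _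
    apply Finset.sum_eq_zero
    intro i' _
    exact h1 i i'
  rw [h3, mul_zero]

end C3L

theorem leaf_C3 (hTri : S_Tri) (ha : S_C3a) (hc : S_C3c) (hd : S_C3d) (he : S_C3e)
    (hf : S_C3f) : S_C3 := by
  intro β hβ Cn Cd hCn hCd
  obtain ⟨C₁, c₁, hC₁, hc₁, hF⟩ := hf β hβ Cn hCn
  refine ⟨max C₁ (4 * Cd + 1), c₁, le_trans hC₁ (le_max_left _ _), hc₁, ?_⟩
  intro γ D ν E S T a N hG M hM
  obtain ⟨hcX, hcg, hcq, hXsq, hen⟩ := ha β γ D ν Cd Cn E S T a N hG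
  refine
    { C1 := le_trans hC₁ (le_max_left _ _)
      νpos := hG.νpos
      c1pos := hc₁
      Enn := hG.E0
      cX := hcX
      cg := hcg
      cq := hcq
      X0 := fun j t => C3L.Xs_nonneg S a j t
      g0 := fun j t => C3L.gs_nonneg D S a N j t
      q0 := fun j m l t => C3L.qs_nonneg hCn S a j m l t
      en := hen
      XM := ?_
      gM := ?_
      lip := hd β γ D ν Cd Cn E S T a N hG
      gle := ?_
      qz := fun j m l t hml hn => C3L.qs_zero hTri Cn S a j m l t hml hn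
      ener := he β γ D ν Cd Cn E S T a N hG M hM
      bil := ?_ }
  · intro j hj t
    unfold Xs
    rw [C3L.Ss_empty hM hj]
    simp
  · intro j hj t
    unfold gs
    rw [C3L.Ss_empty hM hj]
    simp
  · intro j t _
    have h1 := hc β γ D ν Cd Cn E S T a N hG M hM j t
    have h2 : 4 * Cd ≤ max C₁ (4 * Cd + 1) := le_trans (by linarith) (le_max_right _ _)
    have h3 : 0 ≤ Xs S a j t := C3L.Xs_nonneg S a j t
    have h4 : 4 * Cd * 4 ^ j * Xs S a j t ≤ max C₁ (4 * Cd + 1) * 4 ^ j * Xs S a j t := by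
      apply mul_le_mul_of_nonneg_right _ h3
      apply mul_le_mul_of_nonneg_right h2
      positivity
    linarith
  · intro j m l s t hml hs hst ht hsm
    have h1 := hF γ D ν Cd E S T a N hG j m l s t hml hs hst ht hsm
    refine le_trans h1 ?_
    have h2 : C₁ ^ 2 ≤ max C₁ (4 * Cd + 1) ^ 2 := by
      apply pow_le_pow_left₀ (by linarith) (le_max_left _ _)
    apply mul_le_mul_of_nonneg_right _ (sq_nonneg _)
    apply mul_le_mul_of_nonneg_right h2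
    positivity

end Pool.Agent.H259.ND
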