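import Pool.Agent.H259.ND.Stmt2

/-!
# Leaf C3a: continuity of the shell quantities
-/

open MeasureTheory Set Finset

namespace Pool.Agent.H259.ND

namespace C3aL

lemma Ss_sub (S : Finset Z3) (j : ℕ) : Ss S j ⊆ S := by
  classical
  unfold Ss
  exact Finset.filter_subset _ _

lemma cont_cc {S : Finset Z3} {a : ℝ → Z3 → Fin 3 → ℂ} (ca : ∀ k i, Continuous fun t => a t k i)
    (m l : ℕ) (i i' : Fin 3) (k : Z3) : Continuous fun t => cc S a m l i i' t k := by
  unfold cc
  refine continuous_finsetSum _ fun p _ => (ca p i).mul ?_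
  by_cases h : k - p ∈ Ss S l
  · simp only [h, if_true]
    exact ca _ _
  · simp only [h, if_false]
    exact continuous_const

end C3aL

theorem leaf_C3a : S_C3a := by
  intro β γ D ν Cd Cn E S T a N h
  have hX : ∀ j t, Xs S a j t ^ 2 = ∑ k ∈ Ss S j, ∑ i, ‖a t k i‖ ^ 2 := by
    intro j t
    unfold Xs
    exact Real.sq_sqrt (Finset.sum_nonneg fun k _ => Finset.sum_nonneg fun i _ => sq_nonneg _)
  refine ⟨?_, ?_, ?_, hX, ?_⟩
  · intro j
    unfold Xs
    exact Real.continuous_sqrt.comp (continuous_finsetSum _ fun k _ =>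
      continuous_finsetSum _ fun i _ => (h.ca k i).norm.pow 2)
  · intro j
    unfold gs ff
    exact Real.continuous_sqrt.comp (continuous_finsetSum _ fun k _ =>
      continuous_finsetSum _ fun i _ =>
        ((continuous_const.mul (h.ca k i)).sub (h.cN k i)).norm.pow 2)
  · intro j m l
    unfold qs
    exact continuous_const.mul (continuous_finsetSum _ fun i _ =>
      continuous_finsetSum _ fun i' _ => Real.continuous_sqrt.comp
        (continuous_finsetSum _ fun k _ => (C3aL.cont_cc h.ca m l i i' k).norm.pow 2))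
  · intro j t ht
    rw [hX]
    have h1 := h.en t ht
    have h2 : 0 ≤ ∫ r in (0 : ℝ)..t, ∑ k ∈ S, (sq3 k : ℝ) * ∑ i, ‖a r k i‖ ^ 2 := by
      refine intervalIntegral.integral_nonneg ht.1 fun r _ => Finset.sum_nonneg fun k _ => ?_
      refine mul_nonneg ?_ (Finset.sum_nonneg fun i _ => sq_nonneg _)
      have : 0 ≤ sq3 k := by
        unfold sq3
        exact Finset.sum_nonneg fun i _ => sq_nonneg _
      exact_mod_cast this
    have h3 : ∑ k ∈ Ss S j, ∑ i, ‖a t k i‖ ^ 2 ≤ ∑ k ∈ S, ∑ i, ‖a t k i‖ ^ 2 :=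
      Finset.sum_le_sum_of_subset_of_nonneg (C3aL.Ss_sub S j) fun k _ _ =>
        Finset.sum_nonneg fun i _ => sq_nonneg _
    have h4 : 0 ≤ 2 * ν * ∫ r in (0 : ℝ)..t, ∑ k ∈ S, (sq3 k : ℝ) * ∑ i, ‖a r k i‖ ^ 2 :=
      mul_nonneg (by linarith [h.νpos]) h2
    linarith

end Pool.Agent.H259.ND
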