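import Pool.Agent.H259.ND.Stmt2

open MeasureTheory Set Finset

namespace Pool.Agent.H259.ND

namespace C3bL

theorem mem_Ss {S : Finset Z3} {j : ℕ} {k : Z3} : k ∈ Ss S j ↔ k ∈ S ∧ InSh j k := by
  classical
  unfold Ss
  rw [Finset.mem_filter]

/-- the level of a frequency -/
noncomputable def lv (k : Z3) : ℕ := Nat.log 4 (sq3 k).toNat

theorem sq3_nonneg (k : Z3) : 0 ≤ sq3 k := Finset.sum_nonneg fun i _ => sq_nonneg (k i)

theorem sq3_pos {k : Z3} (hk : k ≠ 0) : 0 < sq3 k := by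
  obtain ⟨i, hi⟩ := Function.ne_iff.1 hk
  have hi' : k i ≠ 0 := hi
  have h1 : 0 < k i ^ 2 := by positivity
  have h2 : k i ^ 2 ≤ sq3 k :=
    Finset.single_le_sum (f := fun i => k i ^ 2) (fun i _ => sq_nonneg (k i)) (Finset.mem_univ i)
  exact lt_of_lt_of_le h1 h2

theorem inSh_iff {k : Z3} (hk : k ≠ 0) (j : ℕ) : InSh j k ↔ lv k = j := by
  have h0 := sq3_pos hk
  obtain ⟨n, hn⟩ : ∃ n : ℕ, sq3 k = n := ⟨(sq3 k).toNat, (Int.toNat_of_nonneg h0.le).symm⟩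
  have hn0 : n ≠ 0 := by
    rintro rfl
    rw [hn] at h0
    simp at h0
  unfold InSh lv
  rw [hn, Int.toNat_natCast, Nat.log_eq_iff (Or.inr ⟨by norm_num, hn0⟩)]
  constructor
  · rintro ⟨h1, h2⟩
    constructor
    · exact_mod_cast h1
    · exact_mod_cast h2
  · rintro ⟨h1, h2⟩
    constructor
    · exact_mod_cast h1
    · exact_mod_cast h2

/-- the second factor in the convolution -/
noncomputable def zz (S : Finset Z3) (a : ℝ → Z3 → Fin 3 → ℂ) (l : ℕ) (i' : Fin 3) (t : ℝ)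
    (q : Z3) : ℂ := by
  classical exact (if q ∈ Ss S l then a t q i' else 0)

theorem zz_pos {S : Finset Z3} {a : ℝ → Z3 → Fin 3 → ℂ} {l : ℕ} {i' : Fin 3} {t : ℝ}
    {q : Z3} (h : q ∈ Ss S l) : zz S a l i' t q = a t q i' := by
  classical
  unfold zz
  rw [if_pos h]

theorem zz_neg {S : Finset Z3} {a : ℝ → Z3 → Fin 3 → ℂ} {l : ℕ} {i' : Fin 3} {t : ℝ}
    {q : Z3} (h : q ∉ Ss S l) : zz S a l i' t q = 0 := by
  classical
  unfold zz
  rw [if_neg h]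

theorem cc_eq (S : Finset Z3) (a : ℝ → Z3 → Fin 3 → ℂ) (m l : ℕ) (i i' : Fin 3) (t : ℝ) (k : Z3) :
    cc S a m l i i' t k = ∑ p ∈ Ss S m, a t p i * zz S a l i' t (k - p) := rfl

theorem cc_symm (S : Finset Z3) (a : ℝ → Z3 → Fin 3 → ℂ) (m l : ℕ) (i i' : Fin 3) (t : ℝ)
    (k : Z3) : cc S a m l i i' t k = cc S a l m i' i t k := by
  classical
  have key : ∀ (m l : ℕ) (i i' : Fin 3), cc S a m l i i' t k =
      ∑ p ∈ (Ss S m).filter (fun p => k - p ∈ Ss S l), a t p i * a t (k - p) i' := by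
    intro m l i i'
    rw [cc_eq, Finset.sum_filter]
    refine Finset.sum_congr rfl fun p _ => ?_
    split_ifs with h
    · rw [zz_pos h]
    · rw [zz_neg h, mul_zero]
  rw [key, key]
  refine Finset.sum_nbij' (fun p => k - p) (fun p => k - p) ?_ ?_ ?_ ?_ ?_
  · intro p hp
    rw [Finset.mem_filter] at hp ⊢
    refine ⟨hp.2, ?_⟩
    rw [sub_sub_cancel]
    exact hp.1
  · intro p hp
    rw [Finset.mem_filter] at hp ⊢
    refine ⟨hp.2, ?_⟩
    rw [sub_sub_cancel]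
    exact hp.1
  · intro p _
    exact sub_sub_cancel k p
  · intro p _
    exact sub_sub_cancel k p
  · intro p _
    rw [sub_sub_cancel, mul_comm]

theorem sum_part {S : Finset Z3} (h0 : (0 : Z3) ∉ S) {M : ℕ} (hM : Below S M) (f : Z3 → ℂ) :
    ∑ p ∈ S, f p = ∑ m ∈ range M, ∑ p ∈ Ss S m, f p := by
  classical
  have hne : ∀ p ∈ S, p ≠ 0 := fun p hp h => h0 (h ▸ hp)
  have h1 : ∀ p ∈ S, lv p ∈ range M := fun p hp =>
    Finset.mem_range.2 (hM p hp _ ((inSh_iff (hne p hp) _).2 rfl))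
  rw [← Finset.sum_fiberwise_of_maps_to h1]
  refine Finset.sum_congr rfl fun m _ => ?_
  refine Finset.sum_congr ?_ fun _ _ => rfl
  ext p
  rw [Finset.mem_filter, mem_Ss]
  constructor
  · rintro ⟨h2, h3⟩
    exact ⟨h2, (inSh_iff (hne p h2) _).2 h3⟩
  · rintro ⟨h2, h3⟩
    exact ⟨h2, (inSh_iff (hne p h2) _).1 h3⟩

theorem sum_zz {S : Finset Z3} (h0 : (0 : Z3) ∉ S) {M : ℕ} (hM : Below S M)
    {a : ℝ → Z3 → Fin 3 → ℂ} {t : ℝ} (ha : ∀ k ∉ S, ∀ i, a t k i = 0) (i' : Fin 3) (q : Z3) :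
    ∑ l ∈ range M, zz S a l i' t q = a t q i' := by
  by_cases hq : q ∈ S
  · have hq0 : q ≠ 0 := fun h => h0 (h ▸ hq)
    have hlv : InSh (lv q) q := (inSh_iff hq0 _).2 rfl
    rw [Finset.sum_eq_single (lv q)]
    · exact zz_pos (mem_Ss.2 ⟨hq, hlv⟩)
    · intro l _ hl
      refine zz_neg fun h => hl ?_
      exact ((inSh_iff hq0 _).1 (mem_Ss.1 h).2).symm
    · intro h
      exact absurd (Finset.mem_range.2 (hM q hq _ hlv)) h
  · rw [ha q hq i']
    exact Finset.sum_eq_zero fun l _ => zz_neg fun h => hq (mem_Ss.1 h).1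

theorem conv_eq {S : Finset Z3} (h0 : (0 : Z3) ∉ S) {M : ℕ} (hM : Below S M)
    {a : ℝ → Z3 → Fin 3 → ℂ} {t : ℝ} (ha : ∀ k ∉ S, ∀ i, a t k i = 0) (i i' : Fin 3) (k : Z3) :
    ∑ p ∈ S, a t p i * a t (k - p) i' =
      ∑ l ∈ range M, ∑ m ∈ range M, cc S a m l i i' t k := by
  rw [sum_part h0 hM, Finset.sum_comm]
  refine Finset.sum_congr rfl fun m _ => ?_
  simp only [cc_eq]
  rw [Finset.sum_comm]
  refine Finset.sum_congr rfl fun p _ => ?_
  rw [← Finset.mul_sum, sum_zz h0 hM ha]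

theorem sum_symm (c : ℕ → ℕ → ℝ) (h0 : ∀ m l, 0 ≤ c m l) (hc : ∀ m l, c m l = c l m) (M : ℕ) :
    ∑ l ∈ range M, ∑ m ∈ range M, c m l ≤ ∑ l ∈ range M, ∑ m ∈ range (l + 1), 2 * c m l := by
  induction M with
  | zero => simp
  | succ M ih =>
    have e1 := Finset.sum_range_succ (fun l => ∑ m ∈ range (M + 1), c m l) M
    have e2 := Finset.sum_range_succ (fun l => ∑ m ∈ range (l + 1), 2 * c m l) M
    have e3 := Finset.sum_range_succ (fun m => c m M) M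
    have h1 : ∑ l ∈ range M, ∑ m ∈ range (M + 1), c m l =
        ∑ l ∈ range M, ∑ m ∈ range M, c m l + ∑ l ∈ range M, c l M := by
      rw [← Finset.sum_add_distrib]
      refine Finset.sum_congr rfl fun l _ => ?_
      rw [Finset.sum_range_succ, hc M l]
    have e4 : ∑ m ∈ range (M + 1), 2 * c m M = 2 * ∑ m ∈ range (M + 1), c m M :=
      (Finset.mul_sum _ _ _).symm
    have h2 := h0 M M
    linarith

theorem l2_add {κ : Type} (K : Finset κ) (f g : κ → ℝ) :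
    √(∑ k ∈ K, (f k + g k) ^ 2) ≤ √(∑ k ∈ K, f k ^ 2) + √(∑ k ∈ K, g k ^ 2) := by
  have hf : 0 ≤ ∑ k ∈ K, f k ^ 2 := Finset.sum_nonneg fun k _ => sq_nonneg _
  have hg : 0 ≤ ∑ k ∈ K, g k ^ 2 := Finset.sum_nonneg fun k _ => sq_nonneg _
  rw [Real.sqrt_le_left (by positivity)]
  have h1 := Real.sum_mul_le_sqrt_mul_sqrt K f g
  have h2 : ∑ k ∈ K, (f k + g k) ^ 2 =
      ∑ k ∈ K, f k ^ 2 + 2 * ∑ k ∈ K, f k * g k + ∑ k ∈ K, g k ^ 2 := by
    rw [Finset.mul_sum, ← Finset.sum_add_distrib, ← Finset.sum_add_distrib]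
    exact Finset.sum_congr rfl fun k _ => by ring
  rw [h2]
  have h3 := Real.sq_sqrt hf
  have h4 := Real.sq_sqrt hg
  nlinarith

theorem l2_sum {ι κ : Type} (K : Finset κ) (s : Finset ι) (x : ι → κ → ℝ) :
    √(∑ k ∈ K, (∑ i ∈ s, x i k) ^ 2) ≤ ∑ i ∈ s, √(∑ k ∈ K, x i k ^ 2) := by
  classical
  induction s using Finset.induction_on with
  | empty => simp
  | insert i s hi ih =>
    have h1 := l2_add K (fun k => x i k) (fun k => ∑ i ∈ s, x i k)
    rw [Finset.sum_insert hi]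
    simp only [Finset.sum_insert hi]
    exact h1.trans (by linarith)

theorem l2_smul {κ : Type} (K : Finset κ) (c : ℝ) (hc : 0 ≤ c) (f : κ → ℝ) :
    √(∑ k ∈ K, (c * f k) ^ 2) = c * √(∑ k ∈ K, f k ^ 2) := by
  have h1 : ∑ k ∈ K, (c * f k) ^ 2 = c ^ 2 * ∑ k ∈ K, f k ^ 2 := by
    rw [Finset.mul_sum]
    exact Finset.sum_congr rfl fun k _ => by ring
  rw [h1, Real.sqrt_mul (sq_nonneg c), Real.sqrt_sq hc]

/-- four sums in the norm of `ℓ²` -/
theorem l2_four {κ : Type} (K : Finset κ) (M : ℕ) (x : ℕ → ℕ → Fin 3 → Fin 3 → κ → ℝ) :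
    √(∑ k ∈ K, (∑ l ∈ range M, ∑ m ∈ range (l + 1), ∑ i, ∑ i', x m l i i' k) ^ 2) ≤
      ∑ l ∈ range M, ∑ m ∈ range (l + 1), ∑ i, ∑ i', √(∑ k ∈ K, x m l i i' k ^ 2) := by
  refine (l2_sum K (range M) _).trans (Finset.sum_le_sum fun l _ => ?_)
  refine (l2_sum K (range (l + 1)) _).trans (Finset.sum_le_sum fun m _ => ?_)
  refine (l2_sum K Finset.univ _).trans (Finset.sum_le_sum fun i _ => ?_)
  exact l2_sum K Finset.univ _

end C3bL

open C3bL in
theorem leaf_C3b : S_C3b := by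
  intro β γ D ν Cd Cn E S T a N hG M hM j t
  have hCn := hG.Cn0
  have ha : ∀ k ∉ S, ∀ i, a t k i = 0 := hG.supp t
  -- the pointwise bound
  have hpt : ∀ k ∈ Ss S j, ∀ i, ‖N t k i‖ ≤ 4 * Cn * 2 ^ j *
      ∑ l ∈ range M, ∑ m ∈ range (l + 1), ∑ i, ∑ i', ‖cc S a m l i i' t k‖ := by
    intro k hk i
    obtain ⟨hkS, hk1, hk2⟩ := mem_Ss.1 hk
    have h1 := hG.nb t k hkS i
    have h2 : √(sq3 k : ℝ) ≤ 2 ^ (j + 1) := by
      rw [Real.sqrt_le_left (by positivity)]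
      have h3 : (sq3 k : ℝ) < (4 : ℝ) ^ (j + 1) := by exact_mod_cast hk2
      have h4 : ((2 : ℝ) ^ (j + 1)) ^ 2 = (4 : ℝ) ^ (j + 1) := by
        rw [← pow_mul, mul_comm, pow_mul]
        norm_num
      rw [h4]
      exact h3.le
    have h3 : ∑ i', ∑ i'', ‖∑ p ∈ S, a t p i' * a t (k - p) i''‖ ≤
        2 * ∑ l ∈ range M, ∑ m ∈ range (l + 1), ∑ i, ∑ i', ‖cc S a m l i i' t k‖ := by
      have h4 : ∑ i', ∑ i'', ‖∑ p ∈ S, a t p i' * a t (k - p) i''‖ ≤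
          ∑ l ∈ range M, ∑ m ∈ range M, ∑ i', ∑ i'', ‖cc S a m l i' i'' t k‖ := by
        have h5 : ∀ i' i'', ‖∑ p ∈ S, a t p i' * a t (k - p) i''‖ ≤
            ∑ l ∈ range M, ∑ m ∈ range M, ‖cc S a m l i' i'' t k‖ := by
          intro i' i''
          rw [conv_eq hG.zero hM ha]
          refine (norm_sum_le _ _).trans (Finset.sum_le_sum fun l _ => ?_)
          exact norm_sum_le _ _
        refine (Finset.sum_le_sum fun i' _ => Finset.sum_le_sum fun i'' _ => h5 i' i'').trans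
          (le_of_eq ?_)
        have h6 : ∀ i' : Fin 3, ∑ i'' : Fin 3, ∑ l ∈ range M, ∑ m ∈ range M,
            ‖cc S a m l i' i'' t k‖ = ∑ l ∈ range M, ∑ m ∈ range M, ∑ i'' : Fin 3,
            ‖cc S a m l i' i'' t k‖ := by
          intro i'
          rw [Finset.sum_comm]
          refine Finset.sum_congr rfl fun l _ => ?_
          rw [Finset.sum_comm]
        rw [Finset.sum_congr rfl fun i' _ => h6 i', Finset.sum_comm]
        refine Finset.sum_congr rfl fun l _ => ?_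
        rw [Finset.sum_comm]
      refine h4.trans ?_
      have h5 := sum_symm (fun m l => ∑ i', ∑ i'', ‖cc S a m l i' i'' t k‖)
        (fun m l => Finset.sum_nonneg fun i' _ => Finset.sum_nonneg fun i'' _ => norm_nonneg _)
        (fun m l => by
          show ∑ i', ∑ i'', ‖cc S a m l i' i'' t k‖ = ∑ i', ∑ i'', ‖cc S a l m i' i'' t k‖
          rw [Finset.sum_comm]
          refine Finset.sum_congr rfl fun i' _ => Finset.sum_congr rfl fun i'' _ => ?_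
          rw [cc_symm]) M
      refine h5.trans (le_of_eq ?_)
      rw [Finset.mul_sum]
      refine Finset.sum_congr rfl fun l _ => ?_
      rw [Finset.mul_sum]
    have h6 : 0 ≤ ∑ l ∈ range M, ∑ m ∈ range (l + 1), ∑ i, ∑ i', ‖cc S a m l i i' t k‖ :=
      Finset.sum_nonneg fun l _ => Finset.sum_nonneg fun m _ => Finset.sum_nonneg fun i _ =>
        Finset.sum_nonneg fun i' _ => norm_nonneg _
    have h7 : 0 ≤ ∑ i', ∑ i'', ‖∑ p ∈ S, a t p i' * a t (k - p) i''‖ :=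
      Finset.sum_nonneg fun i' _ => Finset.sum_nonneg fun i'' _ => norm_nonneg _
    calc ‖N t k i‖ ≤ Cn * √(sq3 k : ℝ) * ∑ i', ∑ i'', ‖∑ p ∈ S, a t p i' * a t (k - p) i''‖ := h1
      _ ≤ Cn * 2 ^ (j + 1) * (2 * ∑ l ∈ range M, ∑ m ∈ range (l + 1), ∑ i, ∑ i',
          ‖cc S a m l i i' t k‖) := by
          refine mul_le_mul (mul_le_mul_of_nonneg_left h2 hCn) h3 h7 (by positivity)
      _ = 4 * Cn * 2 ^ j * ∑ l ∈ range M, ∑ m ∈ range (l + 1), ∑ i, ∑ i',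
          ‖cc S a m l i i' t k‖ := by
          rw [pow_succ]
          ring
  -- the norm in `ℓ²`
  have h1 : ∑ k ∈ Ss S j, ∑ i, ‖N t k i‖ ^ 2 ≤ ∑ k ∈ Ss S j, (8 * Cn * 2 ^ j *
      ∑ l ∈ range M, ∑ m ∈ range (l + 1), ∑ i, ∑ i', ‖cc S a m l i i' t k‖) ^ 2 := by
    refine Finset.sum_le_sum fun k hk => ?_
    have h2 : ∀ i, ‖N t k i‖ ^ 2 ≤ (4 * Cn * 2 ^ j *
      ∑ l ∈ range M, ∑ m ∈ range (l + 1), ∑ i, ∑ i', ‖cc S a m l i i' t k‖) ^ 2 :=
      fun i => pow_le_pow_left₀ (norm_nonneg _) (hpt k hk i) 2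
    rw [Fin.sum_univ_three]
    have h3 := h2 0
    have h4 := h2 1
    have h5 := h2 2
    nlinarith [h3, h4, h5, sq_nonneg (4 * Cn * 2 ^ j *
      ∑ l ∈ range M, ∑ m ∈ range (l + 1), ∑ i, ∑ i', ‖cc S a m l i i' t k‖)]
  refine (Real.sqrt_le_sqrt h1).trans ?_
  rw [l2_smul (Ss S j) (8 * Cn * 2 ^ j) (by positivity)]
  refine (mul_le_mul_of_nonneg_left (l2_four (Ss S j) M
    (fun m l i i' k => ‖cc S a m l i i' t k‖)) (by positivity)).trans (le_of_eq ?_)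
  unfold nn qs
  rw [Finset.mul_sum, Finset.mul_sum]
  refine Finset.sum_congr rfl fun l _ => ?_
  rw [Finset.mul_sum, Finset.mul_sum]
  refine Finset.sum_congr rfl fun m _ => ?_
  ring

end Pool.Agent.H259.ND
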