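import Pool.Agent.H259.ND.Stmt2

/-!
# C3c: the rate of one shell
-/

open MeasureTheory Set Finset

namespace Pool.Agent.H259.ND

namespace C3cL

/-- the triangle inequality for the square root of a sum of squares -/
theorem mink {ι : Type} (P : Finset ι) (f g h : ι → ℝ) (hf : ∀ x ∈ P, 0 ≤ f x)
    (hg : ∀ x ∈ P, 0 ≤ g x) (hh : ∀ x ∈ P, 0 ≤ h x) (hle : ∀ x ∈ P, h x ≤ f x + g x) :
    √(∑ x ∈ P, h x ^ 2) ≤ √(∑ x ∈ P, f x ^ 2) + √(∑ x ∈ P, g x ^ 2) := by
  have hF : 0 ≤ ∑ x ∈ P, f x ^ 2 := Finset.sum_nonneg fun x _ => sq_nonneg _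
  have hG : 0 ≤ ∑ x ∈ P, g x ^ 2 := Finset.sum_nonneg fun x _ => sq_nonneg _
  apply Real.sqrt_le_iff.mpr
  refine ⟨by positivity, ?_⟩
  have h1 : ∑ x ∈ P, h x ^ 2 ≤ ∑ x ∈ P, (f x + g x) ^ 2 := by
    apply Finset.sum_le_sum
    intro x hx
    exact pow_le_pow_left₀ (hh x hx) (hle x hx) 2
  have h2 : ∑ x ∈ P, (f x + g x) ^ 2 = ∑ x ∈ P, f x ^ 2 + 2 * ∑ x ∈ P, f x * g x +
      ∑ x ∈ P, g x ^ 2 := by
    rw [Finset.mul_sum, ← Finset.sum_add_distrib, ← Finset.sum_add_distrib]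
    apply Finset.sum_congr rfl
    intro x _
    ring
  have h3 := Real.sum_mul_le_sqrt_mul_sqrt P f g
  have h4 := Real.sq_sqrt hF
  have h5 := Real.sq_sqrt hG
  nlinarith

theorem sq3_nonneg (k : Z3) : 0 ≤ sq3 k := Finset.sum_nonneg fun i _ => sq_nonneg _

theorem mem_Ss {S : Finset Z3} {j : ℕ} {k : Z3} (h : k ∈ Ss S j) : k ∈ S ∧ InSh j k := by
  unfold Ss at h
  simp only [Finset.mem_filter] at h
  exact h

end C3cL

open C3cL in
theorem leaf_C3c (hb : S_C3b) : S_C3c := by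
  intro β γ D ν Cd Cn E S T a N hGS M hM j t
  have hN := hb β γ D ν Cd Cn E S T a N hGS M hM j t
  have key := mink (Ss S j ×ˢ (Finset.univ : Finset (Fin 3)))
    (fun x => 4 * Cd * 4 ^ j * ‖a t x.1 x.2‖) (fun x => ‖N t x.1 x.2‖)
    (fun x => ‖ff D a N t x.1 x.2‖)
    (fun x _ => by have := hGS.Cd0; positivity) (fun x _ => norm_nonneg _)
    (fun x _ => norm_nonneg _) (by
      intro x hx
      rw [Finset.mem_product] at hx
      obtain ⟨h1, h2⟩ := mem_Ss hx.1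
      unfold ff
      refine (norm_sub_le _ _).trans ?_
      apply add_le_add _ le_rfl
      rw [norm_mul, norm_neg, Complex.norm_real, Real.norm_eq_abs]
      apply mul_le_mul_of_nonneg_right _ (norm_nonneg _)
      have h3 : (0 : ℝ) ≤ (sq3 x.1 : ℝ) := by exact_mod_cast sq3_nonneg x.1
      have h4 : 0 ≤ (D x.1).re := le_trans (mul_nonneg hGS.νpos.le h3) (hGS.lo x.1)
      rw [abs_of_nonneg h4]
      refine (hGS.hi x.1).trans ?_
      have h5 : (sq3 x.1 : ℝ) ≤ 4 ^ (j + 1) := by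
        have := h2.2.le
        exact_mod_cast this
      have h6 := mul_le_mul_of_nonneg_left h5 hGS.Cd0
      rw [pow_succ] at h6
      linarith)
  rw [Finset.sum_product, Finset.sum_product, Finset.sum_product] at key
  have e1 : √(∑ x ∈ Ss S j, ∑ y : Fin 3, (4 * Cd * 4 ^ j * ‖a t x y‖) ^ 2) =
      4 * Cd * 4 ^ j * Xs S a j t := by
    unfold Xs
    have h1 : ∑ x ∈ Ss S j, ∑ y : Fin 3, (4 * Cd * 4 ^ j * ‖a t x y‖) ^ 2 =
        (4 * Cd * 4 ^ j) ^ 2 * ∑ k ∈ Ss S j, ∑ i, ‖a t k i‖ ^ 2 := by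
      rw [Finset.mul_sum]
      apply Finset.sum_congr rfl
      intro x _
      rw [Finset.mul_sum]
      apply Finset.sum_congr rfl
      intro y _
      rw [mul_pow]
    rw [h1, Real.sqrt_mul (sq_nonneg _), Real.sqrt_sq (by have := hGS.Cd0; positivity)]
  simp only at key
  rw [e1] at key
  unfold gs
  refine key.trans ?_
  linarith

end Pool.Agent.H259.ND
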