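import Pool.Agent.H259.ND.Stmt2

/-!
# C3d: the rate of change of the size of a shell
-/

open MeasureTheory Set Finset

namespace Pool.Agent.H259.ND

namespace C3dL

theorem cs2 (P : Finset Z3) (u v : Z3 → Fin 3 → ℝ) :
    ∑ k ∈ P, ∑ i, u k i * v k i ≤ √(∑ k ∈ P, ∑ i, u k i ^ 2) * √(∑ k ∈ P, ∑ i, v k i ^ 2) := by
  have h := Real.sum_mul_le_sqrt_mul_sqrt (P ×ˢ (Finset.univ : Finset (Fin 3)))
    (fun x => u x.1 x.2) (fun x => v x.1 x.2)
  rwa [Finset.sum_product, Finset.sum_product, Finset.sum_product] at h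

theorem re_drop (d a n : ℂ) :
    (starRingEnd ℂ a * (-d * a - n)).re = (starRingEnd ℂ a * (-((d.re : ℂ)) * a - n)).re := by
  simp only [Complex.mul_re, Complex.mul_im, Complex.sub_re, Complex.sub_im, Complex.neg_re,
    Complex.neg_im, Complex.conj_re, Complex.conj_im, Complex.ofReal_re, Complex.ofReal_im]
  ring

theorem abs_re_le (a f : ℂ) : |(starRingEnd ℂ a * f).re| ≤ ‖a‖ * ‖f‖ := by
  have h := Complex.abs_re_le_norm (starRingEnd ℂ a * f)
  rwa [norm_mul, Complex.norm_conj] at h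

theorem der_sq {A : ℝ → ℂ} {A' : ℂ} {U : Set ℝ} {t : ℝ} (h : HasDerivWithinAt A A' U t) :
    HasDerivWithinAt (fun t => ‖A t‖ ^ 2) (2 * (starRingEnd ℂ (A t) * A').re) U t := by
  have h1 := h.norm_sq
  rw [Complex.inner, mul_comm A'] at h1
  exact h1

end C3dL

open C3dL

theorem leaf_C3d (h2 : S_C2) (ha : S_C3a) : S_C3d := by
  intro β γ D ν Cd Cn E S T a N G j s t hs hst htT
  obtain ⟨_, hg, _, _, _⟩ := ha β γ D ν Cd Cn E S T a N G
  have hsub : Icc s t ⊆ Icc (0 : ℝ) T := Set.Icc_subset_Icc hs htT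
  have hSs : ∀ k ∈ Ss S j, k ∈ S := by
    intro k hk
    simp only [Ss, Finset.mem_filter] at hk
    exact hk.1
  refine h2 (fun r => ∑ k ∈ Ss S j, ∑ i, ‖a r k i‖ ^ 2)
    (fun r => ∑ k ∈ Ss S j, ∑ i, 2 * (starRingEnd ℂ (a r k i) * ff D a N r k i).re)
    (gs D S a N j) s t hst ?_ ?_ ?_ ?_ ?_ ?_
  · intro r _
    exact Finset.sum_nonneg fun k _ => Finset.sum_nonneg fun i _ => sq_nonneg _
  · intro r hr
    refine HasDerivWithinAt.fun_sum fun k hk => HasDerivWithinAt.fun_sum fun i _ => ?_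
    have h1 := der_sq ((G.der r (hsub hr) k (hSs k hk) i).mono hsub)
    rw [re_drop] at h1
    exact h1
  · refine Continuous.continuousOn ?_
    refine continuous_finsetSum _ fun k _ => continuous_finsetSum _ fun i _ => ?_
    have h1 := G.ca k i
    have h2 := G.cN k i
    unfold ff
    refine continuous_const.mul (Complex.continuous_re.comp ?_)
    exact (Complex.continuous_conj.comp h1).mul ((continuous_const.mul h1).sub h2)
  · exact (hg j).continuousOn
  · intro r _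
    exact Real.sqrt_nonneg _
  · intro r _
    have h1 : |∑ k ∈ Ss S j, ∑ i, 2 * (starRingEnd ℂ (a r k i) * ff D a N r k i).re|
        ≤ ∑ k ∈ Ss S j, ∑ i, 2 * (‖a r k i‖ * ‖ff D a N r k i‖) := by
      refine (Finset.abs_sum_le_sum_abs _ _).trans (Finset.sum_le_sum fun k _ => ?_)
      refine (Finset.abs_sum_le_sum_abs _ _).trans (Finset.sum_le_sum fun i _ => ?_)
      rw [abs_mul, abs_of_pos (by norm_num : (0 : ℝ) < 2)]
      exact mul_le_mul_of_nonneg_left (abs_re_le _ _) (by norm_num)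
    refine h1.trans ?_
    have h3 : ∑ k ∈ Ss S j, ∑ i, 2 * (‖a r k i‖ * ‖ff D a N r k i‖)
        = 2 * ∑ k ∈ Ss S j, ∑ i, ‖a r k i‖ * ‖ff D a N r k i‖ := by
      rw [Finset.mul_sum]
      refine Finset.sum_congr rfl fun k _ => ?_
      rw [Finset.mul_sum]
    rw [h3]
    refine mul_le_mul_of_nonneg_left ?_ (by norm_num)
    exact cs2 _ _ _

end Pool.Agent.H259.ND
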