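import Pool.Agent.H259.ND.Stmt2

/-!
# ND-C3f: the bilinear estimate for the system
-/

set_option autoImplicit false

open MeasureTheory Set Finset

namespace Pool.Agent.H259.ND

namespace C3fL

theorem mem_Ss {S : Finset Z3} {j : ℕ} {k : Z3} : k ∈ Ss S j ↔ k ∈ S ∧ InSh j k := by
  classical
  unfold Ss
  exact Finset.mem_filter

open Classical in
theorem cc_eq (S : Finset Z3) (a : ℝ → Z3 → Fin 3 → ℂ) (m l : ℕ) (i i' : Fin 3) (t : ℝ)
    (k : Z3) : cc S a m l i i' t k =
      ∑ p ∈ Ss S m, a t p i * (if k - p ∈ Ss S l then a t (k - p) i' else 0) := by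
  unfold cc
  apply Finset.sum_congr rfl
  intro p _
  by_cases h : k - p ∈ Ss S l
  · simp only [if_pos h]
  · simp only [if_neg h]

theorem cont_cc {S : Finset Z3} {a : ℝ → Z3 → Fin 3 → ℂ} (ca : ∀ k i, Continuous fun t => a t k i)
    (m l : ℕ) (i i' : Fin 3) (k : Z3) : Continuous fun t => cc S a m l i i' t k := by
  have e : (fun t => cc S a m l i i' t k) = fun t => cc S a m l i i' t k := rfl
  classical
  simp only [cc_eq]
  refine continuous_finsetSum _ fun p _ => (ca p i).mul ?_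
  by_cases h : k - p ∈ Ss S l
  · simp only [if_pos h]
    exact ca _ _
  · simp only [if_neg h]
    exact continuous_const

theorem sq_sum9 (v : Fin 3 → Fin 3 → ℝ) : (∑ i, ∑ i', v i i') ^ 2 ≤ 9 * ∑ i, ∑ i', v i i' ^ 2 := by
  have h := sq_sum_le_card_mul_sum_sq (s := (Finset.univ : Finset (Fin 3 × Fin 3)))
    (f := fun z => v z.1 z.2)
  rw [Finset.card_univ, Fintype.card_prod, Fintype.card_fin, Fintype.sum_prod_type,
    Fintype.sum_prod_type] at h
  norm_num at h
  exact h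

theorem nrm_le (P : Finset Z3) (w : Z3 → Fin 3 → ℂ) (i : Fin 3) :
    nrm P (fun p => w p i) ≤ √(∑ k ∈ P, ∑ i, ‖w k i‖ ^ 2) := by
  unfold nrm
  apply Real.sqrt_le_sqrt
  apply Finset.sum_le_sum
  intro p _
  exact Finset.single_le_sum (f := fun i => ‖w p i‖ ^ 2) (fun i _ => sq_nonneg _)
    (Finset.mem_univ i)

theorem cont_nrm (P : Finset Z3) (w : ℝ → Z3 → ℂ) (hw : ∀ p, Continuous fun t => w t p) :
    Continuous fun t => nrm P (w t) := by
  unfold nrm
  exact Real.continuous_sqrt.comp (continuous_finsetSum _ fun p _ => ((hw p).norm.pow 2))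

end C3fL

open C3fL in
theorem leaf_C3f (hTB : S_TB) (h10 : S_A10) (ha : S_C3a) : S_C3f := by
  intro β hβ Cn hCn
  obtain ⟨C, c, hC, hc, hB⟩ := hTB β hβ
  refine ⟨max 1 (72 * Cn * √C), c, le_max_left _ _, hc, ?_⟩
  intro γ D ν Cd E S T a N hG j m l s t hml hs hst htT hτ
  obtain ⟨cX, cg, cq, -, -⟩ := ha β γ D ν Cd Cn E S T a N hG
  have h4 : (0 : ℝ) ≤ 4 ^ m / 4 ^ l := by positivity
  rcases hst.eq_or_lt with h | hlt
  · subst h
    rw [intervalIntegral.integral_same]
    positivity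
  have hτ0 : 0 < t - s := sub_pos.2 hlt
  have hst' : s + (t - s) = t := by ring
  have hK : 0 ≤ C * 4 ^ m / 4 ^ l := by positivity
  have hBil := hB γ j m l hml (Ss S j) (Ss S m) (Ss S l) (fun k hk => (mem_Ss.1 hk).2)
    (fun k hk => (mem_Ss.1 hk).2) (fun k hk => (mem_Ss.1 hk).2) (t - s) hτ0 hτ
  have hAm : ∀ j, 0 ≤ Aw (Xs S a j) (gs D S a N j) s t := fun j =>
    add_nonneg (Real.sqrt_nonneg _)
      (intervalIntegral.integral_nonneg hst fun x _ => Real.sqrt_nonneg _)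
  -- the derivative
  have hder : ∀ k ∈ S, ∀ i, ∀ r ∈ Icc s (s + (t - s)), HasDerivWithinAt (fun t => a t k i)
      (-Complex.I * ph3 β γ k * a r k i + ff D a N r k i) (Icc s (s + (t - s))) r := by
    intro k hk i r hr
    rw [hst'] at hr ⊢
    have hsub : Icc s t ⊆ Icc 0 T := Icc_subset_Icc hs htT
    have h1 := (hG.der r (hsub hr) k hk i).mono hsub
    have h2 : -Complex.I * ph3 β γ k * a r k i + ff D a N r k i = -D k * a r k i - N r k i := by
      unfold ff
      have h3 : D k = ((D k).re : ℂ) + ((ph3 β γ k : ℝ) : ℂ) * Complex.I := by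
        rw [← hG.im k, Complex.re_add_im]
      have h5 : -D k * a r k i = -(((D k).re : ℂ) + ((ph3 β γ k : ℝ) : ℂ) * Complex.I) * a r k i := by
        rw [← h3]
      rw [h5]
      ring
    rw [h2]
    exact h1
  have cff : ∀ k i, Continuous fun t => ff D a N t k i := by
    intro k i
    unfold ff
    exact (continuous_const.mul (hG.ca k i)).sub (hG.cN k i)
  -- one pair of components
  have hpair : ∀ i i' : Fin 3, ∫ r in s..t, ∑ k ∈ Ss S j, ‖cc S a m l i i' r k‖ ^ 2 ≤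
      C * 4 ^ m / 4 ^ l * (Aw (Xs S a m) (gs D S a N m) s t *
        Aw (Xs S a l) (gs D S a N l) s t) ^ 2 := by
    intro i i'
    classical
    have h := h10 (ph3 β γ) (Ss S j) (Ss S m) (Ss S l) (t - s) _ hτ0.le hK hBil s
      (fun r p => a r p i) (fun r q => if q ∈ Ss S l then a r q i' else 0)
      (fun r p => ff D a N r p i) (fun r p => ff D a N r p i')
      (fun p hp r hr => hder p (mem_Ss.1 hp).1 i r hr)
      (by
        intro p hp r hr
        simp only [if_pos hp]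
        exact hder p (mem_Ss.1 hp).1 i' r hr)
      (fun p _ => (cff p i).continuousOn) (fun p _ => (cff p i').continuousOn)
      (fun q hq r => if_neg hq)
    rw [hst'] at h
    have e1 : ∫ r in s..t, ∑ k ∈ Ss S j, ‖cc S a m l i i' r k‖ ^ 2 =
        ∫ r in s..t, ∑ k ∈ Ss S j, ‖∑ p ∈ Ss S m, (fun r p => a r p i) r p *
          (fun r q => if q ∈ Ss S l then a r q i' else 0) r (k - p)‖ ^ 2 := by
      simp only [cc_eq]
    rw [e1]
    refine h.trans (mul_le_mul_of_nonneg_left ?_ hK)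
    have n1 : nrm (Ss S m) (fun p => a s p i) ≤ Xs S a m s := nrm_le _ (a s) i
    have n2 : nrm (Ss S l) (fun q => if q ∈ Ss S l then a s q i' else 0) ≤ Xs S a l s := by
      have e2 : nrm (Ss S l) (fun q => if q ∈ Ss S l then a s q i' else 0) =
          nrm (Ss S l) (fun q => a s q i') := by
        unfold nrm
        congr 1
        apply Finset.sum_congr rfl
        intro q hq
        simp only [if_pos hq]
      rw [e2]
      exact nrm_le _ (a s) i'
    have n3 : ∀ (j : ℕ) (i : Fin 3), ∫ r in s..t, nrm (Ss S j) (fun p => ff D a N r p i) ≤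
        ∫ r in s..t, gs D S a N j r := by
      intro j i
      refine intervalIntegral.integral_mono_on hst ?_ ?_ ?_
      · exact (cont_nrm _ (fun r p => ff D a N r p i) fun p => cff p i).intervalIntegrable _ _
      · exact (cg j).intervalIntegrable _ _
      · intro r _
        exact nrm_le (Ss S j) (ff D a N r) i
    have n0 : ∀ (P : Finset Z3) (u : Z3 → ℂ), 0 ≤ nrm P u := fun P u => Real.sqrt_nonneg _
    have n5 : ∀ (P : Finset Z3) (u : ℝ → Z3 → ℂ), 0 ≤ ∫ r in s..t, nrm P (u r) := fun P u =>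
      intervalIntegral.integral_nonneg hst fun x _ => n0 _ _
    refine pow_le_pow_left₀ (mul_nonneg (add_nonneg (n0 _ _) (n5 _ _))
      (add_nonneg (n0 _ _) (n5 _ _))) ?_ 2
    exact mul_le_mul (add_le_add n1 (n3 m i)) (add_le_add n2 (n3 l i'))
      (add_nonneg (n0 _ _) (n5 _ _)) (hAm m)
  -- the sum
  have hq : ∀ r, qs Cn S a j m l r ^ 2 ≤
      576 * Cn ^ 2 * ∑ i, ∑ i', ∑ k ∈ Ss S j, ‖cc S a m l i i' r k‖ ^ 2 := by
    intro r
    unfold qs
    rw [mul_pow, mul_pow]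
    have h1 := sq_sum9 fun i i' => √(∑ k ∈ Ss S j, ‖cc S a m l i i' r k‖ ^ 2)
    have h2 : ∀ i i' : Fin 3, √(∑ k ∈ Ss S j, ‖cc S a m l i i' r k‖ ^ 2) ^ 2 =
        ∑ k ∈ Ss S j, ‖cc S a m l i i' r k‖ ^ 2 := fun i i' =>
      Real.sq_sqrt (Finset.sum_nonneg fun k _ => sq_nonneg _)
    simp only [h2] at h1
    calc _ ≤ 8 ^ 2 * Cn ^ 2 * (9 * ∑ i, ∑ i', ∑ k ∈ Ss S j, ‖cc S a m l i i' r k‖ ^ 2) :=
          mul_le_mul_of_nonneg_left h1 (by positivity)
      _ = _ := by ring
  have cS : ∀ i i' : Fin 3, Continuous fun r => ∑ k ∈ Ss S j, ‖cc S a m l i i' r k‖ ^ 2 :=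
    fun i i' => continuous_finsetSum _ fun k _ => ((cont_cc hG.ca m l i i' k).norm.pow 2)
  have hint : ∫ r in s..t, qs Cn S a j m l r ^ 2 ≤
      576 * Cn ^ 2 * ∑ i, ∑ i', ∫ r in s..t, ∑ k ∈ Ss S j, ‖cc S a m l i i' r k‖ ^ 2 := by
    have e3 : 576 * Cn ^ 2 * ∑ i, ∑ i', ∫ r in s..t, ∑ k ∈ Ss S j, ‖cc S a m l i i' r k‖ ^ 2 =
        ∫ r in s..t, 576 * Cn ^ 2 * ∑ i, ∑ i', ∑ k ∈ Ss S j, ‖cc S a m l i i' r k‖ ^ 2 := by
      rw [intervalIntegral.integral_const_mul, intervalIntegral.integral_finset_sum]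
      · congr 1
        apply Finset.sum_congr rfl
        intro i _
        rw [intervalIntegral.integral_finset_sum]
        intro i' _
        exact (cS i i').intervalIntegrable _ _
      · intro i _
        exact (continuous_finsetSum _ fun i' _ => cS i i').intervalIntegrable _ _
    rw [e3]
    refine intervalIntegral.integral_mono_on hst ?_ ?_ fun r _ => hq r
    · exact ((cq j m l).pow 2).intervalIntegrable _ _
    · exact (continuous_const.mul (continuous_finsetSum _ fun i _ =>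
        continuous_finsetSum _ fun i' _ => cS i i')).intervalIntegrable _ _
  refine hint.trans ?_
  set Z := (Aw (Xs S a m) (gs D S a N m) s t * Aw (Xs S a l) (gs D S a N l) s t) ^ 2 with hZ
  have hZ0 : 0 ≤ Z := sq_nonneg _
  have h9 : ∑ i : Fin 3, ∑ i' : Fin 3, ∫ r in s..t, ∑ k ∈ Ss S j, ‖cc S a m l i i' r k‖ ^ 2 ≤
      9 * (C * 4 ^ m / 4 ^ l * Z) := by
    calc _ ≤ ∑ i : Fin 3, ∑ i' : Fin 3, (C * 4 ^ m / 4 ^ l * Z) :=
          Finset.sum_le_sum fun i _ => Finset.sum_le_sum fun i' _ => hpair i i'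
      _ = _ := by
        simp only [Finset.sum_const, Finset.card_univ, Fintype.card_fin, nsmul_eq_mul]
        push_cast
        ring
  have hC1 : 5184 * Cn ^ 2 * C ≤ (max 1 (72 * Cn * √C)) ^ 2 := by
    have h1 : (72 * Cn * √C) ^ 2 = 5184 * Cn ^ 2 * C := by
      rw [mul_pow, mul_pow, Real.sq_sqrt hC.le]
      ring
    rw [← h1]
    exact pow_le_pow_left₀ (by positivity) (le_max_right _ _) 2
  calc 576 * Cn ^ 2 * ∑ i : Fin 3, ∑ i' : Fin 3,
        ∫ r in s..t, ∑ k ∈ Ss S j, ‖cc S a m l i i' r k‖ ^ 2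
      ≤ 576 * Cn ^ 2 * (9 * (C * 4 ^ m / 4 ^ l * Z)) :=
        mul_le_mul_of_nonneg_left h9 (by positivity)
    _ = (5184 * Cn ^ 2 * C) * ((4 ^ m / 4 ^ l) * Z) := by ring
    _ ≤ (max 1 (72 * Cn * √C)) ^ 2 * ((4 ^ m / 4 ^ l) * Z) :=
        mul_le_mul_of_nonneg_right hC1 (by positivity)
    _ = _ := by ring

end Pool.Agent.H259.ND
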