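import Pool.Agent.H259.ND.Stmt2

open MeasureTheory Set Finset

namespace Pool.Agent.H259.ND

namespace C4L

theorem sq3_nonneg (k : Z3) : 0 ≤ sq3 k := by
  unfold sq3
  exact Finset.sum_nonneg fun i _ => sq_nonneg _

theorem sq3_pos {k : Z3} (hk : k ≠ 0) : 0 < sq3 k := by
  rcases (sq3_nonneg k).lt_or_eq with h | h
  · exact h
  · exfalso
    apply hk
    funext i
    unfold sq3 at h
    have h1 := (Finset.sum_eq_zero_iff_of_nonneg (fun i _ => sq_nonneg (k i))).1 h.symm i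
      (Finset.mem_univ i)
    exact (pow_eq_zero_iff two_ne_zero).1 h1

/-- the number of the shell -/
noncomputable def sh (k : Z3) : ℕ := Nat.log 4 (sq3 k).toNat

theorem inSh_iff {k : Z3} (hk : k ≠ 0) (j : ℕ) : InSh j k ↔ j = sh k := by
  have hpos := sq3_pos hk
  obtain ⟨n, hn⟩ := Int.eq_ofNat_of_zero_le hpos.le
  have hn0 : n ≠ 0 := by omega
  unfold InSh sh
  rw [hn]
  have e1 : ((n : ℤ)).toNat = n := Int.toNat_natCast n
  rw [e1]
  constructor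
  · rintro ⟨h1, h2⟩
    have h1' : 4 ^ j ≤ n := by exact_mod_cast h1
    have h2' : n < 4 ^ (j + 1) := by exact_mod_cast h2
    exact (Nat.log_eq_of_pow_le_of_lt_pow h1' h2').symm
  · rintro rfl
    refine ⟨?_, ?_⟩
    · exact_mod_cast Nat.pow_log_le_self 4 hn0
    · exact_mod_cast Nat.lt_pow_succ_log_self (by norm_num) n

theorem sh_bounds {k : Z3} (hk : k ≠ 0) :
    (4 : ℝ) ^ sh k ≤ (sq3 k : ℝ) ∧ (sq3 k : ℝ) ≤ 4 * 4 ^ sh k := by
  obtain ⟨h1, h2⟩ := (inSh_iff hk (sh k)).2 rfl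
  constructor
  · exact_mod_cast h1
  · have h3 : ((sq3 k : ℤ) : ℝ) < ((4 : ℤ) ^ (sh k + 1) : ℤ) := by exact_mod_cast h2
    push_cast at h3
    rw [pow_succ] at h3
    linarith

theorem mem_Ss {S : Finset Z3} {j : ℕ} {k : Z3} : k ∈ Ss S j ↔ k ∈ S ∧ InSh j k := by
  unfold Ss
  simp only [Finset.mem_filter]

theorem sum_shells {S : Finset Z3} (h0 : (0 : Z3) ∉ S) {M : ℕ} (hM : Below S M)
    (g : ℕ → Z3 → ℝ) :
    ∑ j ∈ range M, ∑ k ∈ Ss S j, g j k = ∑ k ∈ S, g (sh k) k := by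
  classical
  have h1 : ∀ j, Ss S j = S.filter (fun k => j = sh k) := by
    intro j
    ext k
    rw [mem_Ss, Finset.mem_filter]
    constructor
    · rintro ⟨hk, h⟩
      exact ⟨hk, (inSh_iff (ne_of_mem_of_not_mem hk h0) j).1 h⟩
    · rintro ⟨hk, h⟩
      exact ⟨hk, (inSh_iff (ne_of_mem_of_not_mem hk h0) j).2 h⟩
  have h2 : ∀ j ∈ range M, ∑ k ∈ Ss S j, g j k =
      ∑ k ∈ S, if j = sh k then g j k else 0 := by
    intro j _
    rw [h1, Finset.sum_filter]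
  rw [Finset.sum_congr rfl h2, Finset.sum_comm]
  apply Finset.sum_congr rfl
  intro k hk
  have h3 : sh k < M := hM k hk _ ((inSh_iff (ne_of_mem_of_not_mem hk h0) _).2 rfl)
  rw [Finset.sum_ite_eq' (range M) (sh k) (fun j => g j k), if_pos (Finset.mem_range.2 h3)]

theorem exists_below (S : Finset Z3) : ∃ M, Below S M := by
  refine ⟨S.sup (fun k => (sq3 k).toNat) + 1, fun k hk j hj => ?_⟩
  have h1 : (sq3 k).toNat ≤ S.sup (fun k => (sq3 k).toNat) :=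
    Finset.le_sup (f := fun k => (sq3 k).toNat) hk
  have h2 : (4 : ℤ) ^ j ≤ sq3 k := hj.1
  have h3 : 4 ^ j ≤ (sq3 k).toNat := by
    have h5 : ((4 ^ j : ℕ) : ℤ) ≤ sq3 k := by exact_mod_cast h2
    omega
  have h4 : j < 4 ^ j := Nat.lt_pow_self (by norm_num)
  omega

/-- the density of the dissipation -/
noncomputable def FF (S : Finset Z3) (a : ℝ → Z3 → Fin 3 → ℂ) (x : ℝ) : ℝ :=
  ∑ k ∈ S, (sq3 k : ℝ) * ∑ i, ‖a x k i‖ ^ 2

theorem FF_nonneg (S : Finset Z3) (a : ℝ → Z3 → Fin 3 → ℂ) (x : ℝ) : 0 ≤ FF S a x := by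
  unfold FF
  apply Finset.sum_nonneg
  intro k _
  apply mul_nonneg
  · exact_mod_cast sq3_nonneg k
  · exact Finset.sum_nonneg fun i _ => by positivity

theorem FF_cont {S : Finset Z3} {a : ℝ → Z3 → Fin 3 → ℂ}
    (ca : ∀ k i, Continuous fun t => a t k i) : Continuous (FF S a) := by
  unfold FF
  apply continuous_finsetSum
  intro k _
  apply Continuous.mul continuous_const
  apply continuous_finsetSum
  intro i _
  exact ((ca k i).norm).pow 2

section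
variable {β γ : Fin 3 → ℝ} {D : Z3 → ℂ} {ν Cd Cn E : ℝ} {S : Finset Z3} {T : ℝ}
    {a N : ℝ → Z3 → Fin 3 → ℂ}

theorem int_nonneg (_G : GS β γ D ν Cd Cn E S T a N) {s t : ℝ} (h : s ≤ t) :
    0 ≤ ∫ r in s..t, FF S a r :=
  intervalIntegral.integral_nonneg h fun x _ => FF_nonneg S a x

theorem en1 (G : GS β γ D ν Cd Cn E S T a N) {t : ℝ} (ht : t ∈ Icc 0 T) :
    ∑ k ∈ S, ∑ i, ‖a t k i‖ ^ 2 ≤ E := by
  have h1 := G.en t ht
  have h2 := int_nonneg G ht.1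
  have h3 := G.νpos
  have h4 : 0 ≤ 2 * ν * ∫ r in (0 : ℝ)..t, FF S a r := by positivity
  unfold FF at h4
  linarith

theorem en2 (G : GS β γ D ν Cd Cn E S T a N) {t : ℝ} (ht : t ∈ Icc 0 T) :
    2 * ν * (∫ r in (0 : ℝ)..t, FF S a r) ≤ E := by
  have h1 := G.en t ht
  have h2 : 0 ≤ ∑ k ∈ S, ∑ i, ‖a t k i‖ ^ 2 :=
    Finset.sum_nonneg fun k _ => Finset.sum_nonneg fun i _ => by positivity
  unfold FF
  linarith

theorem shift (G : GS β γ D ν Cd Cn E S T a N) {r L : ℝ} (hr : 0 ≤ r) (hL : 0 ≤ L)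
    (hrL : r + L ≤ T) :
    GS β γ D ν Cd Cn (2 * E) S L (fun t => a (r + t)) (fun t => N (r + t)) where
  zero := G.zero
  Tnn := hL
  νpos := G.νpos
  Cd0 := G.Cd0
  Cn0 := G.Cn0
  E0 := by linarith [G.E0]
  supp := fun t k hk i => G.supp (r + t) k hk i
  ca := fun k i => (G.ca k i).comp (continuous_const.add continuous_id)
  cN := fun k i => (G.cN k i).comp (continuous_const.add continuous_id)
  der := by
    intro t ht k hk i
    have ht' : r + t ∈ Icc 0 T := ⟨by linarith [ht.1], by linarith [ht.2]⟩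
    have h1 := G.der (r + t) ht' k hk i
    have h2 : HasDerivWithinAt (fun x : ℝ => r + x) 1 (Icc 0 L) t :=
      (hasDerivWithinAt_id t (Icc 0 L)).const_add r
    have hmaps : MapsTo (fun x : ℝ => r + x) (Icc 0 L) (Icc 0 T) := by
      intro x hx
      exact ⟨by linarith [hx.1], by linarith [hx.2]⟩
    have h3 := HasDerivWithinAt.scomp t h1 h2 hmaps
    rw [one_smul] at h3
    exact h3
  im := G.im
  lo := G.lo
  hi := G.hi
  nb := fun t k hk i => G.nb (r + t) k hk i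
  en := by
    intro t ht
    have ht' : r + t ∈ Icc 0 T := ⟨by linarith [ht.1], by linarith [ht.2]⟩
    have h1 := en1 G ht'
    have h2 := en2 G ht'
    have h3 : (∫ x in (0 : ℝ)..t, ∑ k ∈ S, (sq3 k : ℝ) * ∑ i, ‖a (r + x) k i‖ ^ 2) =
        ∫ x in (r + 0)..(r + t), FF S a x :=
      intervalIntegral.integral_comp_add_left (FF S a) r
    have hF := FF_cont (S := S) G.ca
    have h4 : (∫ x in (0 : ℝ)..(r + 0), FF S a x) + (∫ x in (r + 0)..(r + t), FF S a x) =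
        ∫ x in (0 : ℝ)..(r + t), FF S a x :=
      intervalIntegral.integral_add_adjacent_intervals (hF.intervalIntegrable _ _)
        (hF.intervalIntegrable _ _)
    have h5 : 0 ≤ ∫ x in (0 : ℝ)..(r + 0), FF S a x := int_nonneg G (by linarith)
    have h6 := G.νpos
    have h7 : 2 * ν * (∫ x in (r + 0)..(r + t), FF S a x) ≤
        2 * ν * (∫ x in (0 : ℝ)..(r + t), FF S a x) :=
      mul_le_mul_of_nonneg_left (by linarith) (by positivity)
    change (∑ k ∈ S, ∑ i, ‖a (r + t) k i‖ ^ 2)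
      + 2 * ν * (∫ x in (0 : ℝ)..t, ∑ k ∈ S, (sq3 k : ℝ) * ∑ i, ‖a (r + x) k i‖ ^ 2) ≤ 2 * E
    rw [h3]
    linarith

end

end C4L

open C4L in
theorem leaf_C4 (h1 : S_C1) (h8 : S_B8) (ha : S_C3a) (h3 : S_C3) : S_C4 := by
  intro β hβ Cn Cd ν E s hCn hCd hν hE hs
  obtain ⟨C₀, c₁, hC₀, hc₁, hS⟩ := h3 β hβ Cn Cd hCn hCd
  obtain ⟨τ, c₀, hτ, hc₀, hB⟩ := h8 C₀ ν c₁ (2 * E) s hC₀ hν hc₁ (by linarith) hs
  refine ⟨⌈1 / τ⌉₊ + ⌈E / (2 * ν * c₀)⌉₊ + 1 + s, ?_⟩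
  intro γ D S T a N G t₀ ht₀
  obtain ⟨M, hM⟩ := exists_below S
  obtain ⟨cX, -, -, Xsq, -⟩ := ha β γ D ν Cd Cn E S T a N G
  -- the two functionals
  set Φ : ℝ → ℝ := fun t => ∑ j ∈ range M, 4 ^ (s * j) * Xs S a j t ^ 2 with hΦ
  set I : ℝ → ℝ := fun t => ∑ j ∈ range M, 4 ^ j * ∫ x in (0 : ℝ)..t, Xs S a j x ^ 2 with hI
  set μ : ℝ → ℝ := fun t => t / τ + I t / c₀ with hμ
  have cX2 : ∀ j, Continuous (fun x => Xs S a j x ^ 2) := fun j => (cX j).pow 2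
  have hne : ∀ k ∈ S, k ≠ 0 := fun k hk => ne_of_mem_of_not_mem hk G.zero
  have hnn : ∀ t k, 0 ≤ ∑ i, ‖a t k i‖ ^ 2 := fun t k =>
    Finset.sum_nonneg fun i _ => by positivity
  have hΦS : ∀ t, Φ t = ∑ k ∈ S, (4 : ℝ) ^ (s * sh k) * ∑ i, ‖a t k i‖ ^ 2 := by
    intro t
    rw [hΦ]
    change ∑ j ∈ range M, 4 ^ (s * j) * Xs S a j t ^ 2 = _
    rw [← sum_shells G.zero hM (fun j k => (4 : ℝ) ^ (s * j) * ∑ i, ‖a t k i‖ ^ 2)]
    apply Finset.sum_congr rfl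
    intro j _
    rw [Xsq, Finset.mul_sum]
  have hDS : ∀ t, ∑ j ∈ range M, 4 ^ j * Xs S a j t ^ 2 ≤ FF S a t := by
    intro t
    have e1 : ∑ j ∈ range M, 4 ^ j * Xs S a j t ^ 2 =
        ∑ k ∈ S, (4 : ℝ) ^ (sh k) * ∑ i, ‖a t k i‖ ^ 2 := by
      rw [← sum_shells G.zero hM (fun j k => (4 : ℝ) ^ j * ∑ i, ‖a t k i‖ ^ 2)]
      apply Finset.sum_congr rfl
      intro j _
      rw [Xsq, Finset.mul_sum]
    rw [e1]
    unfold FF
    apply Finset.sum_le_sum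
    intro k hk
    exact mul_le_mul_of_nonneg_right (sh_bounds (hne k hk)).1 (hnn t k)
  have hIc : Continuous I := by
    rw [hI]
    apply continuous_finsetSum
    intro j _
    apply Continuous.mul continuous_const
    exact intervalIntegral.continuous_primitive (fun x y => (cX2 j).intervalIntegrable x y) 0
  have hμc : Continuous μ := by
    rw [hμ]
    exact (continuous_id.div_const τ).add (hIc.div_const c₀)
  have hμ0 : μ 0 = 0 := by
    simp [hμ, hI]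
  -- increments of `I`
  have hIinc : ∀ r t, I t - I r = ∑ j ∈ range M, 4 ^ j * ∫ x in r..t, Xs S a j x ^ 2 := by
    intro r t
    rw [hI]
    change ∑ j ∈ range M, 4 ^ j * (∫ x in (0 : ℝ)..t, Xs S a j x ^ 2) -
      ∑ j ∈ range M, 4 ^ j * (∫ x in (0 : ℝ)..r, Xs S a j x ^ 2) = _
    rw [← Finset.sum_sub_distrib]
    apply Finset.sum_congr rfl
    intro j _
    rw [← mul_sub, intervalIntegral.integral_interval_sub_left
      ((cX2 j).intervalIntegrable _ _) ((cX2 j).intervalIntegrable _ _)]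
  have hInn : ∀ r t, r ≤ t → 0 ≤ I t - I r := by
    intro r t hrt
    rw [hIinc]
    apply Finset.sum_nonneg
    intro j _
    apply mul_nonneg (by positivity)
    exact intervalIntegral.integral_nonneg hrt fun x _ => by positivity
  have hIle : ∀ t ∈ Icc 0 T, I t ≤ E / (2 * ν) := by
    intro t ht
    have e1 : I t = ∫ x in (0 : ℝ)..t, ∑ j ∈ range M, 4 ^ j * Xs S a j x ^ 2 := by
      rw [intervalIntegral.integral_finsetSum]
      · rw [hI]
        change ∑ j ∈ range M, 4 ^ j * (∫ x in (0 : ℝ)..t, Xs S a j x ^ 2) = _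
        apply Finset.sum_congr rfl
        intro j _
        rw [intervalIntegral.integral_const_mul]
      · intro j _
        exact ((cX2 j).const_mul _).intervalIntegrable _ _
    have e2 : I t ≤ ∫ x in (0 : ℝ)..t, FF S a x := by
      rw [e1]
      apply intervalIntegral.integral_mono_on ht.1
      · apply Continuous.intervalIntegrable
        apply continuous_finsetSum
        intro j _
        exact (cX2 j).const_mul _
      · exact (FF_cont G.ca).intervalIntegrable _ _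
      · intro x _
        exact hDS x
    have e3 := en2 G ht
    rw [le_div_iff₀ (by positivity)]
    nlinarith
  -- the step
  have hstep : ∀ r ∈ Icc 0 T, ∀ t ∈ Icc 0 T, r ≤ t → μ t - μ r ≤ 1 → Φ t ≤ 4 * Φ r := by
    intro r hr t ht hrt hd
    have hL : 0 ≤ t - r := by linarith
    have hd' : (t - r) / τ + (I t - I r) / c₀ ≤ 1 := by
      have : μ t - μ r = (t - r) / τ + (I t - I r) / c₀ := by
        rw [hμ]
        change t / τ + I t / c₀ - (r / τ + I r / c₀) = _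
        ring
      linarith
    have hi1 : 0 ≤ (I t - I r) / c₀ := div_nonneg (hInn r t hrt) hc₀.le
    have hi2 : 0 ≤ (t - r) / τ := div_nonneg hL hτ.le
    have hLτ : t - r ≤ τ := by
      have h5 : (t - r) / τ ≤ 1 := by linarith
      rwa [div_le_one hτ] at h5
    have hIc₀ : I t - I r ≤ c₀ := by
      have h5 : (I t - I r) / c₀ ≤ 1 := by linarith
      rwa [div_le_one hc₀] at h5
    have G' := shift G hr.1 hL (by linarith [ht.2] : r + (t - r) ≤ T)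
    have hSys := hS γ D ν (2 * E) S (t - r) _ _ G' M hM
    have hXX : ∀ j x, Xs S (fun t => a (r + t)) j x = Xs S a j (r + x) := fun j x => rfl
    have hcond : ∑ j ∈ range M, 4 ^ j * ∫ x in (0 : ℝ)..(t - r),
        Xs S (fun t => a (r + t)) j x ^ 2 ≤ c₀ := by
      refine le_trans (le_of_eq ?_) hIc₀
      rw [hIinc]
      apply Finset.sum_congr rfl
      intro j _
      congr 1
      have h5 : (∫ x in (0 : ℝ)..(t - r), Xs S (fun t => a (r + t)) j x ^ 2) =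
          ∫ x in (r + 0)..(r + (t - r)), Xs S a j x ^ 2 :=
        intervalIntegral.integral_comp_add_left (fun x => Xs S a j x ^ 2) r
      rw [h5, add_zero, add_sub_cancel]
    have h6 := hB M (t - r) _ _ _ hSys hL hLτ hcond (t - r) ⟨hL, le_rfl⟩
    simp only [hXX, add_zero, add_sub_cancel] at h6
    exact h6
  have hΦ0 : ∀ t ∈ Icc 0 T, 0 ≤ Φ t := by
    intro t _
    rw [hΦ]
    exact Finset.sum_nonneg fun j _ => by positivity
  set n : ℕ := ⌈1 / τ⌉₊ * ⌈t₀⌉₊ + ⌈E / (2 * ν * c₀)⌉₊ with hn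
  have hμn : μ t₀ ≤ n := by
    have h5 := hIle t₀ ht₀
    have h6 : I t₀ / c₀ ≤ E / (2 * ν * c₀) := by
      rw [← div_div]
      exact div_le_div_of_nonneg_right h5 hc₀.le
    have h7 : E / (2 * ν * c₀) ≤ (⌈E / (2 * ν * c₀)⌉₊ : ℝ) := Nat.le_ceil _
    have h8 : 1 / τ ≤ (⌈1 / τ⌉₊ : ℝ) := Nat.le_ceil _
    have h9 : t₀ ≤ (⌈t₀⌉₊ : ℝ) := Nat.le_ceil _
    have h10 : t₀ / τ ≤ (⌈1 / τ⌉₊ : ℝ) * (⌈t₀⌉₊ : ℝ) := by
      have : t₀ / τ = 1 / τ * t₀ := by ring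
      rw [this]
      exact mul_le_mul h8 h9 ht₀.1 (Nat.cast_nonneg _)
    rw [hn]
    push_cast
    change t₀ / τ + I t₀ / c₀ ≤ _
    linarith
  have hmain := h1 T μ Φ G.Tnn hμc.continuousOn hμ0 hΦ0 hstep n t₀ ht₀ hμn
  -- comparison of the norms
  have hup : ∑ k ∈ S, (sq3 k : ℝ) ^ s * ∑ i, ‖a t₀ k i‖ ^ 2 ≤ 4 ^ s * Φ t₀ := by
    rw [hΦS, Finset.mul_sum]
    apply Finset.sum_le_sum
    intro k hk
    rw [← mul_assoc]
    apply mul_le_mul_of_nonneg_right _ (hnn t₀ k)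
    have h5 := (sh_bounds (hne k hk)).2
    have h6 : (0 : ℝ) ≤ (sq3 k : ℝ) := by exact_mod_cast sq3_nonneg k
    calc (sq3 k : ℝ) ^ s ≤ (4 * 4 ^ sh k) ^ s := pow_le_pow_left₀ h6 h5 s
      _ = 4 ^ s * 4 ^ (s * sh k) := by
        rw [mul_pow, ← pow_mul, mul_comm (sh k) s]
  have hlow : Φ 0 ≤ ∑ k ∈ S, (sq3 k : ℝ) ^ s * ∑ i, ‖a 0 k i‖ ^ 2 := by
    rw [hΦS]
    apply Finset.sum_le_sum
    intro k hk
    apply mul_le_mul_of_nonneg_right _ (hnn 0 k)
    have h5 := (sh_bounds (hne k hk)).1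
    calc (4 : ℝ) ^ (s * sh k) = (4 ^ sh k) ^ s := by rw [← pow_mul, mul_comm]
      _ ≤ (sq3 k : ℝ) ^ s := pow_le_pow_left₀ (by positivity) h5 s
  have hexp : s + (n + 1) ≤ (⌈1 / τ⌉₊ + ⌈E / (2 * ν * c₀)⌉₊ + 1 + s) * (⌈t₀⌉₊ + 1) := by
    rw [hn]
    generalize ⌈1 / τ⌉₊ = A
    generalize ⌈E / (2 * ν * c₀)⌉₊ = B
    generalize ⌈t₀⌉₊ = t
    nlinarith [Nat.zero_le (A + (B + 1 + s) * t)]
  have hnn0 : 0 ≤ ∑ k ∈ S, (sq3 k : ℝ) ^ s * ∑ i, ‖a 0 k i‖ ^ 2 := by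
    apply Finset.sum_nonneg
    intro k _
    apply mul_nonneg _ (hnn 0 k)
    apply pow_nonneg
    exact_mod_cast sq3_nonneg k
  calc ∑ k ∈ S, (sq3 k : ℝ) ^ s * ∑ i, ‖a t₀ k i‖ ^ 2 ≤ 4 ^ s * Φ t₀ := hup
    _ ≤ 4 ^ s * (4 ^ (n + 1) * Φ 0) := mul_le_mul_of_nonneg_left hmain (by positivity)
    _ ≤ 4 ^ s * (4 ^ (n + 1) * ∑ k ∈ S, (sq3 k : ℝ) ^ s * ∑ i, ‖a 0 k i‖ ^ 2) := by
        apply mul_le_mul_of_nonneg_left _ (by positivity)
        exact mul_le_mul_of_nonneg_left hlow (by positivity)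
    _ = 4 ^ (s + (n + 1)) * ∑ k ∈ S, (sq3 k : ℝ) ^ s * ∑ i, ‖a 0 k i‖ ^ 2 := by
        rw [pow_add 4 s (n + 1), mul_assoc]
    _ ≤ _ := by
        apply mul_le_mul_of_nonneg_right _ hnn0
        exact pow_le_pow_right₀ (by norm_num) hexp

end Pool.Agent.H259.ND
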