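import Pool.Agent.H259.ND.Stmt

/-!
# ND-TB: the bilinear estimate, all cases
-/

open MeasureTheory Set Finset

namespace Pool.Agent.H259.ND

namespace TBL

theorem mono {φ : Z3 → ℝ} {𝒦 P R : Finset Z3} {τ K K' : ℝ} (h : BilBd φ 𝒦 P R τ K)
    (hK : K ≤ K') : BilBd φ 𝒦 P R τ K' := by
  intro u v hv s
  refine (h u v hv s).trans ?_
  have h1 : 0 ≤ ∑ p ∈ P, ‖u p‖ ^ 2 := Finset.sum_nonneg fun _ _ => sq_nonneg _
  have h2 : 0 ≤ ∑ q ∈ R, ‖v q‖ ^ 2 := Finset.sum_nonneg fun _ _ => sq_nonneg _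
  exact mul_le_mul_of_nonneg_right (mul_le_mul_of_nonneg_right hK h1) h2

theorem zero {φ : Z3 → ℝ} {𝒦 P R : Finset Z3} {τ K : ℝ} (hK : 0 ≤ K)
    (h : ∀ k ∈ 𝒦, ∀ p ∈ P, k - p ∉ R) : BilBd φ 𝒦 P R τ K := by
  intro u v hv s
  have h0 : ∀ t : ℝ, ∑ k ∈ 𝒦, ‖Qb φ P u v k t‖ ^ 2 = 0 := by
    intro t
    refine Finset.sum_eq_zero fun k hk => ?_
    have h1 : Qb φ P u v k t = 0 := by
      unfold Qb
      refine Finset.sum_eq_zero fun p hp => ?_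
      rw [hv _ (h k hk p hp), mul_zero, zero_mul]
    rw [h1, norm_zero]
    norm_num
  simp only [h0]
  rw [intervalIntegral.integral_zero]
  have h1 : 0 ≤ ∑ p ∈ P, ‖u p‖ ^ 2 := Finset.sum_nonneg fun _ _ => sq_nonneg _
  have h2 : 0 ≤ ∑ q ∈ R, ‖v q‖ ^ 2 := Finset.sum_nonneg fun _ _ => sq_nonneg _
  positivity

end TBL

theorem leaf_TB (h7 : S_A7) (h9 : S_A9) (ht : S_Tri) : S_TB := by
  intro β hβ
  obtain ⟨C7, c7, hC7, hc7, H7⟩ := h7 β hβ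
  obtain ⟨C9, hC9, H9⟩ := h9 β hβ
  refine ⟨4 ^ 5 * C7 + 4 * C9, min 1 c7, by positivity, lt_min one_pos hc7, ?_⟩
  intro γ j m l hml 𝒦 P R hK hP hR τ hτ hτc
  have hj : τ * 4 ^ j ≤ τ * 4 ^ (max j l) :=
    mul_le_mul_of_nonneg_left (pow_le_pow_right₀ (by norm_num) (le_max_left _ _)) hτ.le
  have hj1 : τ * 4 ^ j ≤ 1 := (hj.trans hτc).trans (min_le_left _ _)
  have hjc : τ * 4 ^ j ≤ c7 := (hj.trans hτc).trans (min_le_right _ _)
  have h4l : (0 : ℝ) < 4 ^ l := by positivity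
  have h4m : (0 : ℝ) < 4 ^ m := by positivity
  have h4j : (0 : ℝ) < 4 ^ j := by positivity
  rcases Nat.lt_or_ge (m + 5) l with hl | hl
  · by_cases hlj : l ≤ j + 1
    · refine TBL.mono (H9 γ j m (by omega) 𝒦 P R hK hP τ hτ hj1) ?_
      rw [div_le_div_iff₀ h4j h4l]
      have e1 : (4 : ℝ) ^ l ≤ 4 * 4 ^ j := by
        calc (4 : ℝ) ^ l ≤ 4 ^ (j + 1) := pow_le_pow_right₀ (by norm_num) hlj
          _ = 4 * 4 ^ j := by ring
      calc C9 * 4 ^ m * 4 ^ l ≤ C9 * 4 ^ m * (4 * 4 ^ j) :=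
            mul_le_mul_of_nonneg_left e1 (by positivity)
        _ = (4 * C9) * 4 ^ m * 4 ^ j := by ring
        _ ≤ (4 ^ 5 * C7 + 4 * C9) * 4 ^ m * 4 ^ j := by
            have e2 : 0 ≤ (4 ^ 5 * C7) * 4 ^ m * 4 ^ j := by positivity
            have e3 : (4 ^ 5 * C7 + 4 * C9) * 4 ^ m * 4 ^ j =
              (4 ^ 5 * C7) * 4 ^ m * 4 ^ j + (4 * C9) * 4 ^ m * 4 ^ j := by ring
            linarith
    · refine TBL.zero (by positivity) fun k hk p hp hq => ?_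
      have h1 := (ht j m l hml p (k - p) (hP p hp) (hR _ hq) (by
        rw [add_sub_cancel]
        exact hK k hk)).2
      omega
  · refine TBL.mono (H7 γ j 𝒦 P R hK τ hτ hjc) ?_
    rw [le_div_iff₀ h4l]
    have e1 : (4 : ℝ) ^ l ≤ 4 ^ 5 * 4 ^ m := by
      calc (4 : ℝ) ^ l ≤ 4 ^ (m + 5) := pow_le_pow_right₀ (by norm_num) hl
        _ = 4 ^ 5 * 4 ^ m := by ring
    have e2 := mul_le_mul_of_nonneg_left e1 hC7.le
    have e3 : 0 ≤ 4 * C9 * 4 ^ m := by positivity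
    have e4 : (4 ^ 5 * C7 + 4 * C9) * 4 ^ m = C7 * (4 ^ 5 * 4 ^ m) + 4 * C9 * 4 ^ m := by ring
    linarith

end Pool.Agent.H259.ND

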