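import Pool.Agent.H259.ND.Stmt

namespace Pool.Agent.H259.ND

namespace TriL

/-- the Euclidean vector of a frequency -/
noncomputable def ev (k : Z3) : EuclideanSpace ℝ (Fin 3) := WithLp.toLp 2 fun i => (k i : ℝ)

lemma ev_add (p q : Z3) : ev (p + q) = ev p + ev q := by
  ext i
  simp [ev]

lemma norm_sq_ev (k : Z3) : ‖ev k‖ ^ 2 = (sq3 k : ℝ) := by
  rw [EuclideanSpace.norm_sq_eq]
  simp [ev, sq3]

lemma bounds {j : ℕ} {k : Z3} (h : InSh j k) : (2 : ℝ) ^ j ≤ ‖ev k‖ ∧ ‖ev k‖ < (2 : ℝ) ^ (j + 1) := by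
  obtain ⟨h1, h2⟩ := h
  have h1' : ((4 : ℝ) ^ j) ≤ (sq3 k : ℝ) := by exact_mod_cast h1
  have h2' : (sq3 k : ℝ) < (4 : ℝ) ^ (j + 1) := by exact_mod_cast h2
  have e : ∀ n : ℕ, (4 : ℝ) ^ n = ((2 : ℝ) ^ n) ^ 2 := by
    intro n
    rw [← pow_mul, mul_comm, pow_mul]
    norm_num
  rw [← norm_sq_ev, e] at h1' h2'
  constructor
  · exact le_of_sq_le_sq h1' (norm_nonneg _)
  · exact lt_of_pow_lt_pow_left₀ 2 (by positivity) h2'
where
  le_of_sq_le_sq {a b : ℝ} (h : a ^ 2 ≤ b ^ 2) (hb : 0 ≤ b) : a ≤ b := by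
    exact le_of_abs_le_of_sq h hb
  le_of_abs_le_of_sq {a b : ℝ} (h : a ^ 2 ≤ b ^ 2) (hb : 0 ≤ b) : a ≤ b := by
    nlinarith [sq_nonneg (a - b), sq_nonneg (a + b)]

end TriL

open TriL in
theorem leaf_Tri : S_Tri := by
  intro j m l hml p q hp hq hpq
  obtain ⟨p1, p2⟩ := bounds hp
  obtain ⟨q1, q2⟩ := bounds hq
  obtain ⟨s1, s2⟩ := bounds hpq
  rw [ev_add] at s1 s2
  have t1 : ‖ev p + ev q‖ ≤ ‖ev p‖ + ‖ev q‖ := norm_add_le _ _
  have t2 : ‖ev q‖ ≤ ‖ev p + ev q‖ + ‖ev p‖ := by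
    have : ev q = (ev p + ev q) - ev p := by abel
    calc ‖ev q‖ = ‖(ev p + ev q) - ev p‖ := by rw [← this]
      _ ≤ _ := norm_sub_le _ _
  have mono : ∀ {a b : ℕ}, a ≤ b → (2 : ℝ) ^ a ≤ (2 : ℝ) ^ b :=
    fun h => pow_le_pow_right₀ (by norm_num) h
  constructor
  · by_contra hc
    push Not at hc
    have h1 := mono (show l + 2 ≤ j by omega)
    have h2 := mono (show m + 1 ≤ l + 1 by omega)
    have h3 : (2 : ℝ) ^ (l + 2) = 2 ^ (l + 1) + 2 ^ (l + 1) := by ring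
    linarith
  · by_contra hc
    push Not at hc
    obtain ⟨h4, h5⟩ := hc
    have h1 := mono (show j + 1 ≤ l - 1 by omega)
    have h2 := mono (show m + 1 ≤ l - 1 by omega)
    obtain ⟨d, rfl⟩ : ∃ d, l = d + 1 := ⟨l - 1, by omega⟩
    have h3 : (2 : ℝ) ^ (d + 1) = 2 ^ d + 2 ^ d := by ring
    simp only [Nat.add_sub_cancel] at h1 h2
    linarith

end Pool.Agent.H259.ND
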