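import Pool.Agent.H259.ND.Stmt

set_option autoImplicit false

/-!
# Basic facts on time windows
-/

open Set Finset

namespace Pool.Agent.H259.ND

namespace W1L

theorem le_succ (τ L : ℝ) (hτ : 0 < τ) (a n : ℕ) : ew τ L a n ≤ ew τ L a (n + 1) := by
  unfold ew
  refine min_le_min_right L ?_
  push_cast
  have h4 : (0 : ℝ) < 4 ^ a := by positivity
  exact div_le_div_of_nonneg_right (by nlinarith) h4.le

theorem sub_le (τ L : ℝ) (hτ : 0 < τ) (a n : ℕ) :
    ew τ L a (n + 1) - ew τ L a n ≤ τ / 4 ^ a := by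
  unfold ew
  have h4 : (0 : ℝ) < 4 ^ a := by positivity
  have hx : 0 < τ / 4 ^ a := div_pos hτ h4
  have he : ((n + 1 : ℕ) : ℝ) * τ / 4 ^ a = (n : ℝ) * τ / 4 ^ a + τ / 4 ^ a := by
    push_cast
    ring
  rw [he]
  rcases le_total ((n : ℝ) * τ / 4 ^ a) L with h | h
  · rw [min_eq_left h]
    linarith [min_le_left ((n : ℝ) * τ / 4 ^ a + τ / 4 ^ a) L]
  · rw [min_eq_right h]
    linarith [min_le_right ((n : ℝ) * τ / 4 ^ a + τ / 4 ^ a) L]

theorem eqww (τ L : ℝ) (hτ : 0 < τ) (a n : ℕ) :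
    ew τ L a (n + 1) - ew τ L a n = ww τ L a n * τ / 4 ^ a := by
  unfold ww
  have h4 : (4 : ℝ) ^ a ≠ 0 := by positivity
  field_simp

end W1L

theorem leaf_W1 : S_W1 := by
  intro τ L hτ hL
  refine ⟨fun a n => W1L.le_succ τ L hτ a n, fun a n => ?_, fun a n => min_le_right _ _,
    fun a => ?_, fun a hLτ => ?_, fun a d n => ?_, fun a n => ?_, fun a n => ?_,
    fun a n => W1L.eqww τ L hτ a n⟩
  · exact le_min (by positivity) hL
  · unfold ew
    rw [Nat.cast_zero, zero_mul, zero_div, min_eq_left hL]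
  · unfold ew
    have h4 : (4 : ℝ) ^ a ≠ 0 := by positivity
    have he : ((4 ^ a : ℕ) : ℝ) * τ / 4 ^ a = τ := by
      push_cast
      field_simp
    rw [he, min_eq_right hLτ]
  · unfold ew
    have h4 : (4 : ℝ) ^ a ≠ 0 := by positivity
    have h5 : (4 : ℝ) ^ d ≠ 0 := by positivity
    have he : ((4 ^ d * n : ℕ) : ℝ) * τ / 4 ^ (a + d) = (n : ℝ) * τ / 4 ^ a := by
      push_cast
      rw [pow_add]
      field_simp
    rw [he]
  · unfold ww
    have := W1L.le_succ τ L hτ a n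
    exact div_nonneg (mul_nonneg (by linarith) (by positivity)) hτ.le
  · have h1 := W1L.sub_le τ L hτ a n
    have h4 : (0 : ℝ) < 4 ^ a := by positivity
    unfold ww
    rw [div_le_one hτ]
    rwa [le_div_iff₀ h4] at h1

end Pool.Agent.H259.ND
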