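import Pool.Agent.H259.ND.Stmt

/-!
# Telescoping of integrals over subwindows
-/

set_option autoImplicit false

open MeasureTheory Set Finset

namespace Pool.Agent.H259.ND

theorem W3L.ew_scale (τ L : ℝ) (a d m : ℕ) : ew τ L (a + d) (4 ^ d * m) = ew τ L a m := by
  unfold ew
  congr 1
  push_cast
  rw [pow_add]
  have h : (4 : ℝ) ^ d ≠ 0 := by positivity
  have h2 : (4 : ℝ) ^ a ≠ 0 := by positivity
  field_simp

theorem leaf_W3 : S_W3 := by
  intro τ L a d n f hf
  have h := intervalIntegral.sum_integral_adjacent_intervals (f := f) (μ := volume)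
    (a := fun k : ℕ => ew τ L (a + d) (4 ^ d * n + k)) (n := 4 ^ d)
    (fun k _ => hf.intervalIntegrable _ _)
  have e1 : ew τ L (a + d) (4 ^ d * n + 0) = ew τ L a n := by
    rw [Nat.add_zero]
    exact W3L.ew_scale τ L a d n
  have e2 : ew τ L (a + d) (4 ^ d * n + 4 ^ d) = ew τ L a (n + 1) := by
    have : 4 ^ d * n + 4 ^ d = 4 ^ d * (n + 1) := by ring
    rw [this]
    exact W3L.ew_scale τ L a d (n + 1)
  simp only [e1, e2] at h
  rw [← h]
  rfl

end Pool.Agent.H259.ND
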