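import Pool.Agent.H259.ND.Stmt

set_option autoImplicit false

open MeasureTheory Set Finset

namespace Pool.Agent.H259.ND

namespace W4L

/-- the fractions of the subwindows add up -/
theorem sum_frac (h1 : S_W1) (τ L : ℝ) (hτ : 0 < τ) (hL : 0 ≤ L) (a d n : ℕ) :
    ∑ r ∈ range (4 ^ d), ww τ L (a + d) (4 ^ d * n + r) = 4 ^ d * ww τ L a n := by
  obtain ⟨-, -, -, -, -, h6, -, -, h9⟩ := h1 τ L hτ hL
  have e1 : ∑ r ∈ range (4 ^ d), (ew τ L (a + d) (4 ^ d * n + (r + 1)) -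
      ew τ L (a + d) (4 ^ d * n + r)) = ew τ L (a + d) (4 ^ d * n + 4 ^ d) -
      ew τ L (a + d) (4 ^ d * n + 0) :=
    Finset.sum_range_sub (fun r => ew τ L (a + d) (4 ^ d * n + r)) (4 ^ d)
  have e2 : (4 : ℕ) ^ d * n + 4 ^ d = 4 ^ d * (n + 1) := by ring
  have e0 : (4 : ℕ) ^ d * n + 0 = 4 ^ d * n := rfl
  rw [e2, e0, h6, h6, h9] at e1
  have e3 : ∑ r ∈ range (4 ^ d), (ew τ L (a + d) (4 ^ d * n + (r + 1)) -
      ew τ L (a + d) (4 ^ d * n + r)) =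
      (∑ r ∈ range (4 ^ d), ww τ L (a + d) (4 ^ d * n + r)) * (τ / 4 ^ (a + d)) := by
    rw [Finset.sum_mul]
    refine Finset.sum_congr rfl fun r _ => ?_
    have := h9 (a + d) (4 ^ d * n + r)
    rw [← Nat.add_assoc, this]
    ring
  rw [e3] at e1
  have h4a : (0 : ℝ) < 4 ^ a := by positivity
  have h4d : (0 : ℝ) < 4 ^ d := by positivity
  have h4ad : (4 : ℝ) ^ (a + d) = 4 ^ a * 4 ^ d := pow_add _ _ _
  rw [h4ad] at e1
  field_simp at e1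
  exact e1

end W4L

theorem leaf_W4 (h1 : S_W1) : S_W4 := by
  intro τ L hτ hL a d n
  have hsum := W4L.sum_frac h1 τ L hτ hL a d n
  obtain ⟨-, -, -, -, -, -, h7, -, -⟩ := h1 τ L hτ hL
  have e1 := sq_sum_le_card_mul_sum_sq (s := range (4 ^ d))
    (f := fun r => √(ww τ L (a + d) (4 ^ d * n + r)))
  have e2 : ∑ r ∈ range (4 ^ d), √(ww τ L (a + d) (4 ^ d * n + r)) ^ 2 =
      4 ^ d * ww τ L a n := by
    rw [← hsum]
    exact Finset.sum_congr rfl fun r _ => Real.sq_sqrt (h7 _ _)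
  rw [e2, Finset.card_range] at e1
  push_cast at e1
  have h0 : 0 ≤ ∑ r ∈ range (4 ^ d), √(ww τ L (a + d) (4 ^ d * n + r)) :=
    Finset.sum_nonneg fun r _ => Real.sqrt_nonneg _
  have h3 : (4 : ℝ) ^ d * (4 ^ d * ww τ L a n) = (4 ^ d * √(ww τ L a n)) ^ 2 := by
    rw [mul_pow, Real.sq_sqrt (h7 a n)]
    ring
  rw [h3] at e1
  have h4 : 0 ≤ 4 ^ d * √(ww τ L a n) := by positivity
  have h5 := abs_le_of_sq_le_sq' e1 h4
  linarith [h5.2]

end Pool.Agent.H259.ND
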