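import Pool.Agent.H259.ND.Stmt

set_option autoImplicit false

open MeasureTheory Set Finset

namespace Pool.Agent.H259.ND

namespace W5L

/-- the fractions of the subwindows add up -/
theorem sum_frac (h1 : S_W1) (τ L : ℝ) (hτ : 0 < τ) (hL : 0 ≤ L) (a d n : ℕ) :
    ∑ r ∈ range (4 ^ d), ww τ L (a + d) (4 ^ d * n + r) = 4 ^ d * ww τ L a n := by
  obtain ⟨-, -, -, -, -, h6, -, -, h9⟩ := h1 τ L hτ hL
  have e1 : ∑ r ∈ range (4 ^ d), (ew τ L (a + d) (4 ^ d * n + (r + 1)) -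
      ew τ L (a + d) (4 ^ d * n + r)) = ew τ L (a + d) (4 ^ d * n + 4 ^ d) -
      ew τ L (a + d) (4 ^ d * n + 0) :=
    Finset.sum_range_sub (fun r => ew τ L (a + d) (4 ^ d * n + r)) (4 ^ d)
  have e2 : (4 : ℕ) ^ d * n + 4 ^ d = 4 ^ d * (n + 1) := by ring
  have e0 : (4 : ℕ) ^ d * n + 0 = 4 ^ d * n := rfl
  rw [e2, e0, h6, h6, h9] at e1
  have e3 : ∑ r ∈ range (4 ^ d), (ew τ L (a + d) (4 ^ d * n + (r + 1)) -
      ew τ L (a + d) (4 ^ d * n + r)) =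
      (∑ r ∈ range (4 ^ d), ww τ L (a + d) (4 ^ d * n + r)) * (τ / 4 ^ (a + d)) := by
    rw [Finset.sum_mul]
    refine Finset.sum_congr rfl fun r _ => ?_
    have := h9 (a + d) (4 ^ d * n + r)
    rw [← Nat.add_assoc, this]
    ring
  rw [e3] at e1
  have h4a : (0 : ℝ) < 4 ^ a := by positivity
  have h4d : (0 : ℝ) < 4 ^ d := by positivity
  have h4ad : (4 : ℝ) ^ (a + d) = 4 ^ a * 4 ^ d := pow_add _ _ _
  rw [h4ad] at e1
  field_simp at e1
  exact e1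

end W5L

theorem leaf_W5 (h1 : S_W1) : S_W5 := by
  intro τ L hτ hL a d n r hr
  have hsum := W5L.sum_frac h1 τ L hτ hL a d n
  obtain ⟨-, -, -, -, -, -, h7, -, -⟩ := h1 τ L hτ hL
  have e1 : ww τ L (a + d) (4 ^ d * n + r) ≤ 4 ^ d * ww τ L a n := by
    rw [← hsum]
    exact Finset.single_le_sum (f := fun r => ww τ L (a + d) (4 ^ d * n + r))
      (fun i _ => h7 _ _) (Finset.mem_range.2 hr)
  have e2 : √((4 : ℝ) ^ d * ww τ L a n) = 2 ^ d * √(ww τ L a n) := by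
    rw [Real.sqrt_mul (by positivity)]
    congr 1
    rw [show (4 : ℝ) ^ d = (2 ^ d) ^ 2 by rw [← pow_mul, mul_comm, pow_mul]; norm_num]
    exact Real.sqrt_sq (by positivity)
  rw [← e2]
  exact Real.sqrt_le_sqrt e1

end Pool.Agent.H259.ND
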