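import Pool.Agent.H259.ND.Stmt

/-! Monotonicity of the window sizes (leaf W6). -/

open MeasureTheory Set Finset

namespace Pool.Agent.H259.ND

namespace W6L

/-- the integral of a nonnegative continuous function grows with the interval -/
theorem int_mono {g : ℝ → ℝ} (hg : Continuous g) (g0 : ∀ t, 0 ≤ g t) {s e' e : ℝ} (h1 : e' ≤ e) :
    ∫ r in s..e', g r ≤ ∫ r in s..e, g r := by
  have h2 := intervalIntegral.integral_add_adjacent_intervals (hg.intervalIntegrable s e')
    (hg.intervalIntegrable (μ := volume) e' e)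
  have h3 : 0 ≤ ∫ r in e'..e, g r := intervalIntegral.integral_nonneg h1 fun r _ => g0 r
  linarith

end W6L

theorem leaf_W6 (h1 : S_W1) : S_W6 := by
  intro C₀ ν c₁ E M L₀ X g q S τ L hτ hL hL₀ j a d n r hr
  obtain ⟨w1, w2, w3, -, -, w6, -, -, -⟩ := h1 τ L hτ hL
  have hmono : Monotone (ew τ L (a + d)) := monotone_nat_of_le_succ (w1 (a + d))
  have hs : ew τ L a n ≤ ew τ L (a + d) (4 ^ d * n + r) := by
    rw [← w6 a d n]
    exact hmono (Nat.le_add_right _ _)
  have he : ew τ L (a + d) (4 ^ d * n + r + 1) ≤ ew τ L a (n + 1) := by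
    rw [← w6 a d (n + 1)]
    refine hmono ?_
    rw [Nat.mul_add, Nat.mul_one]
    omega
  have hse : ew τ L (a + d) (4 ^ d * n + r) ≤ ew τ L (a + d) (4 ^ d * n + r + 1) := w1 _ _
  have hi := fun x y : ℝ => (S.cg j).intervalIntegrable (μ := volume) x y
  refine ⟨?_, ?_⟩
  · unfold AW Aw
    exact add_nonneg (S.X0 j _) (intervalIntegral.integral_nonneg hse fun r _ => S.g0 j r)
  · have h2 := S.lip j _ _ (w2 a n) hs ((w3 (a + d) (4 ^ d * n + r)).trans hL₀)
    have h3 := (le_abs_self _).trans h2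
    have h4 := intervalIntegral.integral_add_adjacent_intervals
      (hi (ew τ L a n) (ew τ L (a + d) (4 ^ d * n + r)))
      (hi (ew τ L (a + d) (4 ^ d * n + r)) (ew τ L (a + d) (4 ^ d * n + r + 1)))
    have h5 := W6L.int_mono (S.cg j) (S.g0 j) (s := ew τ L a n) he
    unfold AW Aw
    linarith

end Pool.Agent.H259.ND
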