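import Pool.Agent.H259.ND.Stmt

/-!
# Leaf W7 (helper401)
-/

open MeasureTheory Set Finset

namespace Pool.Agent.H259.ND

namespace W7L

theorem sum_blocks (f : ℕ → ℝ) (m : ℕ) (N : ℕ) :
    ∑ i ∈ range (m * N), f i = ∑ n ∈ range N, ∑ r ∈ range m, f (m * n + r) := by
  induction N with
  | zero => simp
  | succ N ih => rw [Nat.mul_succ, Finset.sum_range_add, ih, Finset.sum_range_succ]

end W7L

theorem leaf_W7 (h1 : S_W1) (h4 : S_W4) (h6 : S_W6) : S_W7 := by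
  have _h := h1
  intro C₀ ν c₁ E M L₀ X g q hS τ L hτ hL hL0 l a hla
  obtain ⟨d, rfl⟩ := Nat.exists_eq_add_of_le hla
  rw [Nat.add_sub_cancel_left, pow_add, mul_comm (4 ^ l) (4 ^ d), W7L.sum_blocks]
  unfold Yj
  rw [Finset.mul_sum]
  refine Finset.sum_le_sum fun n _ => ?_
  calc ∑ r ∈ range (4 ^ d), √(ww τ L (l + d) (4 ^ d * n + r)) *
        AW τ L X g l (l + d) (4 ^ d * n + r) ^ 2
      ≤ ∑ r ∈ range (4 ^ d), √(ww τ L (l + d) (4 ^ d * n + r)) * AW τ L X g l l n ^ 2 := by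
        refine Finset.sum_le_sum fun r hr => ?_
        obtain ⟨hA0, hA1⟩ := h6 C₀ ν c₁ E M L₀ X g q hS τ L hτ hL hL0 l l d n r
          (Finset.mem_range.1 hr)
        exact mul_le_mul_of_nonneg_left (pow_le_pow_left₀ hA0 hA1 2) (Real.sqrt_nonneg _)
    _ = (∑ r ∈ range (4 ^ d), √(ww τ L (l + d) (4 ^ d * n + r))) * AW τ L X g l l n ^ 2 := by
        rw [Finset.sum_mul]
    _ ≤ (2 * 4 ^ d * √(ww τ L l n)) * AW τ L X g l l n ^ 2 :=
        mul_le_mul_of_nonneg_right (h4 τ L hτ hL l d n) (sq_nonneg _)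
    _ = 2 * 4 ^ d * (√(ww τ L l n) * AW τ L X g l l n ^ 2) := by ring

end Pool.Agent.H259.ND
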