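import Pool.Agent.H259.ND.Stmt

/-!
# ND-W8: three bounds of `ys`
-/

open MeasureTheory Set Finset

namespace Pool.Agent.H259.ND

namespace W8L

variable {τ L : ℝ} {X g : ℕ → ℝ → ℝ}

theorem ys_low {l j : ℕ} (h : l ≤ j) (n : ℕ) :
    ys τ L X g l j n = √(ww τ L j n) * AW τ L X g l j n ^ 2 := by
  unfold ys
  rw [Nat.sub_eq_zero_of_le h]
  simp

theorem ys_high {l j : ℕ} (h : j ≤ l) (n : ℕ) :
    ys τ L X g l j n = ∑ r ∈ Finset.range (4 ^ (l - j)), √(ww τ L l (4 ^ (l - j) * n + r))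
      * AW τ L X g l l (4 ^ (l - j) * n + r) ^ 2 := by
  unfold ys
  rw [Nat.add_sub_of_le h]

theorem sum_mul (f : ℕ → ℝ) (a b : ℕ) :
    ∑ n ∈ Finset.range a, ∑ r ∈ Finset.range b, f (b * n + r) = ∑ n ∈ Finset.range (b * a), f n := by
  induction a with
  | zero => simp
  | succ a ih =>
    rw [Finset.sum_range_succ, ih, Nat.mul_succ, Finset.sum_range_add]

end W8L

theorem leaf_W8 (h1 : S_W1) (h4 : S_W4) (h5 : S_W5) (h6 : S_W6) (h7 : S_W7) : S_W8 := by
  intro C₀ ν c₁ E M L₀ X g q hS τ L hτ hL hL0 l j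
  obtain ⟨-, -, -, -, -, -, hw0, hw1, -⟩ := h1 τ L hτ hL
  have hmono := h6 C₀ ν c₁ E M L₀ X g q hS τ L hτ hL hL0
  have hw : ∀ a n, √(ww τ L a n) ≤ 1 := fun a n => by
    rw [Real.sqrt_le_one]
    exact hw1 a n
  have hXX : ∀ n, n < 4 ^ l → AW τ L X g l l n ^ 2 ≤ XXj τ L X g l := by
    intro n hn
    unfold XXj
    exact Finset.le_sup' (fun n => AW τ L X g l l n ^ 2) (Finset.mem_range.2 hn)
  have hXX0 : 0 ≤ XXj τ L X g l := (sq_nonneg _).trans (hXX 0 (by positivity))
  have hterm : ∀ a n, 0 ≤ √(ww τ L a n) * AW τ L X g l a n ^ 2 := fun a n =>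
    mul_nonneg (Real.sqrt_nonneg _) (sq_nonneg _)
  have hY0 : 0 ≤ Yj τ L X g l := Finset.sum_nonneg fun n _ => hterm l n
  have hsingle : ∀ n, n < 4 ^ l → √(ww τ L l n) * AW τ L X g l l n ^ 2 ≤ Yj τ L X g l := by
    intro n hn
    exact Finset.single_le_sum (f := fun n => √(ww τ L l n) * AW τ L X g l l n ^ 2)
      (fun n _ => hterm l n) (Finset.mem_range.2 hn)
  -- the parent window
  have hpar : ∀ n, l ≤ j → n < 4 ^ j → ∃ n' r, n' < 4 ^ l ∧ r < 4 ^ (j - l) ∧
      n = 4 ^ (j - l) * n' + r := by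
    intro n hlj hn
    refine ⟨n / 4 ^ (j - l), n % 4 ^ (j - l), ?_, Nat.mod_lt _ (by positivity), ?_⟩
    · rw [Nat.div_lt_iff_lt_mul (by positivity), ← pow_add, Nat.add_sub_of_le hlj]
      exact hn
    · exact (Nat.div_add_mod _ _).symm
  have hAsq : ∀ n' r, l ≤ j → r < 4 ^ (j - l) →
      AW τ L X g l j (4 ^ (j - l) * n' + r) ^ 2 ≤ AW τ L X g l l n' ^ 2 := by
    intro n' r hlj hr
    have h := hmono l l (j - l) n' r hr
    rw [Nat.add_sub_of_le hlj] at h
    exact pow_le_pow_left₀ h.1 h.2 2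
  refine ⟨?_, ?_, ?_⟩
  · -- (a)
    intro n hn hlj
    rcases Nat.lt_or_ge j l with h | h
    · have hl : l = j + 1 := by omega
      rw [W8L.ys_high h.le]
      have hd : l - j = 1 := by omega
      rw [hd, pow_one]
      have hb : ∀ r ∈ Finset.range 4, √(ww τ L l (4 * n + r)) * AW τ L X g l l (4 * n + r) ^ 2
          ≤ XXj τ L X g l := by
        intro r hr
        rw [Finset.mem_range] at hr
        have hlt : 4 * n + r < 4 ^ l := by
          rw [hl, pow_succ]
          omega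
        calc √(ww τ L l (4 * n + r)) * AW τ L X g l l (4 * n + r) ^ 2
            ≤ 1 * AW τ L X g l l (4 * n + r) ^ 2 :=
              mul_le_mul_of_nonneg_right (hw _ _) (sq_nonneg _)
          _ ≤ XXj τ L X g l := by rw [one_mul]; exact hXX _ hlt
      have := Finset.sum_le_sum hb
      rw [Finset.sum_const, Finset.card_range, nsmul_eq_mul] at this
      push_cast at this
      exact this
    · rw [W8L.ys_low h]
      obtain ⟨n', r, hn', hr, rfl⟩ := hpar n h hn
      calc √(ww τ L j (4 ^ (j - l) * n' + r)) * AW τ L X g l j (4 ^ (j - l) * n' + r) ^ 2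
          ≤ 1 * AW τ L X g l l n' ^ 2 :=
            mul_le_mul (hw _ _) (hAsq n' r h hr) (sq_nonneg _) zero_le_one
        _ ≤ XXj τ L X g l := by rw [one_mul]; exact hXX _ hn'
        _ ≤ 4 * XXj τ L X g l := by linarith
  · -- (b)
    intro n hn hjl
    rcases Nat.le_total j l with h | h
    · rw [W8L.ys_high h]
      have hle : ∑ r ∈ Finset.range (4 ^ (l - j)), √(ww τ L l (4 ^ (l - j) * n + r))
          * AW τ L X g l l (4 ^ (l - j) * n + r) ^ 2 ≤ Yj τ L X g l := by
        have e := W8L.sum_mul (fun n => √(ww τ L l n) * AW τ L X g l l n ^ 2) (4 ^ j) (4 ^ (l - j))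
        have e2 : 4 ^ (l - j) * 4 ^ j = 4 ^ l := by
          rw [← pow_add]
          congr 1
          omega
        rw [e2] at e
        unfold Yj
        rw [← e]
        exact Finset.single_le_sum (f := fun n => ∑ r ∈ Finset.range (4 ^ (l - j)),
          √(ww τ L l (4 ^ (l - j) * n + r)) * AW τ L X g l l (4 ^ (l - j) * n + r) ^ 2)
          (fun n _ => Finset.sum_nonneg fun r _ => hterm l _) (Finset.mem_range.2 hn)
      linarith
    · rw [W8L.ys_low h]
      obtain ⟨n', r, hn', hr, rfl⟩ := hpar n h hn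
      have hs := h5 τ L hτ hL l (j - l) n' r hr
      rw [Nat.add_sub_of_le h] at hs
      have hpow : (2 : ℝ) ^ (j - l) ≤ 8 := by
        calc (2 : ℝ) ^ (j - l) ≤ 2 ^ 3 := pow_le_pow_right₀ (by norm_num) (by omega)
          _ = 8 := by norm_num
      have hs2 : √(ww τ L j (4 ^ (j - l) * n' + r)) ≤ 8 * √(ww τ L l n') :=
        hs.trans (mul_le_mul_of_nonneg_right hpow (Real.sqrt_nonneg _))
      calc √(ww τ L j (4 ^ (j - l) * n' + r)) * AW τ L X g l j (4 ^ (j - l) * n' + r) ^ 2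
          ≤ (8 * √(ww τ L l n')) * AW τ L X g l l n' ^ 2 :=
            mul_le_mul hs2 (hAsq n' r h hr) (sq_nonneg _) (by positivity)
        _ = 8 * (√(ww τ L l n') * AW τ L X g l l n' ^ 2) := by ring
        _ ≤ 8 * Yj τ L X g l := mul_le_mul_of_nonneg_left (hsingle n' hn') (by norm_num)
  · -- (c)
    intro hjl
    rcases Nat.le_total j l with h | h
    · have e : ∑ n ∈ Finset.range (4 ^ j), ys τ L X g l j n = Yj τ L X g l := by
        have e1 := W8L.sum_mul (fun n => √(ww τ L l n) * AW τ L X g l l n ^ 2) (4 ^ j) (4 ^ (l - j))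
        have e2 : 4 ^ (l - j) * 4 ^ j = 4 ^ l := by
          rw [← pow_add]
          congr 1
          omega
        rw [e2] at e1
        unfold Yj
        rw [← e1]
        exact Finset.sum_congr rfl fun n _ => W8L.ys_high h n
      rw [e]
      linarith
    · have e : ∑ n ∈ Finset.range (4 ^ j), ys τ L X g l j n =
          ∑ n ∈ Finset.range (4 ^ j), √(ww τ L j n) * AW τ L X g l j n ^ 2 :=
        Finset.sum_congr rfl fun n _ => W8L.ys_low h n
      rw [e]
      refine (h7 C₀ ν c₁ E M L₀ X g q hS τ L hτ hL hL0 l j h).trans ?_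
      have hpow : (4 : ℝ) ^ (j - l) ≤ 64 := by
        calc (4 : ℝ) ^ (j - l) ≤ 4 ^ 3 := pow_le_pow_right₀ (by norm_num) (by omega)
          _ = 64 := by norm_num
      calc 2 * 4 ^ (j - l) * Yj τ L X g l ≤ 128 * Yj τ L X g l :=
            mul_le_mul_of_nonneg_right (by linarith) hY0
        _ = 128 * Yj τ L X g l := rfl

end Pool.Agent.H259.ND
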