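import Pool.Agent.H259.ND.LA1
import Pool.Agent.H259.ND.LA2
import Pool.Agent.H259.ND.LA3
import Pool.Agent.H259.ND.LA4
import Pool.Agent.H259.ND.LA5
import Pool.Agent.H259.ND.LA6
import Pool.Agent.H259.ND.LA7
import Pool.Agent.H259.ND.LA8a
import Pool.Agent.H259.ND.LA8
import Pool.Agent.H259.ND.LA9
import Pool.Agent.H259.ND.LTri
import Pool.Agent.H259.ND.LTB
import Pool.Agent.H259.ND.LA10a
import Pool.Agent.H259.ND.LA10b
import Pool.Agent.H259.ND.LA10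
import Pool.Agent.H259.ND.LW1
import Pool.Agent.H259.ND.LW3
import Pool.Agent.H259.ND.LW4
import Pool.Agent.H259.ND.LW5
import Pool.Agent.H259.ND.LW6
import Pool.Agent.H259.ND.LW7
import Pool.Agent.H259.ND.LW8
import Pool.Agent.H259.ND.LB1
import Pool.Agent.H259.ND.LB2a
import Pool.Agent.H259.ND.LB2n
import Pool.Agent.H259.ND.LB2f
import Pool.Agent.H259.ND.LB2
import Pool.Agent.H259.ND.LB3
import Pool.Agent.H259.ND.LB5
import Pool.Agent.H259.ND.LB4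
import Pool.Agent.H259.ND.LB6a
import Pool.Agent.H259.ND.LB6b
import Pool.Agent.H259.ND.LB6
import Pool.Agent.H259.ND.LB7a
import Pool.Agent.H259.ND.LB7b
import Pool.Agent.H259.ND.LB7
import Pool.Agent.H259.ND.LB8a
import Pool.Agent.H259.ND.LB8
import Pool.Agent.H259.ND.LC1
import Pool.Agent.H259.ND.LC2
import Pool.Agent.H259.ND.LC3a
import Pool.Agent.H259.ND.LC3b
import Pool.Agent.H259.ND.LC3c
import Pool.Agent.H259.ND.LC3d
import Pool.Agent.H259.ND.LC3e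
import Pool.Agent.H259.ND.LC3f
import Pool.Agent.H259.ND.LC3
import Pool.Agent.H259.ND.LC4

/-!
The steps together: the a priori bound for finite systems with cubic dispersion.
-/

namespace Pool.Agent.H259.ND

theorem all_TB : S_TB :=
  leaf_TB (leaf_A7 leaf_A1 (leaf_A5 leaf_A1 leaf_A3 leaf_A4) (leaf_A6 leaf_A1 (leaf_A2 leaf_A1)))
    (leaf_A9 leaf_A1 (leaf_A2 leaf_A1) (leaf_A8 leaf_A1 (leaf_A8a leaf_A1))) leaf_Tri

theorem all_A10 : S_A10 := leaf_A10 (leaf_A10b leaf_A10a)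

theorem all_W4 : S_W4 := leaf_W4 leaf_W1

theorem all_W6 : S_W6 := leaf_W6 leaf_W1

theorem all_W7 : S_W7 := leaf_W7 leaf_W1 all_W4 all_W6

theorem all_W8 : S_W8 := leaf_W8 leaf_W1 all_W4 (leaf_W5 leaf_W1) all_W6 all_W7

theorem all_B1 : S_B1 := leaf_B1 leaf_W1

theorem all_B2a : S_B2a := leaf_B2a leaf_W1 leaf_W3

theorem all_B2 : S_B2 :=
  leaf_B2 leaf_W1 (leaf_B2n leaf_W1 all_B2a all_W6) (leaf_B2f leaf_W1 all_B2a all_W4 all_W6) all_W8

theorem all_B3 : S_B3 := leaf_B3 leaf_W1 all_B1 all_B2 all_W8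

theorem all_B4 : S_B4 := leaf_B4 leaf_W1 all_B1 all_B2 (leaf_B5 leaf_W1) all_W8

theorem all_B6 : S_B6 := leaf_B6 leaf_W1 all_B3 all_B4 leaf_B6a leaf_B6b

theorem all_B7 : S_B7 :=
  leaf_B7 leaf_W1 (leaf_B7a leaf_W1 leaf_W3 all_W6 all_W7) leaf_B7b

theorem all_B8 : S_B8 := leaf_B8 leaf_W1 all_B3 all_B4 all_B6 all_B7 leaf_B8a

theorem all_C3 : S_C3 :=
  leaf_C3 leaf_Tri leaf_C3a (leaf_C3c leaf_C3b) (leaf_C3d leaf_C2 leaf_C3a)
    (leaf_C3e leaf_C3a leaf_C3b) (leaf_C3f all_TB all_A10 leaf_C3a)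

/-- the a priori bound for finite systems with cubic dispersion -/
theorem all_C4 : S_C4 := leaf_C4 leaf_C1 all_B8 leaf_C3a all_C3

end Pool.Agent.H259.ND
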