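import Pool.Agent.H259.ND.Gs
import Pool.Agent.H259.ND.All

/-!
Existence for the equations with a symbol whose imaginary part is a cubic form without mixed terms.
-/

open MeasureTheory Set Filter Topology
open scoped ENNReal NNReal ContDiff
open H459R3.NS Pool.Agent.X96.HT
open Pool.Agent.X96.DM hiding LL Fk Fk_apply exists_lim TT_all exists_sol uniq
open Pool.Agent.H226.DE
open Pool.Agent.H226.SW (nw)

namespace Pool.Agent.H259.ND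

lemma hn_even {S : Finset K3} {U : K3 → C3} (hS : ∀ k ∉ S, U k = 0) (s : ℕ) :
    ∑ k ∈ S, (sq3 k : ℝ) ^ s * ∑ i, ‖U k i‖ ^ 2 = hn (2 * s) U := by
  rw [← nw_hn hS]
  unfold nw
  refine Finset.sum_congr rfl fun k _ => ?_
  rw [← kn_sq3, ← pow_mul]

lemma im_Dm {D : K3 → ℂ} {β : Fin 3 → ℝ} (him : ∀ k, (D k).im = ph3 β 0 k) (m : V) (k : K3) :
    (Dm D m k).im = ph3 β (fun i => 2 * Real.pi * m i) k := by
  unfold Dm
  rw [Complex.add_im, him]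
  have e : (2 * (Real.pi : ℂ) * Complex.I * (kd k m : ℂ)).im = 2 * Real.pi * kd k m := by
    have : (2 * (Real.pi : ℂ) * Complex.I * (kd k m : ℂ))
        = ((2 * Real.pi * kd k m : ℝ) : ℂ) * Complex.I := by push_cast; ring
    rw [this, Complex.im_ofReal_mul, Complex.I_im, mul_one]
  rw [e]
  unfold ph3 kd
  rw [Finset.mul_sum, ← Finset.sum_add_distrib]
  refine Finset.sum_congr rfl fun i _ => ?_
  simp only [Pi.zero_apply]
  ring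

theorem exists3 {Lo : (V → ℝ) → V → ℝ} {D : K3 → ℂ} {Cp : ℝ} {r : ℕ} (hL : Symb Lo D)
    (hD : PolC Cp r D) (hr : 1 ≤ r) {β : Fin 3 → ℝ} (hβ : ∀ i, β i ≠ 0) {ν' Cd : ℝ} (hν : 0 < ν')
    (hCd : 0 ≤ Cd) (him : ∀ k, (D k).im = ph3 β 0 k) (hlo : ∀ k, ν' * kn k ^ 2 ≤ (D k).re)
    (hhi : ∀ k, (D k).re ≤ Cd * kn k ^ 2)
    {u₀ : V → V} (hs : ContDiff ℝ ∞ u₀) (hper : Per u₀)
    (hdiv : ∀ x, ∑ i, pd i (fun y => u₀ y i) x = 0) :
    ∃ (u : ℝ → V → V) (p : ℝ → V → ℝ), IsSolL Lo (Ici 0) u p ∧ u 0 = u₀ := by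
  set v₀ := sb (mn u₀) u₀ with hv₀
  set E₀ := hn 0 (co v₀) with hE₀
  have hE0 : 0 ≤ E₀ := hn_nonneg_all _ _
  choose K hK using fun n : ℕ => all_C4 β hβ (12 * Real.pi) Cd ν' E₀ (n + 1)
    (by have := Real.pi_pos; positivity) hCd hν hE0 (Nat.succ_pos n)
  refine existsL hL hD hr hs hper hdiv
    (B := fun t n => 4 ^ (K n * (⌈t⌉₊ + 1)) * hn (2 * (n + 1)) (co v₀)) (fun n => ?_)
    fun S h0 T a ha h1 t ht n => ?_
  · intro t t' htt
    have h2 : ⌈t⌉₊ ≤ ⌈t'⌉₊ := Nat.ceil_mono htt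
    have h4 := hn_nonneg_all (2 * (n + 1)) (co v₀)
    show (4 : ℝ) ^ (K n * (⌈t⌉₊ + 1)) * hn (2 * (n + 1)) (co v₀)
      ≤ 4 ^ (K n * (⌈t'⌉₊ + 1)) * hn (2 * (n + 1)) (co v₀)
    gcongr
    norm_num
  · have hT : 0 ≤ T := ht.1.trans ht.2
    have hG := galGS (D := Dm D (mn u₀)) (β := β) (γ := fun i => 2 * Real.pi * mn u₀ i) hν hCd hE0
      (im_Dm him _) (fun k => by rw [re_Dm]; exact hlo k) (fun k => by rw [re_Dm]; exact hhi k)
      h0 hT ha (h1 0)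
    have h2 := hK n _ _ S T _ _ hG t ht
    simp only [cl_eq ht, cl_eq (⟨le_rfl, hT⟩ : (0 : ℝ) ∈ Icc 0 T)] at h2
    rw [hn_even (ha.supp t), hn_even (ha.supp 0)] at h2
    have h3 : hn n (a t) ≤ hn (2 * (n + 1)) (a t) := hn_mono_fin (ha.supp t) h0 (by omega)
    refine h3.trans (h2.trans ?_)
    have h4 := h1 (2 * (n + 1))
    show _ ≤ (4 : ℝ) ^ (K n * (⌈t⌉₊ + 1)) * hn (2 * (n + 1)) (co v₀)
    gcongr

end Pool.Agent.H259.ND
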