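import Pool.Agent.H259.ND.Nl

/-!
The Galerkin approximations are systems `GS`.
-/

open MeasureTheory Set Filter Topology
open H459R3.NS Pool.Agent.X96.HT Pool.Agent.X96.DM Pool.Agent.H226.DE
open Pool.Agent.H226.SW (nw)

namespace Pool.Agent.H259.ND

lemma isW1 : IsWeight one1 where
  swap := fun _ _ _ => rfl
  rot := fun _ _ _ => rfl
  neg := fun _ _ _ => rfl
  bdd := ⟨1, fun _ _ _ => by simp⟩

/-- clamp to `[0, T]` -/
noncomputable def cl (T t : ℝ) : ℝ := max 0 (min T t)

lemma cl_mem {T : ℝ} (hT : 0 ≤ T) (t : ℝ) : cl T t ∈ Icc 0 T := by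
  unfold cl
  exact ⟨le_max_left _ _, max_le hT (min_le_left _ _)⟩

lemma cl_eq {T t : ℝ} (ht : t ∈ Icc 0 T) : cl T t = t := by
  unfold cl
  rw [min_eq_right ht.2, max_eq_right ht.1]

lemma continuous_cl (T : ℝ) : Continuous (cl T) := by
  unfold cl
  fun_prop

lemma continuous_hel {f : ℝ → C3} (s : Bool) (k : K3) (i : Fin 3)
    (hf : ∀ i, Continuous fun t => f t i) : Continuous fun t => hel s k (f t) i := by
  by_cases hk : k = 0
  · subst hk
    simp only [hel_at_zero]
    exact continuous_const
  · unfold hel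
    simp only [if_neg hk]
    have h1 : Continuous fun t => dp (kc k) (f t) := by
      unfold dp
      have := hf 0
      have := hf 1
      have := hf 2
      fun_prop
    have h2 : Continuous fun t => cp (kc k) (f t) i := by
      have := hf 0
      have := hf 1
      have := hf 2
      fin_cases i <;> simp [cp] <;> fun_prop
    have h3 := hf i
    fun_prop

lemma continuous_nonl {U : ℝ → K3 → C3} {S : Finset K3} (h0 : (0 : K3) ∉ S)
    (hS : ∀ t, ∀ k ∉ S, U t k = 0) (hdiv : ∀ t k, dp (kc k) (U t k) = 0)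
    (hc : ∀ k i, Continuous fun t => U t k i) (k : K3) (i : Fin 3) :
    Continuous fun t => nonl one1 (U t) k i := by
  have e : (fun t => nonl one1 (U t) k i) = fun t => ∑ p ∈ S,
      (hel true k ((2 * Real.pi * Complex.I * dp (kc (k - p)) (U t p)) • U t (k - p)) i
        + hel false k ((2 * Real.pi * Complex.I * dp (kc (k - p)) (U t p)) • U t (k - p)) i) := by
    funext t
    rw [nonl_sum h0 (hS t) (hdiv t) k, Finset.sum_apply]
    rfl
  rw [e]
  refine continuous_finsetSum _ fun p _ => ?_
  have h1 : ∀ j, Continuous fun t =>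
      ((2 * Real.pi * Complex.I * dp (kc (k - p)) (U t p)) • U t (k - p)) j := by
    intro j
    simp only [Pi.smul_apply, smul_eq_mul]
    have h2 : Continuous fun t => dp (kc (k - p)) (U t p) := by
      unfold dp
      have := hc p 0
      have := hc p 1
      have := hc p 2
      fun_prop
    have h3 := hc (k - p) j
    fun_prop
  exact (continuous_hel true k i h1).add (continuous_hel false k i h1)

theorem galGS {β γ : Fin 3 → ℝ} {D : K3 → ℂ} {ν Cd E : ℝ} (hν : 0 < ν) (hCd : 0 ≤ Cd)
    (hE : 0 ≤ E) (him : ∀ k, (D k).im = ph3 β γ k) (hlo : ∀ k, ν * kn k ^ 2 ≤ (D k).re)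
    (hhi : ∀ k, (D k).re ≤ Cd * kn k ^ 2)
    {S : Finset K3} (h0 : (0 : K3) ∉ S) {T : ℝ} (hT : 0 ≤ T) {a : ℝ → K3 → C3}
    (h : GalC one1 D T S a) (hE0 : hn 0 (a 0) ≤ E) :
    GS β γ D ν Cd (12 * Real.pi) E S T (fun t => a (cl T t))
      (fun t => nonl one1 (a (cl T t))) := by
  have hD0 : ∀ k, 0 ≤ (D k).re := fun k => le_trans (by positivity) (hlo k)
  have hca : ∀ k i, Continuous fun t => a (cl T t) k i := by
    intro k i
    by_cases hk : k ∈ S
    · have h1 : ContinuousOn (fun t => a t k i) (Icc 0 T) := fun t ht =>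
        (h.deriv t ht k hk i).continuousWithinAt
      exact h1.comp_continuous (continuous_cl T) fun t => cl_mem hT t
    · have e : (fun t => a (cl T t) k i) = fun _ => 0 := by
        funext t
        rw [h.supp _ k hk]
        rfl
      rw [e]
      exact continuous_const
  refine ⟨h0, hT, hν, hCd, by positivity, hE, fun t k hk i => ?_, hca, ?_, ?_, him, ?_, ?_, ?_, ?_⟩
  · show a (cl T t) k i = 0
    rw [h.supp _ k hk]
    rfl
  · exact continuous_nonl (U := fun t => a (cl T t)) h0 (fun t => h.supp _) (fun t => h.div _) hca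
  · intro t ht k hk i
    have h1 := h.deriv t ht k hk i
    have h2 : HasDerivWithinAt (fun t => a (cl T t) k i)
        (-D k * a t k i - nonl one1 (a t) k i) (Icc 0 T) t := by
      refine h1.congr (fun s hs => ?_) ?_
      · rw [cl_eq hs]
      · rw [cl_eq ht]
    rw [show cl T t = t from cl_eq ht]
    exact h2
  · intro k
    rw [← kn_sq3]
    exact hlo k
  · intro k
    rw [← kn_sq3]
    exact hhi k
  · intro t k _ i
    have h1 := norm_nonl_conv h0 (h.supp (cl T t)) (h.div (cl T t)) k
    have h2 : √((sq3 k : ℤ) : ℝ) = kn k := by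
      rw [← kn_sq3, Real.sqrt_sq (kn_nonneg k)]
    rw [h2]
    exact (norm_le_pi_norm _ i).trans h1
  · intro t ht
    set g : ℝ → ℝ := fun r => ∑ k ∈ S, (sq3 k : ℝ) * ∑ i, ‖a (cl T r) k i‖ ^ 2 with hg
    have hgc : Continuous g := by
      refine continuous_finsetSum _ fun k _ => continuous_const.mul
        (continuous_finsetSum _ fun i _ => ?_)
      exact (hca k i).norm.pow 2
    set F : ℝ → ℝ := fun s => hn 0 (a s) + 2 * ν * ∫ r in (0 : ℝ)..s, g r with hF
    have hFd : ∀ s ∈ Icc 0 T, HasDerivWithinAt F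
        (-(2 * nw S (fun k => 1 * (D k).re) (a s)) + 2 * ν * g s) (Icc 0 T) s := by
      intro s hs
      have h1 := h.energy_deriv isW1 hs
      have h2 : HasDerivAt (fun s => ∫ r in (0 : ℝ)..s, g r) (g s) s :=
        intervalIntegral.integral_hasDerivAt_right (hgc.intervalIntegrable _ _)
          (hgc.stronglyMeasurableAtFilter _ _) hgc.continuousAt
      exact h1.add ((h2.hasDerivWithinAt).const_mul (2 * ν))
    have hanti : AntitoneOn F (Icc 0 T) := by
      refine antitoneOn_of_hasDerivWithinAt_nonpos (convex_Icc 0 T)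
        (fun s hs => (hFd s hs).continuousWithinAt)
        (fun s hs => (hFd s (interior_subset hs)).mono interior_subset) fun s hs => ?_
      have hs' := interior_subset hs
      have h1 : ν * g s ≤ nw S (fun k => 1 * (D k).re) (a s) := by
        simp only [hg]
        rw [cl_eq hs', Finset.mul_sum]
        unfold nw
        refine Finset.sum_le_sum fun k _ => ?_
        rw [← kn_sq3, ← mul_assoc]
        refine mul_le_mul_of_nonneg_right ?_ ?_
        · simpa using hlo k
        · exact Finset.sum_nonneg fun i _ => by positivity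
      linarith
    have h1 := hanti (⟨le_rfl, hT⟩ : (0 : ℝ) ∈ Icc 0 T) ht ht.1
    simp only [hF, intervalIntegral.integral_same, mul_zero, add_zero] at h1
    have h2 : ∑ k ∈ S, ∑ i, ‖a (cl T t) k i‖ ^ 2 = hn 0 (a t) := by
      rw [cl_eq ht, ← Pool.Agent.H226.DE.nw_hn (h.supp t) 0]
      unfold nw
      simp
    rw [h2]
    linarith

end Pool.Agent.H259.ND
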