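import Pool.Agent.H259.ND.Stmt

set_option autoImplicit false

namespace Pool.Agent.H259.ND

open Finset MeasureTheory Set

namespace A1L

theorem deriv_ex (x : ℝ) (s : ℝ) :
    HasDerivAt (fun s : ℝ => ex (s * x)) (Complex.I * x * ex (s * x)) s := by
  have h1 : HasDerivAt (fun s : ℝ => (((s * x : ℝ) : ℂ) * Complex.I)) ((x : ℂ) * Complex.I) s := by
    have h2 : HasDerivAt (fun s : ℝ => s * x) x s := by
      simpa using (hasDerivAt_id s).mul_const x
    exact (h2.ofReal_comp).mul_const Complex.I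
  have h3 := h1.cexp
  unfold ex
  have e : Complex.I * x * Complex.exp (((s * x : ℝ) : ℂ) * Complex.I) =
      Complex.exp (((s * x : ℝ) : ℂ) * Complex.I) * ((x : ℂ) * Complex.I) := by ring
  rw [e]
  exact h3

theorem cont_ex (x : ℝ) : Continuous fun s : ℝ => ex (s * x) := by
  unfold ex
  fun_prop

/-- the right half -/
theorem right (x : ℝ) (hx : x ≠ 0) :
    ∫ s in (0 : ℝ)..4, ((2 * (1 - |s| / 4) : ℝ) : ℂ) * ex (s * x) =
      (1 / 2) * ex (4 * x) / (Complex.I * x) ^ 2 - (2 / (Complex.I * x) +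
        (1 / 2) / (Complex.I * x) ^ 2) := by
  have hix : (Complex.I * (x : ℂ)) ≠ 0 := by
    refine mul_ne_zero Complex.I_ne_zero ?_
    exact_mod_cast hx
  have h1 : ∫ s in (0 : ℝ)..4, ((2 * (1 - |s| / 4) : ℝ) : ℂ) * ex (s * x) =
      ∫ s in (0 : ℝ)..4, ((2 * (1 - s / 4) : ℝ) : ℂ) * ex (s * x) := by
    apply intervalIntegral.integral_congr
    intro s hs
    rw [Set.uIcc_of_le (by norm_num)] at hs
    simp only [abs_of_nonneg hs.1]
  rw [h1]
  have hd : ∀ s ∈ uIcc (0 : ℝ) 4, HasDerivAt (fun s : ℝ => ((2 * (1 - s / 4) : ℝ) : ℂ) * ex (s * x) /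
      (Complex.I * x) + (1 / 2) * ex (s * x) / (Complex.I * x) ^ 2)
      (((2 * (1 - s / 4) : ℝ) : ℂ) * ex (s * x)) s := by
    intro s _
    have e1 : HasDerivAt (fun s : ℝ => ((2 * (1 - s / 4) : ℝ) : ℂ)) ((-(1 / 2) : ℝ) : ℂ) s := by
      have e2 : HasDerivAt (fun s : ℝ => 2 * (1 - s / 4)) (-(1 / 2)) s := by
        have e3 := (((hasDerivAt_id s).div_const 4).const_sub 1).const_mul 2
        have e4 : (2 : ℝ) * -(1 / 4) = -(1 / 2) := by norm_num
        rw [e4] at e3
        exact e3
      exact e2.ofReal_comp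
    have e5 := ((e1.mul (deriv_ex x s)).div_const (Complex.I * x)).add
      (((deriv_ex x s).const_mul (1 / 2 : ℂ)).div_const ((Complex.I * x) ^ 2))
    have e6 : (((-(1 / 2) : ℝ) : ℂ) * ex (s * x) + ((2 * (1 - s / 4) : ℝ) : ℂ) *
        (Complex.I * x * ex (s * x))) / (Complex.I * x) +
        1 / 2 * (Complex.I * x * ex (s * x)) / (Complex.I * x) ^ 2 =
        ((2 * (1 - s / 4) : ℝ) : ℂ) * ex (s * x) := by
      generalize hy : Complex.I * (x : ℂ) = y at hix ⊢
      push_cast
      field_simp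
      ring
    rw [e6] at e5
    exact e5
  have hi : IntervalIntegrable (fun s : ℝ => ((2 * (1 - s / 4) : ℝ) : ℂ) * ex (s * x))
      MeasureTheory.volume 0 4 := by
    apply Continuous.intervalIntegrable
    refine Continuous.mul ?_ (cont_ex x)
    fun_prop
  rw [intervalIntegral.integral_eq_sub_of_hasDerivAt hd hi]
  have e0 : ex (0 * x) = 1 := by unfold ex; simp
  rw [e0]
  generalize hy : Complex.I * (x : ℂ) = y at hix ⊢
  push_cast
  field_simp
  ring

/-- the left half -/
theorem left (x : ℝ) (hx : x ≠ 0) :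
    ∫ s in (-4 : ℝ)..0, ((2 * (1 - |s| / 4) : ℝ) : ℂ) * ex (s * x) =
      2 / (Complex.I * x) - (1 / 2) / (Complex.I * x) ^ 2 +
        (1 / 2) * ex (-4 * x) / (Complex.I * x) ^ 2 := by
  have hix : (Complex.I * (x : ℂ)) ≠ 0 := by
    refine mul_ne_zero Complex.I_ne_zero ?_
    exact_mod_cast hx
  have h1 : ∫ s in (-4 : ℝ)..0, ((2 * (1 - |s| / 4) : ℝ) : ℂ) * ex (s * x) =
      ∫ s in (-4 : ℝ)..0, ((2 * (1 + s / 4) : ℝ) : ℂ) * ex (s * x) := by
    apply intervalIntegral.integral_congr
    intro s hs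
    rw [Set.uIcc_of_le (by norm_num)] at hs
    simp only [abs_of_nonpos hs.2]
    congr 3
    ring
  rw [h1]
  have hd : ∀ s ∈ uIcc (-4 : ℝ) 0, HasDerivAt (fun s : ℝ => ((2 * (1 + s / 4) : ℝ) : ℂ) * ex (s * x) /
      (Complex.I * x) - (1 / 2) * ex (s * x) / (Complex.I * x) ^ 2)
      (((2 * (1 + s / 4) : ℝ) : ℂ) * ex (s * x)) s := by
    intro s _
    have e1 : HasDerivAt (fun s : ℝ => ((2 * (1 + s / 4) : ℝ) : ℂ)) ((1 / 2 : ℝ) : ℂ) s := by
      have e2 : HasDerivAt (fun s : ℝ => 2 * (1 + s / 4)) (1 / 2) s := by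
        have e3 := (((hasDerivAt_id s).div_const 4).const_add 1).const_mul 2
        have e4 : (2 : ℝ) * (1 / 4) = 1 / 2 := by norm_num
        rw [e4] at e3
        exact e3
      exact e2.ofReal_comp
    have e5 := ((e1.mul (deriv_ex x s)).div_const (Complex.I * x)).sub
      (((deriv_ex x s).const_mul (1 / 2 : ℂ)).div_const ((Complex.I * x) ^ 2))
    have e6 : (((1 / 2 : ℝ) : ℂ) * ex (s * x) + ((2 * (1 + s / 4) : ℝ) : ℂ) *
        (Complex.I * x * ex (s * x))) / (Complex.I * x) -
        1 / 2 * (Complex.I * x * ex (s * x)) / (Complex.I * x) ^ 2 =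
        ((2 * (1 + s / 4) : ℝ) : ℂ) * ex (s * x) := by
      generalize hy : Complex.I * (x : ℂ) = y at hix ⊢
      push_cast
      field_simp
      ring
    rw [e6] at e5
    exact e5
  have hi : IntervalIntegrable (fun s : ℝ => ((2 * (1 + s / 4) : ℝ) : ℂ) * ex (s * x))
      MeasureTheory.volume (-4) 0 := by
    apply Continuous.intervalIntegrable
    refine Continuous.mul ?_ (cont_ex x)
    fun_prop
  rw [intervalIntegral.integral_eq_sub_of_hasDerivAt hd hi]
  have e0 : ex (0 * x) = 1 := by unfold ex; simp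
  rw [e0]
  generalize hy : Complex.I * (x : ℂ) = y at hix ⊢
  push_cast
  field_simp
  ring

theorem int_zero : ∫ s in (-4 : ℝ)..4, ((2 * (1 - |s| / 4) : ℝ) : ℂ) = 8 := by
  rw [intervalIntegral.integral_ofReal]
  have h1 : ∫ s in (-4 : ℝ)..4, (2 * (1 - |s| / 4) : ℝ) = 8 := by
    have hc : Continuous fun s : ℝ => (2 * (1 - |s| / 4) : ℝ) := by fun_prop
    rw [← intervalIntegral.integral_add_adjacent_intervals (b := 0) (hc.intervalIntegrable _ _)
      (hc.intervalIntegrable _ _)]
    have h2 : ∫ s in (-4 : ℝ)..0, (2 * (1 - |s| / 4) : ℝ) = ∫ s in (-4 : ℝ)..0, (2 * (1 + s / 4) : ℝ) := by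
      apply intervalIntegral.integral_congr
      intro s hs
      rw [Set.uIcc_of_le (by norm_num)] at hs
      simp only [abs_of_nonpos hs.2]
      ring
    have h3 : ∫ s in (0 : ℝ)..4, (2 * (1 - |s| / 4) : ℝ) = ∫ s in (0 : ℝ)..4, (2 * (1 - s / 4) : ℝ) := by
      apply intervalIntegral.integral_congr
      intro s hs
      rw [Set.uIcc_of_le (by norm_num)] at hs
      simp only [abs_of_nonneg hs.1]
    rw [h2, h3]
    have h4 : ∫ s in (-4 : ℝ)..0, (2 * (1 + s / 4) : ℝ) = 4 := by
      rw [intervalIntegral.integral_eq_sub_of_hasDerivAt (f := fun s => 2 * s + s ^ 2 / 4)]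
      · norm_num
      · intro s _
        have e := ((hasDerivAt_id s).const_mul 2).add (((hasDerivAt_id s).pow 2).div_const 4)
        have e1 : 2 * 1 + ((2 : ℕ) : ℝ) * id s ^ (2 - 1) * 1 / 4 = 2 * (1 + s / 4) := by
          simp
          ring
        rw [e1] at e
        exact e
      · apply Continuous.intervalIntegrable
        fun_prop
    have h5 : ∫ s in (0 : ℝ)..4, (2 * (1 - s / 4) : ℝ) = 4 := by
      rw [intervalIntegral.integral_eq_sub_of_hasDerivAt (f := fun s => 2 * s - s ^ 2 / 4)]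
      · norm_num
      · intro s _
        have e := ((hasDerivAt_id s).const_mul 2).sub (((hasDerivAt_id s).pow 2).div_const 4)
        have e1 : 2 * 1 - ((2 : ℕ) : ℝ) * id s ^ (2 - 1) * 1 / 4 = 2 * (1 - s / 4) := by
          simp
          ring
        rw [e1] at e
        exact e
      · apply Continuous.intervalIntegrable
        fun_prop
    rw [h4, h5]
    norm_num
  rw [h1]
  norm_num

end A1L

theorem leaf_A1 : S_A1 := by
  refine ⟨?_, ?_, ?_, ?_, ?_⟩
  · intro x
    by_cases hx : x = 0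
    · subst hx
      have h1 : ∀ s : ℝ, ((2 * (1 - |s| / 4) : ℝ) : ℂ) * ex (s * 0) =
          ((2 * (1 - |s| / 4) : ℝ) : ℂ) := by
        intro s
        have h2 : ex (s * 0) = 1 := by unfold ex; simp
        rw [h2, mul_one]
      simp only [h1]
      rw [A1L.int_zero]
      unfold Fk
      rw [if_pos rfl]
      norm_num
    · have hc : Continuous fun s : ℝ => ((2 * (1 - |s| / 4) : ℝ) : ℂ) * ex (s * x) := by
        refine Continuous.mul ?_ (A1L.cont_ex x)
        fun_prop
      rw [← intervalIntegral.integral_add_adjacent_intervals (b := 0) (hc.intervalIntegrable _ _)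
        (hc.intervalIntegrable _ _), A1L.left x hx, A1L.right x hx]
      unfold Fk
      rw [if_neg hx]
      have hx' : (x : ℂ) ≠ 0 := by exact_mod_cast hx
      have hI : (Complex.I * (x : ℂ)) ^ 2 = -(x : ℂ) ^ 2 := by
        rw [mul_pow, Complex.I_sq]
        ring
      have hix : (Complex.I * (x : ℂ)) ≠ 0 := mul_ne_zero Complex.I_ne_zero hx'
      have hcos : ex (4 * x) + ex (-4 * x) = 2 * Complex.cos (4 * x) := by
        unfold ex
        rw [Complex.cos]
        push_cast
        rw [show (-4 : ℂ) * (x : ℂ) * Complex.I = -(4 * (x : ℂ)) * Complex.I by ring]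
        ring
      have h5 : 2 / (Complex.I * x) - (1 / 2) / (Complex.I * x) ^ 2 +
          (1 / 2) * ex (-4 * x) / (Complex.I * x) ^ 2 +
          ((1 / 2) * ex (4 * x) / (Complex.I * x) ^ 2 - (2 / (Complex.I * x) +
          (1 / 2) / (Complex.I * x) ^ 2)) =
          (1 / 2) * (ex (4 * x) + ex (-4 * x)) / (Complex.I * x) ^ 2 - 1 / (Complex.I * x) ^ 2 := by
        ring
      rw [h5, hcos, hI]
      push_cast
      field_simp
      ring
  · intro x
    unfold Fk
    split_ifs
    · norm_num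
    · have := Real.cos_le_one (4 * x)
      exact div_nonneg (by linarith) (sq_nonneg x)
  · intro x
    unfold Fk
    split_ifs with h
    · exact le_rfl
    · have h1 := Real.one_sub_sq_div_two_le_cos (x := 4 * x)
      have h2 : 0 < x ^ 2 := by positivity
      rw [div_le_iff₀ h2]
      nlinarith
  · intro x
    unfold Fk
    split_ifs with h
    · rw [h]
      norm_num
    · have h2 : x ^ 2 ≠ 0 := by positivity
      rw [div_mul_cancel₀ _ h2]
      have := Real.neg_one_le_cos (4 * x)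
      linarith
  · intro x
    unfold Fk
    by_cases h : x = 0
    · rw [h]
      simp
    · rw [if_neg h, if_neg (neg_ne_zero.2 h), mul_neg, Real.cos_neg, neg_sq]

end Pool.Agent.H259.ND
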