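import Pool.Agent.H259.ND.Stmt

/-!
A10: the bilinear estimate for waves with forcing (helper30).
-/

set_option autoImplicit false

open MeasureTheory Set Finset

namespace Pool.Agent.H259.ND

namespace A10L

theorem reidx (P R : Finset Z3) (k : Z3) (A B : Z3 → ℂ) (hB : ∀ q ∉ R, B q = 0) :
    ∑ q ∈ R, (if k - q ∈ P then A (k - q) else 0) * B q = ∑ p ∈ P, A p * B (k - p) := by
  classical
  have h1 : ∑ q ∈ R, (if k - q ∈ P then A (k - q) else 0) * B q =
      ∑ q ∈ R.filter (fun q => k - q ∈ P), A (k - q) * B q := by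
    rw [Finset.sum_filter]
    refine Finset.sum_congr rfl fun q _ => ?_
    split_ifs <;> simp
  have h2 : ∑ p ∈ P, A p * B (k - p) = ∑ p ∈ P.filter (fun p => k - p ∈ R), A p * B (k - p) := by
    rw [Finset.sum_filter]
    refine Finset.sum_congr rfl fun p _ => ?_
    split_ifs with h
    · rfl
    · rw [hB _ h, mul_zero]
  rw [h1, h2]
  refine Finset.sum_nbij' (fun q => k - q) (fun p => k - p) ?_ ?_ ?_ ?_ ?_
  · intro q hq
    rw [Finset.mem_filter] at hq ⊢
    refine ⟨hq.2, ?_⟩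
    rw [sub_sub_cancel]
    exact hq.1
  · intro p hp
    rw [Finset.mem_filter] at hp ⊢
    refine ⟨hp.2, ?_⟩
    rw [sub_sub_cancel]
    exact hp.1
  · intro q _
    exact sub_sub_cancel k q
  · intro p _
    exact sub_sub_cancel k p
  · intro q _
    rw [sub_sub_cancel]

theorem nrm_nonneg (P : Finset Z3) (u : Z3 → ℂ) : 0 ≤ nrm P u := Real.sqrt_nonneg _

theorem nrm_sq (P : Finset Z3) (u : Z3 → ℂ) : nrm P u ^ 2 = ∑ p ∈ P, ‖u p‖ ^ 2 :=
  Real.sq_sqrt (Finset.sum_nonneg fun _ _ => by positivity)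

theorem ex_add (x y : ℝ) : ex (x + y) = ex x * ex y := by
  unfold ex
  rw [← Complex.exp_add]
  push_cast
  ring_nf

theorem ex_cont (a : ℝ) : Continuous fun t : ℝ => ex (a * t) := by
  unfold ex
  fun_prop

/-- first application -/
theorem step1 (hb : S_A10b) (φ : Z3 → ℝ) (𝒦 P R : Finset Z3) (τ K : ℝ) (hτ : 0 ≤ τ) (hK : 0 ≤ K)
    (hB : BilBd φ 𝒦 P R τ K) (s : ℝ) (x f : ℝ → Z3 → ℂ)
    (hx : ∀ p ∈ P, ∀ t ∈ Icc s (s + τ), HasDerivWithinAt (fun t => x t p)
      (-Complex.I * φ p * x t p + f t p) (Icc s (s + τ)) t)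
    (hf : ∀ p ∈ P, ContinuousOn (fun t => f t p) (Icc s (s + τ)))
    (v : Z3 → ℂ) (hv : ∀ q ∉ R, v q = 0) :
    ∫ t in s..(s + τ), ∑ k ∈ 𝒦, ‖∑ p ∈ P, x t p * (v (k - p) * ex (-φ (k - p) * t))‖ ^ 2
      ≤ K * (∑ q ∈ R, ‖v q‖ ^ 2) *
        (nrm P (x s) + ∫ t in s..(s + τ), nrm P (f t)) ^ 2 := by
  have hse : s ≤ s + τ := by linarith
  have h := hb φ 𝒦 P (fun k p t => v (k - p) * ex (-φ (k - p) * t)) x f s (s + τ)
    (√K * nrm R v) hse (mul_nonneg (Real.sqrt_nonneg _) (nrm_nonneg _ _)) ?_ ?_ hx hf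
  · rw [mul_pow, Real.sq_sqrt hK, nrm_sq] at h
    refine le_trans (le_of_eq ?_) h
    congr 1
    funext t
    refine Finset.sum_congr rfl fun k _ => ?_
    congr 2
    exact Finset.sum_congr rfl fun p _ => mul_comm _ _
  · intro k _ p _
    exact (continuous_const.mul (ex_cont _)).continuousOn
  · intro u
    rw [mul_pow, Real.sq_sqrt hK, nrm_sq]
    have h2 := hB u v hv s
    have h3 : K * (∑ p ∈ P, ‖u p‖ ^ 2) * (∑ q ∈ R, ‖v q‖ ^ 2) =
        K * (∑ q ∈ R, ‖v q‖ ^ 2) * ∑ p ∈ P, ‖u p‖ ^ 2 := by ring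
    rw [h3] at h2
    refine le_trans (le_of_eq ?_) h2
    congr 1
    funext t
    refine Finset.sum_congr rfl fun k _ => ?_
    congr 2
    unfold Qb
    refine Finset.sum_congr rfl fun p _ => ?_
    have h4 : -(φ p + φ (k - p)) * t = -φ (k - p) * t + -φ p * t := by ring
    rw [h4, ex_add]
    ring

end A10L

theorem leaf_A10 (h : S_A10b) : S_A10 := by
  classical
  intro φ 𝒦 P R τ K hτ hK hB s x y f g hx hy hf hg hy0
  have hse : s ≤ s + τ := by linarith
  set N : ℝ := nrm P (x s) + ∫ t in s..(s + τ), nrm P (f t) with hN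
  have hN0 : 0 ≤ N := add_nonneg (A10L.nrm_nonneg _ _)
    (intervalIntegral.integral_nonneg hse fun t _ => A10L.nrm_nonneg _ _)
  have h1 := h φ 𝒦 R (fun k q t => if k - q ∈ P then x t (k - q) else 0) y g s (s + τ)
    (√K * N) hse (mul_nonneg (Real.sqrt_nonneg _) hN0) ?_ ?_ hy hg
  · rw [mul_pow, Real.sq_sqrt hK] at h1
    have h2 : K * (N * (nrm R (y s) + ∫ t in s..(s + τ), nrm R (g t))) ^ 2 =
        K * N ^ 2 * (nrm R (y s) + ∫ t in s..(s + τ), nrm R (g t)) ^ 2 := by ring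
    rw [h2]
    refine le_trans (le_of_eq ?_) h1
    congr 1
    funext t
    refine Finset.sum_congr rfl fun k _ => ?_
    congr 2
    exact (A10L.reidx P R k (x t) (y t) (fun q hq => hy0 q hq t)).symm
  · intro k _ q _
    by_cases hq : k - q ∈ P
    · simp only [hq, if_true]
      exact fun t ht => (hx _ hq t ht).continuousWithinAt
    · simp only [hq, if_false]
      exact continuousOn_const
  · intro v
    set v' : Z3 → ℂ := fun q => if q ∈ R then v q else 0 with hv'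
    have hv0 : ∀ q ∉ R, v' q = 0 := fun q hq => by rw [hv']; simp [hq]
    have h3 := A10L.step1 h φ 𝒦 P R τ K hτ hK hB s x f hx hf v' hv0
    rw [mul_pow, Real.sq_sqrt hK]
    have h4 : ∑ q ∈ R, ‖v' q‖ ^ 2 = ∑ q ∈ R, ‖v q‖ ^ 2 := by
      refine Finset.sum_congr rfl fun q hq => ?_
      rw [hv']
      simp [hq]
    rw [h4] at h3
    have h5 : K * N ^ 2 * ∑ q ∈ R, ‖v q‖ ^ 2 = K * (∑ q ∈ R, ‖v q‖ ^ 2) * N ^ 2 := by ring
    rw [h5]
    refine le_trans (le_of_eq ?_) h3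
    congr 1
    funext t
    refine Finset.sum_congr rfl fun k _ => ?_
    congr 2
    have h6 := A10L.reidx P R k (x t) (fun q => v' q * ex (-φ q * t))
      (fun q hq => by rw [hv0 q hq, zero_mul])
    rw [← h6]
    refine Finset.sum_congr rfl fun q hq => ?_
    rw [hv']
    simp [hq]

end Pool.Agent.H259.ND
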