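import Pool.Agent.H259.ND.Stmt

set_option autoImplicit false

open MeasureTheory Set Finset

namespace Pool.Agent.H259.ND

namespace B4L

theorem AW_nn {C₀ ν c₁ E : ℝ} {M : ℕ} {L₀ : ℝ} {X g : ℕ → ℝ → ℝ} {q : ℕ → ℕ → ℕ → ℝ → ℝ}
    (h1 : S_W1) (hS : Sys C₀ ν c₁ E M L₀ X g q) {τ L : ℝ} (hτ : 0 < τ) (hL : 0 ≤ L)
    (l a n : ℕ) : 0 ≤ AW τ L X g l a n := by
  unfold AW Aw
  have h := (h1 τ L hτ hL).1 a n
  exact add_nonneg (hS.X0 _ _)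
    (intervalIntegral.integral_nonneg h (fun u _ => hS.g0 _ _))

theorem XXj_nn {C₀ ν c₁ E : ℝ} {M : ℕ} {L₀ : ℝ} {X g : ℕ → ℝ → ℝ} {q : ℕ → ℕ → ℕ → ℝ → ℝ}
    (_hS : Sys C₀ ν c₁ E M L₀ X g q) (τ L : ℝ) (l : ℕ) : 0 ≤ XXj τ L X g l := by
  unfold XXj
  exact le_trans (sq_nonneg (AW τ L X g l l 0))
    (Finset.le_sup' (fun n => AW τ L X g l l n ^ 2)
      (Finset.mem_range.mpr (by positivity : 0 < 4 ^ l)))

theorem Yj_nn (X g : ℕ → ℝ → ℝ) (τ L : ℝ) (l : ℕ) : 0 ≤ Yj τ L X g l := by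
  unfold Yj
  exact Finset.sum_nonneg (fun n _ => mul_nonneg (Real.sqrt_nonneg _) (sq_nonneg _))

end B4L

open B4L in
theorem leaf_B4 (h1 : S_W1) (hB1 : S_B1) (hB2 : S_B2) (h5 : S_B5) (h8 : S_W8) : S_B4 := by
  obtain ⟨C, hC, hB⟩ := hB2
  refine ⟨4096 * C, by positivity, ?_⟩
  intro C₀ ν c₁ E M L₀ X g q hS τ L hτ hL hLL hLτ hτc h4 XX YY hXX hYY j S hSb
  have hXX0 : 0 ≤ XX := le_trans (XXj_nn hS τ L 0) (hXX 0)
  have hYY0 : 0 ≤ YY := le_trans (Yj_nn X g τ L 0) (hYY 0)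
  have hw := h1 τ L hτ hL
  have hcont : Continuous (fun x => X j x ^ 2) := (hS.cX j).pow 2
  have hex : ∀ n : ℕ, ∃ t ∈ Icc (ew τ L j n) (ew τ L j (n + 1)),
      ∀ x ∈ Icc (ew τ L j n) (ew τ L j (n + 1)), X j t ^ 2 ≤ X j x ^ 2 := by
    intro n
    obtain ⟨t, ht, hm⟩ := isCompact_Icc.exists_isMinOn
      (nonempty_Icc.mpr (hw.1 j n)) (hcont.continuousOn (s := Icc (ew τ L j n) (ew τ L j (n + 1))))
    exact ⟨t, ht, fun x hx => hm hx⟩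
  choose t ht htm using hex
  have hb5 := h5 (fun x => X j x ^ 2) τ L S j t hcont (fun x => sq_nonneg _) hτ hL hLτ hSb ht htm
  have hterm : ∀ n ∈ range (4 ^ j), √(ww τ L j n) * AW τ L X g j j n ^ 2 ≤
      8 * (√(ww τ L j n) * X j (t n) ^ 2) + 32 * (C * C₀ ^ 2 * τ *
        (XX * ∑ l ∈ nearS M j, ys τ L X g l j n
          + YY * ∑ l ∈ upS M j, (2 : ℝ) ^ j / 2 ^ l * ys τ L X g l j n)) := by
    intro n hn
    have hn' : n < 4 ^ j := Finset.mem_range.mp hn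
    have hb1 := hB1 C₀ ν c₁ E M L₀ X g q hS τ L hτ hL hLL h4 j n _ (ht n)
    have hb2 := hB C₀ ν c₁ E M L₀ X g q hS τ L hτ hL hLL hLτ hτc XX YY hXX hYY j n hn'
    have hA := AW_nn h1 hS hτ hL j j n
    generalize AW τ L X g j j n = A at hb1 hA ⊢
    have w0 : 0 ≤ √(ww τ L j n) := Real.sqrt_nonneg _
    have w1 : √(ww τ L j n) ≤ 1 := by
      rw [Real.sqrt_le_one]
      exact hw.2.2.2.2.2.2.2.1 j n
    generalize √(ww τ L j n) = w at w0 w1 ⊢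
    generalize Gj τ L M q j n = G at hb1 hb2
    generalize X j (t n) = x at hb1 ⊢
    have k5 : A ^ 2 ≤ (2 * x + 4 * G) ^ 2 := pow_le_pow_left₀ hA hb1 2
    have k6 : (2 * x + 4 * G) ^ 2 ≤ 8 * x ^ 2 + 32 * G ^ 2 := by
      nlinarith [sq_nonneg (2 * x - 4 * G)]
    have k7 : w * A ^ 2 ≤ w * (8 * x ^ 2 + 32 * G ^ 2) :=
      mul_le_mul_of_nonneg_left (k5.trans k6) w0
    have k8 : w * (32 * G ^ 2) ≤ 32 * G ^ 2 := by
      have : 0 ≤ 32 * G ^ 2 := by positivity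
      nlinarith
    linarith
  have hys : ∀ l, j ≤ l + 3 → ∑ n ∈ range (4 ^ j), ys τ L X g l j n ≤ 128 * Yj τ L X g l :=
    fun l hl => (h8 C₀ ν c₁ E M L₀ X g q hS τ L hτ hL hLL l j).2.2 hl
  have e1 : ∑ n ∈ range (4 ^ j), ∑ l ∈ nearS M j, ys τ L X g l j n ≤
      128 * ∑ l ∈ nearS M j, Yj τ L X g l := by
    rw [Finset.sum_comm, Finset.mul_sum]
    apply Finset.sum_le_sum
    intro l hl
    have hl' := (Finset.mem_filter.mp hl).2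
    exact hys l (by omega)
  have e2 : ∑ n ∈ range (4 ^ j), ∑ l ∈ upS M j, (2 : ℝ) ^ j / 2 ^ l * ys τ L X g l j n ≤
      128 * ∑ l ∈ upS M j, (2 : ℝ) ^ j / 2 ^ l * Yj τ L X g l := by
    rw [Finset.sum_comm, Finset.mul_sum]
    apply Finset.sum_le_sum
    intro l hl
    have hl' := (Finset.mem_filter.mp hl).2
    rw [← Finset.mul_sum]
    have := mul_le_mul_of_nonneg_left (hys l hl') (by positivity : (0 : ℝ) ≤ (2 : ℝ) ^ j / 2 ^ l)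
    linarith
  have hsum := Finset.sum_le_sum hterm
  rw [Finset.sum_add_distrib, ← Finset.mul_sum, ← Finset.mul_sum, ← Finset.mul_sum,
    Finset.sum_add_distrib, ← Finset.mul_sum, ← Finset.mul_sum] at hsum
  show ∑ n ∈ range (4 ^ j), √(ww τ L j n) * AW τ L X g j j n ^ 2 ≤ _
  generalize ∑ n ∈ range (4 ^ j), ∑ l ∈ nearS M j, ys τ L X g l j n = s1 at e1 hsum
  generalize ∑ n ∈ range (4 ^ j), ∑ l ∈ upS M j, (2 : ℝ) ^ j / 2 ^ l * ys τ L X g l j n = s2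
    at e2 hsum
  generalize ∑ l ∈ nearS M j, Yj τ L X g l = sX at e1 ⊢
  generalize ∑ l ∈ upS M j, (2 : ℝ) ^ j / 2 ^ l * Yj τ L X g l = sY at e2 ⊢
  have k1 : XX * s1 ≤ XX * (128 * sX) := mul_le_mul_of_nonneg_left e1 hXX0
  have k2 : YY * s2 ≤ YY * (128 * sY) := mul_le_mul_of_nonneg_left e2 hYY0
  have k4 : C * C₀ ^ 2 * τ * (XX * s1 + YY * s2) ≤
      C * C₀ ^ 2 * τ * (128 * (XX * sX + YY * sY)) :=
    mul_le_mul_of_nonneg_left (by linarith) (by positivity)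
  calc ∑ n ∈ range (4 ^ j), √(ww τ L j n) * AW τ L X g j j n ^ 2
      ≤ 8 * ∑ n ∈ range (4 ^ j), √(ww τ L j n) * X j (t n) ^ 2 +
        32 * (C * C₀ ^ 2 * τ * (XX * s1 + YY * s2)) := hsum
    _ ≤ 8 * (4 ^ j * (∫ x in (0 : ℝ)..L, X j x ^ 2) / τ
        + min S √(S * (4 ^ j * (∫ x in (0 : ℝ)..L, X j x ^ 2) / τ))) +
        32 * (C * C₀ ^ 2 * τ * (128 * (XX * sX + YY * sY))) := by
      linarith
    _ = _ := by ring

end Pool.Agent.H259.ND
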