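import Pool.Agent.H259.ND.Stmt2

/-!
# C3e: the energy of a shell
-/

open MeasureTheory Set Finset

namespace Pool.Agent.H259.ND

namespace C3eL

theorem cs2 (P : Finset Z3) (u v : Z3 → Fin 3 → ℝ) :
    ∑ k ∈ P, ∑ i, u k i * v k i ≤ √(∑ k ∈ P, ∑ i, u k i ^ 2) * √(∑ k ∈ P, ∑ i, v k i ^ 2) := by
  have h := Real.sum_mul_le_sqrt_mul_sqrt (P ×ˢ (Finset.univ : Finset (Fin 3)))
    (fun x => u x.1 x.2) (fun x => v x.1 x.2)
  rwa [Finset.sum_product, Finset.sum_product, Finset.sum_product] at h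

theorem re_val (d a n : ℂ) :
    (starRingEnd ℂ a * (-d * a - n)).re = -(d.re * ‖a‖ ^ 2) - (starRingEnd ℂ a * n).re := by
  rw [← Complex.normSq_eq_norm_sq, Complex.normSq_apply]
  simp only [Complex.mul_re, Complex.mul_im, Complex.sub_re, Complex.sub_im, Complex.neg_re,
    Complex.neg_im, Complex.conj_re, Complex.conj_im]
  ring

theorem abs_re_le (a f : ℂ) : |(starRingEnd ℂ a * f).re| ≤ ‖a‖ * ‖f‖ := by
  have h := Complex.abs_re_le_norm (starRingEnd ℂ a * f)
  rwa [norm_mul, Complex.norm_conj] at h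

theorem der_sq {A : ℝ → ℂ} {A' : ℂ} {U : Set ℝ} {t : ℝ} (h : HasDerivWithinAt A A' U t) :
    HasDerivWithinAt (fun t => ‖A t‖ ^ 2) (2 * (starRingEnd ℂ (A t) * A').re) U t := by
  have h1 := h.norm_sq
  rw [Complex.inner, mul_comm A'] at h1
  exact h1

theorem term_le {d a n : ℂ} {l : ℝ} (h : l ≤ d.re) :
    2 * (starRingEnd ℂ a * (-d * a - n)).re ≤ -(2 * l) * ‖a‖ ^ 2 + 2 * (‖a‖ * ‖n‖) := by
  rw [re_val]
  have h1 := abs_re_le a n
  have h2 := neg_abs_le (starRingEnd ℂ a * n).re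
  have h3 : l * ‖a‖ ^ 2 ≤ d.re * ‖a‖ ^ 2 := mul_le_mul_of_nonneg_right h (sq_nonneg _)
  linarith

end C3eL

open C3eL

theorem leaf_C3e (ha : S_C3a) (hb : S_C3b) : S_C3e := by
  intro β γ D ν Cd Cn E S T a N G M hM j t ht
  obtain ⟨hX, _, hq, hsq, _⟩ := ha β γ D ν Cd Cn E S T a N G
  have hsub : Icc 0 t ⊆ Icc (0 : ℝ) T := Set.Icc_subset_Icc le_rfl ht.2
  have hSs : ∀ k ∈ Ss S j, k ∈ S ∧ InSh j k := by
    intro k hk
    simp only [Ss, Finset.mem_filter] at hk
    exact hk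
  have hn : Continuous fun r => nn M (qs Cn S a) j r := by
    unfold nn
    exact continuous_finsetSum _ fun l _ => continuous_finsetSum _ fun m _ => hq j m l
  set F : ℝ → ℝ := fun r => ∑ k ∈ Ss S j, ∑ i, 2 * (starRingEnd ℂ (a r k i)
    * (-D k * a r k i - N r k i)).re with hF
  have cF : Continuous F := by
    rw [hF]
    refine continuous_finsetSum _ fun k _ => continuous_finsetSum _ fun i _ => ?_
    have h1 := G.ca k i
    have h2 := G.cN k i
    refine continuous_const.mul (Complex.continuous_re.comp ?_)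
    exact (Complex.continuous_conj.comp h1).mul ((continuous_const.mul h1).sub h2)
  have hder : ∀ r ∈ Ioo 0 t, HasDerivAt (fun r => Xs S a j r ^ 2) (F r) r := by
    intro r hr
    have hr1 : r ∈ Icc 0 T := hsub (Ioo_subset_Icc_self hr)
    have h1 : HasDerivWithinAt (fun r => ∑ k ∈ Ss S j, ∑ i, ‖a r k i‖ ^ 2) (F r) (Icc 0 T) r :=
      HasDerivWithinAt.fun_sum fun k hk => HasDerivWithinAt.fun_sum fun i _ =>
        der_sq (G.der r hr1 k (hSs k hk).1 i)
    have h2 : (fun r => Xs S a j r ^ 2) = fun r => ∑ k ∈ Ss S j, ∑ i, ‖a r k i‖ ^ 2 := by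
      funext r
      exact hsq j r
    rw [h2]
    exact h1.hasDerivAt (Icc_mem_nhds hr.1 (hr.2.trans_le ht.2))
  have hcX : Continuous fun r => Xs S a j r ^ 2 := (hX j).pow 2
  have hint : ∫ r in (0 : ℝ)..t, F r = Xs S a j t ^ 2 - Xs S a j 0 ^ 2 :=
    intervalIntegral.integral_eq_sub_of_hasDerivAt_of_le ht.1 hcX.continuousOn hder
      (cF.intervalIntegrable _ _)
  have hle : ∀ r, F r ≤ -(2 * (ν * 4 ^ j)) * Xs S a j r ^ 2
      + 2 * (Xs S a j r * (2 ^ j * nn M (qs Cn S a) j r)) := by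
    intro r
    have h1 : F r ≤ ∑ k ∈ Ss S j, ∑ i, (-(2 * (ν * 4 ^ j)) * ‖a r k i‖ ^ 2
        + 2 * (‖a r k i‖ * ‖N r k i‖)) := by
      rw [hF]
      refine Finset.sum_le_sum fun k hk => Finset.sum_le_sum fun i _ => ?_
      refine term_le ?_
      refine le_trans ?_ (G.lo k)
      refine mul_le_mul_of_nonneg_left ?_ G.νpos.le
      have := (hSs k hk).2.1
      exact_mod_cast this
    have h2 : ∑ k ∈ Ss S j, ∑ i, (-(2 * (ν * 4 ^ j)) * ‖a r k i‖ ^ 2
        + 2 * (‖a r k i‖ * ‖N r k i‖)) = -(2 * (ν * 4 ^ j)) * Xs S a j r ^ 2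
        + 2 * ∑ k ∈ Ss S j, ∑ i, ‖a r k i‖ * ‖N r k i‖ := by
      rw [hsq j r, Finset.mul_sum, Finset.mul_sum, ← Finset.sum_add_distrib]
      refine Finset.sum_congr rfl fun k _ => ?_
      rw [Finset.mul_sum, Finset.mul_sum, ← Finset.sum_add_distrib]
    rw [h2] at h1
    have h3 : ∑ k ∈ Ss S j, ∑ i, ‖a r k i‖ * ‖N r k i‖
        ≤ Xs S a j r * (2 ^ j * nn M (qs Cn S a) j r) := by
      refine (cs2 (Ss S j) (fun k i => ‖a r k i‖) (fun k i => ‖N r k i‖)).trans ?_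
      exact mul_le_mul_of_nonneg_left (hb β γ D ν Cd Cn E S T a N G M hM j r)
        (Real.sqrt_nonneg _)
    linarith
  have cR : Continuous fun r => Xs S a j r * (2 ^ j * nn M (qs Cn S a) j r) :=
    (hX j).mul (continuous_const.mul hn)
  have hmono : ∫ r in (0 : ℝ)..t, F r ≤ ∫ r in (0 : ℝ)..t, (-(2 * (ν * 4 ^ j)) * Xs S a j r ^ 2
      + 2 * (Xs S a j r * (2 ^ j * nn M (qs Cn S a) j r))) := by
    refine intervalIntegral.integral_mono_on ht.1 (cF.intervalIntegrable _ _) ?_ fun r _ => hle r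
    exact ((continuous_const.mul hcX).add (continuous_const.mul cR)).intervalIntegrable _ _
  have i1 : IntervalIntegrable (fun r => -(2 * (ν * 4 ^ j)) * Xs S a j r ^ 2) volume 0 t :=
    (continuous_const.mul hcX).intervalIntegrable _ _
  have i2 : IntervalIntegrable
      (fun r => 2 * (Xs S a j r * (2 ^ j * nn M (qs Cn S a) j r))) volume 0 t :=
    (continuous_const.mul cR).intervalIntegrable _ _
  rw [intervalIntegral.integral_add i1 i2, intervalIntegral.integral_const_mul,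
    intervalIntegral.integral_const_mul, hint] at hmono
  linarith

end Pool.Agent.H259.ND
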