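import Pool.Agent.H259.ND.Stmt

/-!
# Part C: from a finite system of ordinary differential equations to `Sys`
-/

open MeasureTheory Set Finset

namespace Pool.Agent.H259.ND

/-- the part of `S` in the shell `j` -/
noncomputable def Ss (S : Finset Z3) (j : ℕ) : Finset Z3 := by
  classical exact S.filter (InSh j)

/-- A finite system `a' = - D a - N` for the coefficients `a t k i`, `k ∈ S`, `i = 0, 1, 2`, with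
`Im D = φ`, `Re D ~ |k|²`, a quadratic nonlinearity `N` and a bound of the energy. -/
structure GS (β γ : Fin 3 → ℝ) (D : Z3 → ℂ) (ν Cd Cn E : ℝ) (S : Finset Z3) (T : ℝ)
    (a N : ℝ → Z3 → Fin 3 → ℂ) : Prop where
  zero : (0 : Z3) ∉ S
  Tnn : 0 ≤ T
  νpos : 0 < ν
  Cd0 : 0 ≤ Cd
  Cn0 : 0 ≤ Cn
  E0 : 0 ≤ E
  supp : ∀ t, ∀ k ∉ S, ∀ i, a t k i = 0
  ca : ∀ k i, Continuous fun t => a t k i
  cN : ∀ k i, Continuous fun t => N t k i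
  der : ∀ t ∈ Icc 0 T, ∀ k ∈ S, ∀ i, HasDerivWithinAt (fun t => a t k i)
    (-D k * a t k i - N t k i) (Icc 0 T) t
  im : ∀ k, (D k).im = ph3 β γ k
  lo : ∀ k, ν * (sq3 k : ℝ) ≤ (D k).re
  hi : ∀ k, (D k).re ≤ Cd * (sq3 k : ℝ)
  nb : ∀ t, ∀ k ∈ S, ∀ i, ‖N t k i‖ ≤ Cn * √(sq3 k : ℝ)
    * ∑ i', ∑ i'', ‖∑ p ∈ S, a t p i' * a t (k - p) i''‖
  en : ∀ t ∈ Icc 0 T, (∑ k ∈ S, ∑ i, ‖a t k i‖ ^ 2)
    + 2 * ν * (∫ r in (0 : ℝ)..t, ∑ k ∈ S, (sq3 k : ℝ) * ∑ i, ‖a r k i‖ ^ 2) ≤ E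

/-- the size of a shell -/
noncomputable def Xs (S : Finset Z3) (a : ℝ → Z3 → Fin 3 → ℂ) (j : ℕ) (t : ℝ) : ℝ :=
  √(∑ k ∈ Ss S j, ∑ i, ‖a t k i‖ ^ 2)

/-- the terms besides the oscillation -/
noncomputable def ff (D : Z3 → ℂ) (a N : ℝ → Z3 → Fin 3 → ℂ) (t : ℝ) (k : Z3) (i : Fin 3) : ℂ :=
  -((D k).re : ℂ) * a t k i - N t k i

/-- the rate -/
noncomputable def gs (D : Z3 → ℂ) (S : Finset Z3) (a N : ℝ → Z3 → Fin 3 → ℂ) (j : ℕ) (t : ℝ) : ℝ :=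
  √(∑ k ∈ Ss S j, ∑ i, ‖ff D a N t k i‖ ^ 2)

/-- the convolution of two components in two shells -/
noncomputable def cc (S : Finset Z3) (a : ℝ → Z3 → Fin 3 → ℂ) (m l : ℕ) (i i' : Fin 3) (t : ℝ)
    (k : Z3) : ℂ := by
  classical exact ∑ p ∈ Ss S m, a t p i * (if k - p ∈ Ss S l then a t (k - p) i' else 0)

/-- the bilinear terms -/
noncomputable def qs (Cn : ℝ) (S : Finset Z3) (a : ℝ → Z3 → Fin 3 → ℂ) (j m l : ℕ) (t : ℝ) : ℝ :=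
  8 * Cn * ∑ i, ∑ i', √(∑ k ∈ Ss S j, ‖cc S a m l i i' t k‖ ^ 2)

/-- all shells of `S` are below `M` -/
def Below (S : Finset Z3) (M : ℕ) : Prop := ∀ k ∈ S, ∀ j, InSh j k → j < M

/-- C3a. Continuity. Proof: everything is a finite expression in `a t k i`, `N t k i`. -/
def S_C3a : Prop :=
  ∀ (β γ : Fin 3 → ℝ) (D : Z3 → ℂ) (ν Cd Cn E : ℝ) (S : Finset Z3) (T : ℝ)
    (a N : ℝ → Z3 → Fin 3 → ℂ), GS β γ D ν Cd Cn E S T a N →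
    (∀ j, Continuous (Xs S a j)) ∧ (∀ j, Continuous (gs D S a N j)) ∧
    (∀ j m l, Continuous (qs Cn S a j m l)) ∧
    (∀ j t, Xs S a j t ^ 2 = ∑ k ∈ Ss S j, ∑ i, ‖a t k i‖ ^ 2) ∧
    (∀ j, ∀ t ∈ Icc 0 T, Xs S a j t ^ 2 ≤ E)

/-- C3b. The nonlinearity in one shell. Proof: `S` is the disjoint union of the shells `Ss S m`,
`m < M` (every `k ≠ 0` is in exactly one shell), and `a` vanishes off `S`, so for `k ∈ Ss S j`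
`∑_{p ∈ S} a_p^i a_{k-p}^{i'} = ∑_{m,l<M} cc m l i i' k`; and
`cc m l i i' k = cc l m i' i k` (put `q = k - p`). Hence `∑_{i,i'} |∑_p …| ≤ ∑_{l<M} ∑_{m≤l} 2
∑_{i,i'} |cc m l i i' k|`. With `√sq3 k < 2^{j+1}`: `|N k i| ≤ 4 Cn 2^j ∑_{l} ∑_{m ≤ l} ∑_{i,i'}
|cc m l i i' k|`. Take the `ℓ²` norm over `k ∈ Ss S j` and the `3` values of `i` (factor `√3 ≤ 2`),
and use the triangle inequality in `ℓ²`. -/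
def S_C3b : Prop :=
  ∀ (β γ : Fin 3 → ℝ) (D : Z3 → ℂ) (ν Cd Cn E : ℝ) (S : Finset Z3) (T : ℝ)
    (a N : ℝ → Z3 → Fin 3 → ℂ), GS β γ D ν Cd Cn E S T a N → ∀ M : ℕ, Below S M → ∀ j t,
    √(∑ k ∈ Ss S j, ∑ i, ‖N t k i‖ ^ 2) ≤ 2 ^ j * nn M (qs Cn S a) j t

/-- C3c. The rate. Proof: triangle inequality in `ℓ²`, `Re D_k ≤ Cd |k|² ≤ Cd 4^{j+1}`, `S_C3b`. -/
def S_C3c : Prop :=
  ∀ (β γ : Fin 3 → ℝ) (D : Z3 → ℂ) (ν Cd Cn E : ℝ) (S : Finset Z3) (T : ℝ)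
    (a N : ℝ → Z3 → Fin 3 → ℂ), GS β γ D ν Cd Cn E S T a N → ∀ M : ℕ, Below S M → ∀ j t,
    gs D S a N j t ≤ 4 * Cd * 4 ^ j * Xs S a j t + 2 ^ j * nn M (qs Cn S a) j t

/-- C3d. Proof: `S_C2` with `f = X_j²`, whose derivative is
`2 Re ∑ conj(a) a' = 2 Re ∑ conj(a) ff` (the part `- i Im D a` drops out), of modulus
`≤ 2 √f g` by Cauchy-Schwarz. -/
def S_C3d : Prop :=
  ∀ (β γ : Fin 3 → ℝ) (D : Z3 → ℂ) (ν Cd Cn E : ℝ) (S : Finset Z3) (T : ℝ)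
    (a N : ℝ → Z3 → Fin 3 → ℂ), GS β γ D ν Cd Cn E S T a N →
    ∀ j s t, 0 ≤ s → s ≤ t → t ≤ T → |Xs S a j t - Xs S a j s| ≤ ∫ r in s..t, gs D S a N j r

/-- C3e. The energy of a shell. Proof: the derivative of `X_j²` is
`- 2 ∑ Re D |a|² - 2 Re ∑ conj(a) N ≤ - 2 ν 4^j X_j² + 2 X_j (2^j nn)` (Cauchy-Schwarz, `S_C3b`);
integrate. -/
def S_C3e : Prop :=
  ∀ (β γ : Fin 3 → ℝ) (D : Z3 → ℂ) (ν Cd Cn E : ℝ) (S : Finset Z3) (T : ℝ)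
    (a N : ℝ → Z3 → Fin 3 → ℂ), GS β γ D ν Cd Cn E S T a N → ∀ M : ℕ, Below S M →
    ∀ j, ∀ t ∈ Icc 0 T, Xs S a j t ^ 2 + 2 * ν * 4 ^ j * ∫ r in (0 : ℝ)..t, Xs S a j r ^ 2
    ≤ Xs S a j 0 ^ 2 + 2 * ∫ r in (0 : ℝ)..t, Xs S a j r * (2 ^ j * nn M (qs Cn S a) j r)

/-- C3f. The bilinear estimate. Proof: `(s = t` is trivial.) Let `τ = t - s > 0`. By
Cauchy-Schwarz `q² ≤ 64 Cn² 9 ∑_{i,i'} ∑_k |cc m l i i' k|²`. For each `i, i'` use `S_TB` and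
`S_A10` with `𝒦 = Ss S j`, `P = Ss S m`, `R = Ss S l`, `x_p = a_p^i`, `y_q = a_q^{i'}` for `q ∈ R`
and `0` otherwise, forcings `ff` (`-D a - N = -i φ a + ff` as `Im D = φ`);
`nrm P (x s) ≤ Xs m s` and `nrm P (ff) ≤ gs m`. Total constant `64·81 Cn² C`; take
`C₁ = max 1 (72 Cn √C)`. It depends only on `β, Cn`. -/
def S_C3f : Prop :=
  ∀ β : Fin 3 → ℝ, (∀ i, β i ≠ 0) → ∀ Cn : ℝ, 0 ≤ Cn → ∃ C₁ c₁ : ℝ, 1 ≤ C₁ ∧ 0 < c₁ ∧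
    ∀ (γ : Fin 3 → ℝ) (D : Z3 → ℂ) (ν Cd E : ℝ) (S : Finset Z3) (T : ℝ)
    (a N : ℝ → Z3 → Fin 3 → ℂ), GS β γ D ν Cd Cn E S T a N →
    ∀ j m l s t, m ≤ l → 0 ≤ s → s ≤ t → t ≤ T → (t - s) * 4 ^ (max j l) ≤ c₁ →
    ∫ r in s..t, qs Cn S a j m l r ^ 2 ≤ C₁ ^ 2 * (4 ^ m / 4 ^ l)
      * (Aw (Xs S a m) (gs D S a N m) s t * Aw (Xs S a l) (gs D S a N l) s t) ^ 2

/-- C3. Assembly: `C₀ = max C₁ (4 Cd + 1)`. The field `qz` from `S_Tri`. -/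
def S_C3 : Prop :=
  ∀ β : Fin 3 → ℝ, (∀ i, β i ≠ 0) → ∀ Cn Cd : ℝ, 0 ≤ Cn → 0 ≤ Cd → ∃ C₀ c₁ : ℝ, 1 ≤ C₀ ∧ 0 < c₁ ∧
    ∀ (γ : Fin 3 → ℝ) (D : Z3 → ℂ) (ν E : ℝ) (S : Finset Z3) (T : ℝ)
    (a N : ℝ → Z3 → Fin 3 → ℂ), GS β γ D ν Cd Cn E S T a N → ∀ M : ℕ, Below S M →
    Sys C₀ ν c₁ E M T (Xs S a) (gs D S a N) (qs Cn S a)

/-- C4. The a priori bound for all times. Proof: `M` exists since `S` is finite. For `r ∈ [0, T]`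
and `L ∈ [0, T - r]` the shifted system `t ↦ a (r + t)`, `t ↦ N (r + t)` is a `GS` on `[0, L]`
with the same constants (`en`: from the energy inequality on `[r, r + t]`. To have this, use the
field `en` only in the form `∑ |a|² ≤ E` at all times and for the shifted system replace `E` by a
larger bound: `∑ |a(r+t)|² + 2ν ∫_r^{r+t} ... ≤ 2 E`, since both terms are `≤ E`). So by `S_C3`
(with `2 E`) and `S_B8` (with `2 E`), `Φ(t) = ∑_{j<M} 4^{sj} X_j(t)²` satisfies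
`Φ(t) ≤ 4 Φ(r)` if `t - r ≤ τ` and `∑_j 4^j ∫_r^t X_j² ≤ c₀`. `S_C1` with
`μ(t) = t/τ + (1/c₀) ∫_0^t ∑_j 4^j X_j²`, and `∑_j 4^j X_j² ≤ ∑_k |k|²|a_k|²`, whose integral is
`≤ E/(2ν)`. Finally `Φ ≤ ∑_k |k|^{2s} |a_k|² ≤ 4^s Φ`. The constant `K` is `1/τ + E/(2νc₀) + 2`,
`Φ(t) ≤ 4^{n+1} Φ(0)` for `n = ⌈μ(t)⌉₊ ≤ K (1 + t)`. -/
def S_C4 : Prop :=
  ∀ β : Fin 3 → ℝ, (∀ i, β i ≠ 0) → ∀ (Cn Cd ν E : ℝ) (s : ℕ), 0 ≤ Cn → 0 ≤ Cd → 0 < ν → 0 ≤ E →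
    1 ≤ s → ∃ K : ℕ, ∀ (γ : Fin 3 → ℝ) (D : Z3 → ℂ) (S : Finset Z3) (T : ℝ)
    (a N : ℝ → Z3 → Fin 3 → ℂ), GS β γ D ν Cd Cn E S T a N → ∀ t ∈ Icc 0 T,
    ∑ k ∈ S, (sq3 k : ℝ) ^ s * ∑ i, ‖a t k i‖ ^ 2
      ≤ 4 ^ (K * (⌈t⌉₊ + 1)) * ∑ k ∈ S, (sq3 k : ℝ) ^ s * ∑ i, ‖a 0 k i‖ ^ 2

end Pool.Agent.H259.ND
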