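import Pool.Agent.H226.DE.Fin
import Pool.Agent.H259.ND.Stmt2

/-!
The nonlinear term of a finite system in terms of convolutions.
-/

open MeasureTheory Set Filter Topology
open H459R3.NS Pool.Agent.X96.HT Pool.Agent.X96.DM Pool.Agent.H226.DE

namespace Pool.Agent.H259.ND

/-- the weight one -/
abbrev one1 : Md → Md → Md → ℝ := fun _ _ _ => 1

lemma norm_hel_pair (k : K3) (w : C3) : ‖hel true k w + hel false k w‖ ≤ 6 * ‖w‖ := by
  have h1 := norm_hel_le true k w
  have h2 := norm_hel_le false k w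
  have h3 := norm_add_le (hel true k w) (hel false k w)
  linarith

lemma nonl_sum {U : K3 → C3} {S : Finset K3} (h0 : (0 : K3) ∉ S) (hS : ∀ k ∉ S, U k = 0)
    (hdiv : ∀ k, dp (kc k) (U k) = 0) (k : K3) :
    nonl one1 U k = ∑ p ∈ S,
      (hel true k ((2 * Real.pi * Complex.I * dp (kc (k - p)) (U p)) • U (k - p))
        + hel false k ((2 * Real.pi * Complex.I * dp (kc (k - p)) (U p)) • U (k - p))) := by
  have hU0 : U 0 = 0 := hS 0 h0
  unfold nonl
  rw [tsum_eq_sum (s := S)]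
  · refine Finset.sum_congr rfl fun p _ => ?_
    exact bil_one hdiv hU0 k p
  · intro p hp
    rw [bil_one hdiv hU0 k p, hS p hp]
    have e : dp (kc (k - p)) (0 : C3) = 0 := by unfold dp; simp
    have e2 : ∀ r, hel r k (0 : C3) = 0 := fun r => by
      have := hel_smul r k 0 0
      simpa using this
    rw [e, mul_zero, zero_smul, e2, e2, add_zero]

lemma norm_nonl_conv {U : K3 → C3} {S : Finset K3} (h0 : (0 : K3) ∉ S) (hS : ∀ k ∉ S, U k = 0)
    (hdiv : ∀ k, dp (kc k) (U k) = 0) (k : K3) :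
    ‖nonl one1 U k‖ ≤ 12 * Real.pi * kn k * ∑ i, ∑ i', ‖∑ p ∈ S, U p i * U (k - p) i'‖ := by
  rw [nonl_sum h0 hS hdiv k, Finset.sum_add_distrib]
  have hs : ∀ s : Bool, ∑ p ∈ S, hel s k ((2 * Real.pi * Complex.I * dp (kc (k - p)) (U p))
      • U (k - p)) = hel s k (∑ p ∈ S, (2 * Real.pi * Complex.I * dp (kc (k - p)) (U p))
      • U (k - p)) := fun s => (map_sum (helA s k) _ _).symm
  rw [hs, hs]
  refine (norm_hel_pair k _).trans ?_
  have hk := kn_nonneg k
  have hpi := Real.pi_pos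
  have hw : ‖∑ p ∈ S, (2 * Real.pi * Complex.I * dp (kc (k - p)) (U p)) • U (k - p)‖
      ≤ 2 * Real.pi * kn k * ∑ i, ∑ i', ‖∑ p ∈ S, U p i * U (k - p) i'‖ := by
    rw [pi_norm_le_iff_of_nonneg (by positivity)]
    intro i'
    rw [Finset.sum_apply]
    have e : ∑ p ∈ S, ((2 * Real.pi * Complex.I * dp (kc (k - p)) (U p)) • U (k - p)) i'
        = 2 * Real.pi * Complex.I * ∑ i, (k i : ℂ) * ∑ p ∈ S, U p i * U (k - p) i' := by
      rw [Finset.mul_sum]
      simp_rw [Finset.mul_sum]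
      rw [Finset.sum_comm]
      refine Finset.sum_congr rfl fun p _ => ?_
      have h1 : dp (kc (k - p)) (U p) = ∑ i, (k i : ℂ) * U p i := by
        have h2 := hdiv p
        rw [Fin.sum_univ_three]
        unfold dp kc at h2 ⊢
        simp only [Pi.sub_apply]
        push_cast
        linear_combination -h2
      rw [Pi.smul_apply, smul_eq_mul, h1, Finset.mul_sum, Finset.sum_mul]
      refine Finset.sum_congr rfl fun i _ => ?_
      ring
    rw [e, norm_mul, norm_mul, norm_mul, Complex.norm_I, mul_one, Complex.norm_ofNat,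
      Complex.norm_real, Real.norm_eq_abs, abs_of_pos hpi, mul_assoc (2 * Real.pi)]
    refine mul_le_mul_of_nonneg_left ?_ (by positivity)
    refine (norm_sum_le _ _).trans ?_
    rw [Finset.mul_sum]
    refine Finset.sum_le_sum fun i _ => ?_
    rw [norm_mul, Complex.norm_intCast]
    refine mul_le_mul (abs_le_kn k i) ?_ (norm_nonneg _) hk
    exact Finset.single_le_sum (f := fun i' => ‖∑ p ∈ S, U p i * U (k - p) i'‖)
      (fun _ _ => norm_nonneg _) (Finset.mem_univ i')
  calc 6 * ‖∑ p ∈ S, (2 * Real.pi * Complex.I * dp (kc (k - p)) (U p)) • U (k - p)‖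
      ≤ 6 * (2 * Real.pi * kn k * ∑ i, ∑ i', ‖∑ p ∈ S, U p i * U (k - p) i'‖) := by gcongr
    _ = _ := by ring

lemma kn_sq3 (k : K3) : kn k ^ 2 = ((sq3 k : ℤ) : ℝ) := by
  rw [kn_sq]
  unfold sq3
  push_cast
  rfl

end Pool.Agent.H259.ND
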