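import Mathlib

/-!
# Navier-Stokes with cubic dispersion: the statements of the steps

Part A: bilinear estimates for the exponentials with the phases
`φ(p) = ∑ β_i p_i³ + γ_i p_i` on `ℤ³`.
Part B: the a priori bound from the bilinear estimates (real analysis of one interval of time).
-/

open MeasureTheory Set Finset

namespace Pool.Agent.H259.ND

/-! ## Definitions of part A -/

/-- the frequencies -/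
abbrev Z3 := Fin 3 → ℤ

/-- square of the Euclidean norm -/
def sq3 (k : Z3) : ℤ := ∑ i, k i ^ 2

/-- the dyadic shell `2 ^ j ≤ |k| < 2 ^ (j + 1)` -/
def InSh (j : ℕ) (k : Z3) : Prop := (4 : ℤ) ^ j ≤ sq3 k ∧ sq3 k < (4 : ℤ) ^ (j + 1)

/-- the phase -/
noncomputable def ph3 (β γ : Fin 3 → ℝ) (k : Z3) : ℝ :=
  ∑ i, (β i * (k i : ℝ) ^ 3 + γ i * (k i : ℝ))

/-- `exp (i x)` -/
noncomputable def ex (x : ℝ) : ℂ := Complex.exp ((x : ℂ) * Complex.I)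

/-- the Fejér kernel: the integral of `2 (1 - |s| / 4) e^{i s x}` over `[-4, 4]` -/
noncomputable def Fk (x : ℝ) : ℝ := if x = 0 then 8 else (1 - Real.cos (4 * x)) / x ^ 2

/-- the box number `n` with sides `2 ^ (a i)` -/
noncomputable def Bx (a : Fin 3 → ℕ) (n : Z3) : Finset Z3 :=
  Fintype.piFinset fun i => Finset.Ico ((2 : ℤ) ^ a i * n i) ((2 : ℤ) ^ a i * (n i + 1))

/-- the bilinear expression of two free waves -/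
noncomputable def Qb (φ : Z3 → ℝ) (P : Finset Z3) (u v : Z3 → ℂ) (k : Z3) (t : ℝ) : ℂ :=
  ∑ p ∈ P, u p * v (k - p) * ex (-(φ p + φ (k - p)) * t)

/-- the bilinear estimate on all windows of length `τ` with constant `K` -/
def BilBd (φ : Z3 → ℝ) (𝒦 P R : Finset Z3) (τ K : ℝ) : Prop :=
  ∀ u v : Z3 → ℂ, (∀ q ∉ R, v q = 0) → ∀ s : ℝ,
    ∫ t in s..(s + τ), ∑ k ∈ 𝒦, ‖Qb φ P u v k t‖ ^ 2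
      ≤ K * (∑ p ∈ P, ‖u p‖ ^ 2) * (∑ q ∈ R, ‖v q‖ ^ 2)

/-- the `ℓ²` norm over a finite set -/
noncomputable def nrm (P : Finset Z3) (u : Z3 → ℂ) : ℝ := √(∑ p ∈ P, ‖u p‖ ^ 2)

/-! ## Statements of part A -/

/-- A1. The kernel. Proof: `∫ 2 (1 - |s|/4) e^{isx} ds = 4 ∫_0^4 (1 - s/4) cos (s x) ds`, integrate
by parts (or differentiate an antiderivative) : `= (1 - cos (4x)) / x²` for `x ≠ 0` and `8` for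
`x = 0`. `0 ≤ 1 - cos y ≤ min (2, y²/2)`. -/
def S_A1 : Prop :=
  (∀ x : ℝ, ∫ s in (-4 : ℝ)..4, ((2 * (1 - |s| / 4) : ℝ) : ℂ) * ex (s * x) = (Fk x : ℂ)) ∧
  (∀ x, 0 ≤ Fk x) ∧ (∀ x, Fk x ≤ 8) ∧ (∀ x, Fk x * x ^ 2 ≤ 2) ∧ (∀ x, Fk (-x) = Fk x)

/-- A2. Schur's test. Proof: put `t = s + τ x`, `x ∈ [0, 1]`; there the weight
`W x = 2 (1 - |x|/4)` is `≥ 1` and `W ≥ 0` on `[-4, 4]`, hence the left side is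
`≤ τ ∫_{-4}^{4} W(x) |∑_p c_p e^{i θ_p (s + τ x)}|² dx`
`= τ ∑_{p,p'} c_p conj(c_p') e^{i (θ_p - θ_p') s} Fk (τ (θ_p - θ_p'))` (expand the square, `S_A1`)
`≤ τ ∑_{p,p'} (|c_p|² + |c_p'|²)/2 · Fk (τ (θ_p - θ_p')) ≤ τ B ∑ |c_p|²` (`Fk` is even). -/
def S_A2 : Prop :=
  ∀ (ι : Type) (P : Finset ι) (c : ι → ℂ) (θ : ι → ℝ) (s τ B : ℝ), 0 < τ →
    (∀ p ∈ P, ∑ p' ∈ P, Fk (τ * (θ p - θ p')) ≤ B) →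
    ∫ t in s..(s + τ), ‖∑ p ∈ P, c p * ex (θ p * t)‖ ^ 2 ≤ τ * B * ∑ p ∈ P, ‖c p‖ ^ 2

/-- A3. Weyl's inequality. Proof: `|S|² = ∑_{n,n'} e^{i(α(p²-p'²) + b(p-p'))}` with `p = a + n`,
`p' = a + n'`; for `p = p' + d` the phase is `2 α d p' + const`, so for fixed `d` the inner sum is
geometric over an interval of `N - |d|` integers and of modulus
`≤ min (N, 1 / |sin (α d)|) ≤ min (N, π / (2 |α| |d|))` (as `|α d| ≤ π/2`, Jordan). Hence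
`|S|² ≤ N + 2 ∑_{d=1}^{N-1} min (N, π/(2|α|d)) ≤ N + 2 N^{1/5} (π/(2|α|))^{4/5} ∑ d^{-4/5}`
(`min (x, y) ≤ x^{1/5} y^{4/5}`) `≤ N + 10 (π/2)^{4/5} N^{2/5} |α|^{-4/5}`, as
`∑_{d=1}^{N} d^{-4/5} ≤ 5 N^{1/5}`, and `N = N^{2/5} N^{3/5} ≤ N^{2/5} N^{4/5} ≤ N^{2/5}
(π/(2|α|))^{4/5}`. `(π/2)^{4/5} < 1.5`. -/
def S_A3 : Prop :=
  ∀ (a : ℤ) (N : ℕ) (α b : ℝ), 1 ≤ N → α ≠ 0 → |α| * N ≤ Real.pi / 2 →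
    ‖∑ n ∈ range N, ex (α * ((a : ℝ) + n) ^ 2 + b * ((a : ℝ) + n))‖ ^ 2
      ≤ 20 * (N : ℝ) ^ (2 / 5 : ℝ) * |α| ^ (-(4 / 5) : ℝ)

/-- A4. Proof: order `κ₁ ≤ κ₂ ≤ κ₃` and put `t* = κ₂⁻¹ κ₁⁻²`. For `t ≤ t*` use the factor `1` in
the minimum for `κ₁` and the power for `κ₂, κ₃`: the integrand is
`≤ κ₁ (κ₂ κ₃)^{-1/5} t^{-4/5}`, the integral over `[0, t*]` is
`≤ 5 κ₁ (κ₂κ₃)^{-1/5} (κ₂⁻¹ κ₁⁻²)^{1/5} = 5 κ₁^{3/5} κ₂^{-2/5} κ₃^{-1/5} ≤ 5 (κ₁/κ₃)^{1/5}`.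
For `t ≥ t*` use all three powers: the integrand is `≤ (κ₁κ₂κ₃)^{-1/5} t^{-6/5}`, the integral over
`[t*, ∞)` is `≤ 5 (κ₁κ₂κ₃)^{-1/5} (κ₂ κ₁²)^{1/5} = 5 (κ₁/κ₃)^{1/5}`. Finally
`κ₁/κ₃ ≤ κ i / κ i'` for all `i, i'`. (In Lean `0 ^ (-2/5) = 0`, a null set.) -/
def S_A4 : Prop :=
  ∀ κ : Fin 3 → ℝ, (∀ i, 1 ≤ κ i) → ∀ T : ℝ, 0 ≤ T → ∀ i i' : Fin 3,
    ∫ t in (0 : ℝ)..T, ∏ l, (κ l * min 1 ((κ l ^ 3 * t) ^ (-(2 / 5) : ℝ)))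
      ≤ 10 * (κ i / κ i') ^ (1 / 5 : ℝ)

/-- A5. Schur sum over a box. Here `κ_i = 2 ^ a_i`. Proof: by `S_A1` the sum is the real part of
`∫_{-4}^4 2 (1 - |x|/4) e^{i τ x θ(p)} ∑_{p'} e^{-i τ x θ(p')} dx ≤ 2 ∫_{-4}^4 ∏_i |W_i(τ x)| dx`,
as `θ(p') = φ(p') + φ(k - p') = const + ∑_i (3 β_i k_i p'_i² - 3 β_i k_i² p'_i)` (the sum over the
box factorizes), `W_i(t) = ∑_{m = κ_i n_i}^{κ_i n_i + κ_i - 1} e^{-i t (3 β_i k_i m² - 3 β_i k_i² m)}`.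
Trivially `|W_i| ≤ κ_i`. If `k_i ≠ 0`: `κ_i ≤ |k_i| < 2 κ_i`, `α = -3 β_i k_i τ x` satisfies
`|α| κ_i ≤ 24 |β_i| τ κ_i² ≤ π/2` for small `c`, so `S_A3` gives
`|W_i| ≤ 5 κ_i^{1/5} |3 β_i k_i τ x|^{-2/5} ≤ C' κ_i (κ_i³ τ |x|)^{-2/5}` (`|k_i| ≥ κ_i`). If
`k_i = 0` then `a_i = 0`, `κ_i = 1` and `|W_i| ≤ 1 ≤ (τ |x|)^{-2/5}` as `τ |x| ≤ 4 c ≤ 1`. So
`∏ |W_i(τx)| ≤ C'' ∏ κ_i min (1, (κ_i³ t)^{-2/5})` with `t = τ |x|`, and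
`∫_{-4}^4 ... dx = (2/τ) ∫_0^{4τ} ... dt ≤ (20 C''/τ) (κ_i/κ_i')^{1/5}` by `S_A4`. -/
def S_A5 : Prop :=
  ∀ β : Fin 3 → ℝ, (∀ i, β i ≠ 0) → ∃ C c : ℝ, 0 < C ∧ 0 < c ∧ ∀ (γ : Fin 3 → ℝ)
    (a : Fin 3 → ℕ) (n k : Z3) (τ : ℝ), 0 < τ → (∀ i, τ * 4 ^ a i ≤ c) →
    (∀ i, (2 : ℤ) ^ a i ≤ max |k i| 1 ∧ |k i| < (2 : ℤ) ^ (a i + 1)) → ∀ (i i' : Fin 3) (p : Z3),
    ∑ p' ∈ Bx a n, Fk (τ * ((ph3 β γ p + ph3 β γ (k - p)) - (ph3 β γ p' + ph3 β γ (k - p'))))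
      ≤ C / τ * ((2 : ℝ) ^ a i / 2 ^ a i') ^ (1 / 5 : ℝ)

/-- A6. From boxes to all frequencies. `v` vanishes off `R`. Proof: for `k ∈ 𝒦`, `p` in the box
`n` (i.e. `n_i = p_i / 2^{a_i}` rounded down) the point `k - p` is in the box `- n + e` with
`e ∈ {-3,…,1}³` because `|k_i| < 2 · 2^{a_i}` (125 possibilities). Write the inner sum as
`∑_{(n,e)} Q_{n,e}(k)`, `n` over the finitely many boxes of `P`, where `Q_{n,e}(k)` is the sum over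
`p ∈ P` in the box `n` with `k - p` in the box `-n+e`. With `U_n² = ∑_{p ∈ P ∩ box n} |u_p|²`,
`V_n² = ∑_{q ∈ R ∩ box n} |v_q|²`, `w_{n,e} = U_n V_{-n+e}` (if it is `0` then `Q_{n,e} = 0`):
`|∑ Q_{n,e}|² ≤ (∑ w_{n,e}) ∑ |Q_{n,e}|²/w_{n,e}`; `S_A2` for the points `p` (in `P ∩` box `n`,
`k - p ∈ R ∩` box `-n+e`, `c_p = u_p v_{k-p}`) gives, as `Fk ≥ 0`,
`∫ |Q_{n,e}(k)|² ≤ τ B ∑_p |u_p|²|v_{k-p}|²`, and summing over `k ∈ 𝒦`: `≤ τ B U_n² V_{-n+e}²`.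
Altogether `≤ τ B (∑_{n,e} U_n V_{-n+e})² ≤ τ B (125 ‖u‖ ‖v‖)²`. -/
def S_A6 : Prop :=
  ∀ (a : Fin 3 → ℕ) (𝒦 P R : Finset Z3) (θ : Z3 → Z3 → ℝ) (u v : Z3 → ℂ) (s τ B : ℝ), 0 < τ →
    0 ≤ B → (∀ k ∈ 𝒦, ∀ i, |k i| < (2 : ℤ) ^ (a i + 1)) → (∀ q ∉ R, v q = 0) →
    (∀ k ∈ 𝒦, ∀ n p : Z3, ∑ p' ∈ Bx a n, Fk (τ * (θ k p - θ k p')) ≤ B) →
    ∫ t in s..(s + τ), ∑ k ∈ 𝒦, ‖∑ p ∈ P, u p * v (k - p) * ex (θ k p * t)‖ ^ 2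
      ≤ 15625 * τ * B * (∑ p ∈ P, ‖u p‖ ^ 2) * (∑ q ∈ R, ‖v q‖ ^ 2)

/-- A7. Proof: for `k ∈ 𝒦` put `a_i(k) = Nat.log 2 (max |k_i| 1)`; then
`2^{a_i} ≤ max |k_i| 1 < 2^{a_i+1}`, `a_i ≤ j`, and `a_i ≥ j - 1` for some `i` (as
`3 max k_i² ≥ |k|² ≥ 4^j`). Split `𝒦` into the classes `𝒦_a` of given `a`; for each class use
`S_A6` with `θ k p = -(φ p + φ (k - p))` (`Fk` is even) and `B` from `S_A5`, with `i, i'` the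
indices of the smallest and the largest `a_i`:
`B = (C/τ) 2^{-(a_max - a_min)/5} ≤ (C/τ) 2^{3/10} ∏_i 2^{-(j - a_i)/10}`. Sum over
`a ∈ {0..j}³`: `∑_a ∏_i 2^{-(j-a_i)/10} ≤ (1 - 2^{-1/10})^{-3}`. -/
def S_A7 : Prop :=
  ∀ β : Fin 3 → ℝ, (∀ i, β i ≠ 0) → ∃ C c : ℝ, 0 < C ∧ 0 < c ∧ ∀ (γ : Fin 3 → ℝ) (j : ℕ)
    (𝒦 P R : Finset Z3), (∀ k ∈ 𝒦, InSh j k) → ∀ τ : ℝ, 0 < τ → τ * 4 ^ j ≤ c →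
    BilBd (ph3 β γ) 𝒦 P R τ C

/-- A8a. Separated points. Proof: for `y ≥ 0` the points `θ n` with `x - θ n ≥ 0` can be
enumerated with distances from `x` at least `0, δ, 2δ, …`, similarly on the other side; so the sum
is `≤ 2 ∑_{r ≥ 0} min (8, 2/(r τ δ)²) ≤ 2 (8 + 8/(τ δ))`. Alternatively: at most `2/(τδ) + 1`
points satisfy `|τ (x - θ n)| ≤ 1`, and dyadic or unit annuli for the others. The constant `100`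
is generous. -/
def S_A8a : Prop :=
  ∀ (I : Finset ℤ) (θ : ℤ → ℝ) (τ δ x : ℝ), 0 < τ → 0 < δ →
    (∀ n ∈ I, ∀ m ∈ I, n < m → δ * ((m : ℝ) - n) ≤ θ m - θ n) →
    ∑ n ∈ I, Fk (τ * (x - θ n)) ≤ 100 * (1 + 1 / (τ * δ))

/-- A8. Schur sum for a low frequency shell. Proof: take `i` with `|k_i| ≥ 2^{j-1}` (exists as
`3 max k_i² ≥ 4^j`). For fixed other coordinates `θ(p') = φ(p') + φ(k-p')` is, as a function of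
`p'_i = x`, `3 β_i (k_i x² - k_i² x) + const`; its increments are
`3 β_i k_i (2x + 1 - k_i)`, of constant sign and of modulus `≥ 3 |β_i| 2^{j-1} 2^{j-2}`, because
`|2x+1| ≤ 2^{m+2} + 1 ≤ 2^{j-3} + 1` (`|p'_i| < 2^{m+1}`) and `|k_i| ≥ 2^{j-1}`. By `S_A8a` (for
`±θ`, `Fk` is even) the sum over `x` is `≤ 100 (1 + 1/(τ δ))` with `δ = (3/8) |β_i| 4^j`, and there
are at most `(2^{m+2})²` values of the other two coordinates. -/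
def S_A8 : Prop :=
  ∀ β : Fin 3 → ℝ, (∀ i, β i ≠ 0) → ∃ C : ℝ, 0 < C ∧ ∀ (γ : Fin 3 → ℝ) (j m : ℕ), m + 5 ≤ j →
    ∀ k : Z3, InSh j k → ∀ P : Finset Z3, (∀ p ∈ P, InSh m p) → ∀ τ : ℝ, 0 < τ →
    τ * 4 ^ j ≤ 1 → ∀ x : ℝ,
    ∑ p' ∈ P, Fk (τ * (x - (ph3 β γ p' + ph3 β γ (k - p')))) ≤ C * 4 ^ m / (τ * 4 ^ j)

/-- A9. Proof: for each `k ∈ 𝒦` use `S_A2` (with `c_p = u_p v_{k-p}`,
`θ_p = -(φ p + φ (k - p))`, `Fk` even) and `S_A8`: `∫ |Q(k)|² ≤ C (4^m/4^j) ∑_p |u_p|²|v_{k-p}|²`;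
sum over `k ∈ 𝒦` (`v = 0` off `R`). -/
def S_A9 : Prop :=
  ∀ β : Fin 3 → ℝ, (∀ i, β i ≠ 0) → ∃ C : ℝ, 0 < C ∧ ∀ (γ : Fin 3 → ℝ) (j m : ℕ), m + 5 ≤ j →
    ∀ 𝒦 P R : Finset Z3, (∀ k ∈ 𝒦, InSh j k) → (∀ p ∈ P, InSh m p) → ∀ τ : ℝ, 0 < τ →
    τ * 4 ^ j ≤ 1 → BilBd (ph3 β γ) 𝒦 P R τ (C * 4 ^ m / 4 ^ j)

/-- TB. All cases. Proof: if `l ≤ m + 5` use `S_A7` (`1 ≤ 4^5 · 4^m/4^l`); if `l ≥ m + 6`, then for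
`k ∈ 𝒦`, `p ∈ P`, `k - p ∈ R` one has `2^l - 2^{m+1} < |k| < 2^{l+1} + 2^{m+1}`, thus
`l - 1 ≤ j ≤ l + 1`, or else all terms of `Qb` are `0`; then `m + 5 ≤ j`: use `S_A9`, `4^m/4^j ≤
4 · 4^m/4^l`. (Take `c ≤ 1` and `c ≤` the `c` of `S_A7`.) -/
def S_TB : Prop :=
  ∀ β : Fin 3 → ℝ, (∀ i, β i ≠ 0) → ∃ C c : ℝ, 0 < C ∧ 0 < c ∧ ∀ (γ : Fin 3 → ℝ) (j m l : ℕ),
    m ≤ l → ∀ 𝒦 P R : Finset Z3, (∀ k ∈ 𝒦, InSh j k) → (∀ p ∈ P, InSh m p) →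
    (∀ q ∈ R, InSh l q) → ∀ τ : ℝ, 0 < τ → τ * 4 ^ (max j l) ≤ c →
    BilBd (ph3 β γ) 𝒦 P R τ (C * 4 ^ m / 4 ^ l)

/-- the triads which occur: if it is false then there are no `p ∈ Δ_m`, `q ∈ Δ_l`, `p + q ∈ Δ_j`.
Proof: `|p+q| < 2^{m+1} + 2^{l+1} ≤ 2^{l+2}` gives `j ≤ l + 1`; if `m + 6 ≤ l`, then
`|p + q| > 2^l - 2^{m+1} ≥ 2^l - 2^{l-5} ≥ 2^{l-1}`, so `l ≤ j + 1`. -/
def S_Tri : Prop :=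
  ∀ j m l : ℕ, m ≤ l → ∀ p q : Z3, InSh m p → InSh l q → InSh j (p + q) →
    j ≤ l + 1 ∧ (l ≤ j + 1 ∨ l ≤ m + 5)

/-- A10a. Minkowski's inequality in integral form. Proof: let `ε > 0`, `b' = b + ε`. By
Cauchy-Schwarz `|∫_s^τ G k r τ dr|² ≤ (∫_s^e b'(r) dr) ∫_s^e |G k r τ|²/b'(r) dr`; sum over `k`,
integrate in `τ`, interchange the integrals (continuous functions on a square):
`≤ (∫ b') ∫ b(r)²/b'(r) dr ≤ (∫ b')²`. Let `ε → 0`. -/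
def S_A10a : Prop :=
  ∀ (𝒦 : Finset Z3) (G : Z3 → ℝ → ℝ → ℂ) (b : ℝ → ℝ) (s e : ℝ), s ≤ e →
    (∀ k ∈ 𝒦, Continuous fun z : ℝ × ℝ => G k z.1 z.2) → Continuous b → (∀ r, 0 ≤ b r) →
    (∀ r ∈ Icc s e, ∫ τ in s..e, ∑ k ∈ 𝒦, ‖G k r τ‖ ^ 2 ≤ b r ^ 2) →
    ∫ τ in s..e, ∑ k ∈ 𝒦, ‖∫ r in s..τ, G k r τ‖ ^ 2 ≤ (∫ r in s..e, b r) ^ 2

/-- A10b. Duhamel for a linear estimate. `c k p t` are continuous in `t` on the interval. Proof: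
`y_p(t) = e^{-iφ_p(t-s)} y_p(s) + ∫_s^t e^{-iφ_p(t-r)} h_p(r) dr` (differentiate
`e^{iφ_p t} y_p(t)`); so `∑_p c_{k,p}(t) y_p(t) = A_k(t) + ∫_s^t G_k(r,t) dr`, with
`A_k(t) = ∑ c_{k,p}(t) e^{-iφ_p t} v_p`, `v_p = e^{iφ_p s} y_p(s)`, of `L²ℓ²` norm `≤ K ‖y(s)‖`,
and `G_k(r,t) = ∑ c_{k,p}(t) e^{-iφ_p t} (e^{iφ_p r} h_p(r))` for which `∫_s^e ∑_k |G_k(r,t)|² dt ≤
(K nrm (h r))²`. Use `S_A10a` with `b = K nrm P (h r)` and the triangle inequality in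
`L²([s,e]; ℓ²)` (or `|A+G|² ≤ (1+x)|A|² + (1+1/x)|G|²` with the best `x`). (To apply `S_A10a`
extend `c` and `h` continuously from the interval by constants.) -/
def S_A10b : Prop :=
  ∀ (φ : Z3 → ℝ) (𝒦 P : Finset Z3) (c : Z3 → Z3 → ℝ → ℂ) (y h : ℝ → Z3 → ℂ) (s e K : ℝ), s ≤ e →
    0 ≤ K → (∀ k ∈ 𝒦, ∀ p ∈ P, ContinuousOn (c k p) (Icc s e)) →
    (∀ v : Z3 → ℂ, ∫ t in s..e, ∑ k ∈ 𝒦, ‖∑ p ∈ P, c k p t * (v p * ex (-φ p * t))‖ ^ 2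
      ≤ K ^ 2 * ∑ p ∈ P, ‖v p‖ ^ 2) →
    (∀ p ∈ P, ∀ t ∈ Icc s e, HasDerivWithinAt (fun t => y t p)
      (-Complex.I * φ p * y t p + h t p) (Icc s e) t) →
    (∀ p ∈ P, ContinuousOn (fun t => h t p) (Icc s e)) →
    ∫ t in s..e, ∑ k ∈ 𝒦, ‖∑ p ∈ P, c k p t * y t p‖ ^ 2
      ≤ K ^ 2 * (nrm P (y s) + ∫ t in s..e, nrm P (h t)) ^ 2

/-- A10. The bilinear estimate for waves with forcing. Proof: `S_A10b` twice: first with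
`c k p t = v_{k-p} e^{-iφ_{k-p} t}` (the sum over `P` of `x_p`), which gives for all `v` supported
in `R`: `∫ ∑_k |∑_p x_p(t) v_{k-p} e^{-iφ_{k-p}t}|² ≤ K (nrm (x s) + ∫ nrm f)² ∑ |v|²`; then with
the sum over `q ∈ R` (`p = k - q`) and `c k q t = x_{k-q}(t)` if `k - q ∈ P` and `0` otherwise. -/
def S_A10 : Prop :=
  ∀ (φ : Z3 → ℝ) (𝒦 P R : Finset Z3) (τ K : ℝ), 0 ≤ τ → 0 ≤ K → BilBd φ 𝒦 P R τ K →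
    ∀ (s : ℝ) (x y f h : ℝ → Z3 → ℂ),
    (∀ p ∈ P, ∀ t ∈ Icc s (s + τ), HasDerivWithinAt (fun t => x t p)
      (-Complex.I * φ p * x t p + f t p) (Icc s (s + τ)) t) →
    (∀ p ∈ R, ∀ t ∈ Icc s (s + τ), HasDerivWithinAt (fun t => y t p)
      (-Complex.I * φ p * y t p + h t p) (Icc s (s + τ)) t) →
    (∀ p ∈ P, ContinuousOn (fun t => f t p) (Icc s (s + τ))) →
    (∀ p ∈ R, ContinuousOn (fun t => h t p) (Icc s (s + τ))) →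
    (∀ q ∉ R, ∀ t, y t q = 0) →
    ∫ t in s..(s + τ), ∑ k ∈ 𝒦, ‖∑ p ∈ P, x t p * y t (k - p)‖ ^ 2
      ≤ K * ((nrm P (x s) + ∫ t in s..(s + τ), nrm P (f t))
        * (nrm R (y s) + ∫ t in s..(s + τ), nrm R (h t))) ^ 2

/-! ## Definitions of part B -/

/-- the left end of window number `n` of level `a` in `[0, L]`; the windows of level `a` have
length `τ / 4 ^ a`, cut at `L` -/
noncomputable def ew (τ L : ℝ) (a n : ℕ) : ℝ := min (n * τ / 4 ^ a) L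

/-- the length of the window divided by the full length -/
noncomputable def ww (τ L : ℝ) (a n : ℕ) : ℝ := (ew τ L a (n + 1) - ew τ L a n) * 4 ^ a / τ

/-- size on an interval -/
noncomputable def Aw (X g : ℝ → ℝ) (s t : ℝ) : ℝ := X s + ∫ r in s..t, g r

/-- size of the shell `j` on the window `n` of level `a` -/
noncomputable def AW (τ L : ℝ) (X g : ℕ → ℝ → ℝ) (j a n : ℕ) : ℝ :=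
  Aw (X j) (g j) (ew τ L a n) (ew τ L a (n + 1))

/-- `∑ √w A_l²` over the windows of level `max j l` in the window `n` of level `j` -/
noncomputable def ys (τ L : ℝ) (X g : ℕ → ℝ → ℝ) (l j n : ℕ) : ℝ :=
  ∑ r ∈ range (4 ^ (l - j)), √(ww τ L (j + (l - j)) (4 ^ (l - j) * n + r))
    * AW τ L X g l (j + (l - j)) (4 ^ (l - j) * n + r) ^ 2

noncomputable def Yj (τ L : ℝ) (X g : ℕ → ℝ → ℝ) (j : ℕ) : ℝ :=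
  ∑ n ∈ range (4 ^ j), √(ww τ L j n) * AW τ L X g j j n ^ 2

noncomputable def XXj (τ L : ℝ) (X g : ℕ → ℝ → ℝ) (j : ℕ) : ℝ :=
  (range (4 ^ j)).sup' ⟨0, by simp⟩ fun n => AW τ L X g j j n ^ 2

/-- the sum over all triads with output in the shell `j` -/
noncomputable def nn (M : ℕ) (q : ℕ → ℕ → ℕ → ℝ → ℝ) (j : ℕ) (t : ℝ) : ℝ :=
  ∑ l ∈ range M, ∑ m ∈ range (l + 1), q j m l t

noncomputable def Gj (τ L : ℝ) (M : ℕ) (q : ℕ → ℕ → ℕ → ℝ → ℝ) (j n : ℕ) : ℝ :=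
  ∫ t in (ew τ L j n)..(ew τ L j (n + 1)), 2 ^ j * nn M q j t

/-- shells near `j` -/
def nearS (M j : ℕ) : Finset ℕ := (range M).filter fun l => l ≤ j + 1 ∧ j ≤ l + 1

/-- shells not far below `j` -/
def upS (M j : ℕ) : Finset ℕ := (range M).filter fun l => j ≤ l + 3

/-- The properties of the sizes `X j` of the shells, the rates `g j` and the bilinear terms
`q j m l` (output in the shell `j`, inputs in the shells `m ≤ l`) which are used. -/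
structure Sys (C₀ ν c₁ E : ℝ) (M : ℕ) (L₀ : ℝ) (X g : ℕ → ℝ → ℝ) (q : ℕ → ℕ → ℕ → ℝ → ℝ) :
    Prop where
  C1 : 1 ≤ C₀
  νpos : 0 < ν
  c1pos : 0 < c₁
  Enn : 0 ≤ E
  cX : ∀ j, Continuous (X j)
  cg : ∀ j, Continuous (g j)
  cq : ∀ j m l, Continuous (q j m l)
  X0 : ∀ j t, 0 ≤ X j t
  g0 : ∀ j t, 0 ≤ g j t
  q0 : ∀ j m l t, 0 ≤ q j m l t
  en : ∀ j, ∀ t ∈ Icc 0 L₀, X j t ^ 2 ≤ E
  XM : ∀ j, M ≤ j → ∀ t, X j t = 0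
  gM : ∀ j, M ≤ j → ∀ t, g j t = 0
  lip : ∀ j s t, 0 ≤ s → s ≤ t → t ≤ L₀ → |X j t - X j s| ≤ ∫ r in s..t, g j r
  gle : ∀ j, ∀ t ∈ Icc 0 L₀, g j t ≤ C₀ * 4 ^ j * X j t + 2 ^ j * nn M q j t
  qz : ∀ j m l t, m ≤ l → ¬ (j ≤ l + 1 ∧ (l ≤ j + 1 ∨ l ≤ m + 5)) → q j m l t = 0
  ener : ∀ j, ∀ t ∈ Icc 0 L₀, X j t ^ 2 + 2 * ν * 4 ^ j * ∫ r in (0 : ℝ)..t, X j r ^ 2
    ≤ X j 0 ^ 2 + 2 * ∫ r in (0 : ℝ)..t, X j r * (2 ^ j * nn M q j r)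
  bil : ∀ j m l s t, m ≤ l → 0 ≤ s → s ≤ t → t ≤ L₀ → (t - s) * 4 ^ (max j l) ≤ c₁ →
    ∫ r in s..t, q j m l r ^ 2
      ≤ C₀ ^ 2 * (4 ^ m / 4 ^ l) * (Aw (X m) (g m) s t * Aw (X l) (g l) s t) ^ 2

/-! ## Statements of part B -/

/-- W1. Basic facts on the windows. -/
def S_W1 : Prop :=
  ∀ (τ L : ℝ), 0 < τ → 0 ≤ L → (∀ a n, ew τ L a n ≤ ew τ L a (n + 1)) ∧
    (∀ a n, 0 ≤ ew τ L a n) ∧ (∀ a n, ew τ L a n ≤ L) ∧ (∀ a, ew τ L a 0 = 0) ∧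
    (∀ a, L ≤ τ → ew τ L a (4 ^ a) = L) ∧ (∀ a d n, ew τ L (a + d) (4 ^ d * n) = ew τ L a n) ∧
    (∀ a n, 0 ≤ ww τ L a n) ∧ (∀ a n, ww τ L a n ≤ 1) ∧
    (∀ a n, ew τ L a (n + 1) - ew τ L a n = ww τ L a n * τ / 4 ^ a)

/-- W3. An integral over a window is the sum over its subwindows (telescoping). -/
def S_W3 : Prop :=
  ∀ (τ L : ℝ) (a d n : ℕ) (f : ℝ → ℝ), Continuous f →
    ∑ r ∈ range (4 ^ d), ∫ x in (ew τ L (a + d) (4 ^ d * n + r))..(ew τ L (a + d)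
      (4 ^ d * n + r + 1)), f x = ∫ x in (ew τ L a n)..(ew τ L a (n + 1)), f x

/-- W4. Proof: let `w` be the fraction of the window and `w_r` the fractions of its `4^d`
subwindows; all `w_r` are `1` or `0` except at most one, `∑ w_r = 4^d w`. So `∑ √w_r ≤ ∑ w_r +
√w_r'` with the partial one `r'`, `w_r' ≤ 4^d w`; and `4^d w ≤ 4^d √w`, `√(4^d w) ≤ 4^d √w`. -/
def S_W4 : Prop :=
  ∀ (τ L : ℝ), 0 < τ → 0 ≤ L → ∀ a d n : ℕ,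
    ∑ r ∈ range (4 ^ d), √(ww τ L (a + d) (4 ^ d * n + r)) ≤ 2 * 4 ^ d * √(ww τ L a n)

/-- W5. Proof: the subwindow is contained in the window: `w_r / 4^d ≤ w`. -/
def S_W5 : Prop :=
  ∀ (τ L : ℝ), 0 < τ → 0 ≤ L → ∀ a d n r : ℕ, r < 4 ^ d →
    √(ww τ L (a + d) (4 ^ d * n + r)) ≤ 2 ^ d * √(ww τ L a n)

/-- W6. Monotonicity. Proof: `X(s') ≤ X(s) + ∫_s^{s'} g`. -/
def S_W6 : Prop :=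
  ∀ (C₀ ν c₁ E : ℝ) (M : ℕ) (L₀ : ℝ) (X g : ℕ → ℝ → ℝ) (q : ℕ → ℕ → ℕ → ℝ → ℝ),
    Sys C₀ ν c₁ E M L₀ X g q → ∀ τ L : ℝ, 0 < τ → 0 ≤ L → L ≤ L₀ → ∀ j a d n r : ℕ, r < 4 ^ d →
    0 ≤ AW τ L X g j (a + d) (4 ^ d * n + r) ∧
    AW τ L X g j (a + d) (4 ^ d * n + r) ≤ AW τ L X g j a n

/-- W7. Proof: write `n = 4^{a-l} n' + r` and use `S_W6`, `S_W4`. -/
def S_W7 : Prop :=
  ∀ (C₀ ν c₁ E : ℝ) (M : ℕ) (L₀ : ℝ) (X g : ℕ → ℝ → ℝ) (q : ℕ → ℕ → ℕ → ℝ → ℝ),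
    Sys C₀ ν c₁ E M L₀ X g q → ∀ τ L : ℝ, 0 < τ → 0 ≤ L → L ≤ L₀ → ∀ l a : ℕ, l ≤ a →
    ∑ n ∈ range (4 ^ a), √(ww τ L a n) * AW τ L X g l a n ^ 2
      ≤ 2 * 4 ^ (a - l) * Yj τ L X g l

/-- W8. Proof. (a) each `√w ≤ 1` and each `A_l² ≤ 𝒳_l` by `S_W6` (the windows of level
`max j l ≤ l + …` lie in windows of level `l` with number `< 4^l`), at most `4` terms. (b) if
`l ≥ j` the sum is a part of the sum `Yj l`; if `l < j ≤ l + 3` it has one term, `S_W5` and `S_W6`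
with `d = j - l`, `n = 4^d n' + r`. (c) if `l ≥ j` equality with `Yj l`; if `l < j` use `S_W7`. -/
def S_W8 : Prop :=
  ∀ (C₀ ν c₁ E : ℝ) (M : ℕ) (L₀ : ℝ) (X g : ℕ → ℝ → ℝ) (q : ℕ → ℕ → ℕ → ℝ → ℝ),
    Sys C₀ ν c₁ E M L₀ X g q → ∀ τ L : ℝ, 0 < τ → 0 ≤ L → L ≤ L₀ → ∀ l j : ℕ,
    (∀ n, n < 4 ^ j → l ≤ j + 1 → ys τ L X g l j n ≤ 4 * XXj τ L X g l) ∧
    (∀ n, n < 4 ^ j → j ≤ l + 3 → ys τ L X g l j n ≤ 8 * Yj τ L X g l) ∧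
    (j ≤ l + 3 → ∑ n ∈ range (4 ^ j), ys τ L X g l j n ≤ 128 * Yj τ L X g l)

/-- B1. Proof: `W` the window, `t ∈ W`; `sup_W X_j ≤ X_j(t) + ∫_W g_j`; by `gle` and
`|W| ≤ τ/4^j`: `∫_W g_j ≤ C₀ τ (X_j(t) + ∫_W g_j) + G_j`, thus with `C₀ τ ≤ 1/4`:
`∫_W g_j ≤ (1/3) X_j(t) + (4/3) G_j` and `A_j ≤ X_j(t) + 2 ∫_W g_j`. -/
def S_B1 : Prop :=
  ∀ (C₀ ν c₁ E : ℝ) (M : ℕ) (L₀ : ℝ) (X g : ℕ → ℝ → ℝ) (q : ℕ → ℕ → ℕ → ℝ → ℝ),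
    Sys C₀ ν c₁ E M L₀ X g q → ∀ τ L : ℝ, 0 < τ → 0 ≤ L → L ≤ L₀ → 4 * C₀ * τ ≤ 1 →
    ∀ j n : ℕ, ∀ t ∈ Icc (ew τ L j n) (ew τ L j (n + 1)),
    AW τ L X g j j n ≤ 2 * X j t + 4 * Gj τ L M q j n

/-- B2a. `a = j + (l - j) = max j l`. Proof: split the window of level `j` into the subwindows of
level `a` (`S_W3`); on each subwindow `W'` Cauchy-Schwarz and `bil`:
`∫_{W'} q ≤ |W'|^{1/2} (∫_{W'} q²)^{1/2} ≤ (w' τ/4^a)^{1/2} C₀ 2^{m-l} A_m(W') A_l(W')`. -/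
def S_B2a : Prop :=
  ∀ (C₀ ν c₁ E : ℝ) (M : ℕ) (L₀ : ℝ) (X g : ℕ → ℝ → ℝ) (q : ℕ → ℕ → ℕ → ℝ → ℝ),
    Sys C₀ ν c₁ E M L₀ X g q → ∀ τ L : ℝ, 0 < τ → 0 ≤ L → L ≤ L₀ → τ ≤ c₁ →
    ∀ j m l n : ℕ, m ≤ l →
    ∫ t in (ew τ L j n)..(ew τ L j (n + 1)), q j m l t
      ≤ C₀ * √τ * ((2 : ℝ) ^ m / (2 ^ l * 2 ^ (j + (l - j))))
        * ∑ r ∈ range (4 ^ (l - j)), √(ww τ L (j + (l - j)) (4 ^ (l - j) * n + r))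
          * (AW τ L X g m (j + (l - j)) (4 ^ (l - j) * n + r)
            * AW τ L X g l (j + (l - j)) (4 ^ (l - j) * n + r))

/-- B2n. The near part. Proof: `S_B2a`, `A_m(W') ≤ √XX` (`S_W6`: `W'` has level `≥ l ≥ m`),
`∑_{m ≤ l} 2^{m-l} ≤ 2`, `2^j ≤ 2^{max j l}`. So the left side is
`≤ 2 C₀ √τ √XX ∑_{l near} ∑_{W'} √w' A_l(W')`; at most `6` pairs `(l, W')`, `(√w')² ≤ √w'`, and
Cauchy-Schwarz: its square is `≤ 24 C₀² τ XX ∑_{l near} ys l j n`. -/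
def S_B2n : Prop :=
  ∀ (C₀ ν c₁ E : ℝ) (M : ℕ) (L₀ : ℝ) (X g : ℕ → ℝ → ℝ) (q : ℕ → ℕ → ℕ → ℝ → ℝ),
    Sys C₀ ν c₁ E M L₀ X g q → ∀ τ L : ℝ, 0 < τ → 0 ≤ L → L ≤ L₀ → L ≤ τ → τ ≤ c₁ →
    ∀ XX : ℝ, (∀ l, XXj τ L X g l ≤ XX) → ∀ j n : ℕ, n < 4 ^ j →
    (∑ l ∈ nearS M j, ∑ m ∈ range (l + 1),
      2 ^ j * ∫ t in (ew τ L j n)..(ew τ L j (n + 1)), q j m l t) ^ 2
      ≤ 24 * C₀ ^ 2 * τ * XX * ∑ l ∈ nearS M j, ys τ L X g l j n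

/-- B2f. The far part: `l ≥ j + 2`, where only `m ≥ l - 5` occur (`qz`). Proof: `S_B2a` with
`a = l` and `A_m A_l ≤ (A_m² + A_l²)/2`. The sum over the subwindows `W'` of level `l` of
`√w' A_m(W')²` is `≤ 2 · 4^{l - max m j} ys m j n ≤ 2048 ys m j n` by `S_W4`, `S_W6`. So the left
side is `≤ C₀ √τ ∑_{l ≥ j+2} ∑_{m=l-5}^{l} 2^{j-l} 2^{m-l} (1024 ys m j n + ys l j n / 2)`, and
`2^{j-l} 2^{m-l} = 2^{j-m} 4^{m-l}`: interchange the sums. -/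
def S_B2f : Prop :=
  ∀ (C₀ ν c₁ E : ℝ) (M : ℕ) (L₀ : ℝ) (X g : ℕ → ℝ → ℝ) (q : ℕ → ℕ → ℕ → ℝ → ℝ),
    Sys C₀ ν c₁ E M L₀ X g q → ∀ τ L : ℝ, 0 < τ → 0 ≤ L → L ≤ L₀ → L ≤ τ → τ ≤ c₁ →
    ∀ j n : ℕ, n < 4 ^ j →
    ∑ l ∈ (range M).filter (fun l => j + 2 ≤ l), ∑ m ∈ range (l + 1),
      2 ^ j * ∫ t in (ew τ L j n)..(ew τ L j (n + 1)), q j m l t
      ≤ 2000 * C₀ * √τ * ∑ l ∈ upS M j, (2 : ℝ) ^ j / 2 ^ l * ys τ L X g l j n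

/-- B2. Proof: `Gj = near + far` (`q j m l = 0` for `l + 1 < j`); `Gj² ≤ 2 near² + 2 far²`; and
`(∑ 2^{j-l} ys)² ≤ (∑ 2^{j-l} 8 YY) (∑ 2^{j-l} ys) ≤ 128 YY ∑ 2^{j-l} ys` by `S_W8` (b). -/
def S_B2 : Prop :=
  ∃ C : ℝ, 0 < C ∧ ∀ (C₀ ν c₁ E : ℝ) (M : ℕ) (L₀ : ℝ) (X g : ℕ → ℝ → ℝ)
    (q : ℕ → ℕ → ℕ → ℝ → ℝ),
    Sys C₀ ν c₁ E M L₀ X g q → ∀ τ L : ℝ, 0 < τ → 0 ≤ L → L ≤ L₀ → L ≤ τ → τ ≤ c₁ →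
    ∀ XX YY : ℝ, (∀ l, XXj τ L X g l ≤ XX) → (∀ l, Yj τ L X g l ≤ YY) → ∀ j n : ℕ, n < 4 ^ j →
    Gj τ L M q j n ^ 2 ≤ C * C₀ ^ 2 * τ * (XX * ∑ l ∈ nearS M j, ys τ L X g l j n
      + YY * ∑ l ∈ upS M j, (2 : ℝ) ^ j / 2 ^ l * ys τ L X g l j n)

/-- B3. `S` is an upper bound of `X_j²`. Proof: `S_B1` at any `t` in the window and
`(2x + 4y)² ≤ 8x² + 32y²`, then `S_B2` and `S_W8` (a), (b). -/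
def S_B3 : Prop :=
  ∃ C : ℝ, 0 < C ∧ ∀ (C₀ ν c₁ E : ℝ) (M : ℕ) (L₀ : ℝ) (X g : ℕ → ℝ → ℝ)
    (q : ℕ → ℕ → ℕ → ℝ → ℝ),
    Sys C₀ ν c₁ E M L₀ X g q → ∀ τ L : ℝ, 0 < τ → 0 ≤ L → L ≤ L₀ → L ≤ τ → τ ≤ c₁ →
    4 * C₀ * τ ≤ 1 →
    ∀ XX YY : ℝ, (∀ l, XXj τ L X g l ≤ XX) → (∀ l, Yj τ L X g l ≤ YY) → ∀ (j : ℕ) (S : ℝ),
    (∀ t ∈ Icc 0 L, X j t ^ 2 ≤ S) →
    XXj τ L X g j ≤ 8 * S + C * C₀ ^ 2 * τ * (XX * ∑ l ∈ nearS M j, XXj τ L X g l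
      + YY * ∑ l ∈ upS M j, (2 : ℝ) ^ j / 2 ^ l * Yj τ L X g l)

/-- B5. `f` takes at `t n` its minimum on the window `n`. Proof: `√w = 1 = w` on full windows,
`w f(t n) ≤ (4^j/τ) ∫_W f`; at most one window is partial, there `√w f(t n) ≤ F` and
`√w f(t n) ≤ √(F w f(t n)) ≤ √(F (4^j/τ) ∫ f)`; degenerate windows have `w = 0`. -/
def S_B5 : Prop :=
  ∀ (f : ℝ → ℝ) (τ L F : ℝ) (j : ℕ) (t : ℕ → ℝ), Continuous f → (∀ x, 0 ≤ f x) → 0 < τ → 0 ≤ L →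
    L ≤ τ → (∀ x ∈ Icc 0 L, f x ≤ F) → (∀ n, t n ∈ Icc (ew τ L j n) (ew τ L j (n + 1))) →
    (∀ n, ∀ x ∈ Icc (ew τ L j n) (ew τ L j (n + 1)), f (t n) ≤ f x) →
    ∑ n ∈ range (4 ^ j), √(ww τ L j n) * f (t n)
      ≤ 4 ^ j * (∫ x in (0 : ℝ)..L, f x) / τ + min F √(F * (4 ^ j * (∫ x in (0 : ℝ)..L, f x) / τ))

/-- B4. Proof: let `t_n` be a minimum point of `X_j²` on the window `n`; `S_B1`: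
`A_j(n)² ≤ 8 X_j(t_n)² + 32 G_j(n)²`; multiply by `√w_n ≤ 1` and sum over `n < 4^j`; the first sum
by `S_B5`, the second by `S_B2` and `S_W8` (c). -/
def S_B4 : Prop :=
  ∃ C : ℝ, 0 < C ∧ ∀ (C₀ ν c₁ E : ℝ) (M : ℕ) (L₀ : ℝ) (X g : ℕ → ℝ → ℝ)
    (q : ℕ → ℕ → ℕ → ℝ → ℝ),
    Sys C₀ ν c₁ E M L₀ X g q → ∀ τ L : ℝ, 0 < τ → 0 ≤ L → L ≤ L₀ → L ≤ τ → τ ≤ c₁ →
    4 * C₀ * τ ≤ 1 →
    ∀ XX YY : ℝ, (∀ l, XXj τ L X g l ≤ XX) → (∀ l, Yj τ L X g l ≤ YY) → ∀ (j : ℕ) (S : ℝ),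
    (∀ t ∈ Icc 0 L, X j t ^ 2 ≤ S) →
    Yj τ L X g j ≤ 8 * (4 ^ j * (∫ x in (0 : ℝ)..L, X j x ^ 2) / τ
        + min S √(S * (4 ^ j * (∫ x in (0 : ℝ)..L, X j x ^ 2) / τ)))
      + C * C₀ ^ 2 * τ * (XX * ∑ l ∈ nearS M j, Yj τ L X g l
      + YY * ∑ l ∈ upS M j, (2 : ℝ) ^ j / 2 ^ l * Yj τ L X g l)

/-- B6a. Continuity in `L`. -/
def S_B6a : Prop :=
  ∀ (X g : ℕ → ℝ → ℝ), (∀ j, Continuous (X j)) → (∀ j, Continuous (g j)) → ∀ (τ : ℝ) (j : ℕ),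
    Continuous (fun L => XXj τ L X g j) ∧ Continuous (fun L => Yj τ L X g j)

/-- B6b. A continuity argument. Proof: the set of `T ∈ [0, L]` such that `f ≤ a'` and `g ≤ b'` on
`[0, T]` is closed, contains `0`, and with `T < L` also a neighbourhood on the right, because near
`T` one has `f ≤ a` and `g ≤ b`. -/
def S_B6b : Prop :=
  ∀ (f g : ℝ → ℝ) (L a a' b b' : ℝ), 0 ≤ L → ContinuousOn f (Icc 0 L) → ContinuousOn g (Icc 0 L) →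
    a' < a → b' < b → f 0 ≤ a' → g 0 ≤ b' →
    (∀ t ∈ Icc 0 L, f t ≤ a → g t ≤ b → f t ≤ a' ∧ g t ≤ b') →
    ∀ t ∈ Icc 0 L, f t ≤ a' ∧ g t ≤ b'

/-- B6. The bootstrap. Proof: let `f(L')`, `g(L')` be the maxima over `j < M` of `XXj τ L' X g j`
and `Yj τ L' X g j` (both are `0` for `j ≥ M`); continuous by `S_B6a`; at `L' = 0`: `XXj = X_j(0)²
≤ E`, `Yj = 0`. Use `S_B6b` with `a = 32 (E+1)`, `a' = 8 E + 1`, `b = 1`, `b' = min ε (1/2)`: if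
`f ≤ a` and `g ≤ b` at `L'`, then `S_B3` with `XX = a`, `YY = 1`, `S = E` gives
`XXj ≤ 8E + C C₀² τ (3 a² + 16) ≤ 8E + 1` for small `τ` (`∑_{l ∈ upS} 2^{j-l} ≤ 16`, at most `3`
near shells), and `S_B4` with `XX = a`, `YY = g(L')`, `S = E`, with
`4^j ∫_0^{L'} X_j² ≤ c₀`, gives `g ≤ 8 (c₀/τ + √(E c₀/τ)) + C C₀² τ (3 a + 16) g`, so
`g ≤ 16 (c₀/τ + √(E c₀/τ)) ≤ b'` for small `c₀`. -/
def S_B6 : Prop :=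
  ∀ C₀ c₁ E : ℝ, 1 ≤ C₀ → 0 < c₁ → 0 ≤ E → ∃ τ₁ : ℝ, 0 < τ₁ ∧ ∀ τ : ℝ, 0 < τ → τ ≤ τ₁ →
    ∀ ε : ℝ, 0 < ε → ∃ c₀ : ℝ, 0 < c₀ ∧ ∀ (ν : ℝ) (M : ℕ) (L : ℝ) (X g : ℕ → ℝ → ℝ)
    (q : ℕ → ℕ → ℕ → ℝ → ℝ), Sys C₀ ν c₁ E M L X g q → 0 ≤ L → L ≤ τ →
    ∑ j ∈ range M, 4 ^ j * ∫ x in (0 : ℝ)..L, X j x ^ 2 ≤ c₀ →
    ∀ j, XXj τ L X g j ≤ 8 * E + 1 ∧ Yj τ L X g j ≤ ε

/-- B7a. The flux of one triple. `a = max j l ≤ l + 1`. Proof: split `[0, L]` into the windows of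
level `a` (their numbers are `< 4^a`, `L ≤ τ`), `X_j ≤ A_j(W')` on `W'`, Cauchy-Schwarz and `bil`
as in `S_B2a`: the left side is
`≤ C₀ √τ 2^{j+m-l-a} ∑_{n<4^a} √w A_j A_m A_l`. By Cauchy-Schwarz twice the sum is
`≤ (∑√w A_m⁴)^{1/4} (∑√w A_l⁴)^{1/4} (∑√w A_j²)^{1/2}
≤ (XX_m Z_m)^{1/4} (XX_l Z_l)^{1/4} Z_j^{1/2}`, where `Z_m = ∑_{n<4^a} √w A_m² ≤ 2·4^{a-m} Y_m`
(`S_W7`) and `A_m² ≤ XX_m` (`S_W6`). The powers of `2`: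
`2^{j+m-l-a} 2^{(a-m)/2} 2^{(a-l)/2} 2^{a-j} = 2^{a-l} 2^{(m-l)/2} ≤ 2 √(2^m/2^l)`. -/
def S_B7a : Prop :=
  ∀ (C₀ ν c₁ E : ℝ) (M : ℕ) (L₀ : ℝ) (X g : ℕ → ℝ → ℝ) (q : ℕ → ℕ → ℕ → ℝ → ℝ),
    Sys C₀ ν c₁ E M L₀ X g q → ∀ τ L : ℝ, 0 < τ → 0 ≤ L → L ≤ L₀ → L ≤ τ → τ ≤ c₁ →
    ∀ j m l : ℕ, m ≤ l → j ≤ l + 1 →
    ∫ t in (0 : ℝ)..L, X j t * (2 ^ j * q j m l t)
      ≤ 4 * C₀ * √τ * √((2 : ℝ) ^ m / 2 ^ l)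
        * √(√(XXj τ L X g m * Yj τ L X g m) * √(XXj τ L X g l * Yj τ L X g l))
        * √(Yj τ L X g j)

/-- B7b. Summation. Proof: `√√(x_m y_m) ≤ η` and `∑_{m ≤ l} √(2^m/2^l) ≤ 4`. It remains to bound
`4^{sj} √√(x_l y_l) √y_j` summed over `j` and `l ≥ j - 1`: `4^{sj} = 2^{-s(l-j)} 2^{sl} 2^{sj}` and
`2^{sl} √√(x_l y_l) 2^{sj} √y_j ≤ (4^{sl} √(x_l y_l) + 4^{sj} y_j)/2`,
`√(x_l y_l) ≤ (x_l + y_l)/2`; `∑_{l ≥ j-1} 2^{-s(l-j)} ≤ 2^{s+1}`,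
and the same for the sum over `j ≤ l + 1` for fixed `l` (`s ≥ 1`). -/
def S_B7b : Prop :=
  ∀ s : ℕ, 1 ≤ s → ∃ C : ℝ, 0 < C ∧ ∀ (M : ℕ) (x y : ℕ → ℝ) (η : ℝ), 0 ≤ η → (∀ j, 0 ≤ x j) →
    (∀ j, 0 ≤ y j) → (∀ j, x j * y j ≤ η ^ 4) →
    ∑ j ∈ range M, 4 ^ (s * j) * ∑ l ∈ (range M).filter (fun l => j ≤ l + 1),
      ∑ m ∈ range (l + 1), √((2 : ℝ) ^ m / 2 ^ l) * √(√(x m * y m) * √(x l * y l)) * √(y j)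
      ≤ C * η * ∑ j ∈ range M, 4 ^ (s * j) * (x j + y j)

/-- B7. Proof: expand `nn`, the terms with `l + 1 < j` vanish (`qz`), `S_B7a` and `S_B7b`. -/
def S_B7 : Prop :=
  ∀ s : ℕ, 1 ≤ s → ∃ C : ℝ, 0 < C ∧ ∀ (C₀ ν c₁ E : ℝ) (M : ℕ) (L₀ : ℝ) (X g : ℕ → ℝ → ℝ)
    (q : ℕ → ℕ → ℕ → ℝ → ℝ),
    Sys C₀ ν c₁ E M L₀ X g q → ∀ τ L : ℝ, 0 < τ → 0 ≤ L → L ≤ L₀ → L ≤ τ → τ ≤ c₁ →
    ∀ η : ℝ, 0 ≤ η → (∀ j, XXj τ L X g j * Yj τ L X g j ≤ η ^ 4) →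
    ∑ j ∈ range M, 4 ^ (s * j) * ∫ t in (0 : ℝ)..L, X j t * (2 ^ j * nn M q j t)
      ≤ C * C₀ * √τ * η * ∑ j ∈ range M, 4 ^ (s * j) * (XXj τ L X g j + Yj τ L X g j)

/-- B8a. Pure algebra: sequences with the recursive bounds of `S_B3` and `S_B4`. Here
`P = ∑ 4^{sj} x_j`, `R = ∑ 4^{sj} y_j`, `p = ∑ 4^{sj} S_j`, `D = ∑ 4^{sj} δ_j`. Proof: multiply by
`4^{sj}`, sum and interchange: `∑_j 4^{sj} ∑_{l near j} y_l ≤ 3·4^s R`,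
`∑_j 4^{sj} ∑_{l ∈ upS} 2^{j-l} y_l ≤ ∑_l 4^{sl} y_l ∑_{j ≤ l+3} 4^{s(j-l)} 2^{j-l} ≤
16·4^{3s} R`. With `κ·(3·4^s A + 16·4^{3s} B) ≤ 1/2`: `R ≤ 16 (D/τ + p)`, `P ≤ 16 p + R`. -/
def S_B8a : Prop :=
  ∀ (s M : ℕ) (x y S δ : ℕ → ℝ) (κ A B τ : ℝ), 0 < τ → 0 ≤ κ → 0 ≤ A → 0 ≤ B →
    (∀ j, 0 ≤ x j) → (∀ j, 0 ≤ y j) → (∀ j, 0 ≤ S j) → (∀ j, 0 ≤ δ j) →
    κ * (3 * 4 ^ s * A + 16 * 4 ^ (3 * s) * B) ≤ 1 / 2 →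
    (∀ j, x j ≤ 8 * S j + κ * (A * ∑ l ∈ nearS M j, x l
      + B * ∑ l ∈ upS M j, (2 : ℝ) ^ j / 2 ^ l * y l)) →
    (∀ j, y j ≤ 8 * (δ j / τ + S j) + κ * (A * ∑ l ∈ nearS M j, y l
      + B * ∑ l ∈ upS M j, (2 : ℝ) ^ j / 2 ^ l * y l)) →
    ∑ j ∈ range M, 4 ^ (s * j) * y j ≤ 16 * ((∑ j ∈ range M, 4 ^ (s * j) * δ j) / τ
      + ∑ j ∈ range M, 4 ^ (s * j) * S j) ∧
    ∑ j ∈ range M, 4 ^ (s * j) * x j ≤ 16 * (∑ j ∈ range M, 4 ^ (s * j) * S j)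
      + ∑ j ∈ range M, 4 ^ (s * j) * y j

/-- B8. The a priori bound on one interval. Proof: let `S_j` be the maximum of `X_j²` on `[0, L]`,
`δ_j = 4^j ∫_0^L X_j²`, `F_j = ∫_0^L X_j 2^j nn_j`. Choose `τ ≤ min (τ₁, c₁, 1/(4C₀), 1)` so small
that `C C₀² τ (3·4^s (8E+1) + 16·4^{3s}) ≤ 1/2` (`C` of `S_B3`, `S_B4`), `κ = C C₀² τ`,
`A = 8E+1`, `B = 1`. `S_B6` gives `XXj ≤ 8E+1`, `Yj ≤ ε ≤ 1`, then `S_B8a` gives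
`R ≤ 16 (D/τ + p)`, `P ≤ 16 p + R`. With `η⁴ = (8E+1) ε`, `S_B7`: `∑ 4^{sj} F_j ≤ C₂ C₀ η (P + R)
≤ C₂ C₀ η (48 p + 32 D/τ)`. By `ener` (the integrand of the flux is `≥ 0`): `S_j ≤ X_j(0)² + 2 F_j`
and `2 ν δ_j ≤ X_j(0)² + 2 F_j`. Sum: `p + 2 ν D ≤ 2 h₀ + 4 C₂ C₀ η (48 p + 32 D/τ)` with
`h₀ = ∑ 4^{sj} X_j(0)²`; choose `η` (i.e. `ε`) so small that this is `≤ 2 h₀ + p/2 + ν D`. Hence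
`p ≤ 4 h₀`. -/
def S_B8 : Prop :=
  ∀ (C₀ ν c₁ E : ℝ) (s : ℕ), 1 ≤ C₀ → 0 < ν → 0 < c₁ → 0 ≤ E → 1 ≤ s →
    ∃ τ c₀ : ℝ, 0 < τ ∧ 0 < c₀ ∧ ∀ (M : ℕ) (L : ℝ) (X g : ℕ → ℝ → ℝ)
    (q : ℕ → ℕ → ℕ → ℝ → ℝ), Sys C₀ ν c₁ E M L X g q → 0 ≤ L → L ≤ τ →
    ∑ j ∈ range M, 4 ^ j * ∫ x in (0 : ℝ)..L, X j x ^ 2 ≤ c₀ →
    ∀ t ∈ Icc 0 L, ∑ j ∈ range M, 4 ^ (s * j) * X j t ^ 2
      ≤ 4 * ∑ j ∈ range M, 4 ^ (s * j) * X j 0 ^ 2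

/-! ## Auxiliary statements for the application -/

/-- C1. Chain of intervals. Proof: by induction on `n`. For `n = 0` use `r = 0`. If
`n < μ t ≤ n + 1`, take `r ∈ [0, t]` with `μ r = n` (intermediate values, `μ 0 = 0`), then
`Φ t ≤ 4 Φ r`. -/
def S_C1 : Prop :=
  ∀ (T : ℝ) (μ Φ : ℝ → ℝ), 0 ≤ T → ContinuousOn μ (Icc 0 T) → μ 0 = 0 →
    (∀ t ∈ Icc 0 T, 0 ≤ Φ t) →
    (∀ r ∈ Icc 0 T, ∀ t ∈ Icc 0 T, r ≤ t → μ t - μ r ≤ 1 → Φ t ≤ 4 * Φ r) →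
    ∀ (n : ℕ), ∀ t ∈ Icc 0 T, μ t ≤ n → Φ t ≤ 4 ^ (n + 1) * Φ 0

/-- C2. Proof: for `ε > 0` let `z = √(f + ε)`; `|z'| = |f'|/(2z) ≤ √f g/z ≤ g`, so
`|z(t) - z(s)| ≤ ∫ g`; let `ε → 0`. -/
def S_C2 : Prop :=
  ∀ (f f' g : ℝ → ℝ) (s t : ℝ), s ≤ t → (∀ r ∈ Icc s t, 0 ≤ f r) →
    (∀ r ∈ Icc s t, HasDerivWithinAt f (f' r) (Icc s t) r) → ContinuousOn f' (Icc s t) →
    ContinuousOn g (Icc s t) → (∀ r ∈ Icc s t, 0 ≤ g r) →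
    (∀ r ∈ Icc s t, |f' r| ≤ 2 * (√(f r) * g r)) →
    |√(f t) - √(f s)| ≤ ∫ r in s..t, g r

end Pool.Agent.H259.ND
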